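import Pool.Agent.L2U.Lev

set_option linter.unusedSectionVars false

/-!
The cut metrics of bounded range.  Modules `mom` (`mom1`, `mom2`, `mom4`), `tri` (`tri_cut`),
`met` (`mets`).
-/

namespace Pool.Agent.L2U

open Finset Pool.Agent.MP_12e089_an

/-- The three values of a random coefficient. -/
def sg (a : Fin 3) : ℝ := if a = 1 then 1 else if a = 2 then -1 else 0

/-- Their probabilities. -/
noncomputable def pr (β : ℝ) (a : Fin 3) : ℝ := if a = 0 then 1 - β else β / 2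

/-- The expectation over independent coefficients. -/
noncomputable def E3 (β : ℝ) (d : ℕ) (F : (Fin d → Fin 3) → ℝ) : ℝ :=
  ∑ a : Fin d → Fin 3, (∏ j, pr β (a j)) * F a

-- BEGIN mom

private lemma mom_sum3 (f : Fin 3 → ℝ) : ∑ a, f a = f 0 + f 1 + f 2 := by
  rw [Fin.sum_univ_three]

private lemma mom_pr (β : ℝ) : pr β 0 = 1 - β ∧ pr β 1 = β / 2 ∧ pr β 2 = β / 2 := by
  unfold pr; simp

private lemma mom_sg : sg 0 = 0 ∧ sg 1 = 1 ∧ sg 2 = -1 := by
  unfold sg; simp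

private lemma mom_succ (β : ℝ) (d : ℕ) (F : (Fin (d + 1) → Fin 3) → ℝ) :
    E3 β (d + 1) F = (1 - β) * E3 β d (fun a => F (Fin.cons 0 a)) +
      β / 2 * (E3 β d (fun a => F (Fin.cons 1 a)) + E3 β d (fun a => F (Fin.cons 2 a))) := by
  unfold E3
  rw [← (Fin.consEquiv (fun _ : Fin (d + 1) => Fin 3)).sum_comp]
  rw [Fintype.sum_prod_type, mom_sum3]
  obtain ⟨h0, h1, h2⟩ := mom_pr β
  have key : ∀ b : Fin 3, ∑ y : Fin d → Fin 3,
      (∏ j, pr β ((Fin.consEquiv (fun _ : Fin (d + 1) => Fin 3)) (b, y) j)) *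
        F ((Fin.consEquiv (fun _ : Fin (d + 1) => Fin 3)) (b, y)) =
      pr β b * ∑ y : Fin d → Fin 3, (∏ j, pr β (y j)) * F (Fin.cons b y) := by
    intro b
    rw [Finset.mul_sum]
    refine Finset.sum_congr rfl fun y _ => ?_
    have : ∀ j, (Fin.consEquiv (fun _ : Fin (d + 1) => Fin 3)) (b, y) j =
      (Fin.cons b y : Fin (d + 1) → Fin 3) j := fun j => rfl
    have h2 : (Fin.consEquiv (fun _ : Fin (d + 1) => Fin 3)) (b, y) =
      (Fin.cons b y : Fin (d + 1) → Fin 3) := rfl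
    rw [h2, Fin.prod_univ_succ]
    simp only [Fin.cons_zero, Fin.cons_succ]
    ring
  rw [key 0, key 1, key 2, h0, h1, h2]
  ring

private lemma mom_add (β : ℝ) (d : ℕ) (F G : (Fin d → Fin 3) → ℝ) :
    E3 β d (fun a => F a + G a) = E3 β d F + E3 β d G := by
  unfold E3
  rw [← Finset.sum_add_distrib]
  exact Finset.sum_congr rfl fun a _ => by ring

private lemma mom_smul (β : ℝ) (d : ℕ) (c : ℝ) (F : (Fin d → Fin 3) → ℝ) :
    E3 β d (fun a => c * F a) = c * E3 β d F := by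
  unfold E3
  rw [Finset.mul_sum]
  exact Finset.sum_congr rfl fun a _ => by ring

private lemma mom_mono {β : ℝ} (h0 : 0 ≤ β) (h1 : β ≤ 1) (d : ℕ) {F G : (Fin d → Fin 3) → ℝ}
    (h : ∀ a, F a ≤ G a) : E3 β d F ≤ E3 β d G := by
  unfold E3
  refine Finset.sum_le_sum fun a _ => mul_le_mul_of_nonneg_left (h a) ?_
  refine Finset.prod_nonneg fun j _ => ?_
  unfold pr
  split_ifs <;> linarith

private lemma mom_one (β : ℝ) (d : ℕ) : E3 β d (fun _ => 1) = 1 := by
  induction d with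
  | zero => simp [E3]
  | succ d ih => rw [mom_succ, ih]; ring

/-- Module `mom`.  `E 1 = 1` and `E |∑ sg a_j v_j| ≤ β ∑ |v_j|`.  (`E |sg a_j| = β`.) -/
theorem mom1 {β : ℝ} (h0 : 0 ≤ β) (h1 : β ≤ 1) (d : ℕ) (v : Fin d → ℝ) :
    E3 β d (fun _ => 1) = 1 ∧ E3 β d (fun a => |∑ j, sg (a j) * v j|) ≤ β * ∑ j, |v j| := by
  refine ⟨mom_one β d, ?_⟩
  induction d with
  | zero => simp [E3]
  | succ d ih =>
    have ih := ih (fun j => v j.succ)
    obtain ⟨g0, g1, g2⟩ := mom_sg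
    set X : (Fin d → Fin 3) → ℝ := fun a => ∑ j, sg (a j) * v j.succ with hX
    have e0 : (fun a : Fin d → Fin 3 => |∑ j, sg ((Fin.cons 0 a : Fin (d + 1) → Fin 3) j) * v j|) =
        fun a => |X a| := by
      funext a
      rw [Fin.sum_univ_succ]
      simp only [Fin.cons_zero, Fin.cons_succ, g0, zero_mul, zero_add, hX]
    have e1 : (fun a : Fin d → Fin 3 => |∑ j, sg ((Fin.cons 1 a : Fin (d + 1) → Fin 3) j) * v j|) =
        fun a => |v 0 + X a| := by
      funext a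
      rw [Fin.sum_univ_succ]
      simp only [Fin.cons_zero, Fin.cons_succ, g1, one_mul, hX]
    have e2 : (fun a : Fin d → Fin 3 => |∑ j, sg ((Fin.cons 2 a : Fin (d + 1) → Fin 3) j) * v j|) =
        fun a => |-v 0 + X a| := by
      funext a
      rw [Fin.sum_univ_succ]
      simp only [Fin.cons_zero, Fin.cons_succ, g2, neg_mul, one_mul, hX]
    rw [mom_succ, e0, e1, e2]
    have m1 : E3 β d (fun a => |v 0 + X a|) ≤ |v 0| + E3 β d (fun a => |X a|) := by
      have := mom_mono h0 h1 d (F := fun a => |v 0 + X a|) (G := fun a => |v 0| * 1 + |X a|)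
        (fun a => by rw [mul_one]; exact abs_add_le _ _)
      rw [mom_add, mom_smul, mom_one, mul_one] at this
      exact this
    have m2 : E3 β d (fun a => |-v 0 + X a|) ≤ |v 0| + E3 β d (fun a => |X a|) := by
      have := mom_mono h0 h1 d (F := fun a => |-v 0 + X a|) (G := fun a => |v 0| * 1 + |X a|)
        (fun a => by rw [mul_one, ← abs_neg (v 0)]; exact abs_add_le _ _)
      rw [mom_add, mom_smul, mom_one, mul_one] at this
      exact this
    rw [Fin.sum_univ_succ]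
    have ih' : E3 β d (fun a => |X a|) ≤ β * ∑ j : Fin d, |v j.succ| := ih
    nlinarith [mul_le_mul_of_nonneg_left m1 h0, mul_le_mul_of_nonneg_left m2 h0]

/-- Module `mom`.  The second moment.  (Independent centred variables; induction on `d` with
`Fin.consEquiv` / `Fin.sum_univ_succ`, or expand the square.) -/
theorem mom2 {β : ℝ} (h0 : 0 ≤ β) (h1 : β ≤ 1) (d : ℕ) (v : Fin d → ℝ) :
    E3 β d (fun a => (∑ j, sg (a j) * v j) ^ 2) = β * ∑ j, v j ^ 2 := by
  induction d with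
  | zero => simp [E3]
  | succ d ih =>
    have ih := ih (fun j => v j.succ)
    obtain ⟨g0, g1, g2⟩ := mom_sg
    set X : (Fin d → Fin 3) → ℝ := fun a => ∑ j, sg (a j) * v j.succ with hX
    have e0 : (fun a : Fin d → Fin 3 => (∑ j, sg ((Fin.cons 0 a : Fin (d + 1) → Fin 3) j) * v j) ^ 2) =
        fun a => (X a) ^ 2 := by
      funext a
      rw [Fin.sum_univ_succ]
      simp only [Fin.cons_zero, Fin.cons_succ, g0, zero_mul, zero_add, hX]
    have e1 : (fun a : Fin d → Fin 3 => (∑ j, sg ((Fin.cons 1 a : Fin (d + 1) → Fin 3) j) * v j) ^ 2) =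
        fun a => (v 0 + X a) ^ 2 := by
      funext a
      rw [Fin.sum_univ_succ]
      simp only [Fin.cons_zero, Fin.cons_succ, g1, one_mul, hX]
    have e2 : (fun a : Fin d → Fin 3 => (∑ j, sg ((Fin.cons 2 a : Fin (d + 1) → Fin 3) j) * v j) ^ 2) =
        fun a => (-v 0 + X a) ^ 2 := by
      funext a
      rw [Fin.sum_univ_succ]
      simp only [Fin.cons_zero, Fin.cons_succ, g2, neg_mul, one_mul, hX]
    rw [mom_succ, e0, e1, e2, ← mom_add]
    have e3 : (fun a => (v 0 + X a) ^ 2 + (-v 0 + X a) ^ 2) =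
        fun a => (2 * v 0 ^ 2) * 1 + 2 * (X a) ^ 2 := by
      funext a; ring
    rw [e3, mom_add, mom_smul, mom_one, mom_smul, Fin.sum_univ_succ]
    have ih' : E3 β d (fun a => (X a) ^ 2) = β * ∑ j : Fin d, v j.succ ^ 2 := ih
    rw [ih']
    ring

/-- Module `mom`.  The fourth moment.  Induction on `d`: with `X` the sum of the first `d` terms and
`Y = sg a * v` independent of `X`, `E (X + Y)^4 = E X^4 + 6 E X^2 E Y^2 + E Y^4` (odd moments of `Y`
vanish), `E Y^2 = β v^2`, `E Y^4 = β v^4`, `E X^2 = β ∑ v_j^2`. -/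
theorem mom4 {β : ℝ} (h0 : 0 ≤ β) (h1 : β ≤ 1) (d : ℕ) (v : Fin d → ℝ) :
    E3 β d (fun a => (∑ j, sg (a j) * v j) ^ 4) ≤
      β * ∑ j, v j ^ 4 + 3 * β ^ 2 * (∑ j, v j ^ 2) ^ 2 := by
  induction d with
  | zero => simp [E3]
  | succ d ih =>
    have ih := ih (fun j => v j.succ)
    have hm2 := mom2 h0 h1 d (fun j => v j.succ)
    obtain ⟨g0, g1, g2⟩ := mom_sg
    set X : (Fin d → Fin 3) → ℝ := fun a => ∑ j, sg (a j) * v j.succ with hX
    have e0 : (fun a : Fin d → Fin 3 => (∑ j, sg ((Fin.cons 0 a : Fin (d + 1) → Fin 3) j) * v j) ^ 4) =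
        fun a => (X a) ^ 4 := by
      funext a
      rw [Fin.sum_univ_succ]
      simp only [Fin.cons_zero, Fin.cons_succ, g0, zero_mul, zero_add, hX]
    have e1 : (fun a : Fin d → Fin 3 => (∑ j, sg ((Fin.cons 1 a : Fin (d + 1) → Fin 3) j) * v j) ^ 4) =
        fun a => (v 0 + X a) ^ 4 := by
      funext a
      rw [Fin.sum_univ_succ]
      simp only [Fin.cons_zero, Fin.cons_succ, g1, one_mul, hX]
    have e2 : (fun a : Fin d → Fin 3 => (∑ j, sg ((Fin.cons 2 a : Fin (d + 1) → Fin 3) j) * v j) ^ 4) =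
        fun a => (-v 0 + X a) ^ 4 := by
      funext a
      rw [Fin.sum_univ_succ]
      simp only [Fin.cons_zero, Fin.cons_succ, g2, neg_mul, one_mul, hX]
    rw [mom_succ, e0, e1, e2, ← mom_add]
    have e3 : (fun a => (v 0 + X a) ^ 4 + (-v 0 + X a) ^ 4) =
        fun a => (2 * v 0 ^ 4) * 1 + (12 * v 0 ^ 2 * (X a) ^ 2 + 2 * (X a) ^ 4) := by
      funext a; ring
    have e4 : (fun a => (12 * v 0 ^ 2 * (X a) ^ 2 + 2 * (X a) ^ 4)) =
      fun a => ((fun a => 12 * v 0 ^ 2 * (X a) ^ 2) a + (fun a => 2 * (X a) ^ 4) a) := rfl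
    rw [e3, mom_add, mom_smul, mom_one, e4, mom_add, mom_smul, mom_smul, Fin.sum_univ_succ,
      Fin.sum_univ_succ]
    have ih' : E3 β d (fun a => (X a) ^ 4) ≤
      β * ∑ j : Fin d, v j.succ ^ 4 + 3 * β ^ 2 * (∑ j : Fin d, v j.succ ^ 2) ^ 2 := ih
    have hm' : E3 β d (fun a => (X a) ^ 2) = β * ∑ j : Fin d, v j.succ ^ 2 := hm2
    rw [hm']
    set Q := ∑ j : Fin d, v j.succ ^ 2
    set R := ∑ j : Fin d, v j.succ ^ 4
    nlinarith [sq_nonneg (β * v 0 ^ 2)]

/-- The periodic cut of the integers: `(t + u) mod 2W < W`. -/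
def pc (W : ℕ) (u : ℕ) (t : ℤ) : ℝ := if (t + u) % (2 * W) < W then 1 else 0

private def tri_h (W : ℕ) (s : ℤ) : ℝ := if s % (2 * W) < W then 1 else 0

private lemma tri_per {P : ℕ} {g : ℤ → ℝ} (hg : ∀ s, g (s + P) = g s) (t : ℤ) :
    ∑ u ∈ Finset.range P, g (t + u) = ∑ u ∈ Finset.range P, g u := by
  have step : ∀ s : ℤ, ∑ u ∈ Finset.range P, g (s + 1 + u) = ∑ u ∈ Finset.range P, g (s + u) := by
    intro s
    have h1 := Finset.sum_range_succ (fun u : ℕ => g (s + u)) P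
    have h2 := Finset.sum_range_succ' (fun u : ℕ => g (s + u)) P
    have h3 : ∑ u ∈ Finset.range P, g (s + 1 + u) = ∑ u ∈ Finset.range P, g (s + (u + 1 : ℕ)) :=
      Finset.sum_congr rfl fun u _ => by congr 1; push_cast; ring
    have h4 := hg s
    simp only [Nat.cast_zero, add_zero] at h2
    rw [h3]
    linarith
  induction t using Int.induction_on with
  | zero => simp
  | succ i ih => rw [step]; exact ih
  | pred i ih => rw [← step, sub_add_cancel]; exact ih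

private lemma tri_h_per (W : ℕ) (s : ℤ) : tri_h W (s + (2 * W : ℕ)) = tri_h W s := by
  unfold tri_h
  have : (s + ((2 * W : ℕ) : ℤ)) % (2 * W) = s % (2 * W) := by
    push_cast
    exact Int.add_emod_right s (2 * W)
  rw [this]

private lemma tri_sum (W : ℕ) (t : ℤ) (n : ℕ) :
    ∑ u ∈ Finset.range (2 * W), |pc W u t - pc W u (t + n)| =
      ∑ r ∈ Finset.range (2 * W), |tri_h W r - tri_h W (r + n)| := by
  have h := tri_per (P := 2 * W) (g := fun s => |tri_h W s - tri_h W (s + n)|) (by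
    intro s
    have e : s + ((2 * W : ℕ) : ℤ) + n = s + n + ((2 * W : ℕ) : ℤ) := by ring
    simp only [e, tri_h_per]) t
  rw [← h]
  refine Finset.sum_congr rfl fun u _ => ?_
  unfold pc tri_h
  have e : t + n + (u : ℤ) = t + u + n := by ring
  rw [e]

private lemma tri_one {W : ℕ} (hW : 0 < W) :
    ∑ r ∈ Finset.range (2 * W), |tri_h W r - tri_h W (r + 1)| ≤ 2 := by
  have h1 : ∀ r ∈ Finset.range (2 * W), |tri_h W r - tri_h W (r + 1)| ≤
      (if r = W - 1 then 1 else 0) + (if r = 2 * W - 1 then 1 else 0) := by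
    intro r hr
    rw [Finset.mem_range] at hr
    have e1 : ((r : ℤ)) % (2 * W) = r := Int.emod_eq_of_lt (by omega) (by omega)
    by_cases h2 : r = 2 * W - 1
    · have e2 : ((r : ℤ) + 1) % (2 * W) = 0 := by
        have : (r : ℤ) + 1 = 2 * W := by omega
        rw [this]; exact Int.emod_self
      have h3 : r ≠ W - 1 := by omega
      unfold tri_h
      rw [e1, e2, if_neg (by omega), if_pos (by omega), if_neg h3, if_pos h2]
      norm_num
    · have e2 : ((r : ℤ) + 1) % (2 * W) = r + 1 := Int.emod_eq_of_lt (by omega) (by omega)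
      unfold tri_h
      rw [e1, e2, if_neg h2]
      by_cases h3 : r = W - 1
      · rw [if_pos h3, if_pos (by omega), if_neg (by omega)]
        norm_num
      · rw [if_neg h3]
        by_cases h4 : (r : ℤ) < W
        · rw [if_pos h4, if_pos (by omega)]; norm_num
        · rw [if_neg h4, if_neg (by omega)]; norm_num
  refine (Finset.sum_le_sum h1).trans ?_
  rw [Finset.sum_add_distrib, Finset.sum_ite_eq', Finset.sum_ite_eq']
  split_ifs <;> norm_num

private lemma tri_up {W : ℕ} (hW : 0 < W) (n : ℕ) :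
    ∑ r ∈ Finset.range (2 * W), |tri_h W r - tri_h W (r + n)| ≤ 2 * n := by
  induction n with
  | zero => simp
  | succ n ih =>
    have h1 : ∀ r ∈ Finset.range (2 * W), |tri_h W r - tri_h W (r + (n + 1 : ℕ))| ≤
        |tri_h W r - tri_h W (r + n)| + |tri_h W (n + r) - tri_h W (n + r + 1)| := by
      intro r _
      have e : (r : ℤ) + ((n + 1 : ℕ) : ℤ) = n + r + 1 := by push_cast; ring
      rw [e, add_comm (r : ℤ) (n : ℤ)]
      exact abs_sub_le _ _ _
    have h2 := tri_per (P := 2 * W) (g := fun s => |tri_h W s - tri_h W (s + 1)|) (by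
      intro s
      have e : s + ((2 * W : ℕ) : ℤ) + 1 = s + 1 + ((2 * W : ℕ) : ℤ) := by ring
      simp only [e, tri_h_per]) n
    refine (Finset.sum_le_sum h1).trans ?_
    rw [Finset.sum_add_distrib]
    have h3 := tri_one hW
    rw [h2]
    push_cast
    linarith

private lemma tri_low {W : ℕ} (hW : 0 < W) {n : ℕ} (hn : n ≤ W) :
    2 * (n : ℝ) ≤ ∑ r ∈ Finset.range (2 * W), |tri_h W r - tri_h W (r + n)| := by
  have h1 : ∀ r ∈ Finset.range (2 * W),
      (if r ∈ Finset.Ico (W - n) W then (1 : ℝ) else 0) +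
        (if r ∈ Finset.Ico (2 * W - n) (2 * W) then (1 : ℝ) else 0) ≤
      |tri_h W r - tri_h W (r + n)| := by
    intro r hr
    rw [Finset.mem_range] at hr
    have e1 : ((r : ℤ)) % (2 * W) = r := Int.emod_eq_of_lt (by omega) (by omega)
    by_cases h2 : r ∈ Finset.Ico (W - n) W
    · have h3 : r ∉ Finset.Ico (2 * W - n) (2 * W) := by
        rw [Finset.mem_Ico] at h2 ⊢; omega
      rw [if_pos h2, if_neg h3]
      rw [Finset.mem_Ico] at h2
      have e2 : ((r : ℤ) + n) % (2 * W) = r + n := Int.emod_eq_of_lt (by omega) (by omega)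
      unfold tri_h
      rw [e1, e2, if_pos (by omega), if_neg (by omega)]
      norm_num
    · rw [if_neg h2]
      by_cases h3 : r ∈ Finset.Ico (2 * W - n) (2 * W)
      · rw [if_pos h3]
        rw [Finset.mem_Ico] at h3
        have e3 : ((r : ℤ) + n) % (2 * W) = ((r : ℤ) + n - 2 * W) % (2 * W) := by
          rw [← Int.add_emod_right ((r : ℤ) + n - 2 * W)]
          congr 1
          ring
        have e2 : ((r : ℤ) + n) % (2 * W) = r + n - 2 * W := by
          rw [e3]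
          exact Int.emod_eq_of_lt (by omega) (by omega)
        unfold tri_h
        rw [e1, e2, if_neg (by omega), if_pos (by omega)]
        norm_num
      · rw [if_neg h3]
        simp
  refine le_trans ?_ (Finset.sum_le_sum h1)
  rw [Finset.sum_add_distrib, Finset.sum_ite_mem, Finset.sum_ite_mem,
    Finset.inter_eq_right.2 (by
      intro r hr; rw [Finset.mem_Ico] at hr; rw [Finset.mem_range]; omega),
    Finset.inter_eq_right.2 (by
      intro r hr; rw [Finset.mem_Ico] at hr; rw [Finset.mem_range]; omega),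
    Finset.sum_const, Finset.sum_const, Nat.card_Ico, Nat.card_Ico]
  have e1 : W - (W - n) = n := by omega
  have e2 : 2 * W - (2 * W - n) = n := by omega
  rw [e1, e2]
  simp only [nsmul_eq_mul, mul_one]
  linarith

private lemma tri_main {W : ℕ} (hW : 0 < W) (t : ℤ) (n : ℕ) :
    (n : ℝ) - (n : ℝ) ^ 2 / W ≤
      1 / 2 * ∑ u ∈ Finset.range (2 * W), |pc W u t - pc W u (t + n)| ∧
    1 / 2 * ∑ u ∈ Finset.range (2 * W), |pc W u t - pc W u (t + n)| ≤ n := by
  rw [tri_sum]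
  have hW' : (0 : ℝ) < W := by exact_mod_cast hW
  constructor
  · rcases le_total n W with h | h
    · have h1 := tri_low hW h
      have h2 : 0 ≤ (n : ℝ) ^ 2 / W := by positivity
      linarith
    · have h1 : (W : ℝ) ≤ n := by exact_mod_cast h
      have h2 : (n : ℝ) ≤ (n : ℝ) ^ 2 / W := by
        rw [le_div_iff₀ hW']
        nlinarith
      have h3 : 0 ≤ ∑ r ∈ Finset.range (2 * W), |tri_h W r - tri_h W (r + n)| :=
        Finset.sum_nonneg fun _ _ => abs_nonneg _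
      linarith
  · have := tri_up hW n
    linarith

/-- Module `tri`.  The triangle wave is at least `|t - t'| - (t - t')^2 / W` and at most `|t - t'|`.

Proof.  The number of `u < 2W` for which the cut separates `t` and `t'` is `2 * tri`, where `tri` is the
distance from `|t - t'|` to the nearest multiple of `2 W`, so the left side is `tri`.  `tri ≤ |t - t'|`;
`tri = |t - t'|` if `|t - t'| ≤ W`; and the lower bound is nonpositive if `|t - t'| ≥ W`, so for the lower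
bound only the case `|t - t'| ≤ W` is needed: there exactly `2 |t - t'|` of the shifts separate.  For the
upper bound: each of the unit steps from `t` to `t'` is separated by exactly `2` shifts. -/
theorem tri_cut {W : ℕ} (hW : 0 < W) (t t' : ℤ) :
    |(t : ℝ) - t'| - ((t : ℝ) - t') ^ 2 / W ≤
      1 / 2 * ∑ u ∈ Finset.range (2 * W), |pc W u t - pc W u t'| ∧
    1 / 2 * ∑ u ∈ Finset.range (2 * W), |pc W u t - pc W u t'| ≤ |(t : ℝ) - t'| := by
  rcases le_total t t' with h | h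
  · obtain ⟨n, hn⟩ := Int.eq_ofNat_of_zero_le (sub_nonneg.2 h)
    have e : t' = t + n := by linarith
    subst e
    have e2 : |(t : ℝ) - ((t + n : ℤ) : ℝ)| = n := by
      push_cast
      rw [sub_add_cancel_left, abs_neg, abs_of_nonneg (Nat.cast_nonneg n)]
    have e3 : ((t : ℝ) - ((t + n : ℤ) : ℝ)) ^ 2 = (n : ℝ) ^ 2 := by push_cast; ring
    rw [e2, e3]
    exact tri_main hW t n
  · obtain ⟨n, hn⟩ := Int.eq_ofNat_of_zero_le (sub_nonneg.2 h)
    have e : t = t' + n := by linarith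
    subst e
    have e2 : |((t' + n : ℤ) : ℝ) - (t' : ℝ)| = n := by
      push_cast
      rw [add_sub_cancel_left, abs_of_nonneg (Nat.cast_nonneg n)]
    have e3 : (((t' + n : ℤ) : ℝ) - (t' : ℝ)) ^ 2 = (n : ℝ) ^ 2 := by push_cast; ring
    have e4 : ∀ u, |pc W u (t' + n) - pc W u t'| = |pc W u t' - pc W u (t' + n)| := fun u =>
      abs_sub_comm _ _
    simp only [e2, e3, e4]
    exact tri_main hW t' n

/-- Integer coefficients. -/
private def met_sz (a : Fin 3) : ℤ := if a = 1 then 1 else if a = 2 then -1 else 0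

private theorem met_sz_cast (a : Fin 3) : ((met_sz a : ℤ) : ℝ) = sg a := by
  unfold met_sz sg
  split_ifs <;> simp

private theorem met_pr {β : ℝ} (h0 : 0 ≤ β) (h1 : β ≤ 1) (a : Fin 3) : 0 ≤ pr β a := by
  unfold pr
  split_ifs <;> linarith

private theorem met_P {β : ℝ} (h0 : 0 ≤ β) (h1 : β ≤ 1) {d : ℕ} (a : Fin d → Fin 3) :
    0 ≤ ∏ j, pr β (a j) := Finset.prod_nonneg fun _ _ => met_pr h0 h1 _

private theorem met_mono {β : ℝ} (h0 : 0 ≤ β) (h1 : β ≤ 1) {d : ℕ} {F G : (Fin d → Fin 3) → ℝ}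
    (h : ∀ a, F a ≤ G a) : E3 β d F ≤ E3 β d G :=
  Finset.sum_le_sum fun a _ => mul_le_mul_of_nonneg_left (h a) (met_P h0 h1 a)

private theorem met_lin (β : ℝ) {d : ℕ} (F G : (Fin d → Fin 3) → ℝ) (s t : ℝ) :
    E3 β d (fun a => s * F a + t * G a) = s * E3 β d F + t * E3 β d G := by
  unfold E3
  rw [Finset.mul_sum, Finset.mul_sum, ← Finset.sum_add_distrib]
  exact Finset.sum_congr rfl fun a _ => by ring

private theorem met_sub (β : ℝ) {d : ℕ} (F G : (Fin d → Fin 3) → ℝ) :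
    E3 β d (fun a => F a - G a) = E3 β d F - E3 β d G := by
  unfold E3
  rw [← Finset.sum_sub_distrib]
  exact Finset.sum_congr rfl fun a _ => by ring

private theorem met_mul (β : ℝ) {d : ℕ} (F : (Fin d → Fin 3) → ℝ) (s : ℝ) :
    E3 β d (fun a => s * F a) = s * E3 β d F := by
  unfold E3
  rw [Finset.mul_sum]
  exact Finset.sum_congr rfl fun a _ => by ring

/-- The first moment between powers of the norm, abstract form. -/
private theorem met_core {β : ℝ} (h0 : 0 ≤ β) (h1 : β ≤ 1) {d : ℕ} {F : (Fin d → Fin 3) → ℝ}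
    {r : ℝ} (hr : 0 < r) (h2 : E3 β d (fun a => F a ^ 2) = r ^ 2)
    (he : E3 β d (fun _ => 1) = 1) :
    E3 β d (fun a => |F a|) ≤ r ∧
      (E3 β d (fun a => F a ^ 4) ≤ 4 * r ^ 4 → r / 2 ≤ E3 β d (fun a => |F a|)) := by
  constructor
  · have h := met_mono (β := β) h0 h1 (d := d) (F := fun a => |F a|)
      (G := fun a => 1 / (2 * r) * F a ^ 2 + r / 2 * 1) (fun a => by
        have h3 : 0 ≤ (|F a| - r) ^ 2 := sq_nonneg _
        have h4 : |F a| ^ 2 = F a ^ 2 := sq_abs _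
        have h5 : 1 / (2 * r) * F a ^ 2 + r / 2 * 1 - |F a| = (|F a| - r) ^ 2 / (2 * r) := by
          rw [sub_sq, h4]
          field_simp
          ring
        have h6 : 0 ≤ (|F a| - r) ^ 2 / (2 * r) := by positivity
        linarith)
    rw [met_lin, h2, he] at h
    have h7 : 1 / (2 * r) * r ^ 2 + r / 2 * 1 = r := by
      field_simp
      ring
    linarith
  · intro h4
    have h := met_mono (β := β) h0 h1 (d := d)
      (F := fun a => 3 / (4 * r) * F a ^ 2 + (-(1 / (16 * r ^ 3))) * F a ^ 4)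
      (G := fun a => |F a|) (fun a => by
        have h3 : |F a| ^ 2 = F a ^ 2 := sq_abs _
        have h3' : F a ^ 4 = |F a| ^ 4 := by
          rw [show (4 : ℕ) = 2 * 2 by norm_num, pow_mul, pow_mul, h3]
        have hs := abs_nonneg (F a)
        have h5 : |F a| - (3 / (4 * r) * F a ^ 2 + (-(1 / (16 * r ^ 3))) * F a ^ 4) =
            |F a| * ((|F a| - 2 * r) ^ 2 * (|F a| + 4 * r)) / (16 * r ^ 3) := by
          rw [← h3, h3']
          field_simp
          ring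
        have h6 : 0 ≤ |F a| * ((|F a| - 2 * r) ^ 2 * (|F a| + 4 * r)) / (16 * r ^ 3) := by
          positivity
        linarith)
    rw [met_lin, h2] at h
    have h7 : (-(1 / (16 * r ^ 3))) * (4 * r ^ 4) ≤ (-(1 / (16 * r ^ 3))) *
        E3 β d (fun a => F a ^ 4) := by
      apply mul_le_mul_of_nonpos_left h4
      have : 0 < 1 / (16 * r ^ 3) := by positivity
      linarith
    have h8 : 3 / (4 * r) * r ^ 2 + (-(1 / (16 * r ^ 3))) * (4 * r ^ 4) = r / 2 := by
      field_simp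
      ring
    linarith

/-- The grid differences. -/
private theorem met_v {Δ d : ℕ} (x y : Grid Δ d) :
    rho2 x y ^ 2 = ∑ j, (((x j : ℕ) : ℝ) - ((y j : ℕ) : ℝ)) ^ 2 :=
  Real.sq_sqrt (Finset.sum_nonneg fun _ _ => sq_nonneg _)

private theorem met_int (a b : ℕ) : |(a : ℝ) - (b : ℝ)| ≤ ((a : ℝ) - b) ^ 2 := by
  rcases eq_or_ne a b with h | h
  · subst h; simp
  · have h1 : (1 : ℤ) ≤ |(a : ℤ) - b| := Int.one_le_abs (by omega)
    have h2 : (1 : ℝ) ≤ |(a : ℝ) - b| := by exact_mod_cast h1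
    nlinarith [sq_abs ((a : ℝ) - b)]

private theorem met_est {Δ d p k : ℕ} (hΔ : Δ ≤ 2 ^ p) (x y : Grid Δ d)
    (hr : 0 < rho2 x y) {c : ℕ} (hc : c = (k - 1) * p) {β : ℝ} (hβ : β = (1 / 4) ^ c) :
    E3 β d (fun a => ((2 : ℝ) ^ c * ∑ j, sg (a j) * (((x j : ℕ) : ℝ) - ((y j : ℕ) : ℝ))) ^ 2) =
      rho2 x y ^ 2 ∧
    E3 β d (fun a => |(2 : ℝ) ^ c * ∑ j, sg (a j) * (((x j : ℕ) : ℝ) - ((y j : ℕ) : ℝ))|) ≤
      mb p rho2 k x y ∧
    (2 ^ (k * p) ≤ rho2 x y → rho2 x y / 2 ≤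
      E3 β d (fun a => |(2 : ℝ) ^ c * ∑ j, sg (a j) * (((x j : ℕ) : ℝ) - ((y j : ℕ) : ℝ))|)) := by
  set v : Fin d → ℝ := fun j => ((x j : ℕ) : ℝ) - ((y j : ℕ) : ℝ) with hv
  have h0 : 0 ≤ β := by rw [hβ]; positivity
  have h1 : β ≤ 1 := by rw [hβ]; exact pow_le_one₀ (by norm_num) (by norm_num)
  have h4c : (2 : ℝ) ^ c * 2 ^ c * β = 1 := by
    rw [hβ, ← mul_pow, ← mul_pow]
    norm_num
  have hv2 : ∑ j, v j ^ 2 = rho2 x y ^ 2 := (met_v x y).symm
  have e1 := mom1 h0 h1 d v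
  have e2 := mom2 h0 h1 d v
  have e4 := mom4 h0 h1 d v
  have m2 : E3 β d (fun a => ((2 : ℝ) ^ c * ∑ j, sg (a j) * v j) ^ 2) = rho2 x y ^ 2 := by
    have : (fun a : Fin d → Fin 3 => ((2 : ℝ) ^ c * ∑ j, sg (a j) * v j) ^ 2) =
        fun a => ((2 : ℝ) ^ c * 2 ^ c) * (∑ j, sg (a j) * v j) ^ 2 := by
      funext a; ring
    rw [this, met_mul, e2, ← mul_assoc, h4c, one_mul, hv2]
  have hcore := met_core h0 h1 hr m2 e1.1
  refine ⟨m2, le_min hcore.1 ?_, fun hk => hcore.2 ?_⟩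
  · -- the bound by the squares
    have h5 : E3 β d (fun a => |(2 : ℝ) ^ c * ∑ j, sg (a j) * v j|) ≤
        2 ^ c * (β * ∑ j, |v j|) := by
      have : (fun a : Fin d → Fin 3 => |(2 : ℝ) ^ c * ∑ j, sg (a j) * v j|) =
          fun a => (2 : ℝ) ^ c * |∑ j, sg (a j) * v j| := by
        funext a
        rw [abs_mul, abs_of_pos (by positivity : (0 : ℝ) < 2 ^ c)]
      rw [this, met_mul]
      exact mul_le_mul_of_nonneg_left e1.2 (by positivity)
    have h6 : ∑ j, |v j| ≤ rho2 x y ^ 2 := by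
      rw [← hv2]
      exact Finset.sum_le_sum fun j _ => met_int _ _
    have h7 : (2 : ℝ) ^ c * β ≤ 2 ^ p / 2 ^ (k * p) := by
      have h8 : (2 : ℝ) ^ c * β = 1 / 2 ^ c := by
        field_simp
        linarith [h4c]
      rw [h8, div_le_div_iff₀ (by positivity) (by positivity), one_mul, ← pow_add]
      apply pow_le_pow_right₀ (by norm_num)
      rw [hc]
      rcases Nat.eq_zero_or_pos k with h | h
      · subst h; simp
      · obtain ⟨k', rfl⟩ : ∃ k', k = k' + 1 := ⟨k - 1, by omega⟩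
        simp only [Nat.add_sub_cancel]
        nlinarith
    have h9 : (0 : ℝ) ≤ rho2 x y ^ 2 := sq_nonneg _
    calc _ ≤ 2 ^ c * (β * ∑ j, |v j|) := h5
      _ ≤ 2 ^ c * (β * rho2 x y ^ 2) := by
          apply mul_le_mul_of_nonneg_left _ (by positivity)
          exact mul_le_mul_of_nonneg_left h6 h0
      _ = (2 ^ c * β) * rho2 x y ^ 2 := by ring
      _ ≤ 2 ^ p / 2 ^ (k * p) * rho2 x y ^ 2 := mul_le_mul_of_nonneg_right h7 h9
      _ = _ := by ring
  · -- the fourth moment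
    have h5 : E3 β d (fun a => ((2 : ℝ) ^ c * ∑ j, sg (a j) * v j) ^ 4) ≤
        (2 ^ c) ^ 4 * (β * ∑ j, v j ^ 4 + 3 * β ^ 2 * (∑ j, v j ^ 2) ^ 2) := by
      have : (fun a : Fin d → Fin 3 => ((2 : ℝ) ^ c * ∑ j, sg (a j) * v j) ^ 4) =
          fun a => ((2 : ℝ) ^ c) ^ 4 * (∑ j, sg (a j) * v j) ^ 4 := by
        funext a; ring
      rw [this, met_mul]
      exact mul_le_mul_of_nonneg_left e4 (by positivity)
    have h6 : ((2 : ℝ) ^ c) ^ 2 * ∑ j, v j ^ 4 ≤ rho2 x y ^ 4 := by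
      have h7 : ∀ j, ((2 : ℝ) ^ c) ^ 2 * v j ^ 2 ≤ rho2 x y ^ 2 := by
        intro j
        rcases Nat.eq_zero_or_pos k with h | h
        · subst h
          have : c = 0 := by rw [hc]; simp
          rw [this, pow_zero, one_pow, one_mul, ← hv2]
          exact Finset.single_le_sum (f := fun j => v j ^ 2) (fun j _ => sq_nonneg _)
            (Finset.mem_univ j)
        · have h8 : |v j| ≤ 2 ^ p := by
            have h9 : ((x j : ℕ) : ℝ) < 2 ^ p := by
              exact_mod_cast (x j).2.trans_le hΔ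
            have h10 : ((y j : ℕ) : ℝ) < 2 ^ p := by
              exact_mod_cast (y j).2.trans_le hΔ
            have h11 : (0 : ℝ) ≤ ((x j : ℕ) : ℝ) := Nat.cast_nonneg _
            have h12 : (0 : ℝ) ≤ ((y j : ℕ) : ℝ) := Nat.cast_nonneg _
            rw [abs_le]
            simp only [hv]
            constructor <;> linarith
          have h13 : (2 : ℝ) ^ c * |v j| ≤ rho2 x y := by
            refine le_trans ?_ hk
            calc (2 : ℝ) ^ c * |v j| ≤ 2 ^ c * 2 ^ p :=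
                  mul_le_mul_of_nonneg_left h8 (by positivity)
              _ = 2 ^ (k * p) := by
                  rw [← pow_add, hc]
                  congr 1
                  obtain ⟨k', rfl⟩ : ∃ k', k = k' + 1 := ⟨k - 1, by omega⟩
                  simp only [Nat.add_sub_cancel]
                  ring
          have h14 := pow_le_pow_left₀ (by positivity) h13 2
          rw [mul_pow, sq_abs] at h14
          exact h14
      calc ((2 : ℝ) ^ c) ^ 2 * ∑ j, v j ^ 4 = ∑ j, (((2 : ℝ) ^ c) ^ 2 * v j ^ 2) * v j ^ 2 := by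
            rw [Finset.mul_sum]
            exact Finset.sum_congr rfl fun j _ => by ring
        _ ≤ ∑ j, rho2 x y ^ 2 * v j ^ 2 :=
            Finset.sum_le_sum fun j _ => mul_le_mul_of_nonneg_right (h7 j) (sq_nonneg _)
        _ = rho2 x y ^ 4 := by
            rw [← Finset.mul_sum, hv2]
            ring
    refine h5.trans ?_
    rw [hv2]
    have h15 : (2 ^ c) ^ 4 * (β * ∑ j, v j ^ 4 + 3 * β ^ 2 * (rho2 x y ^ 2) ^ 2) =
        ((2 : ℝ) ^ c * 2 ^ c * β) * (((2 : ℝ) ^ c) ^ 2 * ∑ j, v j ^ 4) +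
          3 * ((2 : ℝ) ^ c * 2 ^ c * β) ^ 2 * rho2 x y ^ 4 := by ring
    rw [h15, h4c]
    linarith

private theorem met_cast {Δ d : ℕ} (c : ℕ) (a : Fin d → Fin 3) (x y : Grid Δ d) :
    (((2 ^ c * ∑ j, met_sz (a j) * ((x j : ℕ) : ℤ) : ℤ)) : ℝ) -
      (((2 ^ c * ∑ j, met_sz (a j) * ((y j : ℕ) : ℤ) : ℤ)) : ℝ) =
      (2 : ℝ) ^ c * ∑ j, sg (a j) * (((x j : ℕ) : ℝ) - ((y j : ℕ) : ℝ)) := by
  push_cast
  rw [← mul_sub, ← Finset.sum_sub_distrib]
  congr 1
  refine Finset.sum_congr rfl fun j _ => ?_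
  rw [met_sz_cast]
  ring

/-- Module `met`.  The cut metric of block `k`.

Proof.  `β = 4 ^ (-c)`, `c = (k - 1) p` (natural subtraction, `β = 1` for `k ≤ 1`), `W = 4 * 2 ^ ((k + 1) p)`.
Cuts: `ω = (a, u)`, `a : Fin d → Fin 3`, `u < 2W`, `χ_ω(x) = pc W u (2 ^ c ∑ sg a_j x_j)` (an integer),
weight `(∏ pr β (a_j)) / 2`; renumber the pairs by `Fin N`.  Total mass `W ≤ 8 * 2 ^ ((k + 1) p)`.
With `v = x - y`, `t = 2 ^ c ∑ sg a_j v_j`: by `tri_cut`
`E |t| - E t^2 / W ≤ ρ_k(x, y) ≤ E |t|`.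
Upper bound: `E |t| ≤ (E t^2)^(1/2) = 2 ^ c (β |v|^2)^(1/2) = |v|` (`mom2`, Cauchy-Schwarz), and
`E |t| ≤ 2 ^ c β ∑ |v_j| = 2 ^ (-c) ∑ |v_j| ≤ 2 ^ (-c) |v|^2` (`mom1`, integers); `2 ^ (-c) ≤ 2 ^ p / 2 ^ (k p)`.
Lower bound, `2 ^ (k p) ≤ |v| ≤ 2 ^ (((k + 1) p))`, `v ≠ 0`: `E t^2 = |v|^2`,
`E t^4 ≤ 16 ^ c β ∑ v_j^4 + 3 |v|^4 = 4 ^ c ∑ v_j^4 + 3 |v|^4`.  If `k ≥ 1`: `4 ^ c v_j^2 ≤ 4 ^ c 4 ^ p = 4 ^ (k p) ≤ |v|^2`
(`|v_j| ≤ Δ ≤ 2 ^ p`), so `E t^4 ≤ 4 |v|^4`; if `k = 0`, `∑ v_j^4 ≤ |v|^4`, the same.  From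
`s ≥ 3 / 4 s^2 - 1 / 16 s^4` (`16 - 12 s + s^3 = (s - 2)^2 (s + 4)`) for `s = |t| / |v|`: `E |t| ≥ |v| / 2`.  And
`E t^2 / W = |v|^2 / W ≤ |v| / 4`. -/
theorem mets (Δ d p : ℕ) (hp : 1 ≤ p) (hΔ : Δ ≤ 2 ^ p) (k : ℕ) :
    ∃ (N : ℕ) (χ : Fin N → Grid Δ d → ℝ) (μ : Fin N → ℝ),
      (∀ ω v, χ ω v = 0 ∨ χ ω v = 1) ∧ (∀ ω, 0 ≤ μ ω) ∧
      (∑ ω, μ ω ≤ 8 * 2 ^ ((k + 1) * p)) ∧
      (∀ x y, cm μ χ x y ≤ mb p rho2 k x y) ∧
      ∀ x y, 2 ^ (k * p) ≤ rho2 x y → rho2 x y ≤ 2 ^ ((k + 1) * p) →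
        rho2 x y ≤ 8 * cm μ χ x y := by
  classical
  obtain ⟨c, hc⟩ : ∃ c, c = (k - 1) * p := ⟨_, rfl⟩
  obtain ⟨β, hβ⟩ : ∃ β : ℝ, β = (1 / 4) ^ c := ⟨_, rfl⟩
  obtain ⟨W, hW⟩ : ∃ W : ℕ, W = 4 * 2 ^ ((k + 1) * p) := ⟨_, rfl⟩
  have hW0 : 0 < W := by rw [hW]; positivity
  have hWr : (W : ℝ) = 4 * 2 ^ ((k + 1) * p) := by rw [hW]; push_cast; ring
  have h0 : 0 ≤ β := by rw [hβ]; positivity
  have h1 : β ≤ 1 := by rw [hβ]; exact pow_le_one₀ (by norm_num) (by norm_num)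
  let e : ((Fin d → Fin 3) × Fin (2 * W)) ≃ Fin (Fintype.card ((Fin d → Fin 3) × Fin (2 * W))) :=
    Fintype.equivFin _
  let T : (Fin d → Fin 3) → Grid Δ d → ℤ := fun a x =>
    2 ^ c * ∑ j, met_sz (a j) * ((x j : ℕ) : ℤ)
  let χ : Fin (Fintype.card ((Fin d → Fin 3) × Fin (2 * W))) → Grid Δ d → ℝ := fun ω x =>
    pc W ((e.symm ω).2 : ℕ) (T (e.symm ω).1 x)
  let μ : Fin (Fintype.card ((Fin d → Fin 3) × Fin (2 * W))) → ℝ := fun ω =>
    (∏ j, pr β ((e.symm ω).1 j)) / 2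
  have hcm : ∀ x y, cm μ χ x y = E3 β d (fun a => 1 / 2 *
      ∑ u ∈ Finset.range (2 * W), |pc W u (T a x) - pc W u (T a y)|) := by
    intro x y
    unfold cm E3
    rw [← Equiv.sum_comp e, Fintype.sum_prod_type]
    refine Finset.sum_congr rfl fun a _ => ?_
    beta_reduce
    rw [Finset.mul_sum, Finset.mul_sum, Finset.sum_range]
    refine Finset.sum_congr rfl fun u _ => ?_
    simp only [μ, χ, Equiv.symm_apply_apply]
    ring
  have htri : ∀ (x y : Grid Δ d) (a : Fin d → Fin 3),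
      |(2 : ℝ) ^ c * ∑ j, sg (a j) * (((x j : ℕ) : ℝ) - ((y j : ℕ) : ℝ))| -
        1 / W * ((2 : ℝ) ^ c * ∑ j, sg (a j) * (((x j : ℕ) : ℝ) - ((y j : ℕ) : ℝ))) ^ 2 ≤
      1 / 2 * ∑ u ∈ Finset.range (2 * W), |pc W u (T a x) - pc W u (T a y)| ∧
      1 / 2 * ∑ u ∈ Finset.range (2 * W), |pc W u (T a x) - pc W u (T a y)| ≤
      |(2 : ℝ) ^ c * ∑ j, sg (a j) * (((x j : ℕ) : ℝ) - ((y j : ℕ) : ℝ))| := by
    intro x y a
    have h := tri_cut hW0 (T a x) (T a y)
    rw [met_cast c a x y] at h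
    refine ⟨le_trans (le_of_eq ?_) h.1, h.2⟩
    ring
  refine ⟨_, χ, μ, fun ω v => ?_, fun ω => ?_, ?_, fun x y => ?_, fun x y hk hk' => ?_⟩
  · simp only [χ, pc]
    split_ifs
    · exact Or.inr rfl
    · exact Or.inl rfl
  · exact div_nonneg (met_P h0 h1 _) (by norm_num)
  · have h2 : ∑ ω, μ ω = W * E3 β d (fun _ => 1) := by
      unfold E3
      rw [← Equiv.sum_comp e, Fintype.sum_prod_type, Finset.mul_sum]
      refine Finset.sum_congr rfl fun a _ => ?_
      simp only [μ, Equiv.symm_apply_apply]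
      rw [Finset.sum_const, Finset.card_univ, Fintype.card_fin, nsmul_eq_mul]
      push_cast
      ring
    rw [h2, (mom1 h0 h1 d (fun _ => 0)).1, hWr]
    have : (0 : ℝ) ≤ 2 ^ ((k + 1) * p) := by positivity
    linarith
  · rcases lt_or_ge 0 (rho2 x y) with hr | hr
    · rw [hcm]
      refine le_trans ?_ (met_est hΔ x y hr hc hβ).2.1
      exact met_mono h0 h1 fun a => (htri x y a).2
    · have hxy : x = y := LogS.rho2_eq_zero hr
      subst hxy
      have h3 : rho2 x x = 0 := le_antisymm hr (Real.sqrt_nonneg _)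
      have h4 : cm μ χ x x = 0 := by
        unfold cm
        simp
      rw [h4]
      unfold mb
      rw [h3]
      simp
  · have hr : 0 < rho2 x y := lt_of_lt_of_le (by positivity) hk
    obtain ⟨m2, -, m3⟩ := met_est hΔ x y hr hc hβ
    have h5 := m3 hk
    have h6 := met_mono (β := β) h0 h1 (d := d) fun a => (htri x y a).1
    rw [← hcm, met_sub, met_mul, m2] at h6
    have h7 : 1 / (W : ℝ) * rho2 x y ^ 2 ≤ rho2 x y / 4 := by
      rw [hWr]
      have h8 : (0 : ℝ) < 2 ^ ((k + 1) * p) := by positivity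
      have h9 : 1 / (4 * (2 : ℝ) ^ ((k + 1) * p)) * rho2 x y ^ 2 =
          (rho2 x y * rho2 x y) / (4 * 2 ^ ((k + 1) * p)) := by ring
      rw [h9, div_le_div_iff₀ (by positivity) (by norm_num)]
      nlinarith
    linarith

end Pool.Agent.L2U
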