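import Pool.Agent.L2U.Tot
import Pool.Agent.L2U.Met
import Pool.Agent.MP_12e089_an.Order

set_option linter.unusedSectionVars false

/-!
The embedding of the space of uniform `s`-point measures, and the result for the grid.
Modules `emb` (`embed_of`), `grd` (`grid_facts`, `grid_case`), `fin` (`up_two`).
-/

namespace Pool.Agent.L2U

open Finset Pool.Agent.MP_12e089_an Pool.Agent.MP_12e089_an.LogS

variable {M : Type} [Fintype M] [DecidableEq M]

/-- Module `emb`.  From a feature distance to an embedding.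

Proof.  As the proof of `LogS.embed_logS` (landed), with `d` in the place of `tot`, `K = 1`, and the bound
`hup` in the place of `upper`. The factor of `f` is `r = s / A`. -/
theorem embed_of {s : ℕ} (hs : 0 < s) {ρ : M → M → ℝ} (hρ : ∀ x y, 0 ≤ ρ x y)
    (h0 : ∀ x, ρ x x = 0) {d : (M → ℝ) → (M → ℝ) → ℝ}
    (hd : Rep M s (fun S T => d (fun v => (S v : ℝ)) (fun v => (T v : ℝ)))) {A B : ℝ} (hA : 0 < A)
    (hAB : 1 ≤ A * B)
    (hlow : ∀ S T : M → ℕ, ∑ v, S v = s → ∑ v, T v = s →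
      ∃ π : M → M → ℝ, (∀ v w, 0 ≤ π v w) ∧ (∀ v, ∑ w, π v w = S v) ∧ (∀ w, ∑ v, π v w = T w) ∧
        ∑ v, ∑ w, π v w * ρ v w ≤ A * d (fun v => (S v : ℝ)) (fun v => (T v : ℝ)))
    (hup : ∀ (R : M → ℕ) (x y : M), ∑ v, R v + 1 = s → x ≠ y →
      d (addPt (fun v => (R v : ℝ)) x) (addPt (fun v => (R v : ℝ)) y) ≤ B * ρ x y) :
    EmbedsL1 (fun μ ν : {μ : M → ℝ // ∃ S : Finset M, S.card = s ∧ μ = unif s S} =>
      W1 ρ μ.1 ν.1) (A * B) := by
  have hs1 : (1 : ℝ) ≤ s := by exact_mod_cast hs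
  have hspos : (0 : ℝ) < s := by linarith
  have hB : 0 < B := by
    by_contra h
    have := mul_nonpos_of_nonneg_of_nonpos hA.le (not_lt.1 h)
    linarith
  refine ⟨hAB, ?_⟩
  obtain ⟨I, hI, F, hF0⟩ := hd
  have hF : ∀ S T : M → ℕ, ∑ v, S v ≤ s → ∑ v, T v ≤ s →
      l1 (F S) (F T) = d (fun v => (S v : ℝ)) (fun v => (T v : ℝ)) := hF0
  obtain ⟨E, hE⟩ := exists_toLOne I
  have hch : ∀ μ : {μ : M → ℝ // ∃ S : Finset M, S.card = s ∧ μ = unif s S},
      ∃ (S : Finset M) (e : Fin s → M), μ.1 = unif s S ∧ Function.Injective e ∧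
        ∀ y, y ∈ S ↔ ∃ i, e i = y := by
    rintro ⟨μ, S, hS, hμ⟩
    obtain ⟨e, he, heS⟩ := exists_enum hS
    exact ⟨S, e, hμ, he, heS⟩
  choose S e hμ he heS using hch
  refine ⟨fun μ => E (F (ms (e μ))), s / A, by positivity, fun μ ν => ?_⟩
  rw [hE]
  constructor
  · -- lower bound
    rw [hF _ _ (ms_sum _).le (ms_sum _).le]
    obtain ⟨π, p0, p1, p2, p3⟩ := hlow (ms (e μ)) (ms (e ν)) (ms_sum _) (ms_sum _)
    have hW : W1 ρ μ.1 ν.1 ≤ ∑ x, ∑ y, π x y / s * ρ x y := by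
      apply csInf_le
      · refine ⟨0, ?_⟩
        rintro c ⟨π, h0, -, -, rfl⟩
        exact Finset.sum_nonneg fun x _ => Finset.sum_nonneg fun y _ => mul_nonneg (h0 x y) (hρ x y)
      · refine ⟨fun x y => π x y / s, fun x y => div_nonneg (p0 x y) hspos.le, ?_, ?_, rfl⟩
        · intro x
          rw [← Finset.sum_div, p1 x, hμ μ, ms_enum (he μ) (heS μ)]
          unfold unif
          split_ifs <;> simp
        · intro y
          rw [← Finset.sum_div, p2 y, hμ ν, ms_enum (he ν) (heS ν)]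
          unfold unif
          split_ifs <;> simp
    have hcost : ∑ x, ∑ y, π x y / s * ρ x y = 1 / s * ∑ x, ∑ y, π x y * ρ x y := by
      rw [Finset.mul_sum]
      refine Finset.sum_congr rfl fun x _ => ?_
      rw [Finset.mul_sum]
      refine Finset.sum_congr rfl fun y _ => ?_
      ring
    have h4 : W1 ρ μ.1 ν.1 ≤ 1 / s * (A * d (fun v => (ms (e μ) v : ℝ))
        (fun v => (ms (e ν) v : ℝ))) :=
      (hW.trans hcost.le).trans (mul_le_mul_of_nonneg_left p3 (by positivity))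
    calc s / A * W1 ρ μ.1 ν.1 ≤ s / A * (1 / s * (A * d (fun v => (ms (e μ) v : ℝ))
        (fun v => (ms (e ν) v : ℝ)))) := mul_le_mul_of_nonneg_left h4 (by positivity)
      _ = d (fun v => (ms (e μ) v : ℝ)) (fun v => (ms (e ν) v : ℝ)) := by
          field_simp
  · -- upper bound
    obtain ⟨σ, hσ⟩ := exists_perm_le hs ρ hρ (S := S μ) (T := S ν) (e μ) (e ν) (he μ) (he ν)
      (heS μ) (heS ν)
    rw [← hμ μ, ← hμ ν] at hσ
    set a : ℕ → Fin s → M := fun k i => if (i : ℕ) < k then e ν (σ i) else e μ i with ha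
    have ha0 : a 0 = e μ := by funext i; simp [ha]
    have has : ms (a s) = ms (e ν) := by
      have e1 : a s = fun i => e ν (σ i) := by
        funext i
        simp [ha]
      rw [e1]
      funext v
      unfold ms
      exact Equiv.sum_comp σ (fun i => if e ν i = v then 1 else 0)
    have hstep : ∀ k ∈ Finset.range s, l1 (F (ms (a k))) (F (ms (a (k + 1)))) ≤
        B * (if h : k < s then ρ (e μ ⟨k, h⟩) (e ν (σ ⟨k, h⟩)) else 0) := by
      intro k hk
      have hk' := Finset.mem_range.1 hk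
      rw [dif_pos hk', hF _ _ (ms_sum _).le (ms_sum _).le]
      set kk : Fin s := ⟨k, hk'⟩ with hkk
      have e1 : a k kk = e μ kk := by simp [ha, hkk]
      have e2 : a (k + 1) kk = e ν (σ kk) := by simp [ha, hkk]
      have e3 : rest (a (k + 1)) kk = rest (a k) kk := by
        apply rest_congr
        intro i hi
        have hne : (i : ℕ) ≠ k := fun h => hi (Fin.ext h)
        simp only [ha]
        by_cases h : (i : ℕ) < k
        · rw [if_pos h, if_pos (by omega)]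
        · rw [if_neg h, if_neg (by omega)]
      rw [ms_rest (a k) kk, ms_rest (a (k + 1)) kk, e1, e2, e3]
      by_cases hxy : e μ kk = e ν (σ kk)
      · rw [← hxy]
        have e5 : l1 (F (ms (a k))) (F (ms (a k))) = 0 := by simp [l1]
        have e6 := hF (ms (a k)) (ms (a k)) (ms_sum _).le (ms_sum _).le
        rw [e5, ms_rest (a k) kk, e1] at e6
        rw [← e6, h0, mul_zero]
      · exact hup (rest (a k) kk) _ _ (rest_sum (a k) kk) hxy
    have hpath := l1_path (fun k => F (ms (a k))) s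
    simp only [has, ha0] at hpath
    refine (hpath.trans (Finset.sum_le_sum hstep)).trans ?_
    rw [← Finset.mul_sum]
    have e7 : ∑ k ∈ Finset.range s, (if h : k < s then ρ (e μ ⟨k, h⟩) (e ν (σ ⟨k, h⟩)) else 0) =
        ∑ i : Fin s, ρ (e μ i) (e ν (σ i)) := by
      rw [Finset.sum_range]
      refine Finset.sum_congr rfl fun i _ => ?_
      rw [dif_pos i.2]
    rw [e7]
    have e9 : ∑ i, ρ (e μ i) (e ν (σ i)) ≤ s * W1 ρ μ.1 ν.1 := by
      have := mul_le_mul_of_nonneg_left hσ hspos.le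
      calc ∑ i, ρ (e μ i) (e ν (σ i)) = s * ((1 / s) * ∑ i, ρ (e μ i) (e ν (σ i))) := by
            field_simp
        _ ≤ _ := this
    calc B * ∑ i, ρ (e μ i) (e ν (σ i))
        ≤ B * (s * W1 ρ μ.1 ν.1) := mul_le_mul_of_nonneg_left e9 hB.le
      _ = A * B * (s / A) * W1 ρ μ.1 ν.1 := by field_simp

/-- Module `grd`.  Facts on the `ℓ_2` metric of the grid. -/
theorem grid_facts (Δ d : ℕ) : (∀ x y : Grid Δ d, 0 ≤ rho2 x y) ∧
    (∀ x y : Grid Δ d, rho2 x y = rho2 y x) ∧ (∀ x : Grid Δ d, rho2 x x = 0) ∧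
    (∀ x y : Grid Δ d, x ≠ y → 1 ≤ rho2 x y) ∧
    ∃ m : ℕ, 0 < m ∧ ∀ x y : Grid Δ d, rho2 x y < 2 ^ m := by
  refine ⟨fun x y => Real.sqrt_nonneg _, fun x y => ?_, fun x => ?_, fun x y hxy => ?_, ?_⟩
  · unfold rho2
    congr 1
    exact Finset.sum_congr rfl fun i _ => by ring
  · unfold rho2
    simp
  · unfold rho2
    rw [Real.one_le_sqrt]
    obtain ⟨i, hi⟩ : ∃ i, x i ≠ y i := by
      by_contra h
      push Not at h
      exact hxy (funext h)
    have h1 : (1 : ℝ) ≤ (((x i : ℕ) : ℝ) - ((y i : ℕ) : ℝ)) ^ 2 := by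
      have h2 : ((x i : ℕ) : ℤ) - ((y i : ℕ) : ℤ) ≠ 0 := by
        intro h
        apply hi
        apply Fin.ext
        omega
      have h3 : (1 : ℤ) ≤ (((x i : ℕ) : ℤ) - ((y i : ℕ) : ℤ)) ^ 2 := by
        have := pow_pos (abs_pos.2 h2) 2
        rw [sq_abs] at this
        omega
      exact_mod_cast h3
    exact h1.trans (Finset.single_le_sum (f := fun i => (((x i : ℕ) : ℝ) - ((y i : ℕ) : ℝ)) ^ 2)
      (fun j _ => sq_nonneg _) (Finset.mem_univ i))
  · obtain ⟨m, hm⟩ : ∃ m : ℕ, ∀ x y : Grid Δ d, rho2 x y < 2 ^ m := by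
      obtain ⟨B, hB⟩ : ∃ B : ℝ, ∀ q : Grid Δ d × Grid Δ d, rho2 q.1 q.2 ≤ B := by
        rcases isEmpty_or_nonempty (Grid Δ d × Grid Δ d) with h | h
        · exact ⟨0, fun q => (h.false q).elim⟩
        · obtain ⟨q, hq⟩ := Finite.exists_max (fun q : Grid Δ d × Grid Δ d => rho2 q.1 q.2)
          exact ⟨_, hq⟩
      obtain ⟨m, hm⟩ := pow_unbounded_of_one_lt B (by norm_num : (1 : ℝ) < 2)
      exact ⟨m, fun x y => (hB (x, y)).trans_lt hm⟩
    refine ⟨m + 1, Nat.succ_pos m, fun x y => (hm x y).trans_le ?_⟩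
    exact pow_le_pow_right₀ (by norm_num) (Nat.le_succ m)

/-- Module `grd`.  The case `p ≤ 1 + log s`.

Proof.  `grid_facts`: choose `m`; `n = m`, `K = m` (`m ≤ m * p`); `soft_exists` for `n`; `mets` for every `k` gives
`Γ : Cuts` (`choose`); `embed_of` with `d = tot`, `A = 8`, `B = C √..` (enlarge `C` to have `1 ≤ A * B`), `rep_tot`,
`tot_low`, `tot_up`. -/
theorem grid_case : ∃ C : ℝ, 1 ≤ C ∧ ∀ (Δ d s p : ℕ), 1 ≤ s → 1 ≤ p → Δ ≤ 2 ^ p →
    (p : ℝ) ≤ 1 + Real.log s →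
    EmbedsL1 (fun μ ν : Y Δ d s => W1 rho2 μ.1 ν.1)
      (C * Real.sqrt ((1 + Real.log s) * (1 + p))) := by
  obtain ⟨C, hC, hup⟩ := tot_up
  have hC1 := le_max_right C 1
  refine ⟨8 * max C 1, by linarith, fun Δ d s p hs hp hΔ hps => ?_⟩
  obtain ⟨h0, hsym, hxx, h1, m, hm, hlt⟩ := grid_facts Δ d
  obtain ⟨Θ, hpt, h2, h3⟩ := soft_exists Δ d p m hp hΔ
  choose N χ μ zo nn mass up low using mets Δ d p hp hΔ
  let Γ : Cuts (Grid Δ d) rho2 p := ⟨N, χ, μ, zo, nn, mass, up, low⟩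
  have hlog : 0 ≤ Real.log s := Real.log_nonneg (by exact_mod_cast hs)
  have hp0 : (0 : ℝ) ≤ p := Nat.cast_nonneg p
  have hq : 1 ≤ Real.sqrt ((1 + Real.log s) * (1 + p)) := by
    rw [Real.one_le_sqrt]
    nlinarith
  have hlt' : ∀ x y : Grid Δ d, rho2 x y < 2 ^ (m * p) := fun x y =>
    (hlt x y).trans_le (pow_le_pow_right₀ (by norm_num) (Nat.le_mul_of_pos_right m hp))
  rw [mul_assoc]
  refine embed_of (M := Grid Δ d) hs h0 hxx (rep_tot Θ Γ m s) (by norm_num) ?_ ?_ ?_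
  · nlinarith
  · intro S T hS hT
    have hST : ∑ v, (S v : ℝ) = ∑ v, (T v : ℝ) := by
      have := hS.trans hT.symm
      exact_mod_cast this
    exact tot_low hpt hm Γ hp hxx h1 hlt' (fun v => Nat.cast_nonneg _) (fun v => Nat.cast_nonneg _)
      hST
  · intro R x y hR hxy
    have h := hup (Θ := Θ) Γ hp h0 hsym hxx h1 (fun x y => (hlt x y).le) h2 h3 m hR hps hxy
    refine h.trans ?_
    apply mul_le_mul_of_nonneg_right _ (h0 x y)
    exact mul_le_mul_of_nonneg_right (le_max_left C 1) (Real.sqrt_nonneg _)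

private theorem fin_mono {X : Type} {ρ : X → X → ℝ} (hρ : ∀ x y, 0 ≤ ρ x y) {D D' : ℝ}
    (h : EmbedsL1 ρ D) (hD : D ≤ D') : EmbedsL1 ρ D' := by
  obtain ⟨h1, f, r, hr, hf⟩ := h
  refine ⟨h1.trans hD, f, r, hr, fun x y => ⟨(hf x y).1, (hf x y).2.trans ?_⟩⟩
  exact mul_le_mul_of_nonneg_right (mul_le_mul_of_nonneg_right hD hr.le) (hρ x y)

private theorem fin_W1 {M : Type} [Fintype M] {ρ : M → M → ℝ} (hρ : ∀ x y, 0 ≤ ρ x y)
    (μ ν : M → ℝ) : 0 ≤ W1 ρ μ ν := by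
  apply Real.sInf_nonneg
  rintro c ⟨π, h0, -, -, rfl⟩
  exact Finset.sum_nonneg fun x _ => Finset.sum_nonneg fun y _ => mul_nonneg (h0 x y) (hρ x y)

/-- The numerical part. -/
private theorem fin_num {L a : ℝ} {p : ℕ} (hL : 0 ≤ L) (ha2 : Real.log 2 ≤ a) (hp : 1 ≤ p)
    (hp1 : ((p : ℝ) - 1) * Real.log 2 ≤ a) (hp2 : a ≤ p * Real.log 2) :
    (1 + L < p → 6 + 180 * L ≤ 360 * (1 + min L (Real.sqrt (L * a)))) ∧
    ((p : ℝ) ≤ 1 + L → Real.sqrt ((1 + L) * (1 + p)) ≤ 7 * (1 + min L (Real.sqrt (L * a)))) := by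
  have h2a := Real.log_two_gt_d9
  have h2b := Real.log_two_lt_d9
  have ha : 0.69 ≤ a := by linarith
  have hp0 : (1 : ℝ) ≤ p := by exact_mod_cast hp
  constructor
  · intro h
    have h1 : L ≤ 2 * a := by nlinarith
    have h2 : L / 2 ≤ Real.sqrt (L * a) := by
      apply Real.le_sqrt_of_sq_le
      nlinarith
    have h3 : L / 2 ≤ min L (Real.sqrt (L * a)) := le_min (by linarith) h2
    linarith
  · intro h
    have hmin : 0 ≤ min L (Real.sqrt (L * a)) := le_min hL (Real.sqrt_nonneg _)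
    rcases lt_or_ge L 1 with hL1 | hL1
    · have hp3 : (p : ℝ) < 2 := by linarith
      have hp4 : p < 2 := by exact_mod_cast hp3
      obtain rfl : p = 1 := by omega
      have h4 : Real.sqrt ((1 + L) * (1 + ((1 : ℕ) : ℝ))) ≤ 2 := by
        rw [Real.sqrt_le_left (by norm_num)]
        push_cast
        nlinarith
      linarith
    · have h5 : (1 : ℝ) + p ≤ 5 * a := by nlinarith
      have h6 : (1 + L) * (1 + p) ≤ 10 * (L * a) := by nlinarith [mul_nonneg hL (by linarith : 0 ≤ a)]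
      have h7 : a ≤ 2 * L := by nlinarith
      have h8 : Real.sqrt (L * a) ≤ 2 * L := by
        rw [Real.sqrt_le_left (by linarith)]
        nlinarith
      have h9 : Real.sqrt (L * a) ≤ 2 * min L (Real.sqrt (L * a)) := by
        rcases min_choice L (Real.sqrt (L * a)) with hc | hc
        · rw [hc]; exact h8
        · rw [hc]; linarith [Real.sqrt_nonneg (L * a)]
      have h10 : Real.sqrt ((1 + L) * (1 + p)) ≤ 3.2 * Real.sqrt (L * a) := by
        rw [Real.sqrt_le_left (by positivity), mul_pow, Real.sq_sqrt (by nlinarith)]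
        nlinarith [mul_nonneg hL (by linarith : 0 ≤ a)]
      linarith

/-- Module `fin`.  The upper bound in the `ℓ_2` case.

Proof.  Let `m = min s (Δ ^ d - s)` (`1 ≤ m`), `L = log m ≥ 0`, `a = log Δ ≥ log 2 > 0.69`, `p` the least natural
number with `Δ ≤ 2 ^ p` (so `1 ≤ p` and `2 ^ (p - 1) < Δ`, hence `(p - 1) log 2 < a ≤ p log 2 ≤ p` and
`1 + p ≤ 2 + a / log 2 ≤ 5 a`).  By `Order.to_m` (with `isMet_rho2`) it is enough to bound `EmbedsL1` for `m`; an
embedding with distortion `D` is one with distortion `D' ≥ D`.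
* `p > 1 + L`: `L < p - 1 < a / log 2 ≤ 2 a`, so `L ≤ √(2 L a)` and `L ≤ 2 min L √(L a)`; use `6 + 180 L`
  (`Order.up_log`).
* `p ≤ 1 + L`, `L < 1`: `p < 2`, so `grid_case` gives at most `C √(2 * 2 * 2)`-ish constant.
* `p ≤ 1 + L`, `1 ≤ L`: `1 + L ≤ 2 L`, `1 + p ≤ 5 a`, so `grid_case` gives at most `C √(10 L a)`; and
  `a ≤ p ≤ 1 + L ≤ 2 L`, so `√(L a) ≤ 2 L` and `√(L a) ≤ 2 min L √(L a)`. -/
theorem up_two : ∃ C : ℝ, 1 ≤ C ∧ ∀ (Δ d s : ℕ), 2 ≤ Δ → 1 ≤ d → 1 ≤ s → s < Δ ^ d →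
    EmbedsL1 (fun μ ν : Y Δ d s => W1 rho2 μ.1 ν.1)
      (C * (1 + min (Real.log (min s (Δ ^ d - s) : ℕ))
        (Real.sqrt (Real.log (min s (Δ ^ d - s) : ℕ) * Real.log Δ)))) := by
  obtain ⟨C, hC, h⟩ := grid_case
  refine ⟨360 * C, by linarith, fun Δ d s hΔ hd hs hs' => ?_⟩
  rw [Order.to_m KhN.isMet_rho2 hs hs']
  set m : ℕ := min s (Δ ^ d - s) with hm
  have hm1 : 1 ≤ m := by omega
  set L : ℝ := Real.log m with hLdef
  have hL : 0 ≤ L := Real.log_nonneg (by exact_mod_cast hm1)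
  set p : ℕ := Nat.clog 2 Δ with hpdef
  have hp1 : 1 ≤ p := Nat.clog_pos (by norm_num) hΔ
  have hΔp : Δ ≤ 2 ^ p := Nat.le_pow_clog (by norm_num) Δ
  have hΔ0 : (0 : ℝ) < Δ := by exact_mod_cast (by omega : 0 < Δ)
  have ha2 : Real.log 2 ≤ Real.log Δ := Real.log_le_log (by norm_num) (by exact_mod_cast hΔ)
  have hpa : ((p : ℝ) - 1) * Real.log 2 ≤ Real.log Δ := by
    have h1 : 2 ^ (p - 1) < Δ := Nat.pow_pred_clog_lt_self (by norm_num) (by omega)
    have h2 : ((2 : ℝ) ^ (p - 1)) ≤ Δ := by exact_mod_cast h1.le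
    have h3 := Real.log_le_log (by positivity) h2
    rw [Real.log_pow, Nat.cast_sub hp1, Nat.cast_one] at h3
    exact h3
  have hpb : Real.log Δ ≤ p * Real.log 2 := by
    have h2 : (Δ : ℝ) ≤ 2 ^ p := by exact_mod_cast hΔp
    have h3 := Real.log_le_log hΔ0 h2
    rw [Real.log_pow] at h3
    exact h3
  obtain ⟨n1, n2⟩ := fin_num hL ha2 hp1 hpa hpb
  have hmin : 0 ≤ min L (Real.sqrt (L * Real.log Δ)) := le_min hL (Real.sqrt_nonneg _)
  have hW : ∀ μ ν : Y Δ d m, 0 ≤ W1 rho2 μ.1 ν.1 := fun μ ν =>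
    fin_W1 (fun x y => Real.sqrt_nonneg _) _ _
  rcases lt_or_ge (1 + L) p with hc | hc
  · refine fin_mono hW (Order.up_log hΔ hd hm1).2 ((n1 hc).trans ?_)
    nlinarith
  · refine fin_mono hW (h Δ d m p hm1 hp1 hΔp hc) ?_
    calc C * Real.sqrt ((1 + Real.log m) * (1 + p))
        ≤ C * (7 * (1 + min L (Real.sqrt (L * Real.log Δ)))) :=
          mul_le_mul_of_nonneg_left (n2 hc) (by linarith)
      _ ≤ _ := by nlinarith

end Pool.Agent.L2U
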