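import Mathlib

/-!
Random balls: centre with Lebesgue law, squared radius `h² t` with `t` exponential. The finite
weights of the traces on a finite set of points, and the three properties (T1), (T2), (T3).
-/

set_option autoImplicit false

namespace Pool.Agent.L2U

open MeasureTheory Finset
open scoped ENNReal RealInnerProductSpace

section Ball

variable (E : Type) [NormedAddCommGroup E] [InnerProductSpace ℝ E] [FiniteDimensional ℝ E]
  [MeasurableSpace E] [BorelSpace E]

/-- The measure `e^{-t} dt` on `(0, ∞)`. -/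
noncomputable def em : Measure ℝ :=
  (volume.restrict (Set.Ioi (0 : ℝ))).withDensity (fun t => ENNReal.ofReal (Real.exp (-t)))

/-- The law of the pair (centre, level) at scale `h`. -/
noncomputable def bm (h : ℝ) : Measure (E × ℝ) :=
  ENNReal.ofReal (((Real.sqrt Real.pi * h) ^ (Module.finrank ℝ E))⁻¹) •
    ((volume : Measure E).prod em)

variable {E}

/-- The point `u` is in the ball with parameter `q = (c, t)`. -/
def inB (h : ℝ) (u : E) (q : E × ℝ) : Prop := ‖u - q.1‖ ^ 2 < h ^ 2 * q.2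

private theorem a1_em {s : ℝ} (hs : 0 ≤ s) : em (Set.Ioi s) = ENNReal.ofReal (Real.exp (-s)) := by
  unfold em
  rw [withDensity_apply _ measurableSet_Ioi, Measure.restrict_restrict measurableSet_Ioi]
  have h1 : Set.Ioi s ∩ Set.Ioi (0 : ℝ) = Set.Ioi s := by
    ext t
    simp only [Set.mem_inter_iff, Set.mem_Ioi]
    constructor
    · exact fun h => h.1
    · exact fun h => ⟨h, lt_of_le_of_lt hs h⟩
  rw [h1]
  have h2 : IntegrableOn (fun t : ℝ => Real.exp (-t)) (Set.Ioi s) := by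
    have h := exp_neg_integrableOn_Ioi s (b := 1) one_pos
    simpa using h
  rw [← ofReal_integral_eq_lintegral_ofReal h2 (ae_of_all _ fun t => (Real.exp_pos _).le),
    integral_exp_neg_Ioi]

private theorem a1_sf : SFinite em := by
  unfold em
  infer_instance

omit [InnerProductSpace ℝ E] [FiniteDimensional ℝ E] in
private theorem a1_meas (h : ℝ) (u : E) : MeasurableSet {q : E × ℝ | inB h u q} := by
  unfold inB
  refine (isOpen_lt ?_ ?_).measurableSet
  · fun_prop
  · fun_prop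

private theorem a1_gauss {b : ℝ} (hb : 0 < b) :
    Integrable (fun c : E => Real.exp (-b * ‖c‖ ^ 2)) ∧
      ∫ c : E, Real.exp (-b * ‖c‖ ^ 2) = Real.sqrt (Real.pi / b) ^ (Module.finrank ℝ E) := by
  have h1 : ∫ c : E, Real.exp (-b * ‖c‖ ^ 2) =
      (Real.pi / b) ^ ((Module.finrank ℝ E : ℝ) / 2) :=
    GaussianFourier.integral_rexp_neg_mul_sq_norm hb
  have h2 : 0 < Real.pi / b := div_pos Real.pi_pos hb
  have h3 : (Real.pi / b) ^ ((Module.finrank ℝ E : ℝ) / 2) =
      Real.sqrt (Real.pi / b) ^ (Module.finrank ℝ E) := by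
    rw [Real.sqrt_eq_rpow, ← Real.rpow_natCast, ← Real.rpow_mul h2.le]
    congr 1
    ring
  refine ⟨?_, h1.trans h3⟩
  by_contra hn
  have h4 := integral_undef hn
  rw [h1, h3] at h4
  have h5 : 0 < Real.sqrt (Real.pi / b) ^ (Module.finrank ℝ E) :=
    pow_pos (Real.sqrt_pos.2 h2) _
  exact h5.ne' h4

/-- Module a1 (S/M). (T1): every point is covered with total mass one.
Proof. `em {t | s < t} = exp (-s)` for `s ≥ 0` (`integral_exp_neg_Ioi` or
`lintegral`), so by `Measure.prod_apply` the mass is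
`(√π h)^{-n} ∫ exp (-‖u - c‖² / h²) dc`, and the Gaussian integral is
`GaussianFourier.integral_rexp_neg_mul_sq_norm` (translation invariance of `volume`). -/
theorem bm_one {h : ℝ} (hh : 0 < h) (u : E) : bm E h {q | inB h u q} = 1 := by
  have hh2 : 0 < h ^ 2 := pow_pos hh 2
  have := a1_sf
  unfold bm
  rw [Measure.smul_apply, Measure.prod_apply (a1_meas h u)]
  have h1 : ∀ c : E, em (Prod.mk c ⁻¹' {q : E × ℝ | inB h u q}) =
      ENNReal.ofReal (Real.exp (-(1 / h ^ 2) * ‖u - c‖ ^ 2)) := by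
    intro c
    have h2 : Prod.mk c ⁻¹' {q : E × ℝ | inB h u q} = Set.Ioi (‖u - c‖ ^ 2 / h ^ 2) := by
      ext t
      show ‖u - c‖ ^ 2 < h ^ 2 * t ↔ ‖u - c‖ ^ 2 / h ^ 2 < t
      rw [div_lt_iff₀ hh2, mul_comm t]
    rw [h2, a1_em (by positivity)]
    congr 2
    ring
  rw [lintegral_congr h1]
  obtain ⟨g1, g2⟩ := a1_gauss (E := E) (b := 1 / h ^ 2) (by positivity)
  have g3 : Integrable (fun c : E => Real.exp (-(1 / h ^ 2) * ‖u - c‖ ^ 2)) :=
    g1.comp_sub_left u
  rw [← ofReal_integral_eq_lintegral_ofReal g3 (ae_of_all _ fun t => (Real.exp_pos _).le),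
    integral_sub_left_eq_self (fun c : E => Real.exp (-(1 / h ^ 2) * ‖c‖ ^ 2)) volume u, g2]
  have h5 : Real.sqrt (Real.pi / (1 / h ^ 2)) = Real.sqrt Real.pi * h := by
    rw [show Real.pi / (1 / h ^ 2) = Real.pi * h ^ 2 by field_simp,
      Real.sqrt_mul Real.pi_pos.le, Real.sqrt_sq hh.le]
  rw [h5, smul_eq_mul, ← ENNReal.ofReal_mul (by positivity), inv_mul_cancel₀ (by positivity),
    ENNReal.ofReal_one]

private theorem a2_sf : SFinite em := by
  unfold em
  infer_instance

private theorem a2_em {s : ℝ} (hs : 0 ≤ s) : em {t | s < t} = ENNReal.ofReal (Real.exp (-s)) := by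
  have h0 : {t : ℝ | s < t} = Set.Ioi s := rfl
  rw [h0]
  unfold em
  rw [withDensity_apply _ measurableSet_Ioi, Measure.restrict_restrict measurableSet_Ioi]
  have h1 : (Set.Ioi s ∩ Set.Ioi 0) = Set.Ioi s :=
    Set.inter_eq_left.2 (Set.Ioi_subset_Ioi hs)
  rw [h1, ← ofReal_integral_eq_lintegral_ofReal (integrableOn_exp_neg_Ioi s)
    (Filter.Eventually.of_forall fun t => (Real.exp_pos _).le), integral_exp_neg_Ioi]

private theorem a2_gauss {h : ℝ} (hh : 0 < h) (m : E) :
    ∫⁻ c : E, ENNReal.ofReal (Real.exp (-(‖c - m‖ ^ 2 / h ^ 2))) =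
      ENNReal.ofReal ((Real.sqrt Real.pi * h) ^ (Module.finrank ℝ E)) := by
  have hb : (0 : ℝ) < (h ^ 2)⁻¹ := by positivity
  have h1 : ∫ c : E, Real.exp (-(‖c - m‖ ^ 2 / h ^ 2)) =
      (Real.sqrt Real.pi * h) ^ (Module.finrank ℝ E) := by
    have h2 := integral_sub_right_eq_self (μ := (volume : Measure E))
      (fun c : E => Real.exp (-(‖c‖ ^ 2 / h ^ 2))) m
    rw [h2]
    have h3 := GaussianFourier.integral_rexp_neg_mul_sq_norm (V := E) hb
    have h4 : (fun c : E => Real.exp (-(‖c‖ ^ 2 / h ^ 2))) =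
        fun v : E => Real.exp (-(h ^ 2)⁻¹ * ‖v‖ ^ 2) := by
      funext c
      congr 1
      field_simp
    rw [h4, h3]
    have h5 : Real.pi / (h ^ 2)⁻¹ = (Real.sqrt Real.pi * h) ^ 2 := by
      rw [mul_pow, Real.sq_sqrt Real.pi_pos.le]
      field_simp
    rw [h5]
    have h6 : (0 : ℝ) ≤ Real.sqrt Real.pi * h := by positivity
    rw [← Real.rpow_natCast (Real.sqrt Real.pi * h) 2, ← Real.rpow_mul h6,
      ← Real.rpow_natCast]
    congr 1
    push_cast
    ring
  have hne : ∫ c : E, Real.exp (-(‖c - m‖ ^ 2 / h ^ 2)) ≠ 0 := by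
    rw [h1]
    positivity
  have hint : Integrable (fun c : E => Real.exp (-(‖c - m‖ ^ 2 / h ^ 2))) := by
    by_contra hcon
    exact hne (integral_undef hcon)
  rw [← ofReal_integral_eq_lintegral_ofReal hint
    (Filter.Eventually.of_forall fun t => (Real.exp_pos _).le), h1]

/-- Module a2 (S/M). (T2). Proof as for (T1), with
`max (‖u - c‖²) (‖w - c‖²) ≥ (‖u - c‖² + ‖w - c‖²) / 2 = ‖c - (u + w)/2‖² + ‖u - w‖² / 4`. -/
theorem bm_two {h : ℝ} (hh : 0 < h) (u w : E) :
    bm E h {q | inB h u q ∧ inB h w q} ≤ ENNReal.ofReal (Real.exp (-(‖u - w‖ ^ 2 / (4 * h ^ 2)))) := by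
  have := a2_sf
  have hh2 : (0 : ℝ) < h ^ 2 := by positivity
  set m : E := (2⁻¹ : ℝ) • (u + w) with hm
  set T : Set (E × ℝ) := {q | ‖q.1 - m‖ ^ 2 / h ^ 2 + ‖u - w‖ ^ 2 / (4 * h ^ 2) < q.2} with hT
  have hid : ∀ c : E, ‖u - c‖ ^ 2 + ‖w - c‖ ^ 2 = 2 * ‖c - m‖ ^ 2 + ‖u - w‖ ^ 2 / 2 := by
    intro c
    have h1 := parallelogram_law_with_norm ℝ (u - c) (w - c)
    have h2 : u - c + (w - c) = (-2 : ℝ) • (c - m) := by
      rw [hm]
      module
    have h3 : u - c - (w - c) = u - w := by abel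
    rw [h2, h3, norm_smul] at h1
    have h4 : ‖(-2 : ℝ)‖ = 2 := by norm_num
    rw [h4] at h1
    nlinarith [h1]
  have hsub : {q : E × ℝ | inB h u q ∧ inB h w q} ⊆ T := by
    rintro ⟨c, t⟩ ⟨h1, h2⟩
    simp only [inB] at h1 h2
    change ‖c - m‖ ^ 2 / h ^ 2 + ‖u - w‖ ^ 2 / (4 * h ^ 2) < t
    have h3 := hid c
    have h4 : ‖c - m‖ ^ 2 + ‖u - w‖ ^ 2 / 4 < h ^ 2 * t := by linarith
    have h5 : ‖c - m‖ ^ 2 / h ^ 2 + ‖u - w‖ ^ 2 / (4 * h ^ 2) =
        (‖c - m‖ ^ 2 + ‖u - w‖ ^ 2 / 4) / h ^ 2 := by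
      field_simp
    rw [h5, div_lt_iff₀ hh2]
    linarith
  have hTm : MeasurableSet T := by
    apply measurableSet_lt
    · fun_prop
    · fun_prop
  refine (measure_mono hsub).trans ?_
  unfold bm
  rw [Measure.smul_apply, Measure.prod_apply hTm, smul_eq_mul]
  have h1 : ∀ c : E, em (Prod.mk c ⁻¹' T) =
      ENNReal.ofReal (Real.exp (-(‖u - w‖ ^ 2 / (4 * h ^ 2)))) *
        ENNReal.ofReal (Real.exp (-(‖c - m‖ ^ 2 / h ^ 2))) := by
    intro c
    have h2 : Prod.mk c ⁻¹' T = {t | ‖c - m‖ ^ 2 / h ^ 2 + ‖u - w‖ ^ 2 / (4 * h ^ 2) < t} := rfl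
    rw [h2, a2_em (by positivity), ← ENNReal.ofReal_mul (Real.exp_pos _).le, ← Real.exp_add]
    congr 2
    ring
  simp_rw [h1]
  rw [lintegral_const_mul _ (by fun_prop), a2_gauss hh m, mul_left_comm,
    ← ENNReal.ofReal_mul (by positivity), inv_mul_cancel₀ (by positivity), ENNReal.ofReal_one,
    mul_one]

/-- Module a3 (S/M). One-dimensional substitution `t = g(l) = a l² + b l + c` on `(0, 1]`, `a ≥ 0`.
Proof. Let `s = {l ∈ (0,1] : 2 a l + b > 0}` (measurable). `g` is injective on `s`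
(`g l - g l' = (l - l') (a (l + l') + b)` and `a (l + l') + b > 0` is the mean of the two
derivatives). If `g 0 < t ≤ g 1` there is `l ∈ (0,1]` with `g l = t` (IVT), and
`0 < g l - g 0 = l (a l + b)` gives `2 a l + b > 0`, so `l ∈ s`. Hence
`∫ F ≤ ∫_{g '' s} F = ∫_s |g'| F(g)` (`lintegral_image_eq_lintegral_abs_deriv_mul`). -/
theorem one_dim {a b c : ℝ} (ha : 0 ≤ a) {F : ℝ → ℝ≥0∞} (hF : Measurable F)
    (hs : ∀ t, F t ≠ 0 → c < t ∧ t ≤ a + b + c) :
    ∫⁻ t, F t ≤ ∫⁻ l in Set.Ioc (0 : ℝ) 1, ENNReal.ofReal (2 * a * l + b) * F (a * l ^ 2 + b * l + c) := by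
  set g : ℝ → ℝ := fun l => a * l ^ 2 + b * l + c with hg
  set s : Set ℝ := {l | (0 < l ∧ l ≤ 1) ∧ 0 < 2 * a * l + b} with hsdef
  have hsm : MeasurableSet s := by
    have h1 : MeasurableSet {l : ℝ | 0 < l ∧ l ≤ 1} := measurableSet_Ioc
    have h2 : MeasurableSet {l : ℝ | 0 < 2 * a * l + b} :=
      measurableSet_lt measurable_const (by fun_prop)
    exact h1.inter h2
  have hder : ∀ l ∈ s, HasDerivWithinAt g (2 * a * l + b) s l := by
    intro l _
    have h1 : HasDerivAt g (2 * a * l + b) l := by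
      have h2 := (((hasDerivAt_pow 2 l).const_mul a).add ((hasDerivAt_id l).const_mul b)).add_const c
      refine HasDerivAt.congr_deriv h2 ?_
      simp
      ring
    exact h1.hasDerivWithinAt
  have hinj : Set.InjOn g s := by
    intro l hl l' hl' h
    have h1 : (l - l') * (a * (l + l') + b) = 0 := by
      have : g l - g l' = 0 := by rw [h]; ring
      rw [hg] at this
      linear_combination this
    rcases mul_eq_zero.1 h1 with h2 | h2
    · linarith
    · exfalso
      have h3 := hl.2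
      have h4 := hl'.2
      nlinarith
  have hsub : ∀ t, F t ≠ 0 → t ∈ g '' s := by
    intro t ht
    obtain ⟨h1, h2⟩ := hs t ht
    have hcont : ContinuousOn g (Set.Icc 0 1) := by
      rw [hg]
      fun_prop
    have h3 : t ∈ Set.Ioc (g 0) (g 1) := by
      rw [hg]
      constructor
      · simpa using h1
      · simpa using h2
    obtain ⟨l, hl, hlt⟩ := intermediate_value_Ioc (by norm_num : (0 : ℝ) ≤ 1) hcont h3
    refine ⟨l, ⟨hl, ?_⟩, hlt⟩
    have h4 : 0 < l * (a * l + b) := by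
      have : g l - g 0 = l * (a * l + b) := by
        rw [hg]
        ring
      rw [← this, hlt]
      linarith [h3.1]
    have h5 : 0 < a * l + b := by
      rcases (mul_pos_iff.1 h4) with h | h
      · exact h.2
      · exact absurd h.1 (not_lt.2 hl.1.le)
    have := mul_nonneg ha hl.1.le
    linarith
  calc ∫⁻ t, F t = ∫⁻ t, (g '' s).indicator F t := by
        refine lintegral_congr fun t => ?_
        by_cases ht : F t = 0
        · by_cases h : t ∈ g '' s
          · rw [Set.indicator_of_mem h]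
          · rw [Set.indicator_of_notMem h, ht]
        · rw [Set.indicator_of_mem (hsub t ht)]
    _ ≤ ∫⁻ t in g '' s, F t := lintegral_indicator_le _ _
    _ = ∫⁻ l in s, ENNReal.ofReal |2 * a * l + b| * F (g l) :=
        lintegral_image_eq_lintegral_abs_deriv_mul hsm hder hinj F
    _ = ∫⁻ l in s, ENNReal.ofReal (2 * a * l + b) * F (g l) := by
        refine setLIntegral_congr_fun hsm fun l hl => ?_
        rw [abs_of_pos hl.2]
    _ ≤ ∫⁻ l in Set.Ioc (0 : ℝ) 1, ENNReal.ofReal (2 * a * l + b) * F (g l) :=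
        lintegral_mono_set fun l hl => hl.1

variable {M : Type} [Fintype M] [DecidableEq M]

/-- The parameters for which the trace of the ball on the points `X z` is `A`. -/
def SA (X : M → E) (h : ℝ) (A : Finset M) : Set (E × ℝ) := {q | ∀ z, z ∈ A ↔ inB h (X z) q}

/-- The weight of the trace `A`. -/
noncomputable def bw (X : M → E) (h : ℝ) (A : Finset M) : ℝ := (bm E h (SA X h A)).toReal

open Classical in
/-- The scale free set with label `η` and boundary point `w`. -/
noncomputable def Ks (X : M → E) (w : E) (h : ℝ) (η : E) : Finset M :=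
  Finset.univ.filter (fun z => ‖X z - w‖ ^ 2 < 2 * h * ⟪X z - w, η⟫)

/-- The density of the labels. -/
noncomputable def ld (v η : E) : ℝ≥0∞ :=
  ENNReal.ofReal ((Real.sqrt Real.pi ^ (Module.finrank ℝ E))⁻¹ * Real.exp (-‖η‖ ^ 2) * (2 * ⟪-η, v⟫))

private theorem a4_em (T : Set ℝ) (hT : MeasurableSet T) :
    em T = ∫⁻ t, (T ∩ Set.Ioi 0).indicator (fun t => ENNReal.ofReal (Real.exp (-t))) t := by
  unfold em
  rw [withDensity_apply _ hT, Measure.restrict_restrict hT,
    ← lintegral_indicator (hT.inter measurableSet_Ioi)]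

omit [InnerProductSpace ℝ E] [FiniteDimensional ℝ E] in
private theorem a4_meas_inB (h : ℝ) (u : E) : MeasurableSet {q : E × ℝ | inB h u q} := by
  unfold inB
  exact (isOpen_lt (by fun_prop) (by fun_prop)).measurableSet

omit [InnerProductSpace ℝ E] [FiniteDimensional ℝ E] [Fintype M] [DecidableEq M] in
private theorem a4_meas_SA [Finite M] (X : M → E) (h : ℝ) (A : Finset M) : MeasurableSet (SA X h A) := by
  have h1 : SA X h A = ⋂ z, {q | z ∈ A ↔ inB h (X z) q} := by
    ext q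
    simp [SA]
  rw [h1]
  refine MeasurableSet.iInter fun z => ?_
  by_cases hz : z ∈ A
  · simp only [hz, true_iff]
    exact a4_meas_inB h (X z)
  · simp only [hz, false_iff]
    exact (a4_meas_inB h (X z)).compl

/-- translation and scaling -/
private theorem a4_subst {h : ℝ} (hh : 0 < h) (w : E) {Φ : E → ℝ≥0∞} (hΦ : Measurable Φ) :
    ∫⁻ c, Φ c = ENNReal.ofReal (h ^ Module.finrank ℝ E) * ∫⁻ η, Φ (w + h • η) := by
  have h1 : ∫⁻ c, Φ c = ∫⁻ c, Φ (w + c) := (lintegral_add_left_eq_self Φ w).symm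
  have h2 : ∫⁻ η, Φ (w + h • η) = ∫⁻ c, Φ (w + c) ∂(Measure.map (fun η : E => h • η) volume) := by
    rw [lintegral_map (by fun_prop) (by fun_prop)]
  have h3 := Measure.map_addHaar_smul (volume : Measure E) hh.ne'
  rw [h1, h2]
  have h4 : Measure.map (fun η : E => h • η) (volume : Measure E) =
      ENNReal.ofReal |(h ^ Module.finrank ℝ E)⁻¹| • (volume : Measure E) := h3
  rw [h4, lintegral_smul_measure, smul_eq_mul, ← mul_assoc, ← ENNReal.ofReal_mul (by positivity),
    abs_of_pos (by positivity), mul_inv_cancel₀ (by positivity), ENNReal.ofReal_one, one_mul]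

/-- Module a4 (M/L). The key substitution. For fixed `c` apply `one_dim` to
`F t = 1{t > 0} e^{-t} 1{(c,t) ∈ SA X h A}` and `g(l) = ‖w_l - c‖² / h²`, `w_l = X x + l v`,
`v = X y - X x` (`a = ‖v‖²/h²`, `b = 2 ⟪X x - c, v⟫ / h²`, `c = ‖X x - c‖²/h²`); `x ∈ A`, `y ∉ A` give
the support condition. Then exchange the integrals (`lintegral_lintegral_swap`), and substitute
`c = w_l + h η` in the inner integral (translation and `Measure.addHaar_smul` /
`lintegral_comp_smul`..): `e^{-g(l)} = e^{-‖η‖²}`, `g'(l) = 2 ⟪w_l - c, v⟫ / h² = (2/h) ⟪-η, v⟫`,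
and `X z` is in the ball iff `‖X z - w_l - h η‖² < h² ‖η‖²` iff `‖X z - w_l‖² < 2 h ⟪X z - w_l, η⟫`. -/
theorem swap_le (X : M → E) {h : ℝ} (hh : 0 < h) {x y : M} {A : Finset M} (hx : x ∈ A)
    (hy : y ∉ A) :
    bm E h (SA X h A) ≤ ENNReal.ofReal (1 / h) * ∫⁻ l in Set.Ioc (0 : ℝ) 1, ∫⁻ η : E,
      ld (X y - X x) η *
        (if Ks X (X x + l • (X y - X x)) h η = A then 1 else 0) := by
  classical
  set v : E := X y - X x with hv
  have hSm := a4_meas_SA X h A
  -- the integrand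
  let F : E → ℝ → ℝ≥0∞ := fun c t =>
    ((SA X h A) ∩ {q : E × ℝ | 0 < q.2}).indicator (fun q => ENNReal.ofReal (Real.exp (-q.2))) (c, t)
  have hFm : Measurable (Function.uncurry F) := by
    have h1 : MeasurableSet ((SA X h A) ∩ {q : E × ℝ | 0 < q.2}) :=
      hSm.inter (isOpen_lt (by fun_prop) (by fun_prop)).measurableSet
    have h2 : Measurable (fun q : E × ℝ => ENNReal.ofReal (Real.exp (-q.2))) := by fun_prop
    exact h2.indicator h1
  have hprod : ((volume : Measure E).prod em) (SA X h A) = ∫⁻ c, ∫⁻ t, F c t := by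
    have : SFinite em := by unfold em; infer_instance
    rw [Measure.prod_apply hSm]
    refine lintegral_congr fun c => ?_
    rw [a4_em _ (measurable_prodMk_left hSm)]
    refine lintegral_congr fun t => ?_
    by_cases h1 : (c, t) ∈ SA X h A ∧ 0 < t
    · have e1 : t ∈ Prod.mk c ⁻¹' SA X h A ∩ Set.Ioi 0 := h1
      have e2 : (c, t) ∈ (SA X h A) ∩ {q : E × ℝ | 0 < q.2} := h1
      simp only [F]
      rw [Set.indicator_of_mem e1, Set.indicator_of_mem e2]
    · have e1 : t ∉ Prod.mk c ⁻¹' SA X h A ∩ Set.Ioi 0 := h1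
      have e2 : (c, t) ∉ (SA X h A) ∩ {q : E × ℝ | 0 < q.2} := h1
      simp only [F]
      rw [Set.indicator_of_notMem e1, Set.indicator_of_notMem e2]
  have hh2 : 0 < h ^ 2 := by positivity
  have hw : ∀ (c : E) (l : ℝ), ‖X x + l • v - c‖ ^ 2 =
      ‖v‖ ^ 2 * l ^ 2 + 2 * ⟪X x - c, v⟫ * l + ‖X x - c‖ ^ 2 := by
    intro c l
    have e1 : X x + l • v - c = (X x - c) + l • v := by abel
    rw [e1, norm_add_sq_real, norm_smul, inner_smul_right, Real.norm_eq_abs, mul_pow, sq_abs]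
    ring
  -- the one-dimensional substitution
  have hone : ∀ c : E, ∫⁻ t, F c t ≤ ∫⁻ l in Set.Ioc (0 : ℝ) 1,
      ENNReal.ofReal (2 * ⟪X x + l • v - c, v⟫ / h ^ 2) * F c (‖X x + l • v - c‖ ^ 2 / h ^ 2) := by
    intro c
    have h1 := one_dim (a := ‖v‖ ^ 2 / h ^ 2) (b := 2 * ⟪X x - c, v⟫ / h ^ 2)
      (c := ‖X x - c‖ ^ 2 / h ^ 2) (by positivity) (F := F c)
      (hFm.comp measurable_prodMk_left) (by
        intro t ht
        have h2 : (c, t) ∈ (SA X h A) ∩ {q : E × ℝ | 0 < q.2} := by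
          by_contra h3
          exact ht (Set.indicator_of_notMem h3 _)
        have h3 := (h2.1 x).1 hx
        have h4 : ¬ inB h (X y) (c, t) := fun h5 => hy ((h2.1 y).2 h5)
        unfold inB at h3 h4
        dsimp only at h3 h4
        rw [not_lt] at h4
        constructor
        · rw [div_lt_iff₀ hh2]
          linarith
        · have h6 := hw c 1
          rw [one_smul, hv] at h6
          have h7 : X x + (X y - X x) - c = X y - c := by abel
          rw [h7, ← hv] at h6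
          have h8 : ‖v‖ ^ 2 / h ^ 2 + 2 * ⟪X x - c, v⟫ / h ^ 2 + ‖X x - c‖ ^ 2 / h ^ 2 =
              ‖X y - c‖ ^ 2 / h ^ 2 := by
            rw [h6]
            ring
          rw [h8, le_div_iff₀ hh2]
          linarith)
    refine h1.trans (le_of_eq ?_)
    refine lintegral_congr fun l => ?_
    have e1 : 2 * (‖v‖ ^ 2 / h ^ 2) * l + 2 * ⟪X x - c, v⟫ / h ^ 2 =
        2 * ⟪X x + l • v - c, v⟫ / h ^ 2 := by
      have e2 : X x + l • v - c = (X x - c) + l • v := by abel
      rw [e2, inner_add_left, inner_smul_left, real_inner_self_eq_norm_sq]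
      simp only [conj_trivial]
      ring
    have e3 : ‖v‖ ^ 2 / h ^ 2 * l ^ 2 + 2 * ⟪X x - c, v⟫ / h ^ 2 * l + ‖X x - c‖ ^ 2 / h ^ 2 =
        ‖X x + l • v - c‖ ^ 2 / h ^ 2 := by
      rw [hw]
      ring
    rw [e1, e3]
  -- the scale free form of the integrand
  have hin : ∀ (l : ℝ), ∫⁻ c, ENNReal.ofReal (2 * ⟪X x + l • v - c, v⟫ / h ^ 2) *
        F c (‖X x + l • v - c‖ ^ 2 / h ^ 2) ≤
      ENNReal.ofReal (h ^ Module.finrank ℝ E) * (ENNReal.ofReal (1 / h) * (ENNReal.ofReal
        (Real.sqrt Real.pi ^ Module.finrank ℝ E) * ∫⁻ η : E, ld v η *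
        (if Ks X (X x + l • v) h η = A then 1 else 0))) := by
    intro l
    set w : E := X x + l • v with hwdef
    rw [a4_subst hh w (by
      refine Measurable.mul (by fun_prop) ?_
      exact hFm.comp (measurable_id.prodMk (by fun_prop)))]
    refine mul_le_mul_right ?_ _
    rw [← lintegral_const_mul' _ _ ENNReal.ofReal_ne_top, ← lintegral_const_mul' _ _
      ENNReal.ofReal_ne_top]
    refine lintegral_mono fun η => ?_
    dsimp only
    have e1 : w - (w + h • η) = -(h • η) := by abel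
    have e2 : ‖w - (w + h • η)‖ ^ 2 / h ^ 2 = ‖η‖ ^ 2 := by
      rw [e1, norm_neg, norm_smul, Real.norm_of_nonneg hh.le]
      field_simp
    rw [e2]
    by_cases hmem : (w + h • η, ‖η‖ ^ 2) ∈ (SA X h A) ∩ {q : E × ℝ | 0 < q.2}
    · have hK : Ks X w h η = A := by
        ext z
        rw [hmem.1 z]
        unfold Ks inB
        rw [Finset.mem_filter]
        simp only [Finset.mem_univ, true_and]
        have e3 : X z - (w + h • η) = (X z - w) - h • η := by abel
        rw [e3, norm_sub_sq_real (X z - w) (h • η), norm_smul, inner_smul_right,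
          Real.norm_of_nonneg hh.le, mul_pow]
        constructor
        · intro h1
          linarith
        · intro h1
          linarith
      have hF : F (w + h • η) (‖η‖ ^ 2) = ENNReal.ofReal (Real.exp (-‖η‖ ^ 2)) := by
        simp only [F]
        rw [Set.indicator_of_mem hmem]
      rw [hF, if_pos hK, mul_one]
      unfold ld
      have hp0 : 0 ≤ Real.sqrt Real.pi ^ Module.finrank ℝ E := by positivity
      have hh0 : 0 ≤ 1 / h := by positivity
      rw [← ENNReal.ofReal_mul' (Real.exp_nonneg (-‖η‖ ^ 2)), ← ENNReal.ofReal_mul hp0,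
        ← ENNReal.ofReal_mul hh0]
      refine ENNReal.ofReal_le_ofReal (le_of_eq ?_)
      rw [e1, inner_neg_left, inner_smul_left, inner_neg_left]
      simp only [conj_trivial]
      have hp : Real.sqrt Real.pi ^ Module.finrank ℝ E ≠ 0 := by positivity
      field_simp
    · have hF : F (w + h • η) (‖η‖ ^ 2) = 0 := by
        simp only [F]
        rw [Set.indicator_of_notMem hmem]
      rw [hF, mul_zero]
      exact bot_le
  -- exchange
  have hswap : ∫⁻ c, ∫⁻ l in Set.Ioc (0 : ℝ) 1,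
      ENNReal.ofReal (2 * ⟪X x + l • v - c, v⟫ / h ^ 2) * F c (‖X x + l • v - c‖ ^ 2 / h ^ 2) =
      ∫⁻ l in Set.Ioc (0 : ℝ) 1, ∫⁻ c,
      ENNReal.ofReal (2 * ⟪X x + l • v - c, v⟫ / h ^ 2) * F c (‖X x + l • v - c‖ ^ 2 / h ^ 2) := by
    have hm : Measurable (Function.uncurry fun (c : E) (l : ℝ) =>
        ENNReal.ofReal (2 * ⟪X x + l • v - c, v⟫ / h ^ 2) *
          F c (‖X x + l • v - c‖ ^ 2 / h ^ 2)) := by
      have h1 : Measurable (fun q : E × ℝ =>
          ENNReal.ofReal (2 * ⟪X x + q.2 • v - q.1, v⟫ / h ^ 2)) := by fun_prop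
      have h2 : Measurable (fun q : E × ℝ => ‖X x + q.2 • v - q.1‖ ^ 2 / h ^ 2) := by fun_prop
      have h3 : Measurable (fun q : E × ℝ => F q.1 (‖X x + q.2 • v - q.1‖ ^ 2 / h ^ 2)) :=
        hFm.comp (measurable_fst.prodMk h2)
      exact h1.mul h3
    exact lintegral_lintegral_swap hm.aemeasurable
  unfold bm
  rw [Measure.smul_apply, smul_eq_mul, hprod]
  calc ENNReal.ofReal (((Real.sqrt Real.pi * h) ^ Module.finrank ℝ E)⁻¹) * ∫⁻ c, ∫⁻ t, F c t
      ≤ ENNReal.ofReal (((Real.sqrt Real.pi * h) ^ Module.finrank ℝ E)⁻¹) *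
        ∫⁻ l in Set.Ioc (0 : ℝ) 1, ENNReal.ofReal (h ^ Module.finrank ℝ E) *
        (ENNReal.ofReal (1 / h) * (ENNReal.ofReal
        (Real.sqrt Real.pi ^ Module.finrank ℝ E) * ∫⁻ η : E, ld v η *
        (if Ks X (X x + l • v) h η = A then 1 else 0))) := by
        refine mul_le_mul_right ?_ _
        refine (lintegral_mono fun c => hone c).trans ?_
        rw [hswap]
        exact lintegral_mono fun l => hin l
    _ = ENNReal.ofReal (1 / h) * ∫⁻ l in Set.Ioc (0 : ℝ) 1, ∫⁻ η : E, ld v η *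
        (if Ks X (X x + l • v) h η = A then 1 else 0) := by
        rw [lintegral_const_mul' _ _ ENNReal.ofReal_ne_top, lintegral_const_mul' _ _
          ENNReal.ofReal_ne_top, lintegral_const_mul' _ _ ENNReal.ofReal_ne_top, ← mul_assoc,
          ← mul_assoc, ← mul_assoc, ← ENNReal.ofReal_mul (by positivity),
          ← ENNReal.ofReal_mul (by positivity), ← ENNReal.ofReal_mul (by positivity)]
        congr 2
        rw [mul_pow]
        have hp : Real.sqrt Real.pi ^ Module.finrank ℝ E ≠ 0 := by positivity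
        field_simp

/-- Module a5 (S). The mass of the labels. Proof. `r⁺ ≤ e^r`; for `v ≠ 0` apply it to
`r = ⟪-η, v⟫/‖v‖` and use `∫ exp(-‖η‖² + ⟪w, η⟫) dη = √π^n exp(‖w‖²/4)`
(`GaussianFourier.integral_cexp_neg_mul_sq_norm_add`), `2 e^{1/4} ≤ 3`. -/
theorem ld_mass (v : E) : ∫⁻ η : E, ld v η ≤ ENNReal.ofReal (3 * ‖v‖) := by
  rcases eq_or_ne v 0 with hv | hv
  · subst hv
    have h1 : ∀ η : E, ld (0 : E) η = 0 := by
      intro η
      unfold ld
      rw [inner_zero_right, mul_zero, mul_zero, ENNReal.ofReal_zero]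
    rw [lintegral_congr h1, lintegral_zero]
    exact zero_le
  have hv0 : 0 < ‖v‖ := norm_pos_iff.2 hv
  set n := Module.finrank ℝ E with hn
  set k : ℝ := (Real.sqrt Real.pi ^ n)⁻¹ with hk
  have hk0 : 0 < k := inv_pos.2 (pow_pos (Real.sqrt_pos.2 Real.pi_pos) _)
  set w : E := -((1 / ‖v‖) • v) with hw
  have hwn : ‖w‖ = 1 := by
    rw [hw, norm_neg, norm_smul, Real.norm_eq_abs, abs_of_pos (by positivity)]
    field_simp
  obtain ⟨g1, g2⟩ := a1_gauss (E := E) (b := 1) one_pos
  have hb : ∀ η : E, ld v η ≤ ENNReal.ofReal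
      ((2 * ‖v‖ * k * Real.exp (1 / 4)) * Real.exp (-1 * ‖η - (1 / 2 : ℝ) • w‖ ^ 2)) := by
    intro η
    unfold ld
    rw [← hn, ← hk]
    refine ENNReal.ofReal_le_ofReal ?_
    have h1 : ⟪-η, v⟫ = ‖v‖ * ⟪w, η⟫ := by
      rw [hw, inner_neg_left, inner_neg_left, real_inner_smul_left, real_inner_comm η v]
      field_simp
    have h2 : ⟪w, η⟫ ≤ Real.exp ⟪w, η⟫ := by
      have := Real.add_one_le_exp ⟪w, η⟫
      linarith
    have h3 : -1 * ‖η - (1 / 2 : ℝ) • w‖ ^ 2 = -‖η‖ ^ 2 + ⟪w, η⟫ - 1 / 4 := by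
      rw [norm_sub_sq_real, norm_smul, hwn, real_inner_smul_right, real_inner_comm w η,
        Real.norm_eq_abs, abs_of_pos (by norm_num : (0:ℝ) < 1 / 2)]
      ring
    have h4 : Real.exp (1 / 4) * Real.exp (-1 * ‖η - (1 / 2 : ℝ) • w‖ ^ 2) =
        Real.exp (-‖η‖ ^ 2) * Real.exp ⟪w, η⟫ := by
      rw [h3, ← Real.exp_add, ← Real.exp_add]
      congr 1
      ring
    have h5 : 0 < Real.exp (-‖η‖ ^ 2) := Real.exp_pos _
    calc k * Real.exp (-‖η‖ ^ 2) * (2 * ⟪-η, v⟫)
        = (2 * ‖v‖ * k * Real.exp (-‖η‖ ^ 2)) * ⟪w, η⟫ := by rw [h1]; ring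
      _ ≤ (2 * ‖v‖ * k * Real.exp (-‖η‖ ^ 2)) * Real.exp ⟪w, η⟫ :=
          mul_le_mul_of_nonneg_left h2 (by positivity)
      _ = (2 * ‖v‖ * k) * (Real.exp (1 / 4) * Real.exp (-1 * ‖η - (1 / 2 : ℝ) • w‖ ^ 2)) := by
          rw [h4]; ring
      _ = _ := by ring
  refine (lintegral_mono hb).trans ?_
  have g3 : Integrable (fun η : E => (2 * ‖v‖ * k * Real.exp (1 / 4)) *
      Real.exp (-1 * ‖η - (1 / 2 : ℝ) • w‖ ^ 2)) :=
    (g1.comp_sub_right ((1 / 2 : ℝ) • w)).const_mul _
  rw [← ofReal_integral_eq_lintegral_ofReal g3 (ae_of_all _ fun t => by positivity),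
    integral_const_mul,
    integral_sub_right_eq_self (fun c : E => Real.exp (-1 * ‖c‖ ^ 2)) ((1 / 2 : ℝ) • w), g2,
    div_one]
  refine ENNReal.ofReal_le_ofReal ?_
  have h6 : k * Real.sqrt Real.pi ^ n = 1 := by
    rw [hk]
    exact inv_mul_cancel₀ (pow_pos (Real.sqrt_pos.2 Real.pi_pos) _).ne'
  have h7 : Real.exp (1 / 4) ≤ 3 / 2 := by
    have h8 : Real.exp (1 / 4) ^ 4 = Real.exp 1 := by
      rw [← Real.exp_nat_mul]
      norm_num
    have h9 := Real.exp_one_lt_d9
    by_contra hc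
    push Not at hc
    have h10 : (3 / 2 : ℝ) ^ 4 < Real.exp (1 / 4) ^ 4 :=
      pow_lt_pow_left₀ hc (by norm_num) (by norm_num)
    rw [h8] at h10
    norm_num at h10 h9
    linarith
  calc 2 * ‖v‖ * k * Real.exp (1 / 4) * Real.sqrt Real.pi ^ n
      = 2 * ‖v‖ * Real.exp (1 / 4) * (k * Real.sqrt Real.pi ^ n) := by ring
    _ = 2 * ‖v‖ * Real.exp (1 / 4) := by rw [h6, mul_one]
    _ ≤ 2 * ‖v‖ * (3 / 2) := mul_le_mul_of_nonneg_left h7 (by positivity)
    _ = 3 * ‖v‖ := by ring

private theorem a6_meas_Ks (X : M → E) (w0 v : E) (h : ℝ) (B : Finset M) :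
    MeasurableSet {q : ℝ × E | Ks X (w0 + q.1 • v) h q.2 = B} := by
  have e : {q : ℝ × E | Ks X (w0 + q.1 • v) h q.2 = B} =
      ⋂ z : M, {q : ℝ × E | z ∈ B ↔
        ‖X z - (w0 + q.1 • v)‖ ^ 2 < 2 * h * ⟪X z - (w0 + q.1 • v), q.2⟫} := by
    ext q
    simp only [Set.mem_setOf_eq, Set.mem_iInter]
    constructor
    · intro hq z
      rw [← hq]
      simp [Ks]
    · intro hq
      ext z
      rw [hq z]
      simp [Ks]
  rw [e]
  refine MeasurableSet.iInter fun z => ?_
  have hm : MeasurableSet {q : ℝ × E |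
      ‖X z - (w0 + q.1 • v)‖ ^ 2 < 2 * h * ⟪X z - (w0 + q.1 • v), q.2⟫} := by
    refine measurableSet_lt (Continuous.measurable ?_) (Continuous.measurable ?_)
    · fun_prop
    · fun_prop
  by_cases hz : z ∈ B
  · simpa only [hz, true_iff] using hm
  · have hm2 := hm.compl
    simpa only [hz, false_iff, Set.compl_setOf] using hm2

private theorem a6_meas_ld (v : E) : Measurable (ld v) := by
  unfold ld
  refine ENNReal.measurable_ofReal.comp (Continuous.measurable ?_)
  fun_prop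

private noncomputable def a6_kf (X : M → E) (x y : M) {n : ℕ} (h : Fin n → ℝ) (q : ℝ × E) :
    Fin n → Finset M := fun j => Ks X (X x + q.1 • (X y - X x)) (h j) q.2

private theorem a6_meas_kf (X : M → E) (x y : M) {n : ℕ} (h : Fin n → ℝ)
    (K : Fin n → Finset M) : MeasurableSet {q : ℝ × E | a6_kf X x y h q = K} := by
  have e : {q : ℝ × E | a6_kf X x y h q = K} =
      ⋂ j : Fin n, {q : ℝ × E | Ks X (X x + q.1 • (X y - X x)) (h j) q.2 = K j} := by
    ext q
    simp only [Set.mem_setOf_eq, Set.mem_iInter, funext_iff, a6_kf]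
  rw [e]
  exact MeasurableSet.iInter fun j => a6_meas_Ks X (X x) (X y - X x) (h j) (K j)

private noncomputable def a6_q (X : M → E) (x y : M) {n : ℕ} (h : Fin n → ℝ)
    (K : Fin n → Finset M) : ℝ≥0∞ :=
  ∫⁻ l in Set.Ioc (0 : ℝ) 1, ∫⁻ η : E,
    ld (X y - X x) η * (if a6_kf X x y h (l, η) = K then 1 else 0)

private theorem a6_joint (X : M → E) (x y : M) {n : ℕ} (h : Fin n → ℝ)
    (K : Fin n → Finset M) :
    Measurable fun q : ℝ × E =>
      ld (X y - X x) q.2 * (if a6_kf X x y h q = K then (1 : ℝ≥0∞) else 0) := by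
  refine ((a6_meas_ld _).comp measurable_snd).mul ?_
  exact Measurable.ite (a6_meas_kf X x y h K) measurable_const measurable_const

private theorem a6_sum (X : M → E) (x y : M) {n : ℕ} (h : Fin n → ℝ)
    (T : Finset (Fin n → Finset M)) :
    ∑ K ∈ T, a6_q X x y h K = ∫⁻ l in Set.Ioc (0 : ℝ) 1, ∫⁻ η : E,
      ld (X y - X x) η * (if a6_kf X x y h (l, η) ∈ T then 1 else 0) := by
  unfold a6_q
  rw [← lintegral_finset_sum]
  · refine lintegral_congr fun l => ?_
    rw [← lintegral_finset_sum]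
    · refine lintegral_congr fun η => ?_
      rw [← Finset.mul_sum, Finset.sum_ite_eq]
    · intro K _
      have hm : Measurable (fun η : E => ((l, η) : ℝ × E)) := measurable_prodMk_left
      have hc := (a6_joint X x y h K).comp hm
      exact hc
  · intro K _
    exact (a6_joint X x y h K).lintegral_prod_right'

/-- Module a6 (M). (T3) for balls. Proof. `Q K` = the mass (`toReal` of the double integral) of the
labels `(l, η)` with `Ks X w_l (h j) η = K j` for all `j`. If it is not zero such a label exists and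
`K` is antitone because `‖u‖² < 2 h ⟪u, η⟫` is monotone in `h > 0`. The sum over `K` is at most the
total mass (`ld_mass`), and the sum over `K` with `K j = A` is the integral in `swap_le`
(finite sums of indicator functions; all events are measurable). -/
theorem t3_ball (X : M → E) (x y : M) {n : ℕ} (h : Fin n → ℝ) (hpos : ∀ j, 0 < h j)
    (hanti : Antitone h) :
    ∃ Q : (Fin n → Finset M) → ℝ, (∀ K, 0 ≤ Q K) ∧ (∀ K, Q K ≠ 0 → Antitone K) ∧
      (∑ K, Q K ≤ 3 * ‖X y - X x‖) ∧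
      ∀ j A, x ∈ A → y ∉ A →
        bw X (h j) A ≤ 1 / h j * ∑ K ∈ Finset.univ.filter (fun K => K j = A), Q K := by
  have htot : ∑ K, a6_q X x y h K ≤ ENNReal.ofReal (3 * ‖X y - X x‖) := by
    rw [a6_sum]
    simp only [Finset.mem_univ, if_true, mul_one]
    refine le_trans (le_of_eq ?_) (ld_mass (X y - X x))
    rw [setLIntegral_const, Real.volume_Ioc]
    simp
  have hfin : ∀ K, a6_q X x y h K ≠ ⊤ := by
    intro K
    refine ne_top_of_le_ne_top ENNReal.ofReal_ne_top (le_trans ?_ htot)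
    exact Finset.single_le_sum (f := fun K => a6_q X x y h K) (fun _ _ => zero_le)
      (Finset.mem_univ K)
  refine ⟨fun K => (a6_q X x y h K).toReal, fun K => ENNReal.toReal_nonneg, ?_, ?_, ?_⟩
  · intro K hK
    have hK0 : a6_q X x y h K ≠ 0 := by
      intro h0
      apply hK
      simp [h0]
    have hex : ∃ q : ℝ × E, a6_kf X x y h q = K := by
      by_contra hno
      apply hK0
      unfold a6_q
      have : ∀ (l : ℝ) (η : E), ¬ a6_kf X x y h (l, η) = K := fun l η hq => hno ⟨(l, η), hq⟩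
      simp [this]
    obtain ⟨q, rfl⟩ := hex
    intro i j hij z hz
    have hle : h j ≤ h i := hanti hij
    simp only [a6_kf, Ks, Finset.mem_filter, Finset.mem_univ, true_and] at hz ⊢
    have hin : 0 < ⟪X z - (X x + q.1 • (X y - X x)), q.2⟫ := by
      have h1 : 0 < 2 * h j * ⟪X z - (X x + q.1 • (X y - X x)), q.2⟫ :=
        lt_of_le_of_lt (sq_nonneg _) hz
      have h2 : 0 < 2 * h j := by
        have := hpos j
        linarith
      exact (mul_pos_iff_of_pos_left h2).1 h1
    refine lt_of_lt_of_le hz ?_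
    exact mul_le_mul_of_nonneg_right (by linarith) hin.le
  · have h1 : ∑ K, (a6_q X x y h K).toReal = (∑ K, a6_q X x y h K).toReal :=
      (ENNReal.toReal_sum fun K _ => hfin K).symm
    rw [h1]
    calc (∑ K, a6_q X x y h K).toReal ≤ (ENNReal.ofReal (3 * ‖X y - X x‖)).toReal :=
          ENNReal.toReal_mono ENNReal.ofReal_ne_top htot
      _ = 3 * ‖X y - X x‖ := ENNReal.toReal_ofReal (by positivity)
  · intro j A hx hy
    have hsw := swap_le X (hpos j) hx hy
    have hS : ∫⁻ l in Set.Ioc (0 : ℝ) 1, ∫⁻ η : E, ld (X y - X x) η *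
        (if Ks X (X x + l • (X y - X x)) (h j) η = A then 1 else 0) =
        ∑ K ∈ Finset.univ.filter (fun K : Fin n → Finset M => K j = A), a6_q X x y h K := by
      rw [a6_sum]
      refine lintegral_congr fun l => lintegral_congr fun η => ?_
      congr 1
      simp [a6_kf]
    rw [hS] at hsw
    have hh : (0 : ℝ) ≤ 1 / h j := by
      have := hpos j
      positivity
    have hfs : ∑ K ∈ Finset.univ.filter (fun K : Fin n → Finset M => K j = A),
        a6_q X x y h K ≠ ⊤ := by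
      refine (ENNReal.sum_ne_top).2 fun K _ => hfin K
    calc bw X (h j) A ≤ (ENNReal.ofReal (1 / h j) *
          ∑ K ∈ Finset.univ.filter (fun K : Fin n → Finset M => K j = A),
            a6_q X x y h K).toReal :=
          ENNReal.toReal_mono (ENNReal.mul_ne_top ENNReal.ofReal_ne_top hfs) hsw
      _ = 1 / h j * ∑ K ∈ Finset.univ.filter (fun K : Fin n → Finset M => K j = A),
            (a6_q X x y h K).toReal := by
          rw [ENNReal.toReal_mul, ENNReal.toReal_ofReal hh, ENNReal.toReal_sum fun K _ => hfin K]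

omit [FiniteDimensional ℝ E] [DecidableEq M] in
private theorem a7_meas (X : M → E) (h : ℝ) (A : Finset M) : MeasurableSet (SA X h A) := by
  have h1 : SA X h A = ⋂ z : M, {q : E × ℝ | z ∈ A ↔ inB h (X z) q} := by
    ext q
    rw [Set.mem_iInter]
    exact Iff.rfl
  rw [h1]
  refine MeasurableSet.iInter fun z => ?_
  by_cases hz : z ∈ A
  · have h2 : {q : E × ℝ | z ∈ A ↔ inB h (X z) q} = {q : E × ℝ | inB h (X z) q} := by
      ext q
      show (z ∈ A ↔ inB h (X z) q) ↔ inB h (X z) q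
      simp only [hz, true_iff]
    rw [h2]
    exact a1_meas h (X z)
  · have h2 : {q : E × ℝ | z ∈ A ↔ inB h (X z) q} = {q : E × ℝ | inB h (X z) q}ᶜ := by
      ext q
      show (z ∈ A ↔ inB h (X z) q) ↔ ¬ inB h (X z) q
      simp only [hz, false_iff]
    rw [h2]
    exact (a1_meas h (X z)).compl

open Classical in
/-- The trace of the ball. -/
private noncomputable def a7_tr (X : M → E) (h : ℝ) (q : E × ℝ) : Finset M :=
  Finset.univ.filter (fun z => inB h (X z) q)

omit [InnerProductSpace ℝ E] [FiniteDimensional ℝ E] [MeasurableSpace E] [BorelSpace E]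
  [DecidableEq M] in
private theorem a7_mem_tr {X : M → E} {h : ℝ} {q : E × ℝ} {z : M} :
    z ∈ a7_tr X h q ↔ inB h (X z) q := by
  classical
  unfold a7_tr
  rw [Finset.mem_filter]
  exact ⟨fun g => g.2, fun g => ⟨Finset.mem_univ _, g⟩⟩

omit [InnerProductSpace ℝ E] [FiniteDimensional ℝ E] [MeasurableSpace E] [BorelSpace E] in
private theorem a7_mem {X : M → E} {h : ℝ} {p : Finset M → Prop} [DecidablePred p]
    {q : E × ℝ} : q ∈ (⋃ A ∈ Finset.univ.filter p, SA X h A) ↔ p (a7_tr X h q) := by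
  have key : ∀ A : Finset M, q ∈ SA X h A ↔ A = a7_tr X h q := by
    intro A
    constructor
    · intro g
      ext z
      rw [a7_mem_tr]
      exact g z
    · intro g z
      rw [g, a7_mem_tr]
  simp only [Set.mem_iUnion, Finset.mem_filter, Finset.mem_univ, true_and, exists_prop]
  constructor
  · rintro ⟨A, hA, hq⟩
    rw [← (key A).1 hq]
    exact hA
  · intro hp
    exact ⟨_, hp, (key _).2 rfl⟩

private theorem a7_sum (X : M → E) {h : ℝ} (hh : 0 < h) (s : Finset (Finset M)) (z : M)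
    (hs : ∀ A ∈ s, z ∈ A) :
    ∑ A ∈ s, bw X h A = (bm E h (⋃ A ∈ s, SA X h A)).toReal := by
  have hfin : ∀ A ∈ s, bm E h (SA X h A) ≠ ⊤ := by
    intro A hA
    have h1 : SA X h A ⊆ {q : E × ℝ | inB h (X z) q} := fun q hq => (hq z).1 (hs A hA)
    have h2 := measure_mono (μ := bm E h) h1
    rw [bm_one hh] at h2
    exact ne_top_of_le_ne_top ENNReal.one_ne_top h2
  unfold bw
  rw [← ENNReal.toReal_sum hfin, measure_biUnion_finset]
  · intro A _ B _ hAB
    rw [Function.onFun, Set.disjoint_left]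
    intro q hqA hqB
    refine hAB ?_
    ext y
    exact (hqA y).trans (hqB y).symm
  · exact fun A _ => a7_meas X h A

/-- Module a7 (S). (T1) for the finite weights: the sets `SA X h A`, `z ∈ A`, are disjoint with union
`{q | inB h (X z) q}`, `bm_one`. -/
theorem bw_one (X : M → E) {h : ℝ} (hh : 0 < h) (z : M) :
    ∑ A ∈ Finset.univ.filter (fun A : Finset M => z ∈ A), bw X h A = 1 := by
  rw [a7_sum X hh _ z (fun A hA => (Finset.mem_filter.1 hA).2)]
  have h1 : (⋃ A ∈ Finset.univ.filter (fun A : Finset M => z ∈ A), SA X h A) =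
      {q : E × ℝ | inB h (X z) q} := by
    ext q
    rw [a7_mem]
    show z ∈ a7_tr X h q ↔ inB h (X z) q
    exact a7_mem_tr
  rw [h1, bm_one hh, ENNReal.toReal_one]

/-- Module a7 (S). (T2) for the finite weights. -/
theorem bw_two (X : M → E) {h : ℝ} (hh : 0 < h) (x z : M) :
    ∑ A ∈ Finset.univ.filter (fun A : Finset M => x ∈ A ∧ z ∈ A), bw X h A ≤
      Real.exp (-(‖X x - X z‖ ^ 2 / (4 * h ^ 2))) := by
  rw [a7_sum X hh _ x (fun A hA => (Finset.mem_filter.1 hA).2.1)]
  have h1 : (⋃ A ∈ Finset.univ.filter (fun A : Finset M => x ∈ A ∧ z ∈ A), SA X h A) =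
      {q : E × ℝ | inB h (X x) q ∧ inB h (X z) q} := by
    ext q
    rw [a7_mem]
    show (x ∈ a7_tr X h q ∧ z ∈ a7_tr X h q) ↔ (inB h (X x) q ∧ inB h (X z) q)
    rw [a7_mem_tr, a7_mem_tr]
  rw [h1]
  refine ENNReal.toReal_le_of_le_ofReal (Real.exp_pos _).le (bm_two hh (X x) (X z))

theorem bw_nonneg (X : M → E) (h : ℝ) (A : Finset M) : 0 ≤ bw X h A := ENNReal.toReal_nonneg

end Ball

section Mix

variable {M : Type} [Fintype M] [DecidableEq M] {d : ℕ}

/-- The point `X z` restricted to the coordinates in `J`. -/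
noncomputable def XJ (X : M → Fin d → ℝ) (J : Finset (Fin d)) (z : M) : EuclideanSpace ℝ J :=
  (EuclideanSpace.equiv J ℝ).symm (fun k => X z k)

/-- The probability of the set `J` of coordinates. -/
noncomputable def wJ (p : ℝ) (J : Finset (Fin d)) : ℝ := p ^ J.card * (1 - p) ^ (d - J.card)

/-- The weights of the level: random coordinates with density `p`, balls of scale `h`. -/
noncomputable def th (X : M → Fin d → ℝ) (p h : ℝ) (A : Finset M) : ℝ :=
  ∑ J : Finset (Fin d), wJ p J * bw (XJ X J) h A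

theorem th_nonneg (X : M → Fin d → ℝ) {p h : ℝ} (hp : 0 ≤ p) (hp1 : p ≤ 1) (A : Finset M) :
    0 ≤ th X p h A :=
  Finset.sum_nonneg fun J _ =>
    mul_nonneg (mul_nonneg (pow_nonneg hp _) (pow_nonneg (by linarith) _)) (bw_nonneg _ _ _)

private theorem a8_wJ_sum (p : ℝ) : ∑ J : Finset (Fin d), wJ p J = 1 := by
  have h := Fin.sum_pow_mul_eq_add_pow (n := d) p (1 - p)
  rw [show p + (1 - p) = 1 by ring, one_pow] at h
  exact h

private theorem a8_wJ_nonneg {p : ℝ} (hp : 0 ≤ p) (hp1 : p ≤ 1) (J : Finset (Fin d)) :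
    0 ≤ wJ p J := mul_nonneg (pow_nonneg hp _) (pow_nonneg (by linarith) _)

/-- Module a8 (S). (T1): `∑_J wJ p J = (p + (1 - p))^d = 1` (`Finset.sum_pow_mul_eq_add_pow`) and
`bw_one`. -/
theorem th_one (X : M → Fin d → ℝ) {p h : ℝ} (hp : 0 ≤ p) (hp1 : p ≤ 1) (hh : 0 < h) (z : M) :
    ∑ A ∈ Finset.univ.filter (fun A : Finset M => z ∈ A), th X p h A = 1 := by
  unfold th
  rw [Finset.sum_comm]
  rw [← a8_wJ_sum (d := d) p]
  refine Finset.sum_congr rfl fun J _ => ?_
  rw [← Finset.mul_sum, bw_one (XJ X J) hh z, mul_one]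

private theorem a8_norm (X : M → Fin d → ℝ) (J : Finset (Fin d)) (x z : M) :
    ‖XJ X J x - XJ X J z‖ ^ 2 = ∑ k ∈ J, (X x k - X z k) ^ 2 := by
  rw [EuclideanSpace.norm_sq_eq, ← Finset.sum_coe_sort J]
  refine Finset.sum_congr rfl fun k _ => ?_
  simp [XJ]

private theorem a8_prod (p : ℝ) (e : Fin d → ℝ) :
    ∑ J : Finset (Fin d), wJ p J * ∏ k ∈ J, e k = ∏ k, (p * e k + (1 - p)) := by
  rw [Fintype.prod_add]
  refine Finset.sum_congr rfl fun J _ => ?_
  rw [Finset.prod_mul_distrib, Finset.prod_const, Finset.prod_const, Finset.card_compl,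
    Fintype.card_fin]
  unfold wJ
  ring

/-- Module a8 (M). (T2). Proof. By `bw_two` the sum is at most
`∑_J wJ p J exp(-∑_{k ∈ J} u_k²/(4h²)) = ∏_k (1 - p + p exp(-u_k²/(4h²)))`, `u = X x - X z`
(`Finset.prod_add`). If `p = 1` this is `exp(-|u|²/(4h²))`; otherwise `t = u_k²/(4h²) ≤ 1/4` and
`1 - e^{-t} ≥ t - t²/2 ≥ 7t/8 ≥ 4t/5`, `1 - p(1 - e^{-t}) ≤ exp(-4pt/5)`. -/
theorem th_two (X : M → Fin d → ℝ) {p h D : ℝ} (hp : 0 ≤ p) (hp1 : p ≤ 1) (hh : 0 < h)
    (hD : ∀ x z k, |X x k - X z k| ≤ D) (hpD : p = 1 ∨ D ≤ h) (x z : M) :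
    ∑ A ∈ Finset.univ.filter (fun A : Finset M => x ∈ A ∧ z ∈ A), th X p h A ≤
      Real.exp (-(p * (∑ k, (X x k - X z k) ^ 2) / (5 * h ^ 2))) := by
  have hh2 : (0 : ℝ) < h ^ 2 := by positivity
  unfold th
  rw [Finset.sum_comm]
  have h1 : ∀ J : Finset (Fin d), ∑ A ∈ Finset.univ.filter (fun A : Finset M => x ∈ A ∧ z ∈ A),
      wJ p J * bw (XJ X J) h A ≤
      wJ p J * ∏ k ∈ J, Real.exp (-((X x k - X z k) ^ 2 / (4 * h ^ 2))) := by
    intro J
    rw [← Finset.mul_sum]
    refine mul_le_mul_of_nonneg_left ?_ (a8_wJ_nonneg hp hp1 J)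
    refine (bw_two (XJ X J) hh x z).trans (le_of_eq ?_)
    rw [a8_norm, ← Real.exp_sum]
    congr 1
    rw [Finset.sum_neg_distrib, Finset.sum_div]
  refine (Finset.sum_le_sum fun J _ => h1 J).trans ?_
  rw [a8_prod]
  have h2 : Real.exp (-(p * (∑ k, (X x k - X z k) ^ 2) / (5 * h ^ 2))) =
      ∏ k, Real.exp (-(p * (X x k - X z k) ^ 2 / (5 * h ^ 2))) := by
    rw [← Real.exp_sum]
    congr 1
    rw [Finset.sum_neg_distrib, ← Finset.sum_div, ← Finset.mul_sum]
  rw [h2]
  refine Finset.prod_le_prod (fun k _ => ?_) (fun k _ => ?_)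
  · have := Real.exp_pos (-((X x k - X z k) ^ 2 / (4 * h ^ 2)))
    nlinarith [mul_nonneg hp this.le]
  · set t : ℝ := (X x k - X z k) ^ 2 / (4 * h ^ 2) with ht
    have ht0 : 0 ≤ t := by positivity
    have ht5 : p * (X x k - X z k) ^ 2 / (5 * h ^ 2) = 4 / 5 * (p * t) := by
      rw [ht]
      field_simp
      try norm_num
    rw [ht5]
    rcases hpD with hp1' | hDh
    · subst hp1'
      have : Real.exp (-t) ≤ Real.exp (-(4 / 5 * (1 * t))) :=
        Real.exp_le_exp.2 (by linarith)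
      linarith
    · have hle : t ≤ 1 / 4 := by
        rw [ht, div_le_iff₀ (by positivity)]
        have h3 := (hD x z k).trans hDh
        have h4 : (X x k - X z k) ^ 2 ≤ h ^ 2 := by
          rw [← sq_abs (X x k - X z k)]
          exact pow_le_pow_left₀ (abs_nonneg _) h3 2
        linarith
      have h5 : Real.exp (-t) ≤ 1 - 4 / 5 * t := by
        have h6 : 1 + t ≤ Real.exp t := by
          have := Real.add_one_le_exp t
          linarith
        have h7 : Real.exp (-t) * Real.exp t = 1 := by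
          rw [← Real.exp_add]
          simp
        have h8 := Real.exp_pos (-t)
        have h9 : Real.exp (-t) * (1 + t) ≤ 1 := by
          linarith [mul_le_mul_of_nonneg_left h6 h8.le, h7]
        have h10 : 1 ≤ (1 - 4 / 5 * t) * (1 + t) := by nlinarith
        by_contra hcon
        rw [not_le] at hcon
        have : (1 - 4 / 5 * t) * (1 + t) < Real.exp (-t) * (1 + t) :=
          mul_lt_mul_of_pos_right hcon (by linarith)
        linarith
      have h11 : p * Real.exp (-t) + (1 - p) ≤ 1 - 4 / 5 * (p * t) := by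
        nlinarith [mul_le_mul_of_nonneg_left h5 hp]
      refine h11.trans ?_
      have := Real.add_one_le_exp (-(4 / 5 * (p * t)))
      linarith

private theorem a9_lin (p : ℝ) (a : Fin d → ℝ) :
    ∑ J : Finset (Fin d), wJ p J * ∑ k ∈ J, a k = p * ∑ k, a k := by
  have h1 : ∀ k : Fin d, ∑ J : Finset (Fin d), (if k ∈ J then wJ p J else 0) = p := by
    intro k
    have h2 := Fintype.prod_add (fun _ : Fin d => p) (fun i => if i = k then 0 else 1 - p)
    have h3 : ∏ i : Fin d, (p + if i = k then 0 else 1 - p) = p := by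
      have : ∀ i : Fin d, (p + if i = k then 0 else 1 - p) = if i = k then p else 1 := by
        intro i
        split_ifs <;> ring
      simp_rw [this]
      simp
    rw [h3] at h2
    refine Eq.trans ?_ h2.symm
    refine Finset.sum_congr rfl fun J _ => ?_
    rw [Finset.prod_const]
    by_cases hk : k ∈ J
    · rw [if_pos hk]
      unfold wJ
      have h4 : ∏ i ∈ Jᶜ, (if i = k then (0 : ℝ) else 1 - p) = (1 - p) ^ (d - J.card) := by
        rw [Finset.prod_congr rfl (g := fun _ => 1 - p), Finset.prod_const, Finset.card_compl,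
          Fintype.card_fin]
        intro i hi
        rw [if_neg]
        rintro rfl
        exact (Finset.mem_compl.1 hi) hk
      rw [h4]
    · rw [if_neg hk]
      have h4 : ∏ i ∈ Jᶜ, (if i = k then (0 : ℝ) else 1 - p) = 0 :=
        Finset.prod_eq_zero (Finset.mem_compl.2 hk) (by simp)
      rw [h4, mul_zero]
  have h5 : ∀ J : Finset (Fin d), wJ p J * ∑ k ∈ J, a k =
      ∑ k, (if k ∈ J then wJ p J else 0) * a k := by
    intro J
    rw [Finset.mul_sum, ← Finset.sum_filter_add_sum_filter_not univ (fun k => k ∈ J)]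
    have h6 : ∑ k ∈ univ.filter (fun k => ¬ k ∈ J), (if k ∈ J then wJ p J else 0) * a k = 0 := by
      refine Finset.sum_eq_zero fun k hk => ?_
      rw [if_neg (Finset.mem_filter.1 hk).2, zero_mul]
    rw [h6, add_zero, Finset.filter_mem_eq_inter, Finset.univ_inter]
    refine Finset.sum_congr rfl fun k hk => ?_
    rw [if_pos hk]
  simp_rw [h5]
  rw [Finset.sum_comm]
  simp_rw [← Finset.sum_mul, h1]
  rw [Finset.mul_sum]

/-- Module a9 (M). (T3). Proof. `t3_ball` for every `J`, `Q = ∑_J wJ p J Q_J`,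
`‖XJ X J y - XJ X J x‖ = √(∑_{k ∈ J} v_k²)`. Cauchy-Schwarz: `∑_J wJ √(∑_{k ∈ J} v_k²) ≤
√(∑_J wJ ∑_{k ∈ J} v_k²) = √(p ∑_k v_k²)`, and `√(∑_{k ∈ J} v_k²) ≤ ∑_{k ∈ J} |v_k|`,
`∑_J wJ ∑_{k ∈ J} |v_k| = p ∑_k |v_k|`. -/
theorem th_three (X : M → Fin d → ℝ) {p : ℝ} (hp : 0 ≤ p) (hp1 : p ≤ 1) (x y : M) {n : ℕ}
    (h : Fin n → ℝ) (hpos : ∀ j, 0 < h j) (hanti : Antitone h) :
    ∃ Q : (Fin n → Finset M) → ℝ, (∀ K, 0 ≤ Q K) ∧ (∀ K, Q K ≠ 0 → Antitone K) ∧
      (∑ K, Q K ≤ 3 * Real.sqrt (p * ∑ k, (X y k - X x k) ^ 2)) ∧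
      (∑ K, Q K ≤ 3 * (p * ∑ k, |X y k - X x k|)) ∧
      ∀ j A, x ∈ A → y ∉ A →
        th X p (h j) A ≤ 1 / h j * ∑ K ∈ Finset.univ.filter (fun K => K j = A), Q K := by
  choose Q hQ0 hQa hQs hQc using fun J : Finset (Fin d) => t3_ball (XJ X J) x y h hpos hanti
  have hw := fun J : Finset (Fin d) => a8_wJ_nonneg (d := d) hp hp1 J
  have hsum : ∑ K, ∑ J : Finset (Fin d), wJ p J * Q J K ≤
      ∑ J : Finset (Fin d), wJ p J * (3 * ‖XJ X J y - XJ X J x‖) := by
    rw [Finset.sum_comm]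
    refine Finset.sum_le_sum fun J _ => ?_
    rw [← Finset.mul_sum]
    exact mul_le_mul_of_nonneg_left (hQs J) (hw J)
  refine ⟨fun K => ∑ J : Finset (Fin d), wJ p J * Q J K, ?_, ?_, ?_, ?_, ?_⟩
  · intro K
    exact Finset.sum_nonneg fun J _ => mul_nonneg (hw J) (hQ0 J K)
  · intro K hK
    obtain ⟨J, -, hJ⟩ := Finset.exists_ne_zero_of_sum_ne_zero hK
    exact hQa J K (right_ne_zero_of_mul hJ)
  · refine hsum.trans ?_
    have h1 : ∑ J : Finset (Fin d), wJ p J * (3 * ‖XJ X J y - XJ X J x‖) =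
        3 * ∑ J : Finset (Fin d), wJ p J * ‖XJ X J y - XJ X J x‖ := by
      rw [Finset.mul_sum]
      exact Finset.sum_congr rfl fun J _ => by ring
    rw [h1]
    refine mul_le_mul_of_nonneg_left ?_ (by norm_num)
    refine Real.le_sqrt_of_sq_le ?_
    have h2 := Finset.sum_mul_sq_le_sq_mul_sq (Finset.univ : Finset (Finset (Fin d)))
      (fun J => Real.sqrt (wJ p J)) (fun J => Real.sqrt (wJ p J) * ‖XJ X J y - XJ X J x‖)
    have h3 : ∑ J : Finset (Fin d), Real.sqrt (wJ p J) *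
        (Real.sqrt (wJ p J) * ‖XJ X J y - XJ X J x‖) =
        ∑ J : Finset (Fin d), wJ p J * ‖XJ X J y - XJ X J x‖ :=
      Finset.sum_congr rfl fun J _ => by
        rw [← mul_assoc, Real.mul_self_sqrt (hw J)]
    have h4 : ∑ J : Finset (Fin d), Real.sqrt (wJ p J) ^ 2 = 1 := by
      rw [← a8_wJ_sum (d := d) p]
      exact Finset.sum_congr rfl fun J _ => Real.sq_sqrt (hw J)
    have h5 : ∑ J : Finset (Fin d), (Real.sqrt (wJ p J) * ‖XJ X J y - XJ X J x‖) ^ 2 =
        p * ∑ k, (X y k - X x k) ^ 2 := by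
      rw [← a9_lin]
      refine Finset.sum_congr rfl fun J _ => ?_
      rw [mul_pow, Real.sq_sqrt (hw J), a8_norm]
    rw [h3, h4, h5, one_mul] at h2
    exact h2
  · refine hsum.trans ?_
    have h1 : ∀ J : Finset (Fin d), wJ p J * (3 * ‖XJ X J y - XJ X J x‖) ≤
        3 * (wJ p J * ∑ k ∈ J, |X y k - X x k|) := by
      intro J
      have h2 : ‖XJ X J y - XJ X J x‖ ≤ ∑ k ∈ J, |X y k - X x k| := by
        refine abs_le_of_sq_le_sq' ?_ (Finset.sum_nonneg fun k _ => abs_nonneg _) |>.2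
        rw [a8_norm]
        have h6 := Finset.sum_sq_le_sq_sum_of_nonneg (s := J) (f := fun k => |X y k - X x k|)
          (fun k _ => abs_nonneg _)
        simpa [sq_abs] using h6
      nlinarith [mul_le_mul_of_nonneg_left h2 (hw J)]
    refine (Finset.sum_le_sum fun J _ => h1 J).trans (le_of_eq ?_)
    rw [← Finset.mul_sum, a9_lin]
  · intro j A hx hy
    unfold th
    have h1 : ∑ K ∈ Finset.univ.filter (fun K : Fin n → Finset M => K j = A),
        ∑ J : Finset (Fin d), wJ p J * Q J K =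
        ∑ J : Finset (Fin d), wJ p J *
          ∑ K ∈ Finset.univ.filter (fun K : Fin n → Finset M => K j = A), Q J K := by
      rw [Finset.sum_comm]
      exact Finset.sum_congr rfl fun J _ => by rw [Finset.mul_sum]
    rw [h1, Finset.mul_sum]
    refine Finset.sum_le_sum fun J _ => ?_
    have h2 := mul_le_mul_of_nonneg_left (hQc J j A hx hy) (hw J)
    refine h2.trans (le_of_eq ?_)
    ring

end Mix

end Pool.Agent.L2U
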