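import Pool.Agent.MP_12e089_an.LogS.Main

set_option linter.unusedSectionVars false

/-!
Soft partitions of a finite set, cells, the expectation seen from a point, and the abstract
properties T2, T3 (upper bound for the `ℓ_2` case of MP_12e089_an, helper48 / helper61).

Levels are numbered by `e : Fin n`; the scale of level `e` is `2 ^ e`, level `0` is the finest
one (the points).  Stage `a` is the intersection of the sets of all levels `e ≥ a`
(stage `n` is the whole set).
-/

namespace Pool.Agent.L2U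

open Finset Pool.Agent.MP_12e089_an

/-- A family of `n` soft partitions: weights on the subsets such that every point is covered with
total weight one. -/
structure Soft (M : Type) [Fintype M] [DecidableEq M] (n : ℕ) where
  θ : Fin n → Finset M → ℝ
  nn : ∀ e B, 0 ≤ θ e B
  one : ∀ e x, ∑ B : Finset M, (if x ∈ B then θ e B else 0) = 1

variable {M : Type} [Fintype M] [DecidableEq M] {n : ℕ}

/-- The cell of the label `w` at stage `a`. -/
def cell (w : Fin n → Finset M) (a : ℕ) : Finset M :=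
  Finset.univ.filter (fun z => ∀ e : Fin n, a ≤ (e : ℕ) → z ∈ w e)

lemma mem_cell {w : Fin n → Finset M} {a : ℕ} {z : M} :
    z ∈ cell w a ↔ ∀ e : Fin n, a ≤ (e : ℕ) → z ∈ w e := by
  simp [cell]

/-- The probability weight of the label `w`, seen from the point `x`. -/
noncomputable def px (Θ : Soft M n) (x : M) (w : Fin n → Finset M) : ℝ :=
  ∏ e, if x ∈ w e then Θ.θ e (w e) else 0

/-- The expectation for independent sets containing `x`. -/
noncomputable def Ex (Θ : Soft M n) (x : M) (F : (Fin n → Finset M) → ℝ) : ℝ :=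
  ∑ w : Fin n → Finset M, px Θ x w * F w

/-- The mean distance from `x` to the points of the multiplicity function `R` in `A`, `x` itself
being added with multiplicity one. -/
noncomputable def DD (ρ : M → M → ℝ) (R : M → ℝ) (A : Finset M) (x : M) : ℝ :=
  (∑ z ∈ A, R z * ρ x z) / (1 + ∑ z ∈ A, R z)

/-- The bound for the separation at the levels of block `b`. -/
noncomputable def mb (p : ℕ) (ρ : M → M → ℝ) (b : ℕ) (x y : M) : ℝ :=
  min (ρ x y) (2 ^ p * ρ x y ^ 2 / 2 ^ (b * p))

/-- Level `0` consists of points. -/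
def Pt (Θ : Soft M n) : Prop :=
  ∀ (e : Fin n), (e : ℕ) = 0 → ∀ B, Θ.θ e B ≠ 0 → ∃ z, B = {z}

/-- Gaussian decay. -/
def T2 (Θ : Soft M n) (ρ : M → M → ℝ) : Prop :=
  ∀ (e : Fin n) (x z : M), ∑ B : Finset M, (if x ∈ B ∧ z ∈ B then Θ.θ e B else 0) ≤
    Real.exp (-(ρ x z ^ 2 / (5 * 4 ^ (e : ℕ))))

/-- Separation with labels which do not depend on the scale inside a block (the block `b`
consists of the levels `b p ≤ e < (b + 1) p`). -/
def T3 (Θ : Soft M n) (p : ℕ) (ρ : M → M → ℝ) : Prop :=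
  ∀ (b : ℕ) (x y : M), x ≠ y → ∃ q : (Fin n → Finset M) → ℝ, (∀ K, 0 ≤ q K) ∧
    (∑ K, q K ≤ 4 * mb p ρ b x y) ∧
    (∀ K, q K ≠ 0 → ∀ e e' : Fin n, b * p ≤ (e : ℕ) → (e : ℕ) ≤ (e' : ℕ) →
      (e' : ℕ) < (b + 1) * p → K e ⊆ K e') ∧
    ∀ e : Fin n, b * p ≤ (e : ℕ) → (e : ℕ) < (b + 1) * p → ∀ F : Finset M → ℝ, (∀ A, 0 ≤ F A) →
      ∑ B : Finset M, (if x ∈ B ∧ y ∉ B then Θ.θ e B * F B else 0) ≤
        1 / 2 ^ (e : ℕ) * ∑ K : Fin n → Finset M, q K * (if x ∈ K e then F (K e) else 0)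

/-! ### Basic facts -/

lemma px_nonneg (Θ : Soft M n) (x : M) (w : Fin n → Finset M) : 0 ≤ px Θ x w :=
  Finset.prod_nonneg fun e _ => by
    split_ifs
    · exact Θ.nn e _
    · exact le_rfl

lemma sum_px (Θ : Soft M n) (x : M) : ∑ w, px Θ x w = 1 := by
  unfold px
  rw [← Fintype.piFinset_univ, Finset.sum_prod_piFinset Finset.univ
    (fun e B => if x ∈ B then Θ.θ e B else 0)]
  exact Finset.prod_eq_one fun e _ => Θ.one e x

lemma Ex_const (Θ : Soft M n) (x : M) (c : ℝ) : Ex Θ x (fun _ => c) = c := by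
  unfold Ex
  rw [← Finset.sum_mul, sum_px, one_mul]

lemma Ex_mono (Θ : Soft M n) (x : M) {F G : (Fin n → Finset M) → ℝ} (h : ∀ w, F w ≤ G w) :
    Ex Θ x F ≤ Ex Θ x G :=
  Finset.sum_le_sum fun w _ => mul_le_mul_of_nonneg_left (h w) (px_nonneg Θ x w)

lemma Ex_add (Θ : Soft M n) (x : M) (F G : (Fin n → Finset M) → ℝ) :
    Ex Θ x (fun w => F w + G w) = Ex Θ x F + Ex Θ x G := by
  unfold Ex
  rw [← Finset.sum_add_distrib]
  exact Finset.sum_congr rfl fun w _ => mul_add _ _ _

lemma Ex_smul (Θ : Soft M n) (x : M) (c : ℝ) (F : (Fin n → Finset M) → ℝ) :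
    Ex Θ x (fun w => c * F w) = c * Ex Θ x F := by
  unfold Ex
  rw [Finset.mul_sum]
  exact Finset.sum_congr rfl fun w _ => by ring

lemma Ex_nonneg (Θ : Soft M n) (x : M) {F : (Fin n → Finset M) → ℝ} (h : ∀ w, 0 ≤ F w) :
    0 ≤ Ex Θ x F :=
  Finset.sum_nonneg fun w _ => mul_nonneg (px_nonneg Θ x w) (h w)

lemma Ex_sum {ι : Type*} (Θ : Soft M n) (x : M) (I : Finset ι)
    (F : ι → (Fin n → Finset M) → ℝ) :
    Ex Θ x (fun w => ∑ i ∈ I, F i w) = ∑ i ∈ I, Ex Θ x (F i) := by
  unfold Ex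
  rw [Finset.sum_comm]
  exact Finset.sum_congr rfl fun w _ => by rw [Finset.mul_sum]

lemma mem_cell_of_px {Θ : Soft M n} {x : M} {w : Fin n → Finset M} (h : px Θ x w ≠ 0) (a : ℕ) :
    x ∈ cell w a := by
  rw [mem_cell]
  intro e _
  by_contra hx
  apply h
  unfold px
  exact Finset.prod_eq_zero (Finset.mem_univ e) (if_neg hx)

lemma cell_anti (w : Fin n → Finset M) {a b : ℕ} (hab : a ≤ b) : cell w a ⊆ cell w b := by
  intro z hz
  rw [mem_cell] at hz ⊢
  exact fun e he => hz e (hab.trans he)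

lemma cell_top (w : Fin n → Finset M) : cell w n = Finset.univ := by
  ext z
  simp only [mem_cell, Finset.mem_univ, iff_true]
  intro e he
  exact absurd e.2 (by omega)

lemma cell_succ (w : Fin n → Finset M) (e : Fin n) :
    cell w (e : ℕ) = cell w ((e : ℕ) + 1) ∩ w e := by
  ext z
  simp only [mem_cell, Finset.mem_inter]
  constructor
  · exact fun h => ⟨fun e' he' => h e' (by omega), h e le_rfl⟩
  · rintro ⟨h1, h2⟩ e' he'
    rcases eq_or_lt_of_le he' with h | h
    · have : e = e' := Fin.ext h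
      rw [← this]; exact h2
    · exact h1 e' (by omega)

end Pool.Agent.L2U
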