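import Pool.Agent.L2U.Defs

/-!
Part X2 (section 5): the entropy inequality for soft partitions, as finite sums.
-/

set_option autoImplicit false
set_option linter.unusedSectionVars false

namespace Pool.Agent.L2U

open Finset

variable {M : Type} [Fintype M] [DecidableEq M] {n : ℕ}

/-! ### the expectation `Ex` -/

/-- Module s1 (S). Monotonicity on the support (`px Θ x w = 0` if `x ∉ w e` for some `e`). -/
theorem Ex_mono' (Θ : Soft M n) (x : M) {F G : (Fin n → Finset M) → ℝ}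
    (h : ∀ w, (∀ e, x ∈ w e) → F w ≤ G w) : Ex Θ x F ≤ Ex Θ x G := by
  refine Finset.sum_le_sum fun w _ => ?_
  by_cases hw : px Θ x w = 0
  · rw [hw, zero_mul, zero_mul]
  · refine mul_le_mul_of_nonneg_left (h w fun e => ?_) (px_nonneg Θ x w)
    have := mem_cell_of_px hw 0
    rw [mem_cell] at this
    exact this e (Nat.zero_le _)

/-- Module s1 (S/M). Resampling of one coordinate: the sets `w e` are independent. Proof: write the
product over `Fin n` as the factor at `e` times the rest, sum over `w e` first on both sides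
(`Equiv.piSplitAt` / `Function.update`; the factor at `e` of the inner sum is one by `Θ.one`). -/
theorem Ex_update (Θ : Soft M n) (x : M) (e : Fin n) (F : (Fin n → Finset M) → ℝ) :
    Ex Θ x F = Ex Θ x (fun w => ∑ B : Finset M,
      if x ∈ B then Θ.θ e B * F (Function.update w e B) else 0) := by
  classical
  let c : Fin n → Finset M → ℝ := fun e B => if x ∈ B then Θ.θ e B else 0
  have hpx : ∀ w, px Θ x w = ∏ j, c j (w j) := fun w => rfl
  have key : ∀ w B, px Θ x w * c e B = px Θ x (Function.update w e B) * c e (w e) := by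
    intro w B
    rw [hpx, hpx, ← Finset.mul_prod_erase Finset.univ (fun j => c j (w j)) (Finset.mem_univ e),
      ← Finset.mul_prod_erase Finset.univ (fun j => c j (Function.update w e B j))
        (Finset.mem_univ e)]
    have h1 : ∏ j ∈ Finset.univ.erase e, c j (Function.update w e B j) =
        ∏ j ∈ Finset.univ.erase e, c j (w j) :=
      Finset.prod_congr rfl fun j hj => by
        rw [Function.update_of_ne (Finset.ne_of_mem_erase hj)]
    rw [h1, Function.update_self]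
    ring
  let E : ((Fin n → Finset M) × Finset M) ≃ ((Fin n → Finset M) × Finset M) :=
    { toFun := fun p => (Function.update p.1 e p.2, p.1 e)
      invFun := fun p => (Function.update p.1 e p.2, p.1 e)
      left_inv := fun p => by simp
      right_inv := fun p => by simp }
  have hr : Ex Θ x (fun w => ∑ B : Finset M,
      if x ∈ B then Θ.θ e B * F (Function.update w e B) else 0) =
      ∑ p : (Fin n → Finset M) × Finset M, px Θ x (E p).1 * c e (E p).2 * F (E p).1 := by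
    unfold Ex
    rw [Fintype.sum_prod_type]
    refine Finset.sum_congr rfl fun w _ => ?_
    rw [Finset.mul_sum]
    refine Finset.sum_congr rfl fun B _ => ?_
    change _ = px Θ x (Function.update w e B) * c e (w e) * F (Function.update w e B)
    rw [← key]
    by_cases hB : x ∈ B
    · simp only [c, if_pos hB]; ring
    · simp only [c, if_neg hB]; ring
  rw [hr, Equiv.sum_comp E (fun p => px Θ x p.1 * c e p.2 * F p.1), Fintype.sum_prod_type]
  unfold Ex
  refine Finset.sum_congr rfl fun w _ => ?_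
  have h1 : ∑ B : Finset M, c e B = 1 := Θ.one e x
  simp only
  calc px Θ x w * F w = px Θ x w * F w * ∑ B : Finset M, c e B := by rw [h1, mul_one]
    _ = _ := by
      rw [Finset.mul_sum]
      exact Finset.sum_congr rfl fun B _ => by ring

/-- Module s2 (S). Cauchy-Schwarz / Jensen for the probability `px`. -/
theorem Ex_sq (Θ : Soft M n) (x : M) (F : (Fin n → Finset M) → ℝ) :
    Ex Θ x F ^ 2 ≤ Ex Θ x (fun w => F w ^ 2) := by
  have h := Finset.sum_mul_sq_le_sq_mul_sq Finset.univ (fun w => Real.sqrt (px Θ x w))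
    (fun w => Real.sqrt (px Θ x w) * F w)
  have e1 : ∑ w, Real.sqrt (px Θ x w) * (Real.sqrt (px Θ x w) * F w) = Ex Θ x F := by
    unfold Ex
    refine Finset.sum_congr rfl fun w _ => ?_
    rw [← mul_assoc, Real.mul_self_sqrt (px_nonneg Θ x w)]
  have e2 : ∑ w, Real.sqrt (px Θ x w) ^ 2 = 1 := by
    rw [← sum_px Θ x]
    exact Finset.sum_congr rfl fun w _ => Real.sq_sqrt (px_nonneg Θ x w)
  have e3 : ∑ w, (Real.sqrt (px Θ x w) * F w) ^ 2 = Ex Θ x (fun w => F w ^ 2) := by
    unfold Ex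
    refine Finset.sum_congr rfl fun w _ => ?_
    rw [mul_pow, Real.sq_sqrt (px_nonneg Θ x w)]
  rw [e1, e2, e3, one_mul] at h
  exact h

/-! ### the entropy inequality -/

/-- The mass of `A`, the base point is added with mass one. -/
noncomputable def mass (R : M → ℝ) (A : Finset M) : ℝ := 1 + ∑ z ∈ A, R z

/-- The mean square distance. -/
noncomputable def QQ (ρ : M → M → ℝ) (R : M → ℝ) (A : Finset M) (x : M) : ℝ :=
  (∑ z ∈ A, R z * ρ x z ^ 2) / mass R A

/-- Module s2 (S). Cauchy-Schwarz: `DD² ≤ QQ` (the weights `R z / mass R A` have sum at most one). -/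
theorem DD_sq_le {R : M → ℝ} (hR : ∀ z, 0 ≤ R z) (ρ : M → M → ℝ) (A : Finset M) (x : M) :
    DD ρ R A x ^ 2 ≤ QQ ρ R A x := by
  have hs : 0 ≤ ∑ z ∈ A, R z := Finset.sum_nonneg fun z _ => hR z
  have hm : 0 < 1 + ∑ z ∈ A, R z := by linarith
  have h := Finset.sum_mul_sq_le_sq_mul_sq A (fun z => Real.sqrt (R z))
    (fun z => Real.sqrt (R z) * ρ x z)
  have e1 : ∑ z ∈ A, Real.sqrt (R z) * (Real.sqrt (R z) * ρ x z) = ∑ z ∈ A, R z * ρ x z :=
    Finset.sum_congr rfl fun z _ => by rw [← mul_assoc, Real.mul_self_sqrt (hR z)]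
  have e2 : ∑ z ∈ A, Real.sqrt (R z) ^ 2 = ∑ z ∈ A, R z :=
    Finset.sum_congr rfl fun z _ => Real.sq_sqrt (hR z)
  have e3 : ∑ z ∈ A, (Real.sqrt (R z) * ρ x z) ^ 2 = ∑ z ∈ A, R z * ρ x z ^ 2 :=
    Finset.sum_congr rfl fun z _ => by rw [mul_pow, Real.sq_sqrt (hR z)]
  rw [e1, e2, e3] at h
  have h0 : 0 ≤ ∑ z ∈ A, R z * ρ x z ^ 2 :=
    Finset.sum_nonneg fun z _ => mul_nonneg (hR z) (sq_nonneg _)
  unfold DD QQ mass
  rw [div_pow, div_le_div_iff₀ (by positivity) hm]
  calc (∑ z ∈ A, R z * ρ x z) ^ 2 * (1 + ∑ z ∈ A, R z)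
      ≤ ((∑ z ∈ A, R z) * ∑ z ∈ A, R z * ρ x z ^ 2) * (1 + ∑ z ∈ A, R z) :=
        mul_le_mul_of_nonneg_right h hm.le
    _ ≤ ((1 + ∑ z ∈ A, R z) * ∑ z ∈ A, R z * ρ x z ^ 2) * (1 + ∑ z ∈ A, R z) := by
        refine mul_le_mul_of_nonneg_right (mul_le_mul_of_nonneg_right (by linarith) h0) hm.le
    _ = (∑ z ∈ A, R z * ρ x z ^ 2) * (1 + ∑ z ∈ A, R z) ^ 2 := by ring

/-- Module s3 (M). THE ENTROPY INEQUALITY for one set `A` and one random set `B`.
Proof. `m(B) = mass R (A ∩ B)`, `q z = ρ x z ^ 2 / c`. Jensen (`exp` convex, probability weights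
`R z / m(B)` for `z ∈ A ∩ B` and `1 / m(B)` for the base point with value `0`):
`QQ(A ∩ B) / c ≤ log ((1 + ∑_{z ∈ A ∩ B} R z e^{q z}) / m(B))`. So the left hand side divided by `c` is
`≤ ∑_B θ B (log m(A) - log m(B)) + ∑_B θ B log ((1 + ∑_{z ∈ A ∩ B} R z e^{q z}) / m(A))` (sums over
`B ∋ x`), and the last sum is `≤ log (∑_B θ B (1 + ∑_{z ∈ A ∩ B} R z e^{q z}) / m(A)) ≤ log 1 = 0`
(concavity of `log`, the weights `θ B`, `B ∋ x`, have sum one; exchange the sums and use `h2`). -/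
theorem ent_one {θ : Finset M → ℝ} (hθ : ∀ B, 0 ≤ θ B) {x : M}
    (h1 : ∑ B : Finset M, (if x ∈ B then θ B else 0) = 1) {ρ : M → M → ℝ} {c : ℝ}
    (hc : 0 < c)
    (h2 : ∀ z, ∑ B : Finset M, (if x ∈ B ∧ z ∈ B then θ B else 0) ≤ Real.exp (-(ρ x z ^ 2 / c)))
    {R : M → ℝ} (hR : ∀ z, 0 ≤ R z) (A : Finset M) :
    ∑ B : Finset M, (if x ∈ B then θ B * QQ ρ R (A ∩ B) x else 0) ≤
      c * ∑ B : Finset M, (if x ∈ B then
        θ B * (Real.log (mass R A) - Real.log (mass R (A ∩ B))) else 0) := by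
  have hm : ∀ B : Finset M, 1 ≤ mass R B := fun B => by
    have := Finset.sum_nonneg fun z (_ : z ∈ B) => hR z
    rw [mass]; linarith
  have hmA : 0 < mass R A := by linarith [hm A]
  set S : Finset M → ℝ := fun B => 1 + ∑ z ∈ A ∩ B, R z * Real.exp (ρ x z ^ 2 / c) with hSdef
  have hS0 : ∀ B, 0 < S B := fun B => by
    have : 0 ≤ ∑ z ∈ A ∩ B, R z * Real.exp (ρ x z ^ 2 / c) :=
      Finset.sum_nonneg fun z _ => mul_nonneg (hR z) (Real.exp_pos _).le
    simp only [hSdef]; linarith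
  have key : ∀ B, QQ ρ R (A ∩ B) x ≤ c * (Real.log (mass R A) - Real.log (mass R (A ∩ B))) +
      c * (S B / mass R A - 1) := by
    intro B
    set mB := mass R (A ∩ B) with hmB
    have hmB0 : 0 < mB := by linarith [hm (A ∩ B)]
    set μ := QQ ρ R (A ∩ B) x / c with hμ
    have h3 : mB * Real.exp μ ≤ S B := by
      have h4 : ∀ y : ℝ, Real.exp μ * (1 + y - μ) ≤ Real.exp y := fun y => by
        have h5 := Real.add_one_le_exp (y - μ)
        have h6 : Real.exp y = Real.exp μ * Real.exp (y - μ) := by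
          rw [← Real.exp_add]; congr 1; ring
        rw [h6]
        exact mul_le_mul_of_nonneg_left (by linarith) (Real.exp_pos _).le
      have h7 : ∑ z ∈ A ∩ B, R z * (Real.exp μ * (1 + ρ x z ^ 2 / c - μ)) ≤
          ∑ z ∈ A ∩ B, R z * Real.exp (ρ x z ^ 2 / c) :=
        Finset.sum_le_sum fun z _ => mul_le_mul_of_nonneg_left (h4 _) (hR z)
      have h8 := h4 0
      rw [Real.exp_zero] at h8
      have h9 : ∑ z ∈ A ∩ B, R z * (Real.exp μ * (1 + ρ x z ^ 2 / c - μ)) =
          Real.exp μ * ((mB - 1) * (1 - μ) + mB * μ) := by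
        have h10 : mB * μ = ∑ z ∈ A ∩ B, R z * (ρ x z ^ 2 / c) := by
          rw [hμ, QQ, ← hmB]
          have : ∑ z ∈ A ∩ B, R z * (ρ x z ^ 2 / c) = (∑ z ∈ A ∩ B, R z * ρ x z ^ 2) / c := by
            rw [Finset.sum_div]
            exact Finset.sum_congr rfl fun z _ => by ring
          rw [this]
          field_simp
        have h11 : mB - 1 = ∑ z ∈ A ∩ B, R z := by rw [hmB, mass]; ring
        rw [h10, h11, Finset.sum_mul, ← Finset.sum_add_distrib, Finset.mul_sum]
        exact Finset.sum_congr rfl fun z _ => by ring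
      rw [h9] at h7
      have h12 : S B = 1 + ∑ z ∈ A ∩ B, R z * Real.exp (ρ x z ^ 2 / c) := rfl
      rw [h12]
      nlinarith [h7, h8]
    have h13 : μ + Real.log mB ≤ Real.log (S B) := by
      have h20 : μ + Real.log mB = Real.log (mB * Real.exp μ) := by
        rw [Real.log_mul hmB0.ne' (Real.exp_pos _).ne', Real.log_exp, add_comm]
      rw [h20]
      exact Real.log_le_log (mul_pos hmB0 (Real.exp_pos _)) h3
    have h14 : Real.log (S B) - Real.log (mass R A) ≤ S B / mass R A - 1 := by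
      rw [← Real.log_div (hS0 B).ne' hmA.ne']
      exact Real.log_le_sub_one_of_pos (div_pos (hS0 B) hmA)
    have h15 : QQ ρ R (A ∩ B) x = c * μ := by rw [hμ]; field_simp
    rw [h15, ← mul_add]
    exact mul_le_mul_of_nonneg_left (by linarith) hc.le
  have hsum : ∑ B : Finset M, (if x ∈ B then θ B * S B else 0) ≤ mass R A := by
    have e1 : ∀ B : Finset M, (if x ∈ B then θ B * S B else 0) = (if x ∈ B then θ B else 0) +
        ∑ z ∈ A, R z * Real.exp (ρ x z ^ 2 / c) * (if x ∈ B ∧ z ∈ B then θ B else 0) := by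
      intro B
      have h16 : ∑ z ∈ A ∩ B, R z * Real.exp (ρ x z ^ 2 / c) =
          ∑ z ∈ A, if z ∈ B then R z * Real.exp (ρ x z ^ 2 / c) else 0 := by
        rw [← Finset.sum_filter, Finset.filter_mem_eq_inter]
      by_cases hx : x ∈ B
      · simp only [hx, if_true, true_and]
        simp only [hSdef]
        rw [h16, mul_add, mul_one, Finset.mul_sum]
        congr 1
        refine Finset.sum_congr rfl fun z _ => ?_
        split_ifs <;> ring
      · simp [hx]
    rw [Finset.sum_congr rfl fun B _ => e1 B, Finset.sum_add_distrib, h1, Finset.sum_comm, mass]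
    refine add_le_add le_rfl (Finset.sum_le_sum fun z _ => ?_)
    rw [← Finset.mul_sum]
    calc R z * Real.exp (ρ x z ^ 2 / c) * ∑ B : Finset M, (if x ∈ B ∧ z ∈ B then θ B else 0)
        ≤ R z * Real.exp (ρ x z ^ 2 / c) * Real.exp (-(ρ x z ^ 2 / c)) :=
          mul_le_mul_of_nonneg_left (h2 z) (mul_nonneg (hR z) (Real.exp_pos _).le)
      _ = R z := by rw [mul_assoc, ← Real.exp_add, add_neg_cancel, Real.exp_zero, mul_one]
  have h17 : ∑ B : Finset M, (if x ∈ B then θ B * QQ ρ R (A ∩ B) x else 0) ≤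
      ∑ B : Finset M, (c * (if x ∈ B then
        θ B * (Real.log (mass R A) - Real.log (mass R (A ∩ B))) else 0) +
        c * ((if x ∈ B then θ B * S B else 0) / mass R A - (if x ∈ B then θ B else 0))) := by
    refine Finset.sum_le_sum fun B _ => ?_
    split_ifs
    · refine (mul_le_mul_of_nonneg_left (key B) (hθ B)).trans (le_of_eq ?_)
      ring
    · simp
  refine h17.trans ?_
  rw [Finset.sum_add_distrib, ← Finset.mul_sum, ← Finset.mul_sum, Finset.sum_sub_distrib,
    ← Finset.sum_div, h1]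
  have h18 : (∑ B : Finset M, (if x ∈ B then θ B * S B else 0)) / mass R A - 1 ≤ 0 := by
    rw [sub_nonpos, div_le_one hmA]; exact hsum
  nlinarith [mul_nonneg hc.le (neg_nonneg.2 h18)]

/-- Module s4 (S). The same under `Ex`, if `A w` does not depend on the coordinate `e`. Proof:
`Ex_update` on both sides, `ent_one` with `c = 5 · 4^e` for every fixed `w`. -/
theorem ent_step {Θ : Soft M n} {ρ : M → M → ℝ} (h2 : T2 Θ ρ) {R : M → ℝ} (hR : ∀ z, 0 ≤ R z)
    (x : M) (e : Fin n) {A : (Fin n → Finset M) → Finset M}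
    (hA : ∀ w B, A (Function.update w e B) = A w) :
    Ex Θ x (fun w => QQ ρ R (A w ∩ w e) x) ≤
      5 * 4 ^ (e : ℕ) * (Ex Θ x (fun w => Real.log (mass R (A w))) -
        Ex Θ x (fun w => Real.log (mass R (A w ∩ w e)))) := by
  have e1 : Ex Θ x (fun w => QQ ρ R (A w ∩ w e) x) = Ex Θ x (fun w => ∑ B : Finset M,
      if x ∈ B then Θ.θ e B * QQ ρ R (A w ∩ B) x else 0) := by
    rw [Ex_update Θ x e (fun w => QQ ρ R (A w ∩ w e) x)]
    simp only [hA, Function.update_self]
  have e2 : Ex Θ x (fun w => Real.log (mass R (A w ∩ w e))) = Ex Θ x (fun w => ∑ B : Finset M,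
      if x ∈ B then Θ.θ e B * Real.log (mass R (A w ∩ B)) else 0) := by
    rw [Ex_update Θ x e (fun w => Real.log (mass R (A w ∩ w e)))]
    simp only [hA, Function.update_self]
  have e3 : Ex Θ x (fun w => Real.log (mass R (A w))) = Ex Θ x (fun w => ∑ B : Finset M,
      if x ∈ B then Θ.θ e B * Real.log (mass R (A w)) else 0) := by
    congr 1
    funext w
    conv_lhs => rw [← one_mul (Real.log (mass R (A w))), ← Θ.one e x]
    rw [Finset.sum_mul]
    exact Finset.sum_congr rfl fun B _ => by rw [ite_mul, zero_mul]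
  have e4 : Ex Θ x (fun w => Real.log (mass R (A w))) -
        Ex Θ x (fun w => Real.log (mass R (A w ∩ w e))) = Ex Θ x (fun w => ∑ B : Finset M,
      if x ∈ B then Θ.θ e B * (Real.log (mass R (A w)) - Real.log (mass R (A w ∩ B))) else 0) := by
    rw [sub_eq_iff_eq_add, e2, e3, ← Ex_add]
    congr 1
    funext w
    rw [← Finset.sum_add_distrib]
    refine Finset.sum_congr rfl fun B _ => ?_
    split_ifs
    · ring
    · ring
  rw [e1, e4, ← Ex_smul]
  refine Ex_mono Θ x fun w => ?_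
  exact ent_one (Θ.nn e) (Θ.one e x) (by positivity) (fun z => h2 e x z) hR (A w)

/-- The entropy of the cell of stage `a`. -/
noncomputable def H0 (Θ : Soft M n) (R : M → ℝ) (x : M) (a : ℕ) : ℝ :=
  Ex Θ x (fun w => Real.log (mass R (cell w a)))

/-- Module s4 (S). `0 ≤ log (mass)`, `mass ≥ 1`. -/
theorem H0_nonneg (Θ : Soft M n) {R : M → ℝ} (hR : ∀ z, 0 ≤ R z) (x : M) (a : ℕ) :
    0 ≤ H0 Θ R x a := by
  refine Ex_nonneg Θ x fun w => Real.log_nonneg ?_
  have h1 : 0 ≤ ∑ z ∈ cell w a, R z := Finset.sum_nonneg fun z _ => hR z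
  unfold mass
  linarith

/-- Module s4 (S). -/
theorem H0_le (Θ : Soft M n) {R : M → ℝ} (hR : ∀ z, 0 ≤ R z) (x : M) (a : ℕ) :
    H0 Θ R x a ≤ Real.log (1 + ∑ z, R z) := by
  rw [← Ex_const Θ x (Real.log (1 + ∑ z, R z))]
  refine Ex_mono Θ x fun w => ?_
  have h1 : 0 ≤ ∑ z ∈ cell w a, R z := Finset.sum_nonneg fun z _ => hR z
  have h2 : ∑ z ∈ cell w a, R z ≤ ∑ z, R z :=
    Finset.sum_le_sum_of_subset_of_nonneg (Finset.subset_univ _) fun z _ _ => hR z
  apply Real.log_le_log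
  · unfold mass
    linarith
  · unfold mass
    linarith

/-- Module s4 (S). `ent_step` with `A w = cell w (a + 1)` and `cell_succ`. -/
theorem QQ_stage {Θ : Soft M n} {ρ : M → M → ℝ} (h2 : T2 Θ ρ) {R : M → ℝ} (hR : ∀ z, 0 ≤ R z)
    (x : M) {a : ℕ} (ha : a < n) :
    Ex Θ x (fun w => QQ ρ R (cell w a) x) ≤ 5 * 4 ^ a * (H0 Θ R x (a + 1) - H0 Θ R x a) := by
  have h1 := ent_step (Θ := Θ) h2 hR x ⟨a, ha⟩ (A := fun w => cell w (a + 1)) (fun w B => by
    ext z
    rw [mem_cell, mem_cell]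
    refine forall_congr' fun e' => ?_
    refine imp_congr_right fun he' => ?_
    rw [Function.update_of_ne]
    intro h3
    rw [h3] at he'
    exact absurd he' (by simp))
  have h3 : ∀ w : Fin n → Finset M, cell w (a + 1) ∩ w ⟨a, ha⟩ = cell w a := fun w =>
    (cell_succ w ⟨a, ha⟩).symm
  simp only [h3] at h1
  exact h1

/-- Module s4 (S). (X2), interface. `DD ≤ √QQ`, `√5 ≤ 3`. -/
theorem dist_bound {M : Type} [Fintype M] [DecidableEq M] {n : ℕ} {ρ : M → M → ℝ}
    (hρ : ∀ x y, 0 ≤ ρ x y) {Θ : Soft M n} (h2 : T2 Θ ρ) {R : M → ℝ} (hR : ∀ v, 0 ≤ R v) (x : M)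
    {a : ℕ} (ha : a < n) :
    Ex Θ x (fun w => DD ρ R (cell w a) x) ≤
      3 * 2 ^ a * Real.sqrt (1 + Real.log (1 + ∑ v, R v)) := by
  have hL : 0 ≤ Real.log (1 + ∑ v, R v) := Real.log_nonneg (by
    have : 0 ≤ ∑ v, R v := Finset.sum_nonneg fun z _ => hR z
    linarith)
  have e1 := Ex_sq Θ x (fun w => DD ρ R (cell w a) x)
  have e2 : Ex Θ x (fun w => DD ρ R (cell w a) x ^ 2) ≤ Ex Θ x (fun w => QQ ρ R (cell w a) x) :=
    Ex_mono Θ x fun w => DD_sq_le hR ρ (cell w a) x
  have e3 := QQ_stage (Θ := Θ) h2 hR x ha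
  have e4 := H0_nonneg Θ hR x a
  have e5 := H0_le Θ hR x (a + 1)
  have e6 : (0 : ℝ) < 4 ^ a := by positivity
  have e7 : 5 * 4 ^ a * (H0 Θ R x (a + 1) - H0 Θ R x a) ≤
      9 * 4 ^ a * (1 + Real.log (1 + ∑ v, R v)) := by
    calc 5 * 4 ^ a * (H0 Θ R x (a + 1) - H0 Θ R x a)
        ≤ 5 * 4 ^ a * Real.log (1 + ∑ v, R v) :=
          mul_le_mul_of_nonneg_left (by linarith) (by positivity)
      _ ≤ 9 * 4 ^ a * (1 + Real.log (1 + ∑ v, R v)) := by nlinarith
  have e8 : (3 * 2 ^ a * Real.sqrt (1 + Real.log (1 + ∑ v, R v))) ^ 2 =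
      9 * 4 ^ a * (1 + Real.log (1 + ∑ v, R v)) := by
    rw [mul_pow, mul_pow, Real.sq_sqrt (by linarith), ← pow_mul, mul_comm a 2, pow_mul]
    norm_num
  refine le_of_sq_le_sq ?_ (by positivity)
  rw [e8]
  linarith

/-! ### the cells with one set replaced -/

/-- The cell of stage `a` with the set of level `j` replaced by `K`. -/
def Tc (w : Fin n → Finset M) (j : Fin n) (K : Finset M) (a : ℕ) : Finset M :=
  cell (Function.update w j K) a

/-- The entropy of the cell of stage `a`, level `j` replaced by `K`. -/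
noncomputable def HH (Θ : Soft M n) (R : M → ℝ) (x : M) (j : Fin n) (K : Finset M) (a : ℕ) : ℝ :=
  Ex Θ x (fun w => Real.log (mass R (Tc w j K a)))

/-- private helper of s5 -/
private lemma s5_HH_le (Θ : Soft M n) {R : M → ℝ} (hR : ∀ z, 0 ≤ R z) (x : M) (j : Fin n)
    (K : Finset M) (a : ℕ) : HH Θ R x j K a ≤ Real.log (1 + ∑ z, R z) := by
  rw [← Ex_const Θ x (Real.log (1 + ∑ z, R z))]
  refine Ex_mono Θ x fun w => ?_
  have h1 : 0 ≤ ∑ z ∈ Tc w j K a, R z := Finset.sum_nonneg fun z _ => hR z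
  have h2 : ∑ z ∈ Tc w j K a, R z ≤ ∑ z, R z :=
    Finset.sum_le_sum_of_subset_of_nonneg (Finset.subset_univ _) fun z _ _ => hR z
  refine Real.log_le_log ?_ ?_
  · rw [mass]; linarith
  · rw [mass]; linarith

/-- Module s5 (S/M). `e < j`: the level `e` is used (`Tc w j K e = Tc w j K (e+1) ∩ w e`, the first
set does not depend on `w e`), `ent_step`. -/
theorem Lam_lt {Θ : Soft M n} {ρ : M → M → ℝ} (h2 : T2 Θ ρ) {R : M → ℝ} (hR : ∀ z, 0 ≤ R z)
    (x : M) (j : Fin n) (K : Finset M) {e : ℕ} (he : e < (j : ℕ)) :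
    Ex Θ x (fun w => QQ ρ R (Tc w j K e) x) ≤
      5 * 4 ^ e * (HH Θ R x j K (e + 1) - HH Θ R x j K e) := by
  have hj := j.2
  let e' : Fin n := ⟨e, by omega⟩
  have hne : e' ≠ j := fun h => by
    have := congrArg Fin.val h
    simp only [e'] at this
    omega
  have h3 : ∀ w : Fin n → Finset M, Tc w j K e = Tc w j K (e + 1) ∩ w e' := fun w => by
    have h4 := cell_succ (Function.update w j K) e'
    rw [Function.update_of_ne hne] at h4
    exact h4
  have h5 : ∀ (w : Fin n → Finset M) (B : Finset M),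
      Tc (Function.update w e' B) j K (e + 1) = Tc w j K (e + 1) := fun w B => by
    ext z
    rw [Tc, Tc, mem_cell, mem_cell]
    refine forall_congr' fun l => imp_congr_right fun hl => ?_
    have hl' : l ≠ e' := fun h => by
      rw [h] at hl
      simp only [e'] at hl
      omega
    by_cases hlj : l = j
    · rw [hlj, Function.update_self, Function.update_self]
    · rw [Function.update_of_ne hlj, Function.update_of_ne hlj, Function.update_of_ne hl']
  have h6 := ent_step (A := fun w => Tc w j K (e + 1)) h2 hR x e' h5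
  have h7 : (fun w : Fin n → Finset M => QQ ρ R (Tc w j K e) x) =
      fun w => QQ ρ R (Tc w j K (e + 1) ∩ w e') x := funext fun w => by rw [h3 w]
  have h8 : (fun w : Fin n → Finset M => Real.log (mass R (Tc w j K e))) =
      fun w => Real.log (mass R (Tc w j K (e + 1) ∩ w e')) := funext fun w => by rw [h3 w]
  rw [HH, HH, h7, h8]
  exact h6

/-- private helper of s5 -/
private lemma s5_Tc (w : Fin n → Finset M) (j : Fin n) (K : Finset M) (z : M) :
    z ∈ Tc w j K j ↔ z ∈ K ∧ ∀ l : Fin n, (j : ℕ) < l → z ∈ w l := by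
  rw [Tc, mem_cell]
  constructor
  · intro h
    refine ⟨?_, fun l hl => ?_⟩
    · have := h j le_rfl
      rwa [Function.update_self] at this
    · have := h l hl.le
      rwa [Function.update_of_ne (fun h => by rw [h] at hl; exact lt_irrefl _ hl)] at this
  · rintro ⟨h1, h2⟩ l hl
    by_cases hlj : l = j
    · rw [hlj, Function.update_self]; exact h1
    · rw [Function.update_of_ne hlj]
      exact h2 l (lt_of_le_of_ne hl fun h => hlj (Fin.ext h.symm))

/-- private helper of s5 -/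
private lemma s5_mass_mono {R : M → ℝ} (hR : ∀ z, 0 ≤ R z) {A B : Finset M} (h : A ⊆ B) :
    Real.log (mass R A) ≤ Real.log (mass R B) := by
  have h1 : 0 ≤ ∑ z ∈ A, R z := Finset.sum_nonneg fun z _ => hR z
  have h2 : ∑ z ∈ A, R z ≤ ∑ z ∈ B, R z :=
    Finset.sum_le_sum_of_subset_of_nonneg h fun z _ _ => hR z
  refine Real.log_le_log ?_ ?_
  · rw [mass]; linarith
  · rw [mass, mass]; linarith

/-- Module s5 (M). `e = j`, the level `j' = j + 1` is used: `Tc w j K j = A w ∩ w j'` with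
`A w = (sets of the levels ≥ j + 2) ∩ K`, which does not depend on `w j'`, `ent_step`; and
`A w ⊆ Tc w j' K' j'` because `K ⊆ K'` (`mass`, `log` monotone). -/
theorem Lam_eq {Θ : Soft M n} {ρ : M → M → ℝ} (h2 : T2 Θ ρ) {R : M → ℝ} (hR : ∀ z, 0 ≤ R z)
    (x : M) (j j' : Fin n) (hj : (j' : ℕ) = j + 1) {K K' : Finset M} (hK : K ⊆ K') :
    Ex Θ x (fun w => QQ ρ R (Tc w j K j) x) ≤
      5 * 4 ^ ((j : ℕ) + 1) * (HH Θ R x j' K' j' - HH Θ R x j K j) := by
  let A : (Fin n → Finset M) → Finset M := fun w => cell w ((j : ℕ) + 2) ∩ K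
  have h3 : ∀ w : Fin n → Finset M, Tc w j K j = A w ∩ w j' := fun w => by
    ext z
    rw [s5_Tc]
    simp only [A, Finset.mem_inter, mem_cell]
    constructor
    · rintro ⟨h4, h5⟩
      exact ⟨⟨fun l hl => h5 l (by omega), h4⟩, h5 j' (by omega)⟩
    · rintro ⟨⟨h4, h5⟩, h6⟩
      refine ⟨h5, fun l hl => ?_⟩
      rcases eq_or_lt_of_le (Nat.succ_le_of_lt hl) with h | h
      · have : l = j' := Fin.ext (by omega)
        rw [this]; exact h6
      · exact h4 l (by omega)
  have h5 : ∀ (w : Fin n → Finset M) (B : Finset M), A (Function.update w j' B) = A w :=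
    fun w B => by
    ext z
    simp only [A, Finset.mem_inter, mem_cell]
    refine and_congr_left fun _ => forall_congr' fun l => imp_congr_right fun hl => ?_
    rw [Function.update_of_ne (fun h => by rw [h] at hl; omega)]
  have h6 := ent_step h2 hR x j' h5
  have h7 : (fun w : Fin n → Finset M => QQ ρ R (Tc w j K j) x) =
      fun w => QQ ρ R (A w ∩ w j') x := funext fun w => by rw [h3 w]
  have h8 : (fun w : Fin n → Finset M => Real.log (mass R (Tc w j K j))) =
      fun w => Real.log (mass R (A w ∩ w j')) := funext fun w => by rw [h3 w]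
  have h9 : Ex Θ x (fun w => Real.log (mass R (A w))) ≤ HH Θ R x j' K' j' := by
    refine Ex_mono Θ x fun w => s5_mass_mono hR fun z hz => ?_
    rw [s5_Tc]
    simp only [A, Finset.mem_inter, mem_cell] at hz
    exact ⟨hK hz.2, fun l hl => hz.1 l (by omega)⟩
  have h10 : HH Θ R x j K j = Ex Θ x (fun w => Real.log (mass R (A w ∩ w j'))) := by
    rw [HH, h8]
  rw [h7, h10, ← hj]
  refine h6.trans (mul_le_mul_of_nonneg_left ?_ (by positivity))
  linarith

/-- Module s5 (S). The last level of a block: the same with `log (1 + ∑ R)` instead of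
`HH j' K' j'` if there is a level `j + 1`, and `QQ ≤ (2^n)² = 4 · 4^j` if `j + 1 = n`. -/
theorem Lam_top {Θ : Soft M n} {ρ : M → M → ℝ} (h2 : T2 Θ ρ) (hρ : ∀ x y, 0 ≤ ρ x y)
    (hρn : ∀ x y, ρ x y ≤ 2 ^ n) {R : M → ℝ} (hR : ∀ z, 0 ≤ R z)
    (x : M) (j : Fin n) (K : Finset M) :
    Ex Θ x (fun w => QQ ρ R (Tc w j K j) x) ≤
      4 ^ (j : ℕ) * (20 * (Real.log (1 + ∑ z, R z) - HH Θ R x j K j) + 4) := by
  have h4 : (0 : ℝ) < 4 ^ (j : ℕ) := by positivity
  have hle : HH Θ R x j K j ≤ Real.log (1 + ∑ z, R z) := s5_HH_le Θ hR x j K j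
  rcases Nat.lt_or_ge ((j : ℕ) + 1) n with h | h
  · have h5 := Lam_eq h2 hR x j ⟨(j : ℕ) + 1, h⟩ rfl (Finset.subset_univ K)
    have h6 : HH Θ R x ⟨(j : ℕ) + 1, h⟩ Finset.univ ((⟨(j : ℕ) + 1, h⟩ : Fin n) : ℕ) ≤
        Real.log (1 + ∑ z, R z) := s5_HH_le Θ hR x _ _ _
    refine h5.trans ?_
    rw [pow_succ]
    have h7 : (5 : ℝ) * (4 ^ (j : ℕ) * 4) *
        (HH Θ R x ⟨(j : ℕ) + 1, h⟩ Finset.univ ((⟨(j : ℕ) + 1, h⟩ : Fin n) : ℕ) -
          HH Θ R x j K j) ≤ 5 * (4 ^ (j : ℕ) * 4) *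
        (Real.log (1 + ∑ z, R z) - HH Θ R x j K j) :=
      mul_le_mul_of_nonneg_left (by linarith) (by positivity)
    refine h7.trans ?_
    nlinarith
  · have hj : n = (j : ℕ) + 1 := by have := j.2; omega
    have h5 : ∀ A : Finset M, QQ ρ R A x ≤ 4 ^ (j : ℕ) * 4 := fun A => by
      have h6 : 0 ≤ ∑ z ∈ A, R z := Finset.sum_nonneg fun z _ => hR z
      rw [QQ, div_le_iff₀ (by rw [mass]; linarith)]
      have h7 : ∑ z ∈ A, R z * ρ x z ^ 2 ≤ ∑ z ∈ A, R z * (4 ^ (j : ℕ) * 4) := by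
        refine Finset.sum_le_sum fun z _ => mul_le_mul_of_nonneg_left ?_ (hR z)
        have h8 := hρn x z
        have h9 : ρ x z ^ 2 ≤ (2 ^ n) ^ 2 := pow_le_pow_left₀ (hρ x z) h8 2
        refine h9.trans (le_of_eq ?_)
        have h21 : ((2 : ℝ) ^ n) ^ 2 = 4 ^ n := by
          rw [← pow_mul, mul_comm n 2, pow_mul]; norm_num
        have h22 : (4 : ℝ) ^ n = 4 ^ ((j : ℕ) + 1) := congrArg (fun k : ℕ => (4 : ℝ) ^ k) hj
        rw [h21, h22, pow_succ]
      rw [← Finset.sum_mul] at h7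
      rw [mass]
      nlinarith
    have h10 : Ex Θ x (fun w => QQ ρ R (Tc w j K j) x) ≤ 4 ^ (j : ℕ) * 4 := by
      rw [← Ex_const Θ x (4 ^ (j : ℕ) * 4)]
      exact Ex_mono Θ x fun w => h5 _
    refine h10.trans (mul_le_mul_of_nonneg_left ?_ h4.le)
    linarith

private theorem s6_one_le {R : M → ℝ} (hR : ∀ z, 0 ≤ R z) (A : Finset M) : 1 ≤ mass R A := by
  have h := Finset.sum_nonneg fun z (_ : z ∈ A) => hR z
  unfold mass
  linarith

private theorem s6_log {R : M → ℝ} (hR : ∀ z, 0 ≤ R z) {A B : Finset M} (h : A ⊆ B) :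
    Real.log (mass R A) ≤ Real.log (mass R B) := by
  refine Real.log_le_log (lt_of_lt_of_le one_pos (s6_one_le hR A)) ?_
  unfold mass
  have h1 := Finset.sum_le_sum_of_subset_of_nonneg h fun z _ _ => hR z
  linarith

/-- Module s6 (S). Comparison: `j' < j`, `K' ⊆ K`: `Tc w j' K' j' ⊆ Tc w j K (j' + 1)`..
(`z ∈ Tc w j' K' j'` iff `z ∈ K'` and `z ∈ w l` for all `l > j'`.) -/
theorem HH_comp (Θ : Soft M n) {R : M → ℝ} (hR : ∀ z, 0 ≤ R z) (x : M) {j j' : Fin n}
    (hj : (j' : ℕ) < j) {K K' : Finset M} (hK : K' ⊆ K) :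
    HH Θ R x j' K' j' ≤ HH Θ R x j K ((j' : ℕ) + 1) := by
  unfold HH
  refine Ex_mono Θ x fun w => s6_log hR ?_
  intro z hz
  unfold Tc at hz ⊢
  rw [mem_cell] at hz ⊢
  have h1 : z ∈ K' := by
    have h2 := hz j' le_rfl
    rwa [Function.update_self] at h2
  intro e he
  by_cases hej : e = j
  · subst hej
    rw [Function.update_self]
    exact hK h1
  · have hne : e ≠ j' := by
      rintro rfl
      omega
    have h3 := hz e (by omega)
    rw [Function.update_of_ne hne] at h3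
    rw [Function.update_of_ne hej]
    exact h3

/-- Module s6 (S). -/
theorem HH_mono (Θ : Soft M n) {R : M → ℝ} (hR : ∀ z, 0 ≤ R z) (x : M) (j : Fin n) (K : Finset M)
    {a b : ℕ} (hab : a ≤ b) : HH Θ R x j K a ≤ HH Θ R x j K b := by
  unfold HH
  exact Ex_mono Θ x fun w => s6_log hR (cell_anti _ hab)

/-- Module s6 (S). -/
theorem HH_nonneg (Θ : Soft M n) {R : M → ℝ} (hR : ∀ z, 0 ≤ R z) (x : M) (j : Fin n) (K : Finset M)
    (a : ℕ) : 0 ≤ HH Θ R x j K a := by
  unfold HH
  exact Ex_nonneg Θ x fun w => Real.log_nonneg (s6_one_le hR _)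

/-- Module s6 (S). -/
theorem HH_le (Θ : Soft M n) {R : M → ℝ} (hR : ∀ z, 0 ≤ R z) (x : M) (j : Fin n) (K : Finset M)
    (a : ℕ) : HH Θ R x j K a ≤ Real.log (1 + ∑ z, R z) := by
  unfold HH
  have h1 : Ex Θ x (fun w => Real.log (mass R (Tc w j K a))) ≤
      Ex Θ x (fun _ => Real.log (1 + ∑ z, R z)) :=
    Ex_mono Θ x fun w => s6_log hR (Finset.subset_univ _)
  rwa [Ex_const] at h1

end Pool.Agent.L2U
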