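import Pool.Agent.L2U.Step

set_option linter.unusedSectionVars false

/-!
The feature distances of the soft tree.
-/

namespace Pool.Agent.L2U

open Finset Pool.Agent.MP_12e089_an

variable {M : Type} [Fintype M] [DecidableEq M] {n : ℕ}

/-- The fraction of the mass of `S` in `A` which lies in the cut `χ`. -/
noncomputable def bar (S χ : M → ℝ) (A : Finset M) : ℝ := (∑ z ∈ A, χ z * S z) / ∑ z ∈ A, S z

/-- The feature distance of `S` and `T` for the children `P ∩ B` of the cell `P`. -/
noncomputable def XS (θ : Finset M → ℝ) (χ S T : M → ℝ) (P : Finset M) : ℝ :=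
  ∑ B : Finset M, θ B * LogS.dst (∑ z ∈ P ∩ B, S z) (∑ z ∈ P ∩ B, T z)
    (bar S χ (P ∩ B) - bar S χ P) (bar T χ (P ∩ B) - bar T χ P)

/-- The label `w` with the sets below stage `a` erased. -/
def mk (a : ℕ) (w : Fin n → Finset M) : Fin n → Finset M := fun e => if a ≤ (e : ℕ) then w e else ∅

/-- The weight of a label at stage `a`. -/
noncomputable def wt (Θ : Soft M n) (a : ℕ) (w : Fin n → Finset M) : ℝ :=
  if mk a w = w then ∏ e : Fin n, (if a ≤ (e : ℕ) then Θ.θ e (w e) else 1) else 0

/-- The feature distance of level `e`. -/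
noncomputable def XX (Θ : Soft M n) (e : Fin n) (χ S T : M → ℝ) : ℝ :=
  ∑ w : Fin n → Finset M, wt Θ ((e : ℕ) + 1) w * XS (Θ.θ e) χ S T (cell w ((e : ℕ) + 1))

/-- The first moments at stage `a`. -/
noncomputable def BT (Θ : Soft M n) (a : ℕ) (χ S T : M → ℝ) : ℝ :=
  ∑ w : Fin n → Finset M, wt Θ a w * |∑ z ∈ cell w a, χ z * (S z - T z)|

/-- The counting distance at stage `a`. -/
noncomputable def CT (Θ : Soft M n) (a : ℕ) (S T : M → ℝ) : ℝ :=
  ∑ w : Fin n → Finset M, wt Θ a w * |∑ z ∈ cell w a, (S z - T z)|

lemma mk_mk {a b : ℕ} (hab : a ≤ b) (w : Fin n → Finset M) : mk b (mk a w) = mk b w := by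
  funext e
  unfold mk
  by_cases h : b ≤ (e : ℕ)
  · rw [if_pos h, if_pos h, if_pos (hab.trans h)]
  · rw [if_neg h, if_neg h]

lemma cell_mk (a : ℕ) (w : Fin n → Finset M) : cell (mk a w) a = cell w a := by
  ext z
  simp only [mem_cell, mk]
  constructor
  · intro h e he
    have := h e he
    rwa [if_pos he] at this
  · intro h e he
    rw [if_pos he]; exact h e he

lemma cell_mk' {a b : ℕ} (hab : a ≤ b) (w : Fin n → Finset M) : cell (mk a w) b = cell w b := by
  rw [← cell_mk b (mk a w), mk_mk hab, cell_mk]

lemma wt_nonneg (Θ : Soft M n) (a : ℕ) (w : Fin n → Finset M) : 0 ≤ wt Θ a w := by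
  unfold wt
  split_ifs
  · exact Finset.prod_nonneg fun e _ => by
      split_ifs
      · exact Θ.nn e _
      · exact zero_le_one
  · exact le_rfl

/-- Module `pmk`.  The labels `w` with a given label `u` of stage `a`.

Proof.  If `mk a u ≠ u` both sides are `0` (`mk_mk`).  Otherwise `mk a w = u` means `w e = u e` for
`a ≤ e` (and nothing for `e < a`, where `u e = ∅`); the sum is a product over `e`
(`Finset.sum_prod_piFinset`, as in `sum_px`), with the factor
`∑ B, if B = u e ∧ z ∈ B then θ e B else 0 = if z ∈ u e then θ e (u e) else 0` for `a ≤ e`, and `1` for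
`e < a` (`Θ.one`). -/
theorem sum_px_mk (Θ : Soft M n) (z : M) (a : ℕ) (u : Fin n → Finset M) :
    ∑ w : Fin n → Finset M, (if mk a w = u then px Θ z w else 0) =
      wt Θ a u * (if z ∈ cell u a then 1 else 0) := by
  classical
  by_cases hu : mk a u = u
  · have h1 : ∀ w : Fin n → Finset M, (if mk a w = u then px Θ z w else 0) =
        ∏ e : Fin n, (if a ≤ (e : ℕ) then (if w e = u e then (if z ∈ w e then Θ.θ e (w e) else 0)
          else 0) else (if z ∈ w e then Θ.θ e (w e) else 0)) := by
      intro w
      by_cases hw : mk a w = u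
      · rw [if_pos hw, px]
        refine Finset.prod_congr rfl fun e _ => ?_
        by_cases he : a ≤ (e : ℕ)
        · have h4 : w e = u e := by
            rw [← hw, mk, if_pos he]
          rw [if_pos he, if_pos h4]
        · rw [if_neg he]
      · rw [if_neg hw]
        have h2 : ∃ e : Fin n, a ≤ (e : ℕ) ∧ w e ≠ u e := by
          by_contra hne
          push Not at hne
          refine hw ?_
          funext e
          by_cases he : a ≤ (e : ℕ)
          · rw [mk, if_pos he, hne e he]
          · rw [mk, if_neg he]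
            have h3 := congrFun hu e
            rw [mk, if_neg he] at h3
            exact h3
        obtain ⟨e, he, hne⟩ := h2
        symm
        refine Finset.prod_eq_zero (Finset.mem_univ e) ?_
        rw [if_pos he, if_neg hne]
    rw [Finset.sum_congr rfl fun w _ => h1 w, ← Fintype.piFinset_univ,
      Finset.sum_prod_piFinset Finset.univ (fun (e : Fin n) (B : Finset M) =>
        (if a ≤ (e : ℕ) then (if B = u e then (if z ∈ B then Θ.θ e B else 0) else 0)
          else (if z ∈ B then Θ.θ e B else 0)))]
    have h3 : ∀ e : Fin n, (∑ B : Finset M, (if a ≤ (e : ℕ) then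
        (if B = u e then (if z ∈ B then Θ.θ e B else 0) else 0)
          else (if z ∈ B then Θ.θ e B else 0))) =
        (if a ≤ (e : ℕ) then (if z ∈ u e then Θ.θ e (u e) else 0) else 1) := by
      intro e
      by_cases he : a ≤ (e : ℕ)
      · simp only [if_pos he]
        rw [Finset.sum_ite_eq' Finset.univ (u e), if_pos (Finset.mem_univ _)]
      · simp only [if_neg he]
        exact Θ.one e z
    rw [Finset.prod_congr rfl fun e _ => h3 e, wt, if_pos hu]
    by_cases hz : z ∈ cell u a
    · rw [if_pos hz, mul_one]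
      rw [mem_cell] at hz
      refine Finset.prod_congr rfl fun e _ => ?_
      by_cases he : a ≤ (e : ℕ)
      · rw [if_pos he, if_pos he, if_pos (hz e he)]
      · rw [if_neg he, if_neg he]
    · rw [if_neg hz, mul_zero]
      rw [mem_cell] at hz
      push Not at hz
      obtain ⟨e, he, hne⟩ := hz
      refine Finset.prod_eq_zero (Finset.mem_univ e) ?_
      rw [if_pos he, if_neg hne]
  · have h1 : wt Θ a u = 0 := by
      rw [wt, if_neg hu]
    rw [h1, zero_mul]
    refine Finset.sum_eq_zero fun w _ => ?_
    rw [if_neg]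
    intro hw
    refine hu ?_
    rw [← hw, mk_mk le_rfl]

end Pool.Agent.L2U
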