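import Pool.Agent.L2U.Loc

set_option linter.unusedSectionVars false

/-!
The effect of one moved point on the features of a level, in terms of the expectations `Ex`.
Modules `wex` (`wt_Ex`, `wt_Ex2`, `Ex_marg`), `lvf` (`lev_far`), `lvn` (`lev_near`),
`rlp` (`CT_lip`, `BT_lip`), `spr` (`sep_prob`).
-/

namespace Pool.Agent.L2U

open Finset Pool.Agent.MP_12e089_an Pool.Agent.MP_12e089_an.LogS

variable {M : Type} [Fintype M] [DecidableEq M] {n : ℕ}

/-- Independence of the set of level `e` from the rest. -/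
private lemma wex_indep (Θ : Soft M n) (x : M) (e : Fin n)
    (Φ : (Fin n → Finset M) → Finset M → ℝ)
    (hΦ : ∀ w B B', Φ (Function.update w e B') B = Φ w B) :
    Ex Θ x (fun w => Φ w (w e)) =
      ∑ B : Finset M, (if x ∈ B then Θ.θ e B * Ex Θ x (fun w => Φ w B) else 0) := by
  classical
  set q : Fin n → Finset M → ℝ := fun e B => if x ∈ B then Θ.θ e B else 0 with hq
  set r : (Fin n → Finset M) → ℝ := fun w => ∏ e' ∈ Finset.univ.erase e, q e' (w e') with hr
  have hpx : ∀ w, px Θ x w = q e (w e) * r w := by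
    intro w
    unfold px
    rw [← Finset.mul_prod_erase Finset.univ _ (Finset.mem_univ e)]
  have hrup : ∀ w B, r (Function.update w e B) = r w := by
    intro w B
    refine Finset.prod_congr rfl fun e' he' => ?_
    rw [Function.update_of_ne (Finset.ne_of_mem_erase he')]
  have hR : ∑ B : Finset M, (if x ∈ B then Θ.θ e B * Ex Θ x (fun w => Φ w B) else 0) =
      ∑ p : Finset M × (Fin n → Finset M), q e p.1 * (q e (p.2 e) * r p.2 * Φ p.2 p.1) := by
    rw [Fintype.sum_prod_type]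
    refine Finset.sum_congr rfl fun B _ => ?_
    have h0 : ∑ w : Fin n → Finset M, q e B * (q e (w e) * r w * Φ w B) =
        q e B * ∑ w : Fin n → Finset M, px Θ x w * Φ w B := by
      rw [Finset.mul_sum]
      exact Finset.sum_congr rfl fun w _ => by rw [hpx]
    refine Eq.trans ?_ h0.symm
    unfold Ex
    by_cases hx : x ∈ B
    · rw [if_pos hx]
      simp only [hq, if_pos hx]
    · rw [if_neg hx]
      simp only [hq, if_neg hx, zero_mul]
  let σ : Finset M × (Fin n → Finset M) → Finset M × (Fin n → Finset M) :=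
    fun p => (p.2 e, Function.update p.2 e p.1)
  have hσ : Function.Involutive σ := by
    rintro ⟨B, w⟩
    simp only [σ, Function.update_self, Function.update_idem, Function.update_eq_self]
  have hcomp := Equiv.sum_comp (Function.Involutive.toPerm σ hσ)
    (fun p : Finset M × (Fin n → Finset M) => q e p.1 * (q e (p.2 e) * r p.2 * Φ p.2 p.1))
  rw [hR, ← hcomp]
  have hterm : ∀ p : Finset M × (Fin n → Finset M),
      (fun p : Finset M × (Fin n → Finset M) => q e p.1 * (q e (p.2 e) * r p.2 * Φ p.2 p.1))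
        ((Function.Involutive.toPerm σ hσ) p) =
        q e p.1 * (q e (p.2 e) * r p.2 * Φ p.2 (p.2 e)) := by
    rintro ⟨B, w⟩
    show q e (w e) * (q e (Function.update w e B e) * r (Function.update w e B) *
      Φ (Function.update w e B) (w e)) = _
    rw [Function.update_self, hrup, hΦ]
    ring
  rw [Finset.sum_congr rfl fun p _ => hterm p, Fintype.sum_prod_type]
  simp only []
  have h1 : ∑ B : Finset M, ∑ w : Fin n → Finset M, q e B * (q e (w e) * r w * Φ w (w e)) =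
      (∑ B : Finset M, q e B) * ∑ w : Fin n → Finset M, q e (w e) * r w * Φ w (w e) := by
    rw [Finset.sum_mul_sum]
  rw [h1]
  have h2 : ∑ B : Finset M, q e B = 1 := Θ.one e x
  rw [h2, one_mul]
  unfold Ex
  exact Finset.sum_congr rfl fun w _ => by rw [hpx]

/-- Module `wex`.  Proof.  Sum `sum_px_mk` over `u` (with the factor `G (cell u a)`, and
`cell u a = cell w a` if `mk a w = u`, by `cell_mk`). -/
theorem wt_Ex (Θ : Soft M n) (x : M) (a : ℕ) (G : Finset M → ℝ) :
    ∑ w : Fin n → Finset M, wt Θ a w * (if x ∈ cell w a then G (cell w a) else 0) =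
      Ex Θ x (fun w => G (cell w a)) := by
  have h1 : ∀ u : Fin n → Finset M, wt Θ a u * (if x ∈ cell u a then G (cell u a) else 0) =
      ∑ w : Fin n → Finset M, (if mk a w = u then px Θ x w * G (cell w a) else 0) := by
    intro u
    have h2 : ∀ w : Fin n → Finset M, (if mk a w = u then px Θ x w * G (cell w a) else 0) =
        (if mk a w = u then px Θ x w else 0) * G (cell u a) := by
      intro w
      by_cases h : mk a w = u
      · rw [if_pos h, if_pos h, ← h, cell_mk]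
      · rw [if_neg h, if_neg h, zero_mul]
    rw [Finset.sum_congr rfl fun w _ => h2 w, ← Finset.sum_mul, sum_px_mk]
    by_cases hx : x ∈ cell u a
    · rw [if_pos hx, if_pos hx, mul_one]
    · rw [if_neg hx, if_neg hx, mul_zero, zero_mul]
  rw [Finset.sum_congr rfl fun u _ => h1 u, Finset.sum_comm]
  unfold Ex
  refine Finset.sum_congr rfl fun w _ => ?_
  rw [Finset.sum_ite_eq, if_pos (Finset.mem_univ _)]

/-- Module `wex`.  The joint law of the cell of stage `e + 1` and the set of level `e`.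

Proof.  As `wt_Ex`: the labels `w` with `mk (e + 1) w = u`, `w e = B`; `px Θ x w` is a product over the
levels (for the levels below `e` sum with `Θ.one`).  (For instance from `sum_px_mk` at stage `e`: the
label `u'` of stage `e` with `u' e = B` and `mk (e + 1) u' = u` has
`wt Θ e u' = wt Θ (e + 1) u * θ e B`.) -/
theorem wt_Ex2 (Θ : Soft M n) (x : M) (e : Fin n) (H : Finset M → Finset M → ℝ) :
    ∑ w : Fin n → Finset M, wt Θ ((e : ℕ) + 1) w * (if x ∈ cell w ((e : ℕ) + 1) then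
      ∑ B : Finset M, (if x ∈ B then Θ.θ e B * H (cell w ((e : ℕ) + 1)) B else 0) else 0) =
      Ex Θ x (fun w => H (cell w ((e : ℕ) + 1)) (w e)) := by
  have hcell : ∀ (w : Fin n → Finset M) (B : Finset M),
      cell (Function.update w e B) ((e : ℕ) + 1) = cell w ((e : ℕ) + 1) := by
    intro w B
    ext z
    simp only [mem_cell]
    refine forall_congr' fun e' => ?_
    refine forall_congr' fun he' => ?_
    have hne : e' ≠ e := by
      rintro rfl
      omega
    rw [Function.update_of_ne hne]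
  rw [wex_indep Θ x e (fun w B => H (cell w ((e : ℕ) + 1)) B) (fun w B B' => by
    simp only [hcell])]
  have h1 : ∀ w : Fin n → Finset M, wt Θ ((e : ℕ) + 1) w * (if x ∈ cell w ((e : ℕ) + 1) then
      ∑ B : Finset M, (if x ∈ B then Θ.θ e B * H (cell w ((e : ℕ) + 1)) B else 0) else 0) =
      ∑ B : Finset M, (if x ∈ B then Θ.θ e B * (wt Θ ((e : ℕ) + 1) w *
        (if x ∈ cell w ((e : ℕ) + 1) then H (cell w ((e : ℕ) + 1)) B else 0)) else 0) := by
    intro w
    by_cases hx : x ∈ cell w ((e : ℕ) + 1)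
    · rw [if_pos hx, Finset.mul_sum]
      refine Finset.sum_congr rfl fun B _ => ?_
      by_cases hB : x ∈ B
      · rw [if_pos hB, if_pos hB, if_pos hx]; ring
      · rw [if_neg hB, if_neg hB, mul_zero]
    · rw [if_neg hx, mul_zero]
      symm
      refine Finset.sum_eq_zero fun B _ => ?_
      rw [if_neg hx, mul_zero, mul_zero]
      split_ifs <;> rfl
  rw [Finset.sum_congr rfl fun w _ => h1 w, Finset.sum_comm]
  refine Finset.sum_congr rfl fun B _ => ?_
  by_cases hB : x ∈ B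
  · simp only [if_pos hB]
    rw [← Finset.mul_sum, wt_Ex Θ x ((e : ℕ) + 1) (fun A => H A B)]
  · simp only [if_neg hB, Finset.sum_const_zero]

/-- Module `wex`.  Marginals. -/
theorem Ex_marg (Θ : Soft M n) (x : M) (e : Fin n) (G : Finset M → ℝ) :
    Ex Θ x (fun w => G (w e)) = ∑ B : Finset M, (if x ∈ B then Θ.θ e B * G B else 0) := by
  rw [wex_indep Θ x e (fun _ B => G B) (fun _ _ _ => rfl)]
  refine Finset.sum_congr rfl fun B _ => ?_
  rw [Ex_const]

/-- The cut (pseudo-)metric of weighted cuts. -/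
noncomputable def cm {N : ℕ} (μ : Fin N → ℝ) (χ : Fin N → M → ℝ) (x y : M) : ℝ :=
  ∑ ω, μ ω * |χ ω x - χ ω y|

lemma cm_nonneg {N : ℕ} {μ : Fin N → ℝ} (hμ : ∀ ω, 0 ≤ μ ω) (χ : Fin N → M → ℝ) (x y : M) :
    0 ≤ cm μ χ x y := Finset.sum_nonneg fun ω _ => mul_nonneg (hμ ω) (abs_nonneg _)

lemma cm_symm {N : ℕ} (μ : Fin N → ℝ) (χ : Fin N → M → ℝ) (x y : M) :
    cm μ χ x y = cm μ χ y x := Finset.sum_congr rfl fun ω _ => by rw [abs_sub_comm]

lemma od_sum {N : ℕ} (μ : Fin N → ℝ) (χ : Fin N → M → ℝ) (R : M → ℝ) (A : Finset M) (x : M) :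
    ∑ ω, μ ω * od (χ ω) R A x = DD (cm μ χ) R A x := by
  have h : ∀ ω, μ ω * od (χ ω) R A x =
      (∑ z ∈ A, R z * (μ ω * |χ ω x - χ ω z|)) / (1 + ∑ z ∈ A, R z) := by
    intro ω
    unfold od
    rw [← mul_div_assoc, Finset.mul_sum]
    congr 1
    exact Finset.sum_congr rfl fun z _ => by ring
  rw [Finset.sum_congr rfl fun ω _ => h ω, ← Finset.sum_div, Finset.sum_comm]
  unfold DD cm
  congr 1
  exact Finset.sum_congr rfl fun z _ => by rw [Finset.mul_sum]

private lemma lvf_nat (R : M → ℕ) (x : M) : addPt (fun v => (R v : ℝ)) x =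
    fun v => ((R v + if v = x then 1 else 0 : ℕ) : ℝ) := by
  funext v
  unfold addPt
  split_ifs <;> simp

private lemma lvf_self (θ : Finset M → ℝ) (χ S : M → ℝ) (P : Finset M) :
    XS θ χ S S P = 0 := by
  unfold XS
  refine Finset.sum_eq_zero fun B _ => ?_
  have h : LogS.dst (∑ z ∈ P ∩ B, S z) (∑ z ∈ P ∩ B, S z)
      (bar S χ (P ∩ B) - bar S χ P) (bar S χ (P ∩ B) - bar S χ P) = 0 := by
    unfold LogS.dst
    rw [sub_self, sub_self, abs_zero, mul_zero, pos_of_nonneg le_rfl]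
    ring
  rw [h, mul_zero]

/-- The bound for one point and one cell. -/
private noncomputable def lvfg (θ : Finset M → ℝ) (χ R : M → ℝ) (x : M) (P : Finset M) : ℝ :=
  if x ∈ P then 2 * od χ R P x +
    2 * ∑ B : Finset M, (if x ∈ B then θ B * od χ R (P ∩ B) x else 0) else 0

private lemma lvf_pt {θ : Finset M → ℝ} (hθ : Cov θ) {R χ : M → ℝ} (hR : ∀ v, 0 ≤ R v)
    (hχ : ∀ v, χ v = 0 ∨ χ v = 1) (P : Finset M) (x : M) :
    XS θ χ (addPt R x) R P ≤ lvfg θ χ R x P := by
  unfold lvfg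
  by_cases hx : x ∈ P
  · rw [if_pos hx]
    exact XS_add hθ hR hχ hx
  · rw [if_neg hx, (XS_out hx R).1, lvf_self]

private lemma lvf_sum (Θ : Soft M n) (e : Fin n) (χ R : M → ℝ) (x : M) :
    ∑ w : Fin n → Finset M, wt Θ ((e : ℕ) + 1) w *
      lvfg (Θ.θ e) χ R x (cell w ((e : ℕ) + 1)) =
    2 * Ex Θ x (fun w => od χ R (cell w e) x + od χ R (cell w ((e : ℕ) + 1)) x) := by
  have h1 := wt_Ex Θ x ((e : ℕ) + 1) (fun A => od χ R A x)
  have h2 := wt_Ex2 Θ x e (fun P B => od χ R (P ∩ B) x)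
  have h3 : (fun w : Fin n → Finset M => od χ R (cell w e) x) =
      fun w => od χ R (cell w ((e : ℕ) + 1) ∩ w e) x := by
    funext w
    rw [← cell_succ]
  rw [Ex_add, h3, ← h1, ← h2, mul_add, Finset.mul_sum, Finset.mul_sum,
    ← Finset.sum_add_distrib]
  refine Finset.sum_congr rfl fun w _ => ?_
  unfold lvfg
  split_ifs
  · ring
  · ring

private lemma lvf_one {χ : M → ℝ} (hχ : ∀ v, χ v = 0 ∨ χ v = 1) (Θ : Soft M n) (e : Fin n)
    (R : M → ℕ) (x y : M) :
    XX Θ e χ (addPt (fun v => (R v : ℝ)) x) (addPt (fun v => (R v : ℝ)) y) ≤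
      2 * Ex Θ x (fun w => od χ (fun v => (R v : ℝ)) (cell w e) x +
        od χ (fun v => (R v : ℝ)) (cell w ((e : ℕ) + 1)) x) +
      2 * Ex Θ y (fun w => od χ (fun v => (R v : ℝ)) (cell w e) y +
        od χ (fun v => (R v : ℝ)) (cell w ((e : ℕ) + 1)) y) := by
  have hR : ∀ v, (0 : ℝ) ≤ (R v : ℝ) := fun v => Nat.cast_nonneg _
  have hθ : Cov (Θ.θ e) := ⟨Θ.nn e, Θ.one e⟩
  rw [← lvf_sum, ← lvf_sum, ← Finset.sum_add_distrib]
  unfold XX
  refine Finset.sum_le_sum fun w _ => ?_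
  rw [← mul_add]
  refine mul_le_mul_of_nonneg_left ?_ (wt_nonneg _ _ _)
  set P := cell w ((e : ℕ) + 1)
  have h1 : XS (Θ.θ e) χ (addPt (fun v => (R v : ℝ)) x) (addPt (fun v => (R v : ℝ)) y) P ≤
      XS (Θ.θ e) χ (addPt (fun v => (R v : ℝ)) x) (fun v => (R v : ℝ)) P +
      XS (Θ.θ e) χ (fun v => (R v : ℝ)) (addPt (fun v => (R v : ℝ)) y) P := by
    rw [lvf_nat, lvf_nat]
    exact XS_tri (Θ.nn e) χ _ R _ P
  rw [XS_symm (Θ.θ e) χ (fun v => (R v : ℝ))] at h1
  exact h1.trans (add_le_add (lvf_pt hθ hR hχ P x) (lvf_pt hθ hR hχ P y))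

private lemma lvf_DD {N : ℕ} (μ : Fin N → ℝ) (χ : Fin N → M → ℝ) (Θ : Soft M n) (R : M → ℝ)
    (x : M) (a b : ℕ) :
    ∑ ω, μ ω * Ex Θ x (fun w => od (χ ω) R (cell w a) x + od (χ ω) R (cell w b) x) =
      Ex Θ x (fun w => DD (cm μ χ) R (cell w a) x + DD (cm μ χ) R (cell w b) x) := by
  have h1 : ∀ w : Fin n → Finset M, DD (cm μ χ) R (cell w a) x + DD (cm μ χ) R (cell w b) x =
      ∑ ω, μ ω * (od (χ ω) R (cell w a) x + od (χ ω) R (cell w b) x) := by
    intro w
    rw [← od_sum, ← od_sum, ← Finset.sum_add_distrib]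
    exact Finset.sum_congr rfl fun ω _ => (mul_add _ _ _).symm
  rw [show (fun w : Fin n → Finset M => DD (cm μ χ) R (cell w a) x +
    DD (cm μ χ) R (cell w b) x) = fun w => ∑ ω, μ ω * (od (χ ω) R (cell w a) x +
      od (χ ω) R (cell w b) x) from funext h1, Ex_sum]
  exact Finset.sum_congr rfl fun ω _ => (Ex_smul _ _ _ _).symm

/-- Module `lvf`.  A level with a small scale (no separation is used).

Proof.  For one cut `χ` and one cell `P`: `XS_tri` through `R`, `XS_symm`, and `XS_add` if the point lies in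
`P`, `XS_out` (and `XS θ χ R R P = 0`) if not.  Sum over the labels with `wt Θ (e + 1)`: `wt_Ex` for
`od (cell w (e + 1))` and `wt_Ex2` (`cell_succ`: `cell w (e + 1) ∩ w e = cell w e`) for the other term;
sum over the cuts with `od_sum` (`Ex` is linear: `Ex_sum`, `Ex_smul`). -/
theorem lev_far {N : ℕ} {μ : Fin N → ℝ} (hμ : ∀ ω, 0 ≤ μ ω) {χ : Fin N → M → ℝ}
    (hχ : ∀ ω v, χ ω v = 0 ∨ χ ω v = 1) (Θ : Soft M n) (e : Fin n) (R : M → ℕ) (x y : M) :
    ∑ ω, μ ω * XX Θ e (χ ω) (addPt (fun v => (R v : ℝ)) x) (addPt (fun v => (R v : ℝ)) y) ≤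
      2 * Ex Θ x (fun w => DD (cm μ χ) (fun v => (R v : ℝ)) (cell w e) x +
        DD (cm μ χ) (fun v => (R v : ℝ)) (cell w ((e : ℕ) + 1)) x) +
      2 * Ex Θ y (fun w => DD (cm μ χ) (fun v => (R v : ℝ)) (cell w e) y +
        DD (cm μ χ) (fun v => (R v : ℝ)) (cell w ((e : ℕ) + 1)) y) := by
  rw [← lvf_DD, ← lvf_DD, Finset.mul_sum, Finset.mul_sum, ← Finset.sum_add_distrib]
  refine Finset.sum_le_sum fun ω _ => ?_
  refine (mul_le_mul_of_nonneg_left (lvf_one (hχ ω) Θ e R x y) (hμ ω)).trans (le_of_eq ?_)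
  ring

/-- One cell, one cut: the three kinds of terms. -/
private lemma lvn_cell (Θ : Soft M n) (e : Fin n) {χ R : M → ℝ} (hR : ∀ v, 0 ≤ R v)
    (hχ : ∀ v, χ v = 0 ∨ χ v = 1) (x y : M) (P : Finset M) :
    XS (Θ.θ e) χ (addPt R x) (addPt R y) P ≤
      (if x ∈ P then 2 * |χ x - χ y| else 0) +
      2 * (if x ∈ P then ∑ B : Finset M, (if x ∈ B then Θ.θ e B *
        (if y ∈ P ∩ B then 0 else od χ R (P ∩ B) x + od χ R P x) else 0) else 0) +
      2 * (if y ∈ P then ∑ B : Finset M, (if y ∈ B then Θ.θ e B *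
        (if x ∈ P ∩ B then 0 else od χ R (P ∩ B) y + od χ R P y) else 0) else 0) := by
  have hθ : Cov (Θ.θ e) := ⟨Θ.nn e, Θ.one e⟩
  have hod : ∀ (A : Finset M) (z : M), 0 ≤ od χ R A z := by
    intro A z
    unfold od
    apply div_nonneg (Finset.sum_nonneg fun v _ => mul_nonneg (hR v) (abs_nonneg _))
    have := Finset.sum_nonneg (s := A) fun v (_ : v ∈ A) => hR v
    linarith
  have key : ∀ a b : M, a ∈ P → b ∉ P →
      XS (Θ.θ e) χ (addPt R a) (addPt R b) P ≤
      2 * ∑ B : Finset M, (if a ∈ B then Θ.θ e B *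
        (if b ∈ P ∩ B then 0 else od χ R (P ∩ B) a + od χ R P a) else 0) := by
    intro a b ha hb
    rw [(XS_out (θ := Θ.θ e) (R := R) (χ := χ) hb (addPt R a)).2]
    refine (XS_add hθ hR hχ ha).trans (le_of_eq ?_)
    have h1 : ∀ B : Finset M, (if a ∈ B then Θ.θ e B *
        (if b ∈ P ∩ B then 0 else od χ R (P ∩ B) a + od χ R P a) else 0) =
        (if a ∈ B then Θ.θ e B * od χ R (P ∩ B) a else 0) +
        (if a ∈ B then Θ.θ e B else 0) * od χ R P a := by
      intro B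
      have hb' : b ∉ P ∩ B := fun h => hb (Finset.mem_inter.1 h).1
      by_cases h2 : a ∈ B
      · rw [if_pos h2, if_pos h2, if_pos h2, if_neg hb', mul_add]
      · rw [if_neg h2, if_neg h2, if_neg h2, zero_mul, add_zero]
    rw [Finset.sum_congr rfl fun B _ => h1 B, Finset.sum_add_distrib, ← Finset.sum_mul, Θ.one e a]
    ring
  by_cases hx : x ∈ P <;> by_cases hy : y ∈ P
  · rw [if_pos hx, if_pos hx, if_pos hy]
    refine (XS_move hθ hR hχ hx hy).trans ?_
    have hside : ∀ a b : M, a ∈ P → b ∈ P → ∑ B : Finset M, (if a ∈ B ∧ b ∉ B then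
        Θ.θ e B * (2 * od χ R (P ∩ B) a + od χ R P a) else 0) ≤
        2 * ∑ B : Finset M, (if a ∈ B then Θ.θ e B *
        (if b ∈ P ∩ B then 0 else od χ R (P ∩ B) a + od χ R P a) else 0) := by
      intro a b ha hb
      rw [Finset.mul_sum]
      apply Finset.sum_le_sum
      intro B _
      have h0 := Θ.nn e B
      have h1 := hod (P ∩ B) a
      have h2 := hod P a
      by_cases h3 : a ∈ B
      · by_cases h4 : b ∈ B
        · rw [if_neg (fun h => h.2 h4), if_pos h3, if_pos (Finset.mem_inter.2 ⟨hb, h4⟩)]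
          simp
        · rw [if_pos ⟨h3, h4⟩, if_pos h3, if_neg (fun h => h4 (Finset.mem_inter.1 h).2)]
          have h5 : Θ.θ e B * (2 * od χ R (P ∩ B) a + od χ R P a) ≤
              Θ.θ e B * (2 * (od χ R (P ∩ B) a + od χ R P a)) :=
            mul_le_mul_of_nonneg_left (by linarith) h0
          linarith
      · rw [if_neg (fun h => h3 h.1), if_neg h3]
        simp
    have h1 := hside x y hx hy
    have h2 := hside y x hy hx
    linarith
  · rw [if_pos hx, if_pos hx, if_neg hy, mul_zero, add_zero]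
    have h1 := key x y hx hy
    have h2 := abs_nonneg (χ x - χ y)
    linarith
  · rw [if_neg hx, if_neg hx, if_pos hy, mul_zero, zero_add, zero_add, XS_symm]
    exact key y x hy hx
  · rw [if_neg hx, if_neg hx, if_neg hy, mul_zero, add_zero, add_zero]
    rw [(XS_out (θ := Θ.θ e) (R := R) (χ := χ) hy (addPt R x)).2,
      (XS_out (θ := Θ.θ e) (R := R) (χ := χ) hx R).1]
    apply le_of_eq
    unfold XS
    apply Finset.sum_eq_zero
    intro B _
    unfold dst
    rw [sub_self, sub_self, pos_zero, abs_zero]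
    ring

/-- Module `lvn`.  A level with a large scale.

Proof.  For one cut `χ` and one cell `P` (with `Q = P ∩ B`)
`XS (R + x) (R + y) P ≤ [x, y ∈ P] 2 |χ x - χ y|
  + [x ∈ P] ∑ B ∋ x, θ B [y ∉ Q] (2 od Q x + 2 od P x) + [y ∈ P] ∑ B ∋ y, θ B [x ∉ Q] (2 od Q y + 2 od P y)`:
* `x, y ∈ P`: `XS_move`;
* `x ∈ P`, `y ∉ P`: `XS_out` for `y`, `XS_add`, and `∑ B ∋ x, θ B = 1`; `y ∉ Q` for all `B`;
* `y ∈ P`, `x ∉ P`: in the same way with `XS_symm`;
* neither: both sides are `0` (`XS_out`, `dst a a q q = 0`).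
Sum over the labels: `wt_Ex2` with `H P B = if y ∈ P ∩ B then 0 else ..` and `cell_succ`; the first term by
`wt_Ex` (`[x, y ∈ P] ≤ [x ∈ P]`, `Ex_const`).  Sum over the cuts: `od_sum`. -/
theorem lev_near {N : ℕ} {μ : Fin N → ℝ} (hμ : ∀ ω, 0 ≤ μ ω) {χ : Fin N → M → ℝ}
    (hχ : ∀ ω v, χ ω v = 0 ∨ χ ω v = 1) (Θ : Soft M n) (e : Fin n) {R : M → ℝ}
    (hR : ∀ v, 0 ≤ R v) (x y : M) :
    ∑ ω, μ ω * XX Θ e (χ ω) (addPt R x) (addPt R y) ≤ 2 * cm μ χ x y +
      2 * Ex Θ x (fun w => if y ∈ cell w e then 0 else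
        DD (cm μ χ) R (cell w e) x + DD (cm μ χ) R (cell w ((e : ℕ) + 1)) x) +
      2 * Ex Θ y (fun w => if x ∈ cell w e then 0 else
        DD (cm μ χ) R (cell w e) y + DD (cm μ χ) R (cell w ((e : ℕ) + 1)) y) := by
  have hcell : ∀ w : Fin n → Finset M, cell w ((e : ℕ) + 1) ∩ w e = cell w (e : ℕ) :=
    fun w => (cell_succ w e).symm
  have hside : ∀ (a b : M) (ω : Fin N),
      ∑ w : Fin n → Finset M, wt Θ ((e : ℕ) + 1) w * (if a ∈ cell w ((e : ℕ) + 1) then
        ∑ B : Finset M, (if a ∈ B then Θ.θ e B * (if b ∈ cell w ((e : ℕ) + 1) ∩ B then 0 else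
          od (χ ω) R (cell w ((e : ℕ) + 1) ∩ B) a + od (χ ω) R (cell w ((e : ℕ) + 1)) a) else 0)
        else 0) =
      Ex Θ a (fun w => if b ∈ cell w e then 0 else
        od (χ ω) R (cell w e) a + od (χ ω) R (cell w ((e : ℕ) + 1)) a) := by
    intro a b ω
    rw [wt_Ex2 Θ a e (fun P B => if b ∈ P ∩ B then 0 else
      od (χ ω) R (P ∩ B) a + od (χ ω) R P a)]
    simp only [hcell]
  have hone : ∀ ω, XX Θ e (χ ω) (addPt R x) (addPt R y) ≤ 2 * |χ ω x - χ ω y| +
      2 * Ex Θ x (fun w => if y ∈ cell w e then 0 else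
        od (χ ω) R (cell w e) x + od (χ ω) R (cell w ((e : ℕ) + 1)) x) +
      2 * Ex Θ y (fun w => if x ∈ cell w e then 0 else
        od (χ ω) R (cell w e) y + od (χ ω) R (cell w ((e : ℕ) + 1)) y) := by
    intro ω
    rw [← hside x y ω, ← hside y x ω]
    have e3 := wt_Ex Θ x ((e : ℕ) + 1) (fun _ => 2 * |χ ω x - χ ω y|)
    rw [Ex_const] at e3
    rw [← e3, Finset.mul_sum, Finset.mul_sum, ← Finset.sum_add_distrib, ← Finset.sum_add_distrib]
    unfold XX
    apply Finset.sum_le_sum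
    intro w _
    have h1 := lvn_cell Θ e hR (hχ ω) x y (cell w ((e : ℕ) + 1))
    have h2 := mul_le_mul_of_nonneg_left h1 (wt_nonneg Θ ((e : ℕ) + 1) w)
    refine h2.trans (le_of_eq ?_)
    ring
  have hsum : ∀ a b : M, ∑ ω, μ ω * Ex Θ a (fun w => if b ∈ cell w e then 0 else
      od (χ ω) R (cell w e) a + od (χ ω) R (cell w ((e : ℕ) + 1)) a) =
      Ex Θ a (fun w => if b ∈ cell w e then 0 else
        DD (cm μ χ) R (cell w e) a + DD (cm μ χ) R (cell w ((e : ℕ) + 1)) a) := by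
    intro a b
    rw [Finset.sum_congr rfl fun ω _ => (Ex_smul Θ a (μ ω) _).symm, ← Ex_sum]
    congr 1
    funext w
    by_cases hb : b ∈ cell w e
    · simp [hb]
    · simp only [if_neg hb]
      rw [← od_sum, ← od_sum, ← Finset.sum_add_distrib]
      exact Finset.sum_congr rfl fun ω _ => mul_add _ _ _
  rw [← hsum x y, ← hsum y x]
  unfold cm
  rw [Finset.mul_sum, Finset.mul_sum, Finset.mul_sum, ← Finset.sum_add_distrib,
    ← Finset.sum_add_distrib]
  apply Finset.sum_le_sum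
  intro ω _
  refine (mul_le_mul_of_nonneg_left (hone ω) (hμ ω)).trans (le_of_eq ?_)
  ring

private lemma rlp_sum (R : M → ℝ) (A : Finset M) (x y : M) :
    ∑ z ∈ A, (addPt R x z - addPt R y z) = (if x ∈ A then 1 else 0) - if y ∈ A then 1 else 0 := by
  unfold addPt
  have h : ∀ z ∈ A, (R z + if z = x then (1 : ℝ) else 0) - (R z + if z = y then (1 : ℝ) else 0) =
      (if z = x then (1 : ℝ) else 0) - if z = y then (1 : ℝ) else 0 := by
    intro z _
    ring
  rw [Finset.sum_congr rfl h, Finset.sum_sub_distrib, Finset.sum_ite_eq', Finset.sum_ite_eq']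

private lemma rlp_mul (R χ : M → ℝ) (A : Finset M) (x y : M) :
    ∑ z ∈ A, χ z * (addPt R x z - addPt R y z) =
      (if x ∈ A then χ x else 0) - if y ∈ A then χ y else 0 := by
  unfold addPt
  have h : ∀ z ∈ A, χ z * ((R z + if z = x then (1 : ℝ) else 0) - (R z + if z = y then (1 : ℝ) else 0)) =
      (if z = x then χ z else 0) - if z = y then χ z else 0 := by
    intro z _
    split_ifs <;> ring
  rw [Finset.sum_congr rfl h, Finset.sum_sub_distrib, Finset.sum_ite_eq', Finset.sum_ite_eq']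

/-- Module `rlp`.  The counting distance of one moved point.

Proof.  `∑ z ∈ P, (addPt R x z - addPt R y z) = [x ∈ P] - [y ∈ P]`; the absolute value is
`[x ∈ P, y ∉ P] + [y ∈ P, x ∉ P]`; `wt_Ex` with `G P = if y ∈ P then 0 else 1`. -/
theorem CT_lip (Θ : Soft M n) (a : ℕ) (R : M → ℝ) (x y : M) :
    CT Θ a (addPt R x) (addPt R y) ≤ Ex Θ x (fun w => if y ∈ cell w a then 0 else 1) +
      Ex Θ y (fun w => if x ∈ cell w a then 0 else 1) := by
  have e1 := wt_Ex Θ x a (fun P => if y ∈ P then (0 : ℝ) else 1)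
  have e2 := wt_Ex Θ y a (fun P => if x ∈ P then (0 : ℝ) else 1)
  rw [← e1, ← e2, ← Finset.sum_add_distrib]
  unfold CT
  apply Finset.sum_le_sum
  intro w _
  rw [← mul_add]
  apply mul_le_mul_of_nonneg_left _ (wt_nonneg Θ a w)
  rw [rlp_sum]
  by_cases hx : x ∈ cell w a <;> by_cases hy : y ∈ cell w a <;> simp [hx, hy]

/-- Module `rlp`.  The first moments of one moved point.

Proof.  `|χ x [x ∈ P] - χ y [y ∈ P]|` is `|χ x - χ y|` if both points are in `P`, and at most `1` if one is;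
as in `CT_lip`. -/
theorem BT_lip {χ : M → ℝ} (hχ : ∀ v, χ v = 0 ∨ χ v = 1) (Θ : Soft M n) (a : ℕ) (R : M → ℝ)
    (x y : M) :
    BT Θ a χ (addPt R x) (addPt R y) ≤ |χ x - χ y| +
      Ex Θ x (fun w => if y ∈ cell w a then 0 else 1) +
      Ex Θ y (fun w => if x ∈ cell w a then 0 else 1) := by
  have e1 := wt_Ex Θ x a (fun P => if y ∈ P then (0 : ℝ) else 1)
  have e2 := wt_Ex Θ y a (fun P => if x ∈ P then (0 : ℝ) else 1)
  have e3 := wt_Ex Θ x a (fun _ => |χ x - χ y|)
  rw [Ex_const] at e3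
  rw [← e1, ← e2, ← e3, ← Finset.sum_add_distrib, ← Finset.sum_add_distrib]
  unfold BT
  apply Finset.sum_le_sum
  intro w _
  rw [← mul_add, ← mul_add]
  apply mul_le_mul_of_nonneg_left _ (wt_nonneg Θ a w)
  rw [rlp_mul]
  by_cases hx : x ∈ cell w a <;> by_cases hy : y ∈ cell w a
  · simp [hx, hy]
  · rcases hχ x with h1 | h1 <;> rcases hχ y with h2 | h2 <;> simp [hx, hy, h1, h2]
  · rcases hχ x with h1 | h1 <;> rcases hχ y with h2 | h2 <;> simp [hx, hy, h1, h2]
  · simp [hx, hy]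

/-- Module `spr`.  The probability of separation.

Proof.  `[y ∉ cell w a] ≤ ∑ e ≥ a, [y ∉ w e]`; `Ex_sum`, `Ex_marg`, and `T3` for the block `b = e / p`
(`b p ≤ e < (b + 1) p`) with `F = 1`. -/
theorem sep_prob {Θ : Soft M n} {p : ℕ} (hp : 1 ≤ p) {ρ : M → M → ℝ} (h3 : T3 Θ p ρ) {x y : M}
    (hxy : x ≠ y) (a : ℕ) :
    Ex Θ x (fun w => if y ∈ cell w a then (0 : ℝ) else 1) ≤
      ∑ e : Fin n, (if a ≤ (e : ℕ) then 4 * mb p ρ ((e : ℕ) / p) x y / 2 ^ (e : ℕ) else 0) := by
  have h1 : Ex Θ x (fun w => if y ∈ cell w a then (0 : ℝ) else 1) ≤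
      Ex Θ x (fun w => ∑ e : Fin n, if a ≤ (e : ℕ) then (if y ∈ w e then (0 : ℝ) else 1) else 0) := by
    apply Ex_mono
    intro w
    have hnn : ∀ e : Fin n, (0 : ℝ) ≤ if a ≤ (e : ℕ) then (if y ∈ w e then (0 : ℝ) else 1) else 0 := by
      intro e
      split_ifs <;> norm_num
    by_cases hy : y ∈ cell w a
    · rw [if_pos hy]
      exact Finset.sum_nonneg fun e _ => hnn e
    · rw [if_neg hy]
      rw [mem_cell] at hy
      push Not at hy
      obtain ⟨e, he, hye⟩ := hy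
      refine le_trans (le_of_eq ?_) (Finset.single_le_sum (fun e _ => hnn e) (Finset.mem_univ e))
      rw [if_pos he, if_neg hye]
  refine h1.trans ?_
  rw [Ex_sum]
  apply Finset.sum_le_sum
  intro e _
  by_cases he : a ≤ (e : ℕ)
  · simp only [if_pos he]
    rw [Ex_marg Θ x e (fun B => if y ∈ B then (0 : ℝ) else 1)]
    obtain ⟨q, q0, q1, _, q3⟩ := h3 ((e : ℕ) / p) x y hxy
    have hb1 : (e : ℕ) / p * p ≤ (e : ℕ) := Nat.div_mul_le_self _ _
    have hb2 : (e : ℕ) < ((e : ℕ) / p + 1) * p := by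
      have a1 := Nat.div_add_mod (e : ℕ) p
      have a2 := Nat.mod_lt (e : ℕ) (show 0 < p from hp)
      rw [add_mul, one_mul, mul_comm]
      omega
    have h4 := q3 e hb1 hb2 (fun _ => 1) (fun _ => zero_le_one)
    have h5 : ∑ B : Finset M, (if x ∈ B then Θ.θ e B * (if y ∈ B then (0 : ℝ) else 1) else 0) =
        ∑ B : Finset M, (if x ∈ B ∧ y ∉ B then Θ.θ e B * (1 : ℝ) else 0) := by
      apply Finset.sum_congr rfl
      intro B _
      by_cases h6 : x ∈ B <;> by_cases h7 : y ∈ B <;> simp [h6, h7]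
    rw [h5]
    refine h4.trans ?_
    have h8 : ∑ K : Fin n → Finset M, q K * (if x ∈ K e then (1 : ℝ) else 0) ≤
        4 * mb p ρ ((e : ℕ) / p) x y := by
      refine le_trans (Finset.sum_le_sum fun K _ => ?_) q1
      have := q0 K
      split_ifs <;> linarith
    have h9 : (0 : ℝ) < 2 ^ (e : ℕ) := by positivity
    rw [div_mul_eq_mul_div, one_mul]
    exact div_le_div_of_nonneg_right h8 h9.le
  · simp only [if_neg he]
    rw [Ex_const]

end Pool.Agent.L2U
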