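import Pool.Agent.L2U.Feat

set_option linter.unusedSectionVars false

/-!
The lift: a soft partition of `M` is an ordinary partition of `M × (Fin n → Finset M)`.
Modules `csh` (`cs_hat`, `cs_hat_ne`), `xdh` (`xd_hat`), `sta` (`xd_pt`, `start`).
-/

namespace Pool.Agent.L2U

open Finset Pool.Agent.MP_12e089_an Pool.Agent.MP_12e089_an.LogS

variable {M : Type} [Fintype M] [DecidableEq M] {n : ℕ}

/-- The lifted mass. -/
noncomputable def hat (Θ : Soft M n) (S : M → ℝ) (v : M × (Fin n → Finset M)) : ℝ :=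
  S v.1 * px Θ v.1 v.2

/-- The label map of stage `a`. -/
def gm (z0 : M) (a : ℕ) (v : M × (Fin n → Finset M)) : M × (Fin n → Finset M) := (z0, mk a v.2)

lemma gm_gm (z0 : M) {a b : ℕ} (hab : a ≤ b) :
    (fun v : M × (Fin n → Finset M) => gm z0 b (gm z0 a v)) = gm z0 b := by
  funext v
  unfold gm
  simp only [mk_mk hab]

lemma hat_nonneg (Θ : Soft M n) {S : M → ℝ} (hS : ∀ v, 0 ≤ S v) (v : M × (Fin n → Finset M)) :
    0 ≤ hat Θ S v := mul_nonneg (hS _) (px_nonneg _ _ _)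

/-- Module `csh`.  The lifted mass of a cell.

Proof.  `cs` is the sum over `(z, w)` with `mk a w = u` of `χ z * S z * px Θ z w`; for fixed `z` use
`sum_px_mk`. -/
theorem cs_hat (Θ : Soft M n) (z0 : M) (a : ℕ) (u : Fin n → Finset M) (χ S : M → ℝ) :
    cs (gm z0 a) (z0, u) (fun v => χ v.1 * hat Θ S v) =
      wt Θ a u * ∑ z ∈ cell u a, χ z * S z := by
  unfold cs
  rw [Fintype.sum_prod_type, Finset.mul_sum]
  have h : ∀ z : M, ∑ w : Fin n → Finset M,
      (if gm z0 a (z, w) = (z0, u) then χ z * hat Θ S (z, w) else 0) =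
      (if z ∈ cell u a then wt Θ a u * (χ z * S z) else 0) := by
    intro z
    have h1 : ∀ w : Fin n → Finset M,
        (if gm z0 a (z, w) = (z0, u) then χ z * hat Θ S (z, w) else 0) =
        χ z * S z * (if mk a w = u then px Θ z w else 0) := by
      intro w
      have h2 : (gm z0 a (z, w) = (z0, u)) ↔ mk a w = u := by
        simp [gm]
      by_cases h3 : mk a w = u
      · rw [if_pos (h2.2 h3), if_pos h3]
        simp only [hat]
        ring
      · rw [if_neg fun h => h3 (h2.1 h), if_neg h3, mul_zero]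
    rw [Finset.sum_congr rfl fun w _ => h1 w, ← Finset.mul_sum, sum_px_mk]
    split_ifs
    · ring
    · ring
  rw [Finset.sum_congr rfl fun z _ => h z, Finset.sum_ite_mem, Finset.univ_inter]

theorem cs_hat' (Θ : Soft M n) (z0 : M) (a : ℕ) (u : Fin n → Finset M) (S : M → ℝ) :
    cs (gm z0 a) (z0, u) (hat Θ S) = wt Θ a u * ∑ z ∈ cell u a, S z := by
  have h := cs_hat Θ z0 a u (fun _ => 1) S
  simp only [one_mul] at h
  exact h

/-- Module `csh`.  There is no mass on the labels with first component different from `z0`. -/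
theorem cs_hat_ne (z0 : M) (a : ℕ) {Q : M × (Fin n → Finset M)} (hQ : Q.1 ≠ z0)
    (φ : M × (Fin n → Finset M) → ℝ) : cs (gm z0 a) Q φ = 0 := by
  unfold cs
  refine Finset.sum_eq_zero fun v _ => if_neg fun h => hQ ?_
  rw [← h]
  rfl

private theorem xdh_pos {W x : ℝ} (hW : 0 ≤ W) : pos (W * x) = W * pos x := by
  unfold pos
  rw [← mul_zero W, ← mul_max_of_nonneg _ _ hW, mul_zero]

private theorem xdh_dst {W : ℝ} (hW : 0 ≤ W) (a b q q' : ℝ) :
    dst (W * a) (W * b) q q' = W * dst a b q q' := by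
  unfold dst
  rw [← mul_min_of_nonneg _ _ hW, ← mul_sub, ← mul_sub, xdh_pos hW, xdh_pos hW]
  ring

private theorem xdh_zero (q q' : ℝ) : dst 0 0 q q' = 0 := by
  have h := xdh_dst (le_refl (0 : ℝ)) 0 0 q q'
  rwa [zero_mul, zero_mul] at h

private theorem xdh_mk {e : Fin n} {w : Fin n → Finset M} (B : Finset M)
    (hw : mk ((e : ℕ) + 1) w = w) :
    mk (e : ℕ) (Function.update w e B) = Function.update w e B ∧
      mk ((e : ℕ) + 1) (Function.update w e B) = w := by
  constructor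
  · funext i
    unfold mk
    by_cases h : (e : ℕ) ≤ (i : ℕ)
    · rw [if_pos h]
    · have hi : i ≠ e := fun hi => h (by rw [hi])
      rw [if_neg h, Function.update_of_ne hi]
      have h2 := congrFun hw i
      unfold mk at h2
      rw [if_neg (by omega)] at h2
      exact h2
  · funext i
    conv_rhs => rw [← hw]
    unfold mk
    by_cases h : (e : ℕ) + 1 ≤ (i : ℕ)
    · have hi : i ≠ e := fun hi => by rw [hi] at h; omega
      rw [if_pos h, if_pos h, Function.update_of_ne hi]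
    · rw [if_neg h, if_neg h]

private theorem xdh_mk' {e : Fin n} {u : Fin n → Finset M} (hu : mk (e : ℕ) u = u) :
    mk ((e : ℕ) + 1) (mk ((e : ℕ) + 1) u) = mk ((e : ℕ) + 1) u ∧
      Function.update (mk ((e : ℕ) + 1) u) e (u e) = u := by
  constructor
  · exact mk_mk le_rfl u
  · funext i
    by_cases hi : i = e
    · rw [hi, Function.update_self]
    · rw [Function.update_of_ne hi]
      conv_rhs => rw [← hu]
      unfold mk
      have hne : (i : ℕ) ≠ (e : ℕ) := fun h => hi (Fin.ext h)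
      by_cases h : (e : ℕ) + 1 ≤ (i : ℕ)
      · rw [if_pos h, if_pos (by omega)]
      · rw [if_neg h, if_neg (by omega)]

private theorem xdh_wt (Θ : Soft M n) {e : Fin n} {w : Fin n → Finset M} (B : Finset M)
    (hw : mk ((e : ℕ) + 1) w = w) :
    wt Θ (e : ℕ) (Function.update w e B) = wt Θ ((e : ℕ) + 1) w * Θ.θ e B := by
  unfold wt
  rw [if_pos (xdh_mk B hw).1, if_pos hw, ← Finset.mul_prod_erase _ _ (Finset.mem_univ e),
    ← Finset.mul_prod_erase Finset.univ
      (fun i : Fin n => if (e : ℕ) + 1 ≤ (i : ℕ) then Θ.θ i (w i) else 1) (Finset.mem_univ e),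
    if_pos le_rfl, Function.update_self, if_neg (Nat.not_succ_le_self _), one_mul, mul_comm]
  congr 1
  refine Finset.prod_congr rfl fun i hi => ?_
  have hne := (Finset.mem_erase.1 hi).1
  have hne' : (i : ℕ) ≠ (e : ℕ) := fun h => hne (Fin.ext h)
  rw [Function.update_of_ne hne]
  by_cases h : (e : ℕ) + 1 ≤ (i : ℕ)
  · rw [if_pos (show (e : ℕ) ≤ (i : ℕ) by omega), if_pos h]
  · rw [if_neg (show ¬ (e : ℕ) ≤ (i : ℕ) by omega), if_neg h]

private theorem xdh_quot {W W' a c a' c' : ℝ} (hW : W ≠ 0) (hW' : W' ≠ 0) :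
    W * c / (W * a) - W' * c' / (W' * a') = c / a - c' / a' := by
  rw [mul_div_mul_left _ _ hW, mul_div_mul_left _ _ hW']

/-- The term of `xd` at the label `(z0, u)`. -/
private theorem xdh_term (Θ : Soft M n) (z0 : M) (e : Fin n) (χ S T : M → ℝ)
    {w : Fin n → Finset M} (B : Finset M) (hw : mk ((e : ℕ) + 1) w = w) :
    dst (cs (gm z0 (e : ℕ)) (z0, Function.update w e B) (hat Θ S))
      (cs (gm z0 (e : ℕ)) (z0, Function.update w e B) (hat Θ T))
      (cs (gm z0 (e : ℕ)) (z0, Function.update w e B) (fun v => χ v.1 * hat Θ S v) /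
          cs (gm z0 (e : ℕ)) (z0, Function.update w e B) (hat Θ S) -
        cs (gm z0 ((e : ℕ) + 1)) (gm z0 ((e : ℕ) + 1) (z0, Function.update w e B))
            (fun v => χ v.1 * hat Θ S v) /
          cs (gm z0 ((e : ℕ) + 1)) (gm z0 ((e : ℕ) + 1) (z0, Function.update w e B)) (hat Θ S))
      (cs (gm z0 (e : ℕ)) (z0, Function.update w e B) (fun v => χ v.1 * hat Θ T v) /
          cs (gm z0 (e : ℕ)) (z0, Function.update w e B) (hat Θ T) -
        cs (gm z0 ((e : ℕ) + 1)) (gm z0 ((e : ℕ) + 1) (z0, Function.update w e B))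
            (fun v => χ v.1 * hat Θ T v) /
          cs (gm z0 ((e : ℕ) + 1)) (gm z0 ((e : ℕ) + 1) (z0, Function.update w e B)) (hat Θ T)) =
      wt Θ ((e : ℕ) + 1) w * (Θ.θ e B * dst (∑ z ∈ cell w ((e : ℕ) + 1) ∩ B, S z)
        (∑ z ∈ cell w ((e : ℕ) + 1) ∩ B, T z)
        (bar S χ (cell w ((e : ℕ) + 1) ∩ B) - bar S χ (cell w ((e : ℕ) + 1)))
        (bar T χ (cell w ((e : ℕ) + 1) ∩ B) - bar T χ (cell w ((e : ℕ) + 1)))) := by
  have h1 : gm z0 ((e : ℕ) + 1) (z0, Function.update w e B) = (z0, w) := by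
    unfold gm
    rw [(xdh_mk B hw).2]
  have h2 : cell (Function.update w e B) (e : ℕ) = cell w ((e : ℕ) + 1) ∩ B := by
    rw [cell_succ, Function.update_self]
    congr 1
    have h3 := cell_mk ((e : ℕ) + 1) (Function.update w e B)
    rw [(xdh_mk B hw).2] at h3
    exact h3.symm
  rw [h1]
  simp only [cs_hat, cs_hat']
  rw [h2, xdh_wt Θ B hw]
  set W' := wt Θ ((e : ℕ) + 1) w with hW'
  have hW0 : 0 ≤ W' * Θ.θ e B := mul_nonneg (wt_nonneg _ _ _) (Θ.nn _ _)
  rw [xdh_dst hW0]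
  by_cases hz : W' * Θ.θ e B = 0
  · rw [← mul_assoc, hz, zero_mul, zero_mul]
  · have hz' : W' ≠ 0 := fun h => hz (by rw [h, zero_mul])
    rw [xdh_quot hz hz', xdh_quot hz hz', mul_assoc]
    rfl

/-- Module `xdh`.  The lifted feature distance between the stages `e` and `e + 1`.

Proof.  By `gm_gm` the coarse label map is `gm z0 (e + 1)`.  `xd` is a sum over `Q = (z, u)`; the
terms with `z ≠ z0` or `mk e u ≠ u` vanish (`dst 0 0 _ _ = 0`; `wt Θ e u = 0`).  The labels `u` with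
`mk e u = u` correspond to the pairs `(w, B)`, `w = mk (e + 1) u` (so `mk (e + 1) w = w`),
`B = u e`; `wt Θ e u = wt Θ (e + 1) w * θ e B`, `cell u e = cell w (e + 1) ∩ B`,
`cell u (e + 1) = cell w (e + 1)`, and the coarse label of `Q` is `(z0, w)`.  With
`W = wt Θ e u` the masses are `W * ∑ S`, ..; if `W = 0` the term is `0` on both sides
(`dst 0 0 q q' = 0`), and if `W ≠ 0` then `wt Θ (e + 1) w ≠ 0`, the weights cancel in the
quotients, and `dst (W a) (W b) q q' = W * dst a b q q'` for `0 ≤ W`. -/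
theorem xd_hat (Θ : Soft M n) (z0 : M) (e : Fin n) (χ S T : M → ℝ) :
    xd (hat Θ S) (hat Θ T) (gm z0 (e : ℕ)) (gm z0 ((e : ℕ) + 1)) (fun v => χ v.1) =
      XX Θ e χ S T := by
  unfold xd XX
  rw [gm_gm z0 (Nat.le_succ _), Fintype.sum_prod_type, Finset.sum_eq_single z0]
  · -- the labels with first component `z0`
    have h1 : ∀ w : Fin n → Finset M,
        wt Θ ((e : ℕ) + 1) w * XS (Θ.θ e) χ S T (cell w ((e : ℕ) + 1)) =
        ∑ B : Finset M, (if mk ((e : ℕ) + 1) w = w then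
          wt Θ ((e : ℕ) + 1) w * (Θ.θ e B * dst (∑ z ∈ cell w ((e : ℕ) + 1) ∩ B, S z)
          (∑ z ∈ cell w ((e : ℕ) + 1) ∩ B, T z)
          (bar S χ (cell w ((e : ℕ) + 1) ∩ B) - bar S χ (cell w ((e : ℕ) + 1)))
          (bar T χ (cell w ((e : ℕ) + 1) ∩ B) - bar T χ (cell w ((e : ℕ) + 1)))) else 0) := by
      intro w
      by_cases hw : mk ((e : ℕ) + 1) w = w
      · simp only [if_pos hw]
        rw [XS, Finset.mul_sum]
      · simp only [if_neg hw]
        rw [Finset.sum_const_zero, wt, if_neg hw, zero_mul]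
    rw [Finset.sum_congr rfl fun w _ => h1 w, ← Finset.sum_product',
      ← Finset.sum_filter]
    have h2 : ∀ u : Fin n → Finset M, mk (e : ℕ) u ≠ u → wt Θ (e : ℕ) u = 0 := fun u hu => by
      rw [wt, if_neg hu]
    rw [← Finset.sum_filter_add_sum_filter_not Finset.univ
      (fun u : Fin n → Finset M => mk (e : ℕ) u = u)]
    rw [Finset.sum_eq_zero (s := Finset.univ.filter fun u : Fin n → Finset M => ¬ mk (e : ℕ) u = u)
      fun u hu => by
        simp only [cs_hat, cs_hat', h2 u (Finset.mem_filter.1 hu).2, zero_mul, xdh_zero],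
      add_zero]
    refine Finset.sum_nbij' (fun u => (mk ((e : ℕ) + 1) u, u e))
      (fun y => Function.update y.1 e y.2) ?_ ?_ ?_ ?_ ?_
    · intro u hu
      refine Finset.mem_filter.2 ⟨Finset.mem_product.2 ⟨Finset.mem_univ _, Finset.mem_univ _⟩, ?_⟩
      exact (xdh_mk' (Finset.mem_filter.1 hu).2).1
    · intro y hy
      exact Finset.mem_filter.2 ⟨Finset.mem_univ _, (xdh_mk _ (Finset.mem_filter.1 hy).2).1⟩
    · intro u hu
      exact (xdh_mk' (Finset.mem_filter.1 hu).2).2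
    · rintro ⟨w, B⟩ hy
      have hw := (Finset.mem_filter.1 hy).2
      simp only at hw ⊢
      rw [(xdh_mk _ hw).2, Function.update_self]
    · intro u hu
      have h3 := xdh_mk' (Finset.mem_filter.1 hu).2
      have h4 := xdh_term Θ z0 e χ S T (u e) h3.1
      rw [h3.2] at h4
      exact h4
  · intro z _ hz
    refine Finset.sum_eq_zero fun u _ => ?_
    rw [cs_hat_ne z0 (e : ℕ) (Q := (z, u)) hz, cs_hat_ne z0 (e : ℕ) (Q := (z, u)) hz, xdh_zero]
  · exact fun h => absurd (Finset.mem_univ z0) h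

private lemma sta_mk (w : Fin n → Finset M) : mk 0 w = w := by
  funext e
  unfold mk
  rw [if_pos (Nat.zero_le _)]

private lemma sta_px {Θ : Soft M n} {z : M} {w : Fin n → Finset M} (h : px Θ z w ≠ 0) (e : Fin n) :
    z ∈ w e ∧ Θ.θ e (w e) ≠ 0 := by
  unfold px at h
  have h1 := Finset.prod_ne_zero_iff.1 h e (Finset.mem_univ e)
  by_cases hz : z ∈ w e
  · rw [if_pos hz] at h1
    exact ⟨hz, h1⟩
  · rw [if_neg hz] at h1
    exact absurd rfl h1

private lemma sta_wt {Θ : Soft M n} {z : M} {w : Fin n → Finset M} (h : px Θ z w ≠ 0) :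
    wt Θ 0 w ≠ 0 := by
  unfold wt
  rw [if_pos (sta_mk w)]
  refine Finset.prod_ne_zero_iff.2 fun e _ => ?_
  rw [if_pos (Nat.zero_le _)]
  exact (sta_px h e).2

private lemma sta_cell {Θ : Soft M n} (hpt : Pt Θ) (hn : 0 < n) {z : M} {w : Fin n → Finset M}
    (h : px Θ z w ≠ 0) : cell w 0 = {z} := by
  obtain ⟨h1, h2⟩ := sta_px h ⟨0, hn⟩
  obtain ⟨z', hz'⟩ := hpt ⟨0, hn⟩ rfl _ h2
  ext y
  constructor
  · intro hy
    have h3 := mem_cell.1 hy ⟨0, hn⟩ (Nat.zero_le _)
    rw [hz', Finset.mem_singleton] at h1 h3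
    rw [Finset.mem_singleton, h3, h1]
  · intro hy
    rw [Finset.mem_singleton] at hy
    rw [hy]
    exact mem_cell_of_px h 0

private lemma sta_q {Θ : Soft M n} (hpt : Pt Θ) (hn : 0 < n) (z0 : M) (χ S : M → ℝ) {z : M}
    {w : Fin n → Finset M} (h : px Θ z w ≠ 0) :
    χ z * hat Θ S (z, w) / hat Θ S (z, w) -
      cs (gm z0 0) (z0, w) (fun v => χ v.1 * hat Θ S v) / cs (gm z0 0) (z0, w) (hat Θ S) = 0 := by
  rw [cs_hat, cs_hat', sta_cell hpt hn h, Finset.sum_singleton, Finset.sum_singleton]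
  have hw := sta_wt h
  by_cases hS : S z = 0
  · have h1 : hat Θ S (z, w) = 0 := by
      unfold hat
      rw [hS, zero_mul]
    rw [h1, hS]
    simp
  · have h1 : hat Θ S (z, w) ≠ 0 := by
      unfold hat
      exact mul_ne_zero hS h
    rw [mul_div_assoc, div_self h1, mul_div_mul_left _ _ hw, mul_div_assoc, div_self hS, sub_self]

/-- Module `sta`.  From the points of the lifted space to stage `0` nothing is paid.

Proof.  `xd` is a sum over `Q = (z, w)`, `cs id Q φ = φ Q` (`cs_inj`).  If `hat Θ S Q = 0` and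
`hat Θ T Q = 0` the term is `dst 0 0 _ _ = 0`.  Otherwise `px Θ z w ≠ 0`, so `z ∈ w e`
and `θ e (w e) ≠ 0` for all `e`; for `e = 0` (`0 < n`) `hpt` gives `w 0 = {z}`, so `cell w 0 = {z}`
(it contains `z`, and is contained in `w 0`).  The coarse cell has the label `(z0, w)`
(`mk 0 w = w`), and by `cs_hat`, `cs_hat'` its quotient is `χ z * S z / S z` up to a common
nonzero weight, i.e. `χ z` if `S z ≠ 0`; the fine quotient is `χ z` if `hat Θ S Q ≠ 0`.  So
`q = 0` if `hat Θ S Q ≠ 0`, `q' = 0` if `hat Θ T Q ≠ 0`, and the term is `0`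
(if `hat Θ S Q = 0` then `S z = 0` and `dst 0 n' q q' = n' * |q'|`). -/
theorem xd_pt {Θ : Soft M n} (hpt : Pt Θ) (hn : 0 < n) (z0 : M) (χ : M → ℝ) {S T : M → ℝ}
    (hS : ∀ v, 0 ≤ S v) (hT : ∀ v, 0 ≤ T v) :
    xd (hat Θ S) (hat Θ T) (fun v => v) (gm z0 0) (fun v => χ v.1) = 0 := by
  unfold xd
  refine Finset.sum_eq_zero fun Q _ => ?_
  obtain ⟨z, w⟩ := Q
  have hid : ∀ φ : M × (Fin n → Finset M) → ℝ,
      cs (fun v : M × (Fin n → Finset M) => v) (z, w) φ = φ (z, w) := fun φ =>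
    cs_inj (g := fun v : M × (Fin n → Finset M) => v) (fun _ _ h => h) (z, w) φ
  have hg : gm z0 0 (z, w) = (z0, w) := by
    unfold gm
    rw [sta_mk]
  rw [hg, hid, hid, hid, hid]
  by_cases h : px Θ z w = 0
  · have h1 : hat Θ S (z, w) = 0 := by
      unfold hat
      rw [h, mul_zero]
    have h2 : hat Θ T (z, w) = 0 := by
      unfold hat
      rw [h, mul_zero]
    rw [h1, h2]
    unfold dst
    rw [sub_self, pos_of_nonneg le_rfl, min_self]
    ring
  · have h1 := sta_q hpt hn z0 χ S h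
    have h2 := sta_q hpt hn z0 χ T h
    change dst _ _ (χ z * hat Θ S (z, w) / hat Θ S (z, w) -
      cs (gm z0 0) (z0, w) (fun v => χ v.1 * hat Θ S v) / cs (gm z0 0) (z0, w) (hat Θ S))
      (χ z * hat Θ T (z, w) / hat Θ T (z, w) -
      cs (gm z0 0) (z0, w) (fun v => χ v.1 * hat Θ T v) / cs (gm z0 0) (z0, w) (hat Θ T)) = 0
    rw [h1, h2]
    unfold dst
    simp

/-- Module `sta`.  The state at stage `0`.

Proof.  `LogS.base` for the identity label map, then `step_mono` with `h = gm z0 0` and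
`xd_pt`.  (`fun v => gm z0 0 v` is `gm z0 0` by eta.) -/
theorem start {Θ : Soft M n} (hpt : Pt Θ) (hn : 0 < n) (z0 : M) {S T : M → ℝ}
    (hS : ∀ v, 0 ≤ S v) (hT : ∀ v, 0 ≤ T v) :
    ∃ st : State (hat Θ S) (hat Θ T) (gm z0 0), ∀ χ : M → ℝ, (∀ v, χ v = 0 ∨ χ v = 1) →
      ∑ P, st.cellPot (fun v => χ v.1) P ≤ 0 := by
  obtain ⟨st, hst⟩ := base (S := hat Θ S) (T := hat Θ T) (hat_nonneg Θ hS) (hat_nonneg Θ hT)
    (g := fun v : M × (Fin n → Finset M) => v) (fun _ _ h => h)
  obtain ⟨st', -, h2⟩ := step_mono (hat_nonneg Θ hS) (hat_nonneg Θ hT) st (gm z0 0)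
  refine ⟨st', fun χ hχ => ?_⟩
  have h3 := h2 (fun v => χ v.1) (fun v => by
    rcases hχ v.1 with h | h
    · rw [h]
      exact ⟨le_rfl, zero_le_one⟩
    · rw [h]
      exact ⟨zero_le_one, le_rfl⟩)
  rw [xd_pt hpt hn z0 χ hS hT] at h3
  have h4 := hst (fun v => χ v.1) (fun v => hχ v.1)
  refine h3.trans ?_
  linarith

end Pool.Agent.L2U
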