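import Pool.Agent.L2U.Feat

set_option linter.unusedSectionVars false

/-!
The effect of one point on the features of one cell.
Modules `lad` (`XS_add`, `XS_out`), `lmv` (`XS_move`), `ltr` (`XS_tri`).

`LogS.addPt R x` is `R` with one point added at `x`.
-/

namespace Pool.Agent.L2U

open Finset Pool.Agent.MP_12e089_an Pool.Agent.MP_12e089_an.LogS

variable {M : Type} [Fintype M] [DecidableEq M]

/-- The fraction of the points in `A` (with `x` added) on the other side of the cut `χ`. -/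
noncomputable def od (χ R : M → ℝ) (A : Finset M) (x : M) : ℝ :=
  (∑ z ∈ A, R z * |χ x - χ z|) / (1 + ∑ z ∈ A, R z)

/-- A soft partition (one level). -/
def Cov (θ : Finset M → ℝ) : Prop :=
  (∀ B, 0 ≤ θ B) ∧ ∀ x, ∑ B : Finset M, (if x ∈ B then θ B else 0) = 1

private lemma lad_sum (R : M → ℝ) (A : Finset M) (x : M) :
    ∑ z ∈ A, addPt R x z = ∑ z ∈ A, R z + if x ∈ A then 1 else 0 := by
  unfold addPt
  rw [Finset.sum_add_distrib, Finset.sum_ite_eq']

private lemma lad_mul (R χ : M → ℝ) (A : Finset M) (x : M) :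
    ∑ z ∈ A, χ z * addPt R x z = ∑ z ∈ A, χ z * R z + if x ∈ A then χ x else 0 := by
  unfold addPt
  have h : ∀ z ∈ A, χ z * (R z + if z = x then (1 : ℝ) else 0) =
      χ z * R z + if z = x then χ z else 0 := by
    intro z _
    split_ifs <;> ring
  rw [Finset.sum_congr rfl h, Finset.sum_add_distrib, Finset.sum_ite_eq']

private lemma lad_od {R χ : M → ℝ} (hR : ∀ v, 0 ≤ R v) (hχ : ∀ v, χ v = 0 ∨ χ v = 1) (A : Finset M)
    (x : M) :
    od χ R A x = |∑ z ∈ A, χ z * R z - (∑ z ∈ A, R z) * χ x| / (1 + ∑ z ∈ A, R z) := by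
  unfold od
  congr 1
  rcases hχ x with h | h
  · rw [h, mul_zero, sub_zero, abs_of_nonneg]
    · apply Finset.sum_congr rfl
      intro v _
      rcases hχ v with h1 | h1 <;> simp [h1]
    · apply Finset.sum_nonneg
      intro v _
      rcases hχ v with h1 | h1
      · simp [h1]
      · rw [h1, one_mul]; exact hR v
  · rw [h, mul_one, abs_sub_comm, ← Finset.sum_sub_distrib, abs_of_nonneg]
    · apply Finset.sum_congr rfl
      intro v _
      rcases hχ v with h1 | h1 <;> simp [h1]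
    · apply Finset.sum_nonneg
      intro v _
      rcases hχ v with h1 | h1
      · rw [h1]; simpa using hR v
      · simp [h1]

/-- Module `lad`.  For a cell `A` containing `x`: the fraction of the cut with `x` added differs
from `χ x` by `od`, and the fraction changes by `od` divided by the mass.

Proof.  As `LogS.frac_add_sub`, `LogS.frac_add_diff`, `LogS.ot_eq` (cell `A` instead of the label cell). -/
theorem bar_add {R χ : M → ℝ} (hR : ∀ v, 0 ≤ R v) (hχ : ∀ v, χ v = 0 ∨ χ v = 1) {A : Finset M}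
    {x : M} (hx : x ∈ A) :
    |bar (addPt R x) χ A - χ x| = od χ R A x ∧
      (∑ z ∈ A, R z) * |bar (addPt R x) χ A - bar R χ A| = od χ R A x := by
  have h0 : 0 ≤ ∑ z ∈ A, R z := Finset.sum_nonneg fun v _ => hR v
  have hn : 0 < 1 + ∑ z ∈ A, R z := by linarith
  have hm0 : 0 ≤ ∑ z ∈ A, χ z * R z := by
    apply Finset.sum_nonneg
    intro v _
    rcases hχ v with h1 | h1
    · simp [h1]
    · rw [h1, one_mul]; exact hR v
  have hm1 : ∑ z ∈ A, χ z * R z ≤ ∑ z ∈ A, R z := by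
    apply Finset.sum_le_sum
    intro v _
    rcases hχ v with h1 | h1
    · simpa [h1] using hR v
    · rw [h1, one_mul]
  rw [lad_od hR hχ A x]
  unfold bar
  rw [lad_sum, lad_mul, if_pos hx, if_pos hx]
  constructor
  · have e : (∑ z ∈ A, χ z * R z + χ x) / (∑ z ∈ A, R z + 1) - χ x =
        (∑ z ∈ A, χ z * R z - (∑ z ∈ A, R z) * χ x) / (1 + ∑ z ∈ A, R z) := by
      rw [add_comm (∑ z ∈ A, R z) 1]
      field_simp
      ring
    rw [e, abs_div, abs_of_pos hn]
  · rcases eq_or_ne (∑ z ∈ A, R z) 0 with h | h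
    · have h2 : ∑ z ∈ A, χ z * R z = 0 := le_antisymm (h ▸ hm1) hm0
      rw [h, h2]; simp
    · have hp : 0 < ∑ z ∈ A, R z := lt_of_le_of_ne h0 (Ne.symm h)
      have e : (∑ z ∈ A, R z) * ((∑ z ∈ A, χ z * R z + χ x) / (∑ z ∈ A, R z + 1) -
          (∑ z ∈ A, χ z * R z) / ∑ z ∈ A, R z) =
          -((∑ z ∈ A, χ z * R z - (∑ z ∈ A, R z) * χ x) / (1 + ∑ z ∈ A, R z)) := by
        rw [add_comm (∑ z ∈ A, R z) 1]
        field_simp
        ring
      rw [← abs_of_pos hp, ← abs_mul, abs_of_pos hp, e, abs_neg, abs_div, abs_of_pos hn]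

/-- Module `lad`.  A point outside `A` changes nothing in `A`. -/
theorem bar_out {R χ : M → ℝ} {A : Finset M} {x : M} (hx : x ∉ A) :
    ∑ z ∈ A, addPt R x z = ∑ z ∈ A, R z ∧ bar (addPt R x) χ A = bar R χ A := by
  constructor
  · rw [lad_sum, if_neg hx, add_zero]
  · unfold bar
    rw [lad_sum, lad_mul, if_neg hx, if_neg hx, add_zero, add_zero]

/-- Module `lad`.  A point outside the cell `P`. -/
theorem XS_out {θ : Finset M → ℝ} {R χ : M → ℝ} {P : Finset M} {x : M} (hx : x ∉ P)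
    (T : M → ℝ) : XS θ χ (addPt R x) T P = XS θ χ R T P ∧ XS θ χ T (addPt R x) P = XS θ χ T R P := by
  have hB : ∀ B : Finset M, x ∉ P ∩ B := fun B h => hx (Finset.mem_inter.1 h).1
  unfold XS
  constructor
  · apply Finset.sum_congr rfl
    intro B _
    rw [(bar_out (R := R) (χ := χ) (hB B)).1, (bar_out (R := R) (χ := χ) (hB B)).2,
      (bar_out (R := R) (χ := χ) hx).2]
  · apply Finset.sum_congr rfl
    intro B _
    rw [(bar_out (R := R) (χ := χ) (hB B)).1, (bar_out (R := R) (χ := χ) (hB B)).2,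
      (bar_out (R := R) (χ := χ) hx).2]

/-- Module `lad`.  One point added to a cell.

Proof.  As `LogS.xd_add`.  `B` without `x`: the term is `R(P ∩ B) * |bar' P - bar P|`.  `B ∋ x`: it is at
most `R(P ∩ B) * (|bar' (P ∩ B) - bar (P ∩ B)| + |bar' P - bar P|) + |bar' (P ∩ B) - χ x| + |bar' P - χ x|`.
Sum with the weights: `∑ B θ B * R(P ∩ B) = R(P)` (`Cov`, interchange of sums) and
`∑ B ∋ x θ B = 1`; `bar_add`. -/
theorem XS_add {θ : Finset M → ℝ} (hθ : Cov θ) {R χ : M → ℝ} (hR : ∀ v, 0 ≤ R v)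
    (hχ : ∀ v, χ v = 0 ∨ χ v = 1) {P : Finset M} {x : M} (hx : x ∈ P) :
    XS θ χ (addPt R x) R P ≤ 2 * od χ R P x +
      2 * ∑ B : Finset M, (if x ∈ B then θ B * od χ R (P ∩ B) x else 0) := by
  obtain ⟨p1, p2⟩ := bar_add hR hχ hx
  have hm : ∑ B : Finset M, θ B * ∑ z ∈ P ∩ B, R z = ∑ z ∈ P, R z := by
    have e1 : ∀ B : Finset M, θ B * ∑ z ∈ P ∩ B, R z =
        ∑ z ∈ P, (if z ∈ B then θ B else 0) * R z := by
      intro B
      rw [Finset.mul_sum, Finset.sum_congr rfl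
        (fun z _ => (ite_mul (z ∈ B) (θ B) 0 (R z)).trans (by rw [zero_mul]))]
      rw [← Finset.sum_filter, Finset.filter_mem_eq_inter]
    rw [Finset.sum_congr rfl fun B _ => e1 B, Finset.sum_comm]
    apply Finset.sum_congr rfl
    intro z _
    rw [← Finset.sum_mul, hθ.2 z, one_mul]
  have hterm : ∀ B : Finset M, θ B * dst (∑ z ∈ P ∩ B, addPt R x z) (∑ z ∈ P ∩ B, R z)
      (bar (addPt R x) χ (P ∩ B) - bar (addPt R x) χ P) (bar R χ (P ∩ B) - bar R χ P) ≤
      θ B * (∑ z ∈ P ∩ B, R z) * |bar (addPt R x) χ P - bar R χ P| +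
      (2 * (if x ∈ B then θ B * od χ R (P ∩ B) x else 0) +
        (if x ∈ B then θ B else 0) * od χ R P x) := by
    intro B
    have hN : 0 ≤ ∑ z ∈ P ∩ B, R z := Finset.sum_nonneg fun v _ => hR v
    by_cases hB : x ∈ B
    · have hPB : x ∈ P ∩ B := Finset.mem_inter.2 ⟨hx, hB⟩
      obtain ⟨q1, q2⟩ := bar_add hR hχ hPB
      rw [if_pos hB, if_pos hB]
      have hN1 : ∑ z ∈ P ∩ B, addPt R x z = ∑ z ∈ P ∩ B, R z + 1 := by
        rw [lad_sum, if_pos hPB]
      unfold dst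
      rw [hN1, min_eq_right (by linarith), add_sub_cancel_left,
        pos_of_nonneg (by norm_num : (0:ℝ) ≤ 1),
        pos_of_nonpos (by linarith : ∑ z ∈ P ∩ B, R z - (∑ z ∈ P ∩ B, R z + 1) ≤ 0)]
      set bq' := bar (addPt R x) χ (P ∩ B)
      set bq := bar R χ (P ∩ B)
      set bp' := bar (addPt R x) χ P
      set bp := bar R χ P
      set N := ∑ z ∈ P ∩ B, R z
      have b1 : |bq' - bp' - (bq - bp)| ≤ |bq' - bq| + |bp' - bp| := by
        have : bq' - bp' - (bq - bp) = (bq' - bq) - (bp' - bp) := by ring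
        rw [this]; exact abs_sub _ _
      have b2 : |bq' - bp'| ≤ |bq' - χ x| + |bp' - χ x| := by
        have : bq' - bp' = (bq' - χ x) - (bp' - χ x) := by ring
        rw [this]; exact abs_sub _ _
      have b3 := mul_le_mul_of_nonneg_left b1 hN
      have b4 : N * |bq' - bp' - (bq - bp)| + 1 * |bq' - bp'| + 0 * |bq - bp| ≤
          N * |bp' - bp| + (2 * od χ R (P ∩ B) x + od χ R P x) := by
        linarith
      have b5 := mul_le_mul_of_nonneg_left b4 (hθ.1 B)
      linarith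
    · have hPB : x ∉ P ∩ B := fun h => hB (Finset.mem_inter.1 h).2
      rw [if_neg hB, if_neg hB, (bar_out (R := R) (χ := χ) hPB).1,
        (bar_out (R := R) (χ := χ) hPB).2, mul_zero, zero_mul, add_zero, add_zero]
      unfold dst
      rw [sub_self, pos_zero, min_self, zero_mul, zero_mul, add_zero, add_zero]
      apply le_of_eq
      rw [abs_sub_comm (bar (addPt R x) χ P) (bar R χ P), mul_assoc]
      congr 3
      ring
  unfold XS
  refine (Finset.sum_le_sum fun B _ => hterm B).trans (le_of_eq ?_)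
  rw [Finset.sum_add_distrib, Finset.sum_add_distrib, ← Finset.sum_mul, hm, p2, ← Finset.mul_sum,
    ← Finset.sum_mul, hθ.2 x]
  ring

private lemma lmv_sum (R : M → ℝ) (x : M) (A : Finset M) :
    ∑ z ∈ A, addPt R x z = ∑ z ∈ A, R z + if x ∈ A then 1 else 0 := by
  unfold addPt
  rw [Finset.sum_add_distrib, Finset.sum_ite_eq']

private lemma lmv_msum (R χ : M → ℝ) (x : M) (A : Finset M) :
    ∑ z ∈ A, χ z * addPt R x z = ∑ z ∈ A, χ z * R z + if x ∈ A then χ x else 0 := by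
  unfold addPt
  have h : ∀ z ∈ A, χ z * (R z + if z = x then 1 else 0) =
      χ z * R z + if z = x then χ z else 0 := by
    intro z _
    split_ifs <;> ring
  rw [Finset.sum_congr rfl h, Finset.sum_add_distrib, Finset.sum_ite_eq']

private lemma lmv_bar_diff {R χ : M → ℝ} {A : Finset M} {x y : M} (hx : x ∈ A) (hy : y ∈ A) :
    bar (addPt R x) χ A - bar (addPt R y) χ A = (χ x - χ y) / (∑ z ∈ A, R z + 1) := by
  unfold bar
  rw [lmv_sum, lmv_sum, lmv_msum, lmv_msum, if_pos hx, if_pos hy, if_pos hx, if_pos hy]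
  ring

private lemma lmv_od_nonneg {R χ : M → ℝ} (hR : ∀ v, 0 ≤ R v) (A : Finset M) (x : M) :
    0 ≤ od χ R A x := by
  unfold od
  apply div_nonneg (Finset.sum_nonneg fun z _ => mul_nonneg (hR z) (abs_nonneg _))
  have : 0 ≤ ∑ z ∈ A, R z := Finset.sum_nonneg fun z _ => hR z
  linarith

/-- The cell `A` with the point `x` inside and `y` outside. -/
private lemma lmv_one {R χ : M → ℝ} (hR : ∀ v, 0 ≤ R v) (hχ : ∀ v, χ v = 0 ∨ χ v = 1)
    {P A : Finset M} {x y : M} (hx : x ∈ P) (hy : y ∈ P) (hxA : x ∈ A) (hyA : y ∉ A) :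
    LogS.dst (∑ z ∈ A, addPt R x z) (∑ z ∈ A, addPt R y z)
      (bar (addPt R x) χ A - bar (addPt R x) χ P) (bar (addPt R y) χ A - bar (addPt R y) χ P) ≤
      (∑ z ∈ A, R z) * (|χ x - χ y| / (∑ z ∈ P, R z + 1)) + (2 * od χ R A x + od χ R P x) := by
  obtain ⟨a1, a2⟩ := bar_add hR hχ hxA
  obtain ⟨p1, _⟩ := bar_add hR hχ hx
  obtain ⟨o1, o2⟩ := bar_out (R := R) (χ := χ) hyA
  have hN : 0 ≤ ∑ z ∈ A, R z := Finset.sum_nonneg fun z _ => hR z
  have hP : 0 < ∑ z ∈ P, R z + 1 := by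
    have : 0 ≤ ∑ z ∈ P, R z := Finset.sum_nonneg fun z _ => hR z
    linarith
  have hd : |bar (addPt R x) χ P - bar (addPt R y) χ P| = |χ x - χ y| / (∑ z ∈ P, R z + 1) := by
    rw [lmv_bar_diff hx hy, abs_div, abs_of_pos hP]
  have hs : ∑ z ∈ A, addPt R x z = ∑ z ∈ A, R z + 1 := by rw [lmv_sum, if_pos hxA]
  rw [hs, o1, o2]
  unfold LogS.dst
  rw [min_eq_right (by linarith), add_sub_cancel_left,
    LogS.pos_of_nonneg (by norm_num : (0:ℝ) ≤ 1),
    LogS.pos_of_nonpos (by linarith : ∑ z ∈ A, R z - (∑ z ∈ A, R z + 1) ≤ 0)]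
  have b1 : |bar (addPt R x) χ A - bar (addPt R x) χ P - (bar R χ A - bar (addPt R y) χ P)| ≤
      |bar (addPt R x) χ A - bar R χ A| + |bar (addPt R x) χ P - bar (addPt R y) χ P| := by
    have : bar (addPt R x) χ A - bar (addPt R x) χ P - (bar R χ A - bar (addPt R y) χ P) =
        (bar (addPt R x) χ A - bar R χ A) - (bar (addPt R x) χ P - bar (addPt R y) χ P) := by ring
    rw [this]; exact abs_sub _ _
  have b2 : |bar (addPt R x) χ A - bar (addPt R x) χ P| ≤
      |bar (addPt R x) χ A - χ x| + |bar (addPt R x) χ P - χ x| := by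
    have : bar (addPt R x) χ A - bar (addPt R x) χ P =
        (bar (addPt R x) χ A - χ x) - (bar (addPt R x) χ P - χ x) := by ring
    rw [this]; exact abs_sub _ _
  have b3 := mul_le_mul_of_nonneg_left b1 hN
  rw [mul_add, a2, hd] at b3
  rw [a1, p1] at b2
  linarith

/-- Module `lmv`.  One point moved inside a cell.

Proof.  Write `N A = 1 + ∑ z ∈ A, R z` and `δ = |χ x - χ y|`.
* `B ∋ x, y`: masses equal, term `N(P ∩ B) * δ * (1 / N(P ∩ B) - 1 / N P)` (as in `LogS.xd_move`);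
* `B ∌ x, y`: term `R(P ∩ B) * δ / N P`;
* `x ∈ B`, `y ∉ B`: masses `R(P ∩ B) + 1` and `R(P ∩ B)`; the term is at most
  `R(P ∩ B) * |bar' (P ∩ B) - bar (P ∩ B)| + R(P ∩ B) * δ / N P + |bar' (P ∩ B) - χ x| + |bar' P - χ x|
  = 2 * od (P ∩ B) x + R(P ∩ B) * δ / N P + od P x` (`bar_add`);
* `y ∈ B`, `x ∉ B`: in the same way.
The terms with `δ`: the first kind at most `δ * ∑_{B ∋ x, y} θ B ≤ δ`, the others
`δ / N P * ∑ B θ B * R(P ∩ B) = δ * R(P) / N P ≤ δ`. -/
theorem XS_move {θ : Finset M → ℝ} (hθ : Cov θ) {R χ : M → ℝ} (hR : ∀ v, 0 ≤ R v)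
    (hχ : ∀ v, χ v = 0 ∨ χ v = 1) {P : Finset M} {x y : M} (hx : x ∈ P) (hy : y ∈ P) :
    XS θ χ (addPt R x) (addPt R y) P ≤ 2 * |χ x - χ y| +
      ∑ B : Finset M, (if x ∈ B ∧ y ∉ B then θ B * (2 * od χ R (P ∩ B) x + od χ R P x) else 0) +
      ∑ B : Finset M, (if y ∈ B ∧ x ∉ B then θ B * (2 * od χ R (P ∩ B) y + od χ R P y) else 0) := by
  set δ : ℝ := |χ x - χ y| with hδ
  have hδ0 : 0 ≤ δ := abs_nonneg _
  set NP : ℝ := ∑ z ∈ P, R z + 1 with hNP
  have hRP : 0 ≤ ∑ z ∈ P, R z := Finset.sum_nonneg fun z _ => hR z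
  have hP0 : 0 < NP := by rw [hNP]; linarith
  have hterm : ∀ B : Finset M, θ B * LogS.dst (∑ z ∈ P ∩ B, addPt R x z) (∑ z ∈ P ∩ B, addPt R y z)
      (bar (addPt R x) χ (P ∩ B) - bar (addPt R x) χ P)
      (bar (addPt R y) χ (P ∩ B) - bar (addPt R y) χ P) ≤
      (if x ∈ B then θ B else 0) * δ + θ B * (∑ z ∈ P ∩ B, R z) * (δ / NP) +
      (if x ∈ B ∧ y ∉ B then θ B * (2 * od χ R (P ∩ B) x + od χ R P x) else 0) +
      (if y ∈ B ∧ x ∉ B then θ B * (2 * od χ R (P ∩ B) y + od χ R P y) else 0) := by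
    intro B
    have hN : 0 ≤ ∑ z ∈ P ∩ B, R z := Finset.sum_nonneg fun z _ => hR z
    have hθB := hθ.1 B
    by_cases hxB : x ∈ B
    · have hxA : x ∈ P ∩ B := Finset.mem_inter.2 ⟨hx, hxB⟩
      by_cases hyB : y ∈ B
      · have hyA : y ∈ P ∩ B := Finset.mem_inter.2 ⟨hy, hyB⟩
        rw [if_pos hxB, if_neg (fun h => h.2 hyB), if_neg (fun h => h.2 hxB), add_zero, add_zero]
        have hle : ∑ z ∈ P ∩ B, R z + 1 ≤ NP := by
          have : ∑ z ∈ P ∩ B, R z ≤ ∑ z ∈ P, R z :=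
            Finset.sum_le_sum_of_subset_of_nonneg Finset.inter_subset_left fun z _ _ => hR z
          rw [hNP]; linarith
        have hA0 : 0 < ∑ z ∈ P ∩ B, R z + 1 := by linarith
        have key : LogS.dst (∑ z ∈ P ∩ B, addPt R x z) (∑ z ∈ P ∩ B, addPt R y z)
            (bar (addPt R x) χ (P ∩ B) - bar (addPt R x) χ P)
            (bar (addPt R y) χ (P ∩ B) - bar (addPt R y) χ P) ≤ δ := by
          rw [lmv_sum, lmv_sum, if_pos hxA, if_pos hyA]
          unfold LogS.dst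
          rw [sub_self, LogS.pos_zero, min_self, zero_mul, zero_mul, add_zero, add_zero]
          have e : bar (addPt R x) χ (P ∩ B) - bar (addPt R x) χ P -
              (bar (addPt R y) χ (P ∩ B) - bar (addPt R y) χ P) =
              (χ x - χ y) * (1 / (∑ z ∈ P ∩ B, R z + 1) - 1 / NP) := by
            have h1 := lmv_bar_diff (R := R) (χ := χ) hxA hyA
            have h2 := lmv_bar_diff (R := R) (χ := χ) hx hy
            rw [← hNP] at h2
            calc _ = (bar (addPt R x) χ (P ∩ B) - bar (addPt R y) χ (P ∩ B)) -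
                  (bar (addPt R x) χ P - bar (addPt R y) χ P) := by ring
              _ = _ := by rw [h1, h2]; ring
          rw [e, abs_mul, ← hδ]
          have e2 : 0 ≤ 1 / (∑ z ∈ P ∩ B, R z + 1) - 1 / NP :=
            sub_nonneg.2 (one_div_le_one_div_of_le hA0 hle)
          rw [abs_of_nonneg e2]
          have e3 : (∑ z ∈ P ∩ B, R z + 1) * (1 / (∑ z ∈ P ∩ B, R z + 1) - 1 / NP) ≤ 1 := by
            have : 0 ≤ (∑ z ∈ P ∩ B, R z + 1) * (1 / NP) := by positivity
            have h1 : (∑ z ∈ P ∩ B, R z + 1) * (1 / (∑ z ∈ P ∩ B, R z + 1)) = 1 := by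
              field_simp
            rw [mul_sub, h1]; linarith
          calc (∑ z ∈ P ∩ B, R z + 1) * (δ * (1 / (∑ z ∈ P ∩ B, R z + 1) - 1 / NP)) =
                δ * ((∑ z ∈ P ∩ B, R z + 1) * (1 / (∑ z ∈ P ∩ B, R z + 1) - 1 / NP)) := by ring
            _ ≤ δ * 1 := mul_le_mul_of_nonneg_left e3 hδ0
            _ = δ := mul_one _
        have h1 := mul_le_mul_of_nonneg_left key hθB
        have h2 : 0 ≤ θ B * (∑ z ∈ P ∩ B, R z) * (δ / NP) := by positivity
        linarith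
      · have hyA : y ∉ P ∩ B := fun h => hyB (Finset.mem_inter.1 h).2
        rw [if_pos hxB, if_pos ⟨hxB, hyB⟩, if_neg (fun h => h.2 hxB), add_zero]
        have key := lmv_one hR hχ hx hy hxA hyA
        have h1 := mul_le_mul_of_nonneg_left key hθB
        rw [← hδ, ← hNP] at h1
        have h2 : 0 ≤ θ B * δ := by positivity
        linarith
    · have hxA : x ∉ P ∩ B := fun h => hxB (Finset.mem_inter.1 h).2
      by_cases hyB : y ∈ B
      · have hyA : y ∈ P ∩ B := Finset.mem_inter.2 ⟨hy, hyB⟩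
        rw [if_neg hxB, if_neg (fun h => hxB h.1), if_pos ⟨hyB, hxB⟩, zero_mul, zero_add, add_zero]
        have key := lmv_one hR hχ hy hx hyA hxA
        rw [LogS.dst_symm, abs_sub_comm (χ y) (χ x)] at key
        have h1 := mul_le_mul_of_nonneg_left key hθB
        rw [← hδ, ← hNP] at h1
        linarith
      · have hyA : y ∉ P ∩ B := fun h => hyB (Finset.mem_inter.1 h).2
        rw [if_neg hxB, if_neg (fun h => hxB h.1), if_neg (fun h => hyB h.1), zero_mul, zero_add,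
          add_zero, add_zero]
        obtain ⟨o1, o2⟩ := bar_out (R := R) (χ := χ) hxA
        obtain ⟨o3, o4⟩ := bar_out (R := R) (χ := χ) hyA
        rw [o1, o2, o3, o4]
        unfold LogS.dst
        rw [sub_self, LogS.pos_zero, min_self, zero_mul, zero_mul, add_zero, add_zero]
        have e : bar R χ (P ∩ B) - bar (addPt R x) χ P - (bar R χ (P ∩ B) - bar (addPt R y) χ P) =
            -((χ x - χ y) / NP) := by
          have h2 := lmv_bar_diff (R := R) (χ := χ) hx hy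
          rw [← hNP] at h2
          rw [← h2]; ring
        rw [e, abs_neg, abs_div, abs_of_pos hP0, ← hδ]
        apply le_of_eq; ring
  have h0 : XS θ χ (addPt R x) (addPt R y) P ≤ ∑ B : Finset M,
      ((if x ∈ B then θ B else 0) * δ + θ B * (∑ z ∈ P ∩ B, R z) * (δ / NP) +
      (if x ∈ B ∧ y ∉ B then θ B * (2 * od χ R (P ∩ B) x + od χ R P x) else 0) +
      (if y ∈ B ∧ x ∉ B then θ B * (2 * od χ R (P ∩ B) y + od χ R P y) else 0)) :=
    Finset.sum_le_sum fun B _ => hterm B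
  rw [Finset.sum_add_distrib, Finset.sum_add_distrib, Finset.sum_add_distrib, ← Finset.sum_mul,
    ← Finset.sum_mul, hθ.2 x] at h0
  have h1 : ∑ B : Finset M, θ B * ∑ z ∈ P ∩ B, R z = ∑ z ∈ P, R z := by
    have e1 : ∀ B : Finset M, θ B * ∑ z ∈ P ∩ B, R z =
        ∑ z ∈ P, R z * (if z ∈ B then θ B else 0) := by
      intro B
      rw [← Finset.filter_mem_eq_inter, Finset.sum_filter, Finset.mul_sum]
      refine Finset.sum_congr rfl fun z _ => ?_
      split_ifs
      · ring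
      · ring
    rw [Finset.sum_congr rfl fun B _ => e1 B, Finset.sum_comm]
    refine Finset.sum_congr rfl fun z _ => ?_
    rw [← Finset.mul_sum, hθ.2 z, mul_one]
  rw [h1] at h0
  have h2 : (∑ z ∈ P, R z) * (δ / NP) ≤ δ := by
    rw [mul_div_assoc', div_le_iff₀ hP0]
    have : (∑ z ∈ P, R z) * δ ≤ NP * δ := mul_le_mul_of_nonneg_right (by rw [hNP]; linarith) hδ0
    linarith
  linarith

/-- Module `ltr`.  Triangle inequality for natural masses.

Proof.  `LogS.sum_thr`: `dst a b q q'` is the `ℓ_1` distance of `t ↦ q 1{t < a}` and `t ↦ q' 1{t < b}` on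
`range s`, for natural `a, b ≤ s`; every term is a distance. -/
theorem XS_tri {θ : Finset M → ℝ} (hθ : ∀ B, 0 ≤ θ B) (χ : M → ℝ) (S T U : M → ℕ)
    (P : Finset M) :
    XS θ χ (fun v => (S v : ℝ)) (fun v => (U v : ℝ)) P ≤
      XS θ χ (fun v => (S v : ℝ)) (fun v => (T v : ℝ)) P +
      XS θ χ (fun v => (T v : ℝ)) (fun v => (U v : ℝ)) P := by
  unfold XS
  rw [← Finset.sum_add_distrib]
  refine Finset.sum_le_sum fun B _ => ?_
  rw [← mul_add]
  refine mul_le_mul_of_nonneg_left ?_ (hθ B)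
  have c : ∀ V : M → ℕ, ∑ z ∈ P ∩ B, (V z : ℝ) = ((∑ z ∈ P ∩ B, V z : ℕ) : ℝ) := by
    intro V; push_cast; rfl
  rw [c S, c T, c U]
  set s := ∑ z ∈ P ∩ B, S z + ∑ z ∈ P ∩ B, T z + ∑ z ∈ P ∩ B, U z with hs
  have h1 : ∑ z ∈ P ∩ B, S z ≤ s := by omega
  have h2 : ∑ z ∈ P ∩ B, T z ≤ s := by omega
  have h3 : ∑ z ∈ P ∩ B, U z ≤ s := by omega
  rw [← LogS.sum_thr h1 h3, ← LogS.sum_thr h1 h2, ← LogS.sum_thr h2 h3, ← Finset.sum_add_distrib]
  exact Finset.sum_le_sum fun t _ => abs_sub_le _ _ _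

/-- Module `ltr`. -/
theorem XS_symm (θ : Finset M → ℝ) (χ S T : M → ℝ) (P : Finset M) :
    XS θ χ S T P = XS θ χ T S P := by
  unfold XS
  exact Finset.sum_congr rfl fun B _ => by rw [LogS.dst_symm]

end Pool.Agent.L2U
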