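import Mathlib

/-!
Numerical sums over blocks.  `r` is the distance of the two points, `mB p r b` the bound for the
separation at block `b`.  Modules `nm1` (`sum_count`), `nm2` (`sum_levels`), `nm3` (`sum_metric`,
`sum_small`).

In all proofs let `k0` be the integer with `2 ^ (k0 * p) ≤ r < 2 ^ ((k0 + 1) * p)` (it exists since
`1 ≤ r`, `1 ≤ p`).  Then `mB p r b ≤ r` and `mB p r (k0 + 2 + j) ≤ r / 2 ^ (j * p)` (because
`2 ^ p * r ^ 2 / 2 ^ ((k0 + 2 + j) * p) = r * (r / 2 ^ ((k0 + 1) * p)) / 2 ^ (j * p)`), and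
`1 / 2 ^ (j * p) ≤ 1 / 2 ^ j`.
-/

namespace Pool.Agent.L2U

open Finset

/-- The bound for block `b`. -/
noncomputable def mB (p : ℕ) (r : ℝ) (b : ℕ) : ℝ := min r (2 ^ p * r ^ 2 / 2 ^ (b * p))

-- BEGIN nm12 helpers

private lemma nm12_k0 {p : ℕ} (hp : 1 ≤ p) {r : ℝ} (hr : 1 ≤ r) :
    ∃ k0 : ℕ, (2 : ℝ) ^ (k0 * p) ≤ r ∧ r < 2 ^ ((k0 + 1) * p) := by
  classical
  have hex : ∃ k : ℕ, r < 2 ^ ((k + 1) * p) := by
    obtain ⟨n, hn⟩ := pow_unbounded_of_one_lt r (one_lt_two : (1 : ℝ) < 2)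
    refine ⟨n, hn.trans_le ?_⟩
    refine pow_le_pow_right₀ one_le_two ?_
    nlinarith
  refine ⟨Nat.find hex, ?_, Nat.find_spec hex⟩
  rcases Nat.eq_zero_or_pos (Nat.find hex) with h | h
  · rw [h]; simpa using hr
  · have := Nat.find_min hex (m := Nat.find hex - 1) (by omega)
    rw [not_lt] at this
    rwa [Nat.sub_add_cancel h] at this

private lemma nm12_nonneg (p : ℕ) {r : ℝ} (hr : 1 ≤ r) (b : ℕ) : 0 ≤ mB p r b := by
  unfold mB
  refine le_min (by linarith) (by positivity)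

private lemma nm12_le (p : ℕ) (r : ℝ) (b : ℕ) : mB p r b ≤ r := min_le_left _ _

private lemma nm12_anti {p : ℕ} {r : ℝ} {b b' : ℕ} (h : b ≤ b') : mB p r b' ≤ mB p r b := by
  unfold mB
  refine min_le_min le_rfl ?_
  refine div_le_div_of_nonneg_left (by positivity) (by positivity) ?_
  exact pow_le_pow_right₀ one_le_two (Nat.mul_le_mul_right _ h)

private lemma nm12_tail {p : ℕ} (hp : 1 ≤ p) {r : ℝ} (hr : 1 ≤ r) {k0 : ℕ}
    (h : r < 2 ^ ((k0 + 1) * p)) (j : ℕ) : mB p r (k0 + 2 + j) ≤ r / 2 ^ j := by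
  refine (min_le_right _ _).trans ?_
  rw [div_le_div_iff₀ (by positivity) (by positivity)]
  have e1 : (2 : ℝ) ^ ((k0 + 2 + j) * p) = 2 ^ p * 2 ^ ((k0 + 1) * p) * 2 ^ (j * p) := by
    rw [← pow_add, ← pow_add]; congr 1; ring
  have e2 : (2 : ℝ) ^ j ≤ 2 ^ (j * p) := pow_le_pow_right₀ one_le_two (by nlinarith)
  rw [e1]
  have hr0 : 0 ≤ r := by linarith
  calc 2 ^ p * r ^ 2 * 2 ^ j ≤ 2 ^ p * r ^ 2 * 2 ^ (j * p) :=
        mul_le_mul_of_nonneg_left e2 (by positivity)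
    _ = (2 ^ p * 2 ^ (j * p) * r) * r := by ring
    _ ≤ (2 ^ p * 2 ^ (j * p) * r) * 2 ^ ((k0 + 1) * p) :=
        mul_le_mul_of_nonneg_left h.le (by positivity)
    _ = r * (2 ^ p * 2 ^ ((k0 + 1) * p) * 2 ^ (j * p)) := by ring

private lemma nm12_geo (L n : ℕ) :
    ∑ e ∈ Finset.range n, (if L ≤ e then (1 : ℝ) / 2 ^ e else 0) ≤
      2 / 2 ^ L - (if L ≤ n then (2 : ℝ) / 2 ^ n else 2 / 2 ^ L) := by
  induction n with
  | zero =>
    rw [Finset.sum_range_zero]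
    split_ifs with h
    · have : L = 0 := by omega
      subst this; simp
    · simp
  | succ n ih =>
    rw [Finset.sum_range_succ]
    by_cases h : L ≤ n
    · rw [if_pos h] at ih ⊢
      rw [if_pos (by omega)]
      have : (2 : ℝ) / 2 ^ (n + 1) = 1 / 2 ^ n := by
        rw [pow_succ]; field_simp
      rw [this]
      have e : (2 : ℝ) / 2 ^ n = 1 / 2 ^ n + 1 / 2 ^ n := by ring
      linarith
    · rw [if_neg h] at ih ⊢
      have h0 : ∑ e ∈ Finset.range n, (if L ≤ e then (1 : ℝ) / 2 ^ e else 0) ≤ 0 := by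
        linarith
      by_cases h' : L ≤ n + 1
      · rw [if_pos h']
        have : L = n + 1 := by omega
        subst this
        linarith
      · rw [if_neg h']
        linarith

private lemma nm12_geo2 {c : ℝ} (hc : 0 ≤ c) (L n : ℕ) :
    ∑ e ∈ Finset.range n, (if L ≤ e then c / 2 ^ e else 0) ≤ 2 * c / 2 ^ L := by
  have h := nm12_geo L n
  have h1 : ∑ e ∈ Finset.range n, (if L ≤ e then c / 2 ^ e else 0) =
      c * ∑ e ∈ Finset.range n, (if L ≤ e then (1 : ℝ) / 2 ^ e else 0) := by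
    rw [Finset.mul_sum]
    refine Finset.sum_congr rfl fun e _ => ?_
    split_ifs <;> ring
  rw [h1]
  have h2 : ∑ e ∈ Finset.range n, (if L ≤ e then (1 : ℝ) / 2 ^ e else 0) ≤ 2 / 2 ^ L := by
    refine h.trans ?_
    have : 0 ≤ (if L ≤ n then (2 : ℝ) / 2 ^ n else 2 / 2 ^ L) := by
      split_ifs <;> positivity
    linarith
  calc c * ∑ e ∈ Finset.range n, (if L ≤ e then (1 : ℝ) / 2 ^ e else 0) ≤ c * (2 / 2 ^ L) :=
        mul_le_mul_of_nonneg_left h2 hc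
    _ = 2 * c / 2 ^ L := by ring

private lemma nm12_pow_sum {p : ℕ} (hp : 1 ≤ p) (k0 : ℕ) :
    ∑ k ∈ Finset.range k0, (2 : ℝ) ^ ((k + 1) * p) ≤ 2 * 2 ^ (k0 * p) := by
  induction k0 with
  | zero => simp
  | succ k ih =>
    rw [Finset.sum_range_succ]
    have : (2 : ℝ) * 2 ^ (k * p) ≤ 2 ^ ((k + 1) * p) := by
      rw [← pow_succ']
      refine pow_le_pow_right₀ one_le_two ?_
      nlinarith
    linarith

private lemma nm12_half (K : ℕ) : ∑ m ∈ Finset.range K, (1 : ℝ) / 2 ^ m ≤ 2 := by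
  have := sum_geometric_two_le K
  simpa [one_div, inv_pow] using this

-- END nm12 helpers

/-- Module `nm1`.

Proof.  The inner sum is at most `∑_{b ≥ k + 1} 4 mB b ∑_{b p ≤ e < (b + 1) p} 1 / 2 ^ e
≤ ∑_{b ≥ k + 1} 8 mB b / 2 ^ (b p)`, and `mB` decreases in `b`, so `2 ^ ((k + 1) p)` times it is at most
`8 mB (k + 1) ∑ j 1 / 2 ^ (j p) ≤ 16 mB (k + 1)`.  So the term of `k` is at most
`min (2 ^ ((k + 1) p)) (16 mB (k + 1))`.  The `k` with `k + 1 ≤ k0` give at most `2 r` (geometric,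
last term `2 ^ (k0 p) ≤ r`), `k + 1 = k0 + 1` at most `16 r`, `k + 1 = k0 + 2 + j` at most `16 r / 2 ^ j`. -/
theorem sum_count {p : ℕ} (hp : 1 ≤ p) {r : ℝ} (hr : 1 ≤ r) (n K : ℕ) :
    ∑ k ∈ Finset.range K, 2 ^ ((k + 1) * p) *
      min 1 (∑ e : Fin n, (if (k + 1) * p ≤ (e : ℕ) then 4 * mB p r ((e : ℕ) / p) / 2 ^ (e : ℕ)
        else 0)) ≤ 50 * r := by
  obtain ⟨k0, hk1, hk2⟩ := nm12_k0 hp hr
  have hr0 : 0 ≤ r := by linarith
  set T : ℕ → ℝ := fun k => 2 ^ ((k + 1) * p) *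
      min 1 (∑ e : Fin n, (if (k + 1) * p ≤ (e : ℕ) then 4 * mB p r ((e : ℕ) / p) / 2 ^ (e : ℕ)
        else 0)) with hT
  have hin0 : ∀ k, 0 ≤ ∑ e : Fin n, (if (k + 1) * p ≤ (e : ℕ) then
      4 * mB p r ((e : ℕ) / p) / 2 ^ (e : ℕ) else 0) := by
    intro k
    refine Finset.sum_nonneg fun e _ => ?_
    have := nm12_nonneg p hr ((e : ℕ) / p)
    split_ifs
    · positivity
    · exact le_rfl
  have hT0 : ∀ k, 0 ≤ T k := fun k => mul_nonneg (by positivity) (le_min zero_le_one (hin0 k))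
  have hT1 : ∀ k, T k ≤ 2 ^ ((k + 1) * p) := by
    intro k
    have := mul_le_mul_of_nonneg_left (min_le_left 1 (∑ e : Fin n, (if (k + 1) * p ≤ (e : ℕ) then
      4 * mB p r ((e : ℕ) / p) / 2 ^ (e : ℕ) else 0))) (by positivity : (0:ℝ) ≤ 2 ^ ((k + 1) * p))
    rw [mul_one] at this
    exact this
  have hT2 : ∀ k, T k ≤ 8 * mB p r (k + 1) := by
    intro k
    have hm := nm12_nonneg p hr (k + 1)
    have h1 : ∑ e : Fin n, (if (k + 1) * p ≤ (e : ℕ) then
        4 * mB p r ((e : ℕ) / p) / 2 ^ (e : ℕ) else 0) ≤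
        2 * (4 * mB p r (k + 1)) / 2 ^ ((k + 1) * p) := by
      rw [Fin.sum_univ_eq_sum_range (fun e : ℕ => if (k + 1) * p ≤ e then
        4 * mB p r (e / p) / 2 ^ e else 0) n]
      refine le_trans (Finset.sum_le_sum fun e _ => ?_) (nm12_geo2 (c := 4 * mB p r (k + 1))
        (by positivity) ((k + 1) * p) n)
      split_ifs with h
      · have hb : k + 1 ≤ e / p := by
          rw [Nat.le_div_iff_mul_le (by omega)]
          exact h
        have := nm12_anti (p := p) (r := r) hb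
        gcongr
      · exact le_rfl
    have h2 := (min_le_right (1 : ℝ) _).trans h1
    have h3 := mul_le_mul_of_nonneg_left h2 (by positivity : (0:ℝ) ≤ 2 ^ ((k + 1) * p))
    refine h3.trans (le_of_eq ?_)
    field_simp
    ring
  have hle : ∑ k ∈ Finset.range K, T k ≤ ∑ k ∈ Finset.range (k0 + K), T k :=
    Finset.sum_le_sum_of_subset_of_nonneg
      (Finset.range_subset_range.2 (by omega)) fun k _ _ => hT0 k
  refine hle.trans ?_
  rw [Finset.sum_range_add]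
  have hA : ∑ k ∈ Finset.range k0, T k ≤ 2 * r := by
    refine (Finset.sum_le_sum fun k _ => hT1 k).trans ((nm12_pow_sum hp k0).trans ?_)
    linarith
  have hB : ∑ m ∈ Finset.range K, T (k0 + m) ≤ 32 * r := by
    have : ∀ m, T (k0 + m) ≤ 16 * r * (1 / 2 ^ m) := by
      intro m
      rcases Nat.eq_zero_or_pos m with h | h
      · subst h
        have := hT2 (k0 + 0)
        have h' := nm12_le p r (k0 + 0 + 1)
        rw [pow_zero, div_one, mul_one]
        linarith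
      · obtain ⟨j, rfl⟩ : ∃ j, m = j + 1 := ⟨m - 1, by omega⟩
        have h1 := hT2 (k0 + (j + 1))
        have h2 := nm12_tail hp hr hk2 j
        have e : k0 + (j + 1) + 1 = k0 + 2 + j := by ring
        rw [e] at h1
        refine h1.trans ((mul_le_mul_of_nonneg_left h2 (by norm_num)).trans (le_of_eq ?_))
        rw [pow_succ]
        field_simp
        ring
    refine (Finset.sum_le_sum fun m _ => this m).trans ?_
    rw [← Finset.mul_sum]
    have := mul_le_mul_of_nonneg_left (nm12_half K) (by positivity : 0 ≤ 16 * r)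
    linarith
  linarith

private lemma nm2_cnt {p : ℕ} {r : ℝ} {k0 : ℕ} (h : (2 : ℝ) ^ (k0 * p) ≤ r) (n k : ℕ) :
    ∑ e : Fin n, (if (e : ℕ) < (k + 1) * p ∧ r ≤ 2 ^ (e : ℕ) then (1 : ℝ) else 0) ≤
      (((k + 1) * p - k0 * p : ℕ) : ℝ) := by
  rw [Fin.sum_univ_eq_sum_range (fun e : ℕ => if e < (k + 1) * p ∧ r ≤ 2 ^ e then (1 : ℝ) else 0) n]
  rw [← Finset.sum_filter, Finset.sum_const, nsmul_eq_mul, mul_one, Nat.cast_le,
    ← Nat.card_Ico]
  refine Finset.card_le_card fun e he => ?_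
  rw [Finset.mem_filter] at he
  rw [Finset.mem_Ico]
  refine ⟨?_, he.2.1⟩
  have h1 : (2 : ℝ) ^ (k0 * p) ≤ 2 ^ e := h.trans he.2.2
  exact (pow_le_pow_iff_right₀ one_lt_two).1 h1

private lemma nm2_sum (I : ℕ) :
    ∑ i ∈ Finset.range I, ((3 : ℝ) + i) / 2 ^ i = 8 - 2 * (4 + I) / 2 ^ I := by
  induction I with
  | zero => simp; norm_num
  | succ I ih =>
    rw [Finset.sum_range_succ, ih, pow_succ]
    push_cast
    field_simp
    ring

/-- Module `nm2`.

Proof.  For `k < k0` there is no `e` with `r ≤ 2 ^ e < 2 ^ ((k + 1) p) ≤ 2 ^ (k0 p) ≤ r`.  For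
`k = k0 + j` the `e` satisfy `k0 p ≤ e < (k0 + j + 1) p` (as `2 ^ (k0 p) ≤ r ≤ 2 ^ e`), at most `(j + 1) p` of
them.  `j = 0, 1, 2`: at most `r p (1 + 2 + 3)`; `j = 2 + i`, `i ≥ 1`: at most `r / 2 ^ i * (3 + i) p`, and
`∑ i ≥ 1, (3 + i) / 2 ^ i = 5`. -/
theorem sum_levels {p : ℕ} (hp : 1 ≤ p) {r : ℝ} (hr : 1 ≤ r) (n K : ℕ) :
    ∑ k ∈ Finset.range K, mB p r k *
      (∑ e : Fin n, (if (e : ℕ) < (k + 1) * p ∧ r ≤ 2 ^ (e : ℕ) then (1 : ℝ) else 0)) ≤
      11 * r * p := by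
  obtain ⟨k0, hk1, hk2⟩ := nm12_k0 hp hr
  have hr0 : 0 ≤ r := by linarith
  set T : ℕ → ℝ := fun k => mB p r k *
      (∑ e : Fin n, (if (e : ℕ) < (k + 1) * p ∧ r ≤ 2 ^ (e : ℕ) then (1 : ℝ) else 0)) with hT
  have hc0 : ∀ k, 0 ≤ ∑ e : Fin n, (if (e : ℕ) < (k + 1) * p ∧ r ≤ 2 ^ (e : ℕ) then (1 : ℝ)
      else 0) := by
    intro k
    refine Finset.sum_nonneg fun e _ => ?_
    split_ifs <;> norm_num
  have hT0 : ∀ k, 0 ≤ T k := fun k => mul_nonneg (nm12_nonneg p hr k) (hc0 k)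
  have hle : ∑ k ∈ Finset.range K, T k ≤ ∑ k ∈ Finset.range (k0 + (2 + K)), T k :=
    Finset.sum_le_sum_of_subset_of_nonneg
      (Finset.range_subset_range.2 (by omega)) fun k _ _ => hT0 k
  refine hle.trans ?_
  rw [Finset.sum_range_add, Finset.sum_range_add]
  have hA : ∑ k ∈ Finset.range k0, T k ≤ 0 := by
    refine Finset.sum_nonpos fun k hk => ?_
    have hc := nm2_cnt hk1 n k
    have hz : (k + 1) * p - k0 * p = 0 := by
      rw [Finset.mem_range] at hk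
      have : (k + 1) * p ≤ k0 * p := Nat.mul_le_mul_right _ (by omega)
      omega
    rw [hz, Nat.cast_zero] at hc
    exact mul_nonpos_of_nonneg_of_nonpos (nm12_nonneg p hr k) hc
  have hcj : ∀ j, ∑ e : Fin n, (if (e : ℕ) < (k0 + j + 1) * p ∧ r ≤ 2 ^ (e : ℕ) then (1 : ℝ)
      else 0) ≤ (j + 1) * p := by
    intro j
    have hc := nm2_cnt hk1 n (k0 + j)
    have hz : (k0 + j + 1) * p - k0 * p = (j + 1) * p := by
      have : (k0 + j + 1) * p = (j + 1) * p + k0 * p := by ring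
      omega
    rw [hz] at hc
    push_cast at hc
    exact hc
  have hB : ∑ x ∈ Finset.range 2, T (k0 + x) ≤ 3 * (r * p) := by
    rw [Finset.sum_range_succ, Finset.sum_range_one]
    have h0 : T (k0 + 0) ≤ r * ((0 + 1) * p) := by
      have := hcj 0
      rw [Nat.cast_zero] at this
      exact mul_le_mul (nm12_le p r _) this (hc0 _) hr0
    have h1 : T (k0 + 1) ≤ r * ((1 + 1) * p) := by
      have := hcj 1
      rw [Nat.cast_one] at this
      exact mul_le_mul (nm12_le p r _) this (hc0 _) hr0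
    linarith
  have hC : ∑ x ∈ Finset.range K, T (k0 + (2 + x)) ≤ 8 * (r * p) := by
    have h1 : ∀ i, T (k0 + (2 + i)) ≤ (r * p) * ((3 + i) / 2 ^ i) := by
      intro i
      have h2 := nm12_tail hp hr hk2 i
      have h3 := hcj (2 + i)
      have e : k0 + 2 + i = k0 + (2 + i) := by ring
      rw [e] at h2
      have := mul_le_mul h2 h3 (hc0 _) (by positivity)
      refine this.trans (le_of_eq ?_)
      push_cast
      field_simp
      ring
    refine (Finset.sum_le_sum fun i _ => h1 i).trans ?_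
    rw [← Finset.mul_sum, nm2_sum]
    have : 0 ≤ 2 * (4 + (K : ℝ)) / 2 ^ K := by positivity
    have h5 : 0 ≤ r * p := by positivity
    nlinarith
  have : 11 * r * p = 0 + (3 * (r * p) + 8 * (r * p)) := by ring
  rw [this]
  linarith

private lemma nm3_geo {p : ℕ} (hp : 1 ≤ p) (k : ℕ) :
    ∑ i ∈ Finset.range k, (8 : ℝ) * 2 ^ ((i + 1) * p) ≤ 16 * 2 ^ (k * p) := by
  induction k with
  | zero => simp
  | succ k ih =>
    rw [Finset.sum_range_succ]
    have h1 : (2 : ℝ) ^ (k * p) * 2 ≤ 2 ^ ((k + 1) * p) := by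
      rw [← pow_succ]
      apply pow_le_pow_right₀ (by norm_num)
      nlinarith
    linarith

private lemma nm3_half (r : ℝ) (hr : 0 ≤ r) (K : ℕ) :
    ∑ j ∈ Finset.range K, r / 2 ^ j ≤ 2 * r := by
  have h := sum_geometric_two_le K
  have e : ∑ j ∈ Finset.range K, r / 2 ^ j = r * ∑ j ∈ Finset.range K, (1 / (2 : ℝ)) ^ j := by
    rw [Finset.mul_sum]
    refine Finset.sum_congr rfl fun j _ => ?_
    rw [one_div, inv_pow, div_eq_mul_inv]
  rw [e]
  nlinarith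

/-- Module `nm3`.

Proof.  `k < k0`: `∑ 8 * 2 ^ ((k + 1) p) ≤ 16 * 2 ^ (k0 p) ≤ 16 r`; `k = k0, k0 + 1`: `r`; `k = k0 + 2 + j`:
`r / 2 ^ j`. -/
theorem sum_metric {p : ℕ} (hp : 1 ≤ p) {r : ℝ} (hr : 1 ≤ r) (K : ℕ) :
    ∑ k ∈ Finset.range K, min (8 * 2 ^ ((k + 1) * p)) (mB p r k) ≤ 20 * r := by
  have hr0 : 0 < r := by linarith
  obtain ⟨k0, h1, h2⟩ := exists_nat_pow_near hr (y := (2 : ℝ) ^ p) (by
    calc (1 : ℝ) < 2 ^ 1 := by norm_num
      _ ≤ 2 ^ p := pow_le_pow_right₀ (by norm_num) hp)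
  rw [← pow_mul, mul_comm p] at h1 h2
  set T : ℕ → ℝ := fun k => min (8 * 2 ^ ((k + 1) * p)) (mB p r k) with hT
  have hT0 : ∀ k, 0 ≤ T k := by
    intro k
    refine le_min (by positivity) (le_min hr0.le (by positivity))
  have hTr : ∀ k, T k ≤ r := fun k => (min_le_right _ _).trans (min_le_left _ _)
  have hT8 : ∀ k, T k ≤ 8 * 2 ^ ((k + 1) * p) := fun k => min_le_left _ _
  have hTj : ∀ j, T (k0 + 2 + j) ≤ r / 2 ^ j := by
    intro j
    have e1 : T (k0 + 2 + j) ≤ 2 ^ p * r ^ 2 / 2 ^ ((k0 + 2 + j) * p) :=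
      (min_le_right _ _).trans (min_le_right _ _)
    refine e1.trans ?_
    rw [div_le_div_iff₀ (by positivity) (by positivity)]
    have e2 : (2 : ℝ) ^ ((k0 + 2 + j) * p) = 2 ^ p * 2 ^ ((k0 + 1) * p) * 2 ^ (j * p) := by
      rw [← pow_add, ← pow_add]; congr 1; ring
    rw [e2]
    have e3 : (2 : ℝ) ^ j ≤ 2 ^ (j * p) := by
      apply pow_le_pow_right₀ (by norm_num)
      nlinarith
    have e4 : (2 : ℝ) ^ p * r ^ 2 * 2 ^ j ≤ 2 ^ p * r ^ 2 * 2 ^ (j * p) :=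
      mul_le_mul_of_nonneg_left e3 (by positivity)
    have e5 : r * r ≤ r * 2 ^ ((k0 + 1) * p) := mul_le_mul_of_nonneg_left h2.le hr0.le
    have e6 : (2 : ℝ) ^ p * (r * r) * 2 ^ (j * p) ≤
        2 ^ p * (r * 2 ^ ((k0 + 1) * p)) * 2 ^ (j * p) :=
      mul_le_mul_of_nonneg_right (mul_le_mul_of_nonneg_left e5 (by positivity)) (by positivity)
    nlinarith
  have hext : ∑ k ∈ Finset.range K, T k ≤ ∑ k ∈ Finset.range (k0 + 2 + K), T k :=
    Finset.sum_le_sum_of_subset_of_nonneg (Finset.range_mono (by omega)) fun k _ _ => hT0 k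
  refine hext.trans ?_
  rw [Finset.sum_range_add, Finset.sum_range_succ, Finset.sum_range_succ]
  have s1 : ∑ k ∈ Finset.range k0, T k ≤ 16 * r :=
    (Finset.sum_le_sum fun k _ => hT8 k).trans ((nm3_geo hp k0).trans (by linarith))
  have s2 : ∑ j ∈ Finset.range K, T (k0 + 2 + j) ≤ 2 * r :=
    (Finset.sum_le_sum fun j _ => hTj j).trans (nm3_half r hr0.le K)
  have s3 := hTr k0
  have s4 := hTr (k0 + 1)
  linarith

/-- Module `nm3`.  Proof.  Geometric sum. -/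
theorem sum_small {r : ℝ} (hr : 1 ≤ r) (n : ℕ) :
    ∑ e : Fin n, (if (2 : ℝ) ^ (e : ℕ) < r then (2 : ℝ) ^ (e : ℕ) else 0) ≤ 2 * r := by
  rw [Fin.sum_univ_eq_sum_range (fun e : ℕ => if (2 : ℝ) ^ e < r then (2 : ℝ) ^ e else 0) n]
  have key : ∀ n : ℕ, (∑ e ∈ Finset.range n, (if (2 : ℝ) ^ e < r then (2 : ℝ) ^ e else 0) ≤
      2 * r) ∧ ∑ e ∈ Finset.range n, (if (2 : ℝ) ^ e < r then (2 : ℝ) ^ e else 0) ≤ 2 ^ n := by
    intro n
    induction n with
    | zero => simp; linarith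
    | succ n ih =>
      rw [Finset.sum_range_succ, pow_succ]
      by_cases h : (2 : ℝ) ^ n < r
      · rw [if_pos h]
        constructor <;> linarith [ih.1, ih.2]
      · rw [if_neg h]
        have : (0 : ℝ) < 2 ^ n := by positivity
        constructor <;> linarith [ih.1, ih.2]
  exact (key n).1

end Pool.Agent.L2U
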