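import Pool.Agent.L2U.Feat

set_option linter.unusedSectionVars false

/-!
The crossing numbers of a greedy plan at an arbitrary stage.  Module `root`.
-/

namespace Pool.Agent.L2U

open Finset Pool.Agent.MP_12e089_an Pool.Agent.MP_12e089_an.LogS

variable {M L : Type} [Fintype M] [DecidableEq M] [Fintype L] [DecidableEq L]

/-- One cell.  `n, n'` masses, `m, m'` masses in the cut, `u, u'` leftovers in the cut, `A, B`
flows out of and into the cut.

Proof.  `K = pos (n - n')`, `K' = pos (n' - n)`, `dev = (u - m / n * K) - (u' - m' / n' * K')`.  The first two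
terms of `pot` are nonnegative (`0 ≤ m / n ≤ 1`), so `pot ≥ min (B + pos (-dev)) (A + pos dev)`.
`A - B = (m - m') - dev - (m / n * K - m' / n' * K')` and `|m / n * K - m' / n' * K'| ≤ |n - n'|`
(one of `K`, `K'` vanishes).  If `pot ≥ B + pos (-dev)`: `A + B = 2 B + (A - B)
≤ 2 pot - 2 pos (-dev) + |m - m'| - dev + |n - n'|` and `-dev = pos (-dev) - pos dev`
(`pos_sub_pos`).  If `pot ≥ A + pos dev`: `A + B = 2 A - (A - B)`, in the same way. -/
theorem root_cell {n n' m m' u u' A B : ℝ} (hm : 0 ≤ m ∧ m ≤ n) (hm' : 0 ≤ m' ∧ m' ≤ n')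
    (hc : A - B = (m - m') - (u - u')) :
    A + B ≤ 2 * pot n n' m m' u u' A B + |m - m'| + |n - n'| := by
  obtain ⟨a0, a1⟩ := frac_mem hm.1 hm.2
  obtain ⟨b0, b1⟩ := frac_mem hm'.1 hm'.2
  unfold pot
  set D := dev n n' m m' u u' with hD
  have hDe : D = (u - m / n * pos (n - n')) - (u' - m' / n' * pos (n' - n)) := rfl
  set K := pos (n - n') with hK
  set K' := pos (n' - n) with hK'
  have hK0 : 0 ≤ K := pos_nonneg _
  have hK0' : 0 ≤ K' := pos_nonneg _
  have hb : |m / n * K - m' / n' * K'| ≤ |n - n'| := by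
    rcases le_total n' n with h | h
    · have e : K' = 0 := pos_of_nonpos (by linarith)
      have e' : K = n - n' := pos_of_nonneg (by linarith)
      rw [e, mul_zero, sub_zero, abs_of_nonneg (mul_nonneg a0 hK0), e', abs_of_nonneg (by linarith)]
      exact mul_le_of_le_one_left (by linarith) a1
    · have e : K = 0 := pos_of_nonpos (by linarith)
      have e' : K' = n' - n := pos_of_nonneg (by linarith)
      rw [e, mul_zero, zero_sub, abs_neg, abs_of_nonneg (mul_nonneg b0 hK0'), e',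
        abs_of_nonpos (by linarith)]
      have := mul_le_of_le_one_left (show 0 ≤ n' - n by linarith) b1
      linarith
  have hb1 := (abs_le.1 hb).1
  have hb2 := (abs_le.1 hb).2
  have hm1 := neg_abs_le (m - m')
  have hm2 := le_abs_self (m - m')
  have hq1 : 0 ≤ 1 / 2 * (m / n * (1 - m / n)) * K :=
    mul_nonneg (mul_nonneg (by norm_num) (mul_nonneg a0 (by linarith))) hK0
  have hq2 : 0 ≤ 1 / 2 * (m' / n' * (1 - m' / n')) * K' :=
    mul_nonneg (mul_nonneg (by norm_num) (mul_nonneg b0 (by linarith))) hK0'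
  have p1 := le_pos D
  have p2 := le_pos (-D)
  have p3 := pos_nonneg D
  have p4 := pos_nonneg (-D)
  rcases le_total (B + pos (-D)) (A + pos D) with h | h
  · rw [min_eq_left h]
    linarith
  · rw [min_eq_right h]
    linarith

/-- Module `root`.  All cells.

Proof.  The left side is `∑ Q (A_Q + B_Q)` with `A_Q = fl g Q st.π χ (1 - χ)`,
`B_Q = fl g Q st.π (1 - χ) χ` (as in `LogS.top`: `|χ v - χ w| = χ v (1 - χ w) + (1 - χ v) χ w` for
values in `{0, 1}`, and every `v` lies in exactly one cell); `conserve` gives `hc`; then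
`root_cell`. -/
theorem root_ineq {S T : M → ℝ} {g : M → L} (hS : ∀ v, 0 ≤ S v) (hT : ∀ v, 0 ≤ T v)
    (st : State S T g) {χ : M → ℝ} (hχ : ∀ v, χ v = 0 ∨ χ v = 1) :
    ∑ v, ∑ w, st.π v w * |χ v - χ w| ≤ 2 * ∑ Q, st.cellPot χ Q +
      ∑ Q, |cs g Q (fun v => χ v * S v) - cs g Q (fun v => χ v * T v)| +
      ∑ Q, |cs g Q S - cs g Q T| := by
  have hχ0 : ∀ v, 0 ≤ χ v := fun v => by rcases hχ v with h | h <;> rw [h] <;> norm_num
  have hχ1 : ∀ v, χ v ≤ 1 := fun v => by rcases hχ v with h | h <;> rw [h] <;> norm_num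
  have hsum : ∀ φ : M → ℝ, ∑ Q, cs g Q φ = ∑ v, φ v := by
    intro φ
    unfold cs
    rw [Finset.sum_comm]
    refine Finset.sum_congr rfl fun v _ => ?_
    rw [Finset.sum_ite_eq]
    simp
  have hAB : ∑ v, ∑ w, st.π v w * |χ v - χ w| =
      ∑ Q, (fl g Q st.π χ (fun v => 1 - χ v) + fl g Q st.π (fun v => 1 - χ v) χ) := by
    rw [Finset.sum_add_distrib]
    unfold fl
    rw [hsum, hsum, ← Finset.sum_add_distrib]
    refine Finset.sum_congr rfl fun v _ => ?_
    rw [← Finset.sum_add_distrib]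
    refine Finset.sum_congr rfl fun w _ => ?_
    rcases hχ v with h1 | h1 <;> rcases hχ w with h2 | h2 <;> simp [h1, h2]
  rw [hAB, Finset.mul_sum, ← Finset.sum_add_distrib, ← Finset.sum_add_distrib]
  refine Finset.sum_le_sum fun Q _ => ?_
  have hcons := conserve st.row st.col st.loc χ Q
  refine root_cell ⟨cs_nonneg g Q fun v => mul_nonneg (hχ0 v) (hS v), cs_mono g Q fun v => ?_⟩
    ⟨cs_nonneg g Q fun v => mul_nonneg (hχ0 v) (hT v), cs_mono g Q fun v => ?_⟩ ?_
  · exact mul_le_of_le_one_left (hS v) (hχ1 v)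
  · exact mul_le_of_le_one_left (hT v) (hχ1 v)
  · exact hcons

/-- Module `root`.  The mass of a greedy plan.

Proof.  Sum `st.row` over `v`; `∑ v σ v = ∑ Q cs g Q σ = ∑ Q pos (cs g Q S - cs g Q T)` (`st.ls`). -/
theorem mass_eq {S T : M → ℝ} {g : M → L} (st : State S T g) :
    ∑ v, ∑ w, st.π v w = ∑ v, S v - ∑ Q, pos (cs g Q S - cs g Q T) := by
  have hσ : ∑ v, st.σ v = ∑ Q, pos (cs g Q S - cs g Q T) := by
    calc ∑ v, st.σ v = ∑ Q, cs g Q st.σ := by
          unfold cs
          rw [Finset.sum_comm]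
          refine Finset.sum_congr rfl fun v _ => ?_
          rw [Finset.sum_ite_eq]
          simp
      _ = _ := Finset.sum_congr rfl fun Q _ => st.ls Q
  rw [← hσ, ← Finset.sum_sub_distrib]
  refine Finset.sum_congr rfl fun v _ => ?_
  have := st.row v
  linarith

end Pool.Agent.L2U
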