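import Pool.Agent.L2U.Lift
import Pool.Agent.L2U.Root

set_option linter.unusedSectionVars false

/-!
The tree inequality for soft partitions: one transport plan for all cuts and all root stages.
Modules `sct` (`sum_cs_CT`, `sum_cs_BT`), `pll` (`plan_lift`), `pln` (`plan`).
-/

namespace Pool.Agent.L2U

open Finset Pool.Agent.MP_12e089_an Pool.Agent.MP_12e089_an.LogS

variable {M : Type} [Fintype M] [DecidableEq M] {n : ℕ}

/-- Module `sct`.  Proof.  Sum over `Q = (z, u)`; the terms with `z ≠ z0` vanish (`cs_hat_ne`), the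
others are `|wt Θ a u * (∑ S - ∑ T)|` (`cs_hat'`), and `0 ≤ wt`. -/
theorem sum_cs_CT (Θ : Soft M n) (z0 : M) (a : ℕ) (S T : M → ℝ) :
    ∑ Q, |cs (gm z0 a) Q (hat Θ S) - cs (gm z0 a) Q (hat Θ T)| = CT Θ a S T := by
  rw [Fintype.sum_prod_type, Finset.sum_eq_single z0]
  · unfold CT
    refine Finset.sum_congr rfl fun u _ => ?_
    rw [cs_hat', cs_hat', ← mul_sub, abs_mul, abs_of_nonneg (wt_nonneg _ _ _),
      ← Finset.sum_sub_distrib]
  · intro z _ hz
    refine Finset.sum_eq_zero fun u _ => ?_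
    rw [cs_hat_ne z0 a hz, cs_hat_ne z0 a hz, sub_zero, abs_zero]
  · intro h
    exact absurd (Finset.mem_univ _) h

/-- Module `sct`.  As `sum_cs_CT`, with `cs_hat`. -/
theorem sum_cs_BT (Θ : Soft M n) (z0 : M) (a : ℕ) (χ S T : M → ℝ) :
    ∑ Q, |cs (gm z0 a) Q (fun v => χ v.1 * hat Θ S v) -
      cs (gm z0 a) Q (fun v => χ v.1 * hat Θ T v)| = BT Θ a χ S T := by
  rw [Fintype.sum_prod_type, Finset.sum_eq_single z0]
  · unfold BT
    refine Finset.sum_congr rfl fun u _ => ?_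
    rw [cs_hat, cs_hat, ← mul_sub, abs_mul, abs_of_nonneg (wt_nonneg _ _ _),
      ← Finset.sum_sub_distrib]
    congr 2
    exact Finset.sum_congr rfl fun z _ => by ring
  · intro z _ hz
    refine Finset.sum_eq_zero fun u _ => ?_
    rw [cs_hat_ne z0 a hz, cs_hat_ne z0 a hz, sub_zero, abs_zero]
  · intro h
    exact absurd (Finset.mem_univ _) h

/-- The unmatched mass at stage `a`. -/
noncomputable def pm (Θ : Soft M n) (z0 : M) (a : ℕ) (S T : M → ℝ) : ℝ :=
  ∑ Q, pos (cs (gm z0 a) Q (hat Θ S) - cs (gm z0 a) Q (hat Θ T))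

theorem pm_le_CT (Θ : Soft M n) (z0 : M) (a : ℕ) (S T : M → ℝ) : pm Θ z0 a S T ≤ CT Θ a S T := by
  rw [← sum_cs_CT Θ z0]
  exact Finset.sum_le_sum fun Q _ => max_le (le_abs_self _) (abs_nonneg _)

/-- Module `pll`.  The states of all stages, in the lifted space.

Proof.  Induction on `a`.  `a = 0`: `start`, the empty sum, and for `a' = 0` `root_ineq` (applied to
the lifted masses and the cut `fun v => χ v.1`), `sum_cs_BT`, `sum_cs_CT`; the bracket
`(∑ π + pm - ∑ hat)` vanishes by `mass_eq`.  `a → a + 1` (`a < n`, `e = ⟨a, _⟩`): `step_mono` with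
`h = gm z0 (a + 1)`, label map `gm z0 (a + 1)` by `gm_gm`, `xd_hat`, and
`0 ≤ χ ≤ 1`.  For `a' ≤ a`: `∑ π' |χ - χ| ≤ ∑ π |χ - χ| + (∑ π' - ∑ π)` since `π ≤ π'` and
`|χ v - χ w| ≤ 1`.  For `a' = a + 1`: as for `a = 0`, with
the potential `≤ 3 / 2 * ∑ XX`. -/
theorem plan_lift {Θ : Soft M n} (hpt : Pt Θ) (hn : 0 < n) (z0 : M) {S T : M → ℝ}
    (hS : ∀ v, 0 ≤ S v) (hT : ∀ v, 0 ≤ T v) (a : ℕ) (ha : a ≤ n) :
    ∃ st : State (hat Θ S) (hat Θ T) (gm z0 a),
      (∀ χ : M → ℝ, (∀ v, χ v = 0 ∨ χ v = 1) → ∑ P, st.cellPot (fun v => χ v.1) P ≤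
        3 / 2 * ∑ e : Fin n, (if (e : ℕ) < a then XX Θ e χ S T else 0)) ∧
      ∀ χ : M → ℝ, (∀ v, χ v = 0 ∨ χ v = 1) → ∀ a' ≤ a,
        ∑ v, ∑ w, st.π v w * |χ v.1 - χ w.1| ≤
          BT Θ a' χ S T + CT Θ a' S T +
            3 * ∑ e : Fin n, (if (e : ℕ) < a' then XX Θ e χ S T else 0) +
            (∑ v, ∑ w, st.π v w + pm Θ z0 a' S T - ∑ v, hat Θ S v) := by
  have hS' := hat_nonneg Θ hS
  have hT' := hat_nonneg Θ hT
  -- the inequality for the stage of the state itself
  have own : ∀ (b : ℕ) (st : State (hat Θ S) (hat Θ T) (gm z0 b)) (χ : M → ℝ),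
      (∀ v, χ v = 0 ∨ χ v = 1) → ∀ X : ℝ, ∑ P, st.cellPot (fun v => χ v.1) P ≤ 3 / 2 * X →
      ∑ v, ∑ w, st.π v w * |χ v.1 - χ w.1| ≤
          BT Θ b χ S T + CT Θ b S T + 3 * X +
            (∑ v, ∑ w, st.π v w + pm Θ z0 b S T - ∑ v, hat Θ S v) := by
    intro b st χ hχ X hX
    have h1 := root_ineq hS' hT' st (χ := fun v => χ v.1) (fun v => hχ v.1)
    have h2 := mass_eq st
    rw [sum_cs_BT Θ z0 b χ S T, sum_cs_CT Θ z0 b S T] at h1
    unfold pm
    linarith
  induction a with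
  | zero =>
    obtain ⟨st, hst⟩ := start hpt hn z0 hS hT
    have hzero : ∀ χ : M → ℝ, ∑ e : Fin n, (if (e : ℕ) < 0 then XX Θ e χ S T else 0) = 0 := by
      intro χ
      exact Finset.sum_eq_zero fun e _ => if_neg (Nat.not_lt_zero _)
    refine ⟨st, fun χ hχ => ?_, fun χ hχ a' ha' => ?_⟩
    · rw [hzero, mul_zero]
      exact hst χ hχ
    · obtain rfl : a' = 0 := Nat.le_zero.mp ha'
      rw [hzero]
      exact own 0 st χ hχ 0 (by rw [mul_zero]; exact hst χ hχ)
  | succ a ih =>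
    obtain ⟨st, hA, hB⟩ := ih (by omega)
    have hstep := step_mono hS' hT' st (gm z0 (a + 1))
    rw [gm_gm z0 (Nat.le_succ a)] at hstep
    obtain ⟨st', hmono, hpot⟩ := hstep
    set e0 : Fin n := ⟨a, by omega⟩ with he0
    have hsum : ∀ χ : M → ℝ, ∑ e : Fin n, (if (e : ℕ) < a + 1 then XX Θ e χ S T else 0) =
        ∑ e : Fin n, (if (e : ℕ) < a then XX Θ e χ S T else 0) + XX Θ e0 χ S T := by
      intro χ
      have e1 : ∀ e : Fin n, (if (e : ℕ) < a + 1 then XX Θ e χ S T else 0) =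
          (if (e : ℕ) < a then XX Θ e χ S T else 0) +
            (if e = e0 then XX Θ e0 χ S T else 0) := by
        intro e
        by_cases h : e = e0
        · subst h
          have h1 : ((e0 : Fin n) : ℕ) = a := rfl
          rw [h1, if_pos (Nat.lt_succ_self a), if_neg (lt_irrefl a), if_pos rfl, zero_add]
        · have h1 : (e : ℕ) ≠ a := fun h' => h (Fin.ext h')
          rw [if_neg h, add_zero]
          by_cases h2 : (e : ℕ) < a
          · rw [if_pos h2, if_pos (by omega)]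
          · rw [if_neg h2, if_neg (by omega)]
      rw [Finset.sum_congr rfl fun e _ => e1 e, Finset.sum_add_distrib]
      congr 1
      simp
    have hxd : ∀ χ : M → ℝ, xd (hat Θ S) (hat Θ T) (gm z0 a) (gm z0 (a + 1)) (fun v => χ v.1) =
        XX Θ e0 χ S T := fun χ => xd_hat Θ z0 e0 χ S T
    have hA' : ∀ χ : M → ℝ, (∀ v, χ v = 0 ∨ χ v = 1) → ∑ P, st'.cellPot (fun v => χ v.1) P ≤
        3 / 2 * ∑ e : Fin n, (if (e : ℕ) < a + 1 then XX Θ e χ S T else 0) := by
      intro χ hχ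
      have h1 := hpot (fun v => χ v.1) (fun v => by
        rcases hχ v.1 with h | h <;> simp only [h] <;> norm_num)
      rw [hxd] at h1
      have h2 := hA χ hχ
      rw [hsum, mul_add]
      linarith
    refine ⟨st', hA', fun χ hχ a' ha' => ?_⟩
    rcases Nat.lt_or_ge a a' with h | h
    · obtain rfl : a' = a + 1 := by omega
      exact own (a + 1) st' χ hχ _ (hA' χ hχ)
    · have h1 := hB χ hχ a' h
      have h2 : ∑ v, ∑ w, st'.π v w * |χ v.1 - χ w.1| - ∑ v, ∑ w, st.π v w * |χ v.1 - χ w.1| ≤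
          ∑ v, ∑ w, st'.π v w - ∑ v, ∑ w, st.π v w := by
        rw [← Finset.sum_sub_distrib, ← Finset.sum_sub_distrib]
        refine Finset.sum_le_sum fun v _ => ?_
        rw [← Finset.sum_sub_distrib, ← Finset.sum_sub_distrib]
        refine Finset.sum_le_sum fun w _ => ?_
        have h3 : 0 ≤ st'.π v w - st.π v w := sub_nonneg.mpr (hmono v w)
        have h4 : |χ v.1 - χ w.1| ≤ 1 := by
          rcases hχ v.1 with h | h <;> rcases hχ w.1 with h' | h' <;> rw [h, h'] <;> norm_num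
        rw [← sub_mul]
        exact mul_le_of_le_one_right h3 h4
      linarith

private lemma pln_sum (Θ : Soft M n) (F : M → ℝ) : ∑ v, hat Θ F v = ∑ v, F v := by
  rw [Fintype.sum_prod_type]
  refine Finset.sum_congr rfl fun x _ => ?_
  show ∑ a : Fin n → Finset M, F x * px Θ x a = F x
  rw [← Finset.mul_sum, sum_px, mul_one]

private lemma pln_gm (z0 : M) (v : M × (Fin n → Finset M)) : gm z0 n v = (z0, fun _ => ∅) := by
  unfold gm mk
  refine Prod.ext rfl ?_
  funext e
  exact if_neg (by have := e.2; omega)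

private lemma pln_cs (z0 : M) (Q : M × (Fin n → Finset M)) (φ : M × (Fin n → Finset M) → ℝ) :
    cs (gm z0 n) Q φ = if ((z0, fun _ => ∅) : M × (Fin n → Finset M)) = Q then ∑ v, φ v else 0 := by
  unfold cs
  split_ifs with h
  · exact Finset.sum_congr rfl fun v _ => if_pos (by rw [pln_gm]; exact h)
  · exact Finset.sum_eq_zero fun v _ => if_neg (by rw [pln_gm]; exact h)

/-- Module `pln`.  The tree inequality.

Proof.  `plan_lift` for `a = n` (`z0` any point of `M`; if `M` is empty everything is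
`0`).  All labels of stage `n` are equal: `mk n w = fun _ => ∅`, so `pm Θ z0 n S T = 0`: only the
label `(z0, fun _ => ∅)` counts, with `cs = ∑ hat Θ S = ∑ S` (`sum_px`), and `∑ S = ∑ T`.  So
`st.σ = 0`, `st.τ = 0` (as in `LogS.top`; `st.ls`, `st.lt`, `cs_eq_zero`), and `∑ π = ∑ hat Θ S`.
Put `π x y = ∑ a, ∑ b, st.π (x, a) (y, b)`: row sums `∑ a, hat Θ S (x, a) = S x` (`sum_px`), column
sums in the same way, and `∑ x ∑ y π x y |χ x - χ y|` is the lifted sum.  The bracket in
`plan_lift` is `pm Θ z0 a' S T ≤ CT Θ a' S T` (`pm_le_CT`). -/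
theorem plan {Θ : Soft M n} (hpt : Pt Θ) (hn : 0 < n) {S T : M → ℝ}
    (hS : ∀ v, 0 ≤ S v) (hT : ∀ v, 0 ≤ T v) (hST : ∑ v, S v = ∑ v, T v) :
    ∃ π : M → M → ℝ, (∀ v w, 0 ≤ π v w) ∧ (∀ v, ∑ w, π v w = S v) ∧ (∀ w, ∑ v, π v w = T w) ∧
      ∀ χ : M → ℝ, (∀ v, χ v = 0 ∨ χ v = 1) → ∀ a ≤ n,
        ∑ v, ∑ w, π v w * |χ v - χ w| ≤ BT Θ a χ S T + 2 * CT Θ a S T +
          3 * ∑ e : Fin n, (if (e : ℕ) < a then XX Θ e χ S T else 0) := by
  rcases isEmpty_or_nonempty M with hM | ⟨⟨z0⟩⟩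
  · refine ⟨fun _ _ => 0, fun v => isEmptyElim v, fun v => isEmptyElim v, fun v => isEmptyElim v,
      fun χ _ a _ => ?_⟩
    have hz : ∀ (A : Finset M) (F : M → ℝ), ∑ z ∈ A, F z = 0 := fun A F =>
      Finset.sum_eq_zero fun z _ => isEmptyElim z
    have h1 : BT Θ a χ S T = 0 := by
      unfold BT
      exact Finset.sum_eq_zero fun w _ => by rw [hz, abs_zero, mul_zero]
    have h2 : CT Θ a S T = 0 := by
      unfold CT
      exact Finset.sum_eq_zero fun w _ => by rw [hz, abs_zero, mul_zero]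
    have h3 : ∀ e : Fin n, XX Θ e χ S T = 0 := by
      intro e
      unfold XX XS bar
      refine Finset.sum_eq_zero fun w _ => ?_
      rw [Finset.sum_eq_zero fun B _ => ?_, mul_zero]
      simp only [hz, div_zero, sub_self, LogS.dst, abs_zero, mul_zero, add_zero]
    rw [hz, h1, h2]
    simp only [h3, ite_self, Finset.sum_const_zero, mul_zero, add_zero, le_refl]
  · obtain ⟨st, -, hst⟩ := plan_lift hpt hn z0 hS hT n le_rfl
    have hsum : ∀ F : M → ℝ, ∑ v, hat Θ F v = ∑ v, F v := fun F => pln_sum Θ F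
    have hcs : ∀ Q, cs (gm z0 n) Q (hat Θ S) = cs (gm z0 n) Q (hat Θ T) := by
      intro Q
      rw [pln_cs, pln_cs, hsum, hsum, hST]
    have hσ : ∀ v, st.σ v = 0 := by
      intro v
      have h1 := st.ls (gm z0 n v)
      rw [hcs, sub_self, pos_zero] at h1
      exact cs_eq_zero st.σ0 h1 rfl
    have hτ : ∀ v, st.τ v = 0 := by
      intro v
      have h1 := st.lt (gm z0 n v)
      rw [hcs, sub_self, pos_zero] at h1
      exact cs_eq_zero st.τ0 h1 rfl
    have hrow : ∀ v, ∑ w, st.π v w = hat Θ S v := by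
      intro v
      have h1 := st.row v
      rwa [hσ, add_zero] at h1
    have hcol : ∀ w, ∑ v, st.π v w = hat Θ T w := by
      intro w
      have h1 := st.col w
      rwa [hτ, add_zero] at h1
    have hpx : ∀ (F : M → ℝ) (x : M), ∑ a : Fin n → Finset M, hat Θ F (x, a) = F x := by
      intro F x
      show ∑ a : Fin n → Finset M, F x * px Θ x a = F x
      rw [← Finset.mul_sum, sum_px, mul_one]
    refine ⟨fun x y => ∑ a : Fin n → Finset M, ∑ b : Fin n → Finset M, st.π (x, a) (y, b),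
      fun x y => Finset.sum_nonneg fun a _ => Finset.sum_nonneg fun b _ => st.π0 _ _, ?_, ?_, ?_⟩
    · intro x
      rw [Finset.sum_comm, ← hpx S x]
      refine Finset.sum_congr rfl fun a _ => ?_
      rw [← hrow (x, a), Fintype.sum_prod_type]
    · intro y
      rw [← hpx T y]
      have h1 : ∀ b : Fin n → Finset M, hat Θ T (y, b) =
          ∑ x, ∑ a : Fin n → Finset M, st.π (x, a) (y, b) := by
        intro b
        rw [← hcol (y, b), Fintype.sum_prod_type]
      have h2 : ∑ b : Fin n → Finset M, ∑ x, ∑ a : Fin n → Finset M, st.π (x, a) (y, b) =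
          ∑ x, ∑ a : Fin n → Finset M, ∑ b : Fin n → Finset M, st.π (x, a) (y, b) := by
        rw [Finset.sum_comm]
        exact Finset.sum_congr rfl fun x _ => Finset.sum_comm
      rw [Finset.sum_congr rfl fun b _ => h1 b]
      exact h2.symm
    · intro χ hχ a ha
      have h1 := hst χ hχ a ha
      have h2 : ∑ v, ∑ w, st.π v w * |χ v.1 - χ w.1| =
          ∑ x, ∑ y, (∑ a : Fin n → Finset M, ∑ b : Fin n → Finset M, st.π (x, a) (y, b)) *
            |χ x - χ y| := by
        rw [Fintype.sum_prod_type]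
        refine Finset.sum_congr rfl fun x _ => ?_
        have h3 : ∀ a : Fin n → Finset M, ∑ w, st.π (x, a) w * |χ (x, a).1 - χ w.1| =
            ∑ y, ∑ b : Fin n → Finset M, st.π (x, a) (y, b) * |χ x - χ y| := by
          intro a
          rw [Fintype.sum_prod_type]
        rw [Finset.sum_congr rfl fun a _ => h3 a, Finset.sum_comm]
        refine Finset.sum_congr rfl fun y _ => ?_
        rw [Finset.sum_mul]
        exact Finset.sum_congr rfl fun a _ => (Finset.sum_mul _ _ _).symm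
      have h4 : ∑ v, ∑ w, st.π v w = ∑ v, hat Θ S v := Finset.sum_congr rfl fun v _ => hrow v
      have h5 := pm_le_CT Θ z0 a S T
      rw [h2, h4] at h1
      linarith

end Pool.Agent.L2U
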