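import Pool.Agent.L2U.Ent

/-!
Part X2 (sections 5.2 - 5.4): the separation costs.
-/

set_option autoImplicit false
set_option linter.unusedSectionVars false

namespace Pool.Agent.L2U

open Finset

variable {M : Type} [Fintype M] [DecidableEq M] {n : ℕ}

/-! ### real numbers -/

private lemma u1_ico {L : ℕ → ℝ} (m k : ℕ) :
    ∑ r ∈ Finset.range m, (L r - if k + 1 ≤ r then L (r - (k + 1)) else 0) =
      ∑ r ∈ Finset.Ico (m - (k + 1)) m, L r := by
  induction m with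
  | zero => simp
  | succ m ih =>
    rw [Finset.sum_range_succ, ih]
    by_cases h : k + 1 ≤ m
    · rw [if_pos h, Finset.sum_eq_sum_Ico_succ_bot (by omega : m - (k + 1) < m)]
      have e : m - (k + 1) + 1 = m + 1 - (k + 1) := by omega
      rw [e, Finset.sum_Ico_succ_top (by omega : m + 1 - (k + 1) ≤ m)]
      ring
    · rw [if_neg h]
      have e : m - (k + 1) = m + 1 - (k + 1) := by omega
      rw [e, Finset.sum_Ico_succ_top (by omega : m + 1 - (k + 1) ≤ m)]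
      ring

/-- Module u1 (S). Telescoping with step `k + 1`. Proof: for `r ≥ k + 1` the terms telescope (the sum
of `L r` over `r < m` minus the sum of `L r` over `r < m - (k + 1)`), at most `k + 1` terms remain and
each is `≤ l`; if `m ≤ k + 1` trivial. -/
theorem tele {L : ℕ → ℝ} {l : ℝ} (h0 : ∀ r, 0 ≤ L r) (hl : ∀ r, L r ≤ l) (m k : ℕ) :
    ∑ r ∈ Finset.range m, (L r - if k + 1 ≤ r then L (r - (k + 1)) else 0) ≤ (k + 1) * l := by
  rw [u1_ico]
  have hl0 : 0 ≤ l := (h0 0).trans (hl 0)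
  refine (Finset.sum_le_card_nsmul _ _ l fun r _ => hl r).trans ?_
  rw [nsmul_eq_mul, Nat.card_Ico]
  refine mul_le_mul_of_nonneg_right ?_ hl0
  have h : m - (m - (k + 1)) ≤ k + 1 := by omega
  exact_mod_cast h

private lemma u1_geo (N : ℕ) :
    ∑ k ∈ Finset.range N, ((k : ℝ) + 2) / 2 ^ (k + 1) ≤ 3 - ((N : ℝ) + 3) / 2 ^ N := by
  induction N with
  | zero => norm_num
  | succ N ih =>
    rw [Finset.sum_range_succ]
    have e : 3 - ((N : ℝ) + 3) / 2 ^ N + ((N : ℝ) + 2) / 2 ^ (N + 1) =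
        3 - (((N + 1 : ℕ) : ℝ) + 3) / 2 ^ (N + 1) := by
      push_cast
      field_simp
      ring
    linarith

/-- Module u1 (M). The weighted sum of the matrix `Λ r k` (`r` = position of `j` in the block
`[a, a + m)`, `k = j - e`). Proof: `k = 0`: telescopes to `20 (l - L 0) + 4`; `k ≥ 1`: exchange the
sums, `tele` (every bracket is nonnegative because `L` is monotone on the block, so the condition
`k ≤ a + r` may be dropped), `∑_{k ≥ 1} (k + 1) / 2^k ≤ 3`. -/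
theorem mat_sum {L : ℕ → ℝ} {l : ℝ} (h0 : ∀ r, 0 ≤ L r) (hl : ∀ r, L r ≤ l) (a m : ℕ)
    (hmono : ∀ r, r + 1 < m → L r ≤ L (r + 1)) {Λ : ℕ → ℕ → ℝ} (hΛ : ∀ r k, 0 ≤ Λ r k)
    (hz : ∀ r, r + 1 < m → Λ r 0 ≤ 20 * (L (r + 1) - L r))
    (ht : ∀ r, r + 1 = m → Λ r 0 ≤ 20 * (l - L r) + 4)
    (hk : ∀ r k, r < m → 1 ≤ k → k ≤ a + r →
      Λ r k ≤ 5 * (L r - if k + 1 ≤ r then L (r - (k + 1)) else 0)) :
    ∑ r ∈ Finset.range m, ∑ k ∈ Finset.range (a + r + 1), Λ r k / 2 ^ k ≤ 35 * l + 4 := by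
  have hl0 : 0 ≤ l := (h0 0).trans (hl 0)
  have hm : ∀ r' : ℕ, r' < m → ∀ r, r ≤ r' → L r ≤ L r' := by
    intro r'
    induction r' with
    | zero => intro _ r hr; rw [Nat.le_zero.1 hr]
    | succ r' ih =>
      intro h r hr
      rcases Nat.lt_or_ge r (r' + 1) with h1 | h1
      · exact (ih (by omega) r (by omega)).trans (hmono r' h)
      · rw [le_antisymm hr h1]
  set br : ℕ → ℕ → ℝ := fun r k => L r - if k + 1 ≤ r then L (r - (k + 1)) else 0 with hbrdef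
  have hbr : ∀ r k, r < m → 0 ≤ br r k := by
    intro r k hr
    rw [hbrdef]
    simp only
    split_ifs with h
    · exact sub_nonneg.2 (hm r hr _ (Nat.sub_le _ _))
    · rw [sub_zero]; exact h0 r
  -- the diagonal
  have h1 : ∑ r ∈ Finset.range m, Λ r 0 ≤ 20 * l + 4 := by
    rcases Nat.eq_zero_or_pos m with h | h
    · subst h
      rw [Finset.sum_range_zero]
      linarith
    · obtain ⟨m', rfl⟩ : ∃ m', m = m' + 1 := ⟨m - 1, by omega⟩
      rw [Finset.sum_range_succ]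
      have h2 : ∑ r ∈ Finset.range m', Λ r 0 ≤ ∑ r ∈ Finset.range m', 20 * (L (r + 1) - L r) :=
        Finset.sum_le_sum fun r hr => hz r (by have := Finset.mem_range.1 hr; omega)
      rw [← Finset.mul_sum, Finset.sum_range_sub] at h2
      have h3 := ht m' rfl
      have h4 := h0 0
      linarith
  -- off the diagonal
  have h2 : ∀ r ∈ Finset.range m, ∑ k ∈ Finset.range (a + r), Λ r (k + 1) / 2 ^ (k + 1) ≤
      ∑ k ∈ Finset.range (a + m), 5 / 2 ^ (k + 1) * br r (k + 1) := by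
    intro r hr
    have hr' := Finset.mem_range.1 hr
    refine (Finset.sum_le_sum (g := fun k => 5 / 2 ^ (k + 1) * br r (k + 1)) fun k hk' => ?_).trans
      (Finset.sum_le_sum_of_subset_of_nonneg ?_ fun k _ _ => ?_)
    · have hk'' := Finset.mem_range.1 hk'
      have h3 := hk r (k + 1) hr' (by omega) (by omega)
      have h4 : Λ r (k + 1) / 2 ^ (k + 1) ≤ 5 * br r (k + 1) / 2 ^ (k + 1) :=
        div_le_div_of_nonneg_right h3 (by positivity)
      refine h4.trans (le_of_eq ?_)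
      ring
    · intro k hk'
      rw [Finset.mem_range] at hk' ⊢
      omega
    · exact mul_nonneg (by positivity) (hbr r _ hr')
  have h3 : ∑ r ∈ Finset.range m, ∑ k ∈ Finset.range (a + m), 5 / 2 ^ (k + 1) * br r (k + 1) ≤
      15 * l := by
    rw [Finset.sum_comm]
    have h4 : ∀ k ∈ Finset.range (a + m), ∑ r ∈ Finset.range m, 5 / 2 ^ (k + 1) * br r (k + 1) ≤
        5 * l * (((k : ℝ) + 2) / 2 ^ (k + 1)) := by
      intro k _
      rw [← Finset.mul_sum]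
      have h5 := tele h0 hl m (k + 1)
      have h6 : (5 : ℝ) / 2 ^ (k + 1) * ∑ r ∈ Finset.range m, br r (k + 1) ≤
          5 / 2 ^ (k + 1) * ((((k + 1 : ℕ) : ℝ) + 1) * l) :=
        mul_le_mul_of_nonneg_left h5 (by positivity)
      refine h6.trans (le_of_eq ?_)
      push_cast
      ring
    refine (Finset.sum_le_sum h4).trans ?_
    rw [← Finset.mul_sum]
    have h5 := u1_geo (a + m)
    have h6 : 0 ≤ (((a + m : ℕ) : ℝ) + 3) / 2 ^ (a + m) := by positivity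
    have h7 : ∑ k ∈ Finset.range (a + m), ((k : ℝ) + 2) / 2 ^ (k + 1) ≤ 3 := by linarith
    calc 5 * l * ∑ k ∈ Finset.range (a + m), ((k : ℝ) + 2) / 2 ^ (k + 1) ≤ 5 * l * 3 :=
          mul_le_mul_of_nonneg_left h7 (by positivity)
      _ = 15 * l := by ring
  calc ∑ r ∈ Finset.range m, ∑ k ∈ Finset.range (a + r + 1), Λ r k / 2 ^ k
      = ∑ r ∈ Finset.range m, Λ r 0 +
          ∑ r ∈ Finset.range m, ∑ k ∈ Finset.range (a + r), Λ r (k + 1) / 2 ^ (k + 1) := by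
        rw [← Finset.sum_add_distrib]
        refine Finset.sum_congr rfl fun r _ => ?_
        rw [Finset.sum_range_succ', pow_zero, div_one, add_comm]
    _ ≤ (20 * l + 4) + 15 * l := add_le_add h1 ((Finset.sum_le_sum h2).trans h3)
    _ = 35 * l + 4 := by ring

/-- Module u2 (S). Weighted Cauchy-Schwarz: `∑ 2^{-k} √Λ ≤ √(∑ 2^{-k}) √(∑ 2^{-k} Λ)` and
`∑_r ∑_k 2^{-k} ≤ 2 m`. -/
theorem mat_cs (a m : ℕ) {Λ : ℕ → ℕ → ℝ} (hΛ : ∀ r k, 0 ≤ Λ r k) {S : ℝ}
    (hS : ∑ r ∈ Finset.range m, ∑ k ∈ Finset.range (a + r + 1), Λ r k / 2 ^ k ≤ S) :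
    ∑ r ∈ Finset.range m, ∑ k ∈ Finset.range (a + r + 1), Real.sqrt (Λ r k) / 2 ^ k ≤
      Real.sqrt (2 * m * S) := by
  have h1 : ∀ r k : ℕ, Real.sqrt (Λ r k) / 2 ^ k = Real.sqrt ((1 / 2) ^ k) * Real.sqrt (Λ r k / 2 ^ k) := by
    intro r k
    rw [← Real.sqrt_mul (by positivity)]
    have h2 : (1 / 2 : ℝ) ^ k * (Λ r k / 2 ^ k) = Λ r k / (2 ^ k) ^ 2 := by
      rw [one_div, inv_pow]
      field_simp
    rw [h2, Real.sqrt_div (hΛ r k), Real.sqrt_sq (by positivity)]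
  have h3 : ∑ r ∈ Finset.range m, ∑ k ∈ Finset.range (a + r + 1), ((1 / 2 : ℝ) ^ k) ≤ 2 * m := by
    calc ∑ r ∈ Finset.range m, ∑ k ∈ Finset.range (a + r + 1), ((1 / 2 : ℝ) ^ k)
        ≤ ∑ r ∈ Finset.range m, (2 : ℝ) :=
          Finset.sum_le_sum fun r _ => sum_geometric_two_le (a + r + 1)
      _ = 2 * m := by
          rw [Finset.sum_const, Finset.card_range, nsmul_eq_mul, mul_comm]
  have h4 : 0 ≤ ∑ r ∈ Finset.range m, ∑ k ∈ Finset.range (a + r + 1), Λ r k / 2 ^ k :=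
    Finset.sum_nonneg fun r _ => Finset.sum_nonneg fun k _ => div_nonneg (hΛ r k) (by positivity)
  rw [Finset.sum_sigma'] at h3 h4 hS ⊢
  simp only [h1]
  calc ∑ x ∈ (Finset.range m).sigma fun r => Finset.range (a + r + 1),
        Real.sqrt ((1 / 2) ^ x.snd) * Real.sqrt (Λ x.fst x.snd / 2 ^ x.snd)
      ≤ Real.sqrt (∑ x ∈ (Finset.range m).sigma fun r => Finset.range (a + r + 1),
          (1 / 2 : ℝ) ^ x.snd) *
        Real.sqrt (∑ x ∈ (Finset.range m).sigma fun r => Finset.range (a + r + 1),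
          Λ x.fst x.snd / 2 ^ x.snd) :=
        Real.sum_sqrt_mul_sqrt_le _ (fun x => by positivity)
          (fun x => div_nonneg (hΛ _ _) (by positivity))
    _ ≤ Real.sqrt (2 * m) * Real.sqrt S :=
        mul_le_mul (Real.sqrt_le_sqrt h3) (Real.sqrt_le_sqrt hS) (Real.sqrt_nonneg _)
          (Real.sqrt_nonneg _)
    _ = Real.sqrt (2 * m * S) := (Real.sqrt_mul (by positivity) S).symm

/-- Module u2 (S). The sum of the block bounds. Proof. Let `b0` be the least `b` with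
`r < 2^{(b+1) p}`. The terms `b0`, `b0 + 1` are `≤ r`, and for `b = b0 + 2 + i`:
`2^p r² / 2^{bp} ≤ r · 2^p 2^{(b0+1) p} / 2^{(b0 + 2 + i) p} = r 2^{-ip} ≤ r 2^{-i}`. -/
theorem mb_sum {p : ℕ} (hp : 1 ≤ p) {r : ℝ} (hr : 1 ≤ r) (N : ℕ) :
    ∑ b ∈ Finset.range N, (if r < 2 ^ ((b + 1) * p) then min r (2 ^ p * r ^ 2 / 2 ^ (b * p)) else 0) ≤
      4 * r := by
  have hr0 : 0 ≤ r := zero_le_one.trans hr
  have hex : ∃ b : ℕ, r < 2 ^ ((b + 1) * p) := by
    obtain ⟨m, hm⟩ := pow_unbounded_of_one_lt r (one_lt_two : (1 : ℝ) < 2)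
    refine ⟨m, hm.trans_le (pow_le_pow_right₀ one_le_two ?_)⟩
    calc m ≤ (m + 1) * 1 := by omega
      _ ≤ (m + 1) * p := Nat.mul_le_mul_left _ hp
  classical
  obtain ⟨b0, hb0, hmin⟩ : ∃ b0 : ℕ, r < 2 ^ ((b0 + 1) * p) ∧ ∀ b < b0, ¬ r < 2 ^ ((b + 1) * p) :=
    ⟨Nat.find hex, Nat.find_spec hex, fun b hb => Nat.find_min hex hb⟩
  set f : ℕ → ℝ := fun b =>
    if r < 2 ^ ((b + 1) * p) then min r (2 ^ p * r ^ 2 / 2 ^ (b * p)) else 0 with hf
  have hf0 : ∀ b, 0 ≤ f b := by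
    intro b
    simp only [hf]
    split_ifs
    · exact le_min hr0 (by positivity)
    · exact le_rfl
  have hfr : ∀ b, f b ≤ r := by
    intro b
    simp only [hf]
    split_ifs
    · exact min_le_left _ _
    · exact hr0
  have hz : ∀ b ∈ Finset.range b0, f b = 0 := fun b hb => if_neg (hmin b (Finset.mem_range.1 hb))
  have hg : ∀ i, f (b0 + (i + 2)) ≤ r * (1 / 2) ^ i := by
    intro i
    have h1 : f (b0 + (i + 2)) ≤ 2 ^ p * r ^ 2 / 2 ^ ((b0 + (i + 2)) * p) := by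
      simp only [hf]
      split_ifs
      · exact min_le_right _ _
      · positivity
    refine h1.trans ?_
    rw [div_le_iff₀ (by positivity)]
    have h2 : (2 : ℝ) ^ i ≤ 2 ^ (i * p) :=
      pow_le_pow_right₀ one_le_two (by calc i = i * 1 := (mul_one i).symm
        _ ≤ i * p := Nat.mul_le_mul_left _ hp)
    have h3 : (1 : ℝ) ≤ (1 / 2) ^ i * 2 ^ (i * p) := by
      calc (1 : ℝ) = (1 / 2) ^ i * 2 ^ i := by rw [← mul_pow]; norm_num
        _ ≤ (1 / 2) ^ i * 2 ^ (i * p) := mul_le_mul_of_nonneg_left h2 (by positivity)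
    have h4 : (2 : ℝ) ^ ((b0 + (i + 2)) * p) = 2 ^ p * 2 ^ ((b0 + 1) * p) * 2 ^ (i * p) := by
      rw [← pow_add, ← pow_add]
      congr 1
      ring
    rw [h4]
    calc 2 ^ p * r ^ 2 = 2 ^ p * (r * r) * 1 := by ring
      _ ≤ 2 ^ p * (r * 2 ^ ((b0 + 1) * p)) * ((1 / 2) ^ i * 2 ^ (i * p)) := by
          refine mul_le_mul (mul_le_mul_of_nonneg_left (mul_le_mul_of_nonneg_left hb0.le hr0)
            (by positivity)) h3 zero_le_one (by positivity)
      _ = r * (1 / 2) ^ i * (2 ^ p * 2 ^ ((b0 + 1) * p) * 2 ^ (i * p)) := by ring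
  have hN : ∑ b ∈ Finset.range N, f b ≤ ∑ b ∈ Finset.range (b0 + (N + 2)), f b :=
    Finset.sum_le_sum_of_subset_of_nonneg (Finset.range_subset_range.2 (by omega)) fun b _ _ => hf0 b
  refine hN.trans ?_
  rw [Finset.sum_range_add, Finset.sum_eq_zero hz, zero_add, Finset.sum_range_succ',
    Finset.sum_range_succ']
  have h5 : ∑ i ∈ Finset.range N, f (b0 + (i + 1 + 1)) ≤ 2 * r := by
    calc ∑ i ∈ Finset.range N, f (b0 + (i + 1 + 1)) ≤ ∑ i ∈ Finset.range N, r * (1 / 2) ^ i :=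
          Finset.sum_le_sum fun i _ => hg i
      _ = r * ∑ i ∈ Finset.range N, (1 / 2) ^ i := by rw [Finset.mul_sum]
      _ ≤ r * 2 := mul_le_mul_of_nonneg_left (sum_geometric_two_le N) hr0
      _ = 2 * r := mul_comm _ _
  have h6 := hfr (b0 + (0 + 1))
  have h7 := hfr (b0 + 0)
  linarith

/-! ### one block -/

/-- Module u3 (M). The cost of a chain `K` which is increasing on the levels `a ≤ e < a + m`.
Proof. `Ex DD ≤ √(Ex QQ)` (`Ex_sq`, `DD_sq_le`). With `j = a + r`, `k = j - e`,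
`Λ r k = Ex QQ (Tc w j (K j) e) / 4^e`, `L r = HH j (K j) j` the summand is `√(Λ r k) / 2^k`. `mat_cs`
and `mat_sum` (`Lam_eq`, `Lam_top`, `Lam_lt` with `HH_mono` and `HH_comp`, `j' = e - 1`), `L` monotone:
`HH_comp`. Constant: `√(2 m (35 l + 4)) ≤ 9 √(m (1 + l))`. -/
theorem chain_cost {Θ : Soft M n} {ρ : M → M → ℝ} (h2 : T2 Θ ρ) (hρ : ∀ x y, 0 ≤ ρ x y)
    (hρn : ∀ x y, ρ x y ≤ 2 ^ n) {R : M → ℝ} (hR : ∀ z, 0 ≤ R z) (x : M) {a m : ℕ}
    (ham : a + m ≤ n) {K : Fin n → Finset M}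
    (hK : ∀ e e' : Fin n, a ≤ (e : ℕ) → (e : ℕ) ≤ (e' : ℕ) → (e' : ℕ) < a + m → K e ⊆ K e') :
    ∑ j : Fin n, (if a ≤ (j : ℕ) ∧ (j : ℕ) < a + m then
      ∑ e ∈ Finset.range ((j : ℕ) + 1), Ex Θ x (fun w => DD ρ R (Tc w j (K j) e) x) / 2 ^ (j : ℕ)
      else 0) ≤ 9 * Real.sqrt (m * (1 + Real.log (1 + ∑ z, R z))) := by
  classical
  set l : ℝ := Real.log (1 + ∑ z, R z) with hl
  have hl0 : 0 ≤ l := by
    rw [hl]
    exact Real.log_nonneg (by linarith [Finset.sum_nonneg (fun z (_ : z ∈ Finset.univ) => hR z)])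
  let L : ℕ → ℝ := fun r => if h : a + r < n then HH Θ R x ⟨a + r, h⟩ (K ⟨a + r, h⟩) (a + r) else 0
  let Λ : ℕ → ℕ → ℝ := fun r k => if h : a + r < n then
    Ex Θ x (fun w => QQ ρ R (Tc w ⟨a + r, h⟩ (K ⟨a + r, h⟩) (a + r - k)) x) / 4 ^ (a + r - k) else 0
  have hL : ∀ r (h : a + r < n), L r = HH Θ R x ⟨a + r, h⟩ (K ⟨a + r, h⟩) (a + r) := fun r h => dif_pos h
  have hΛ' : ∀ r k (h : a + r < n), Λ r k =
      Ex Θ x (fun w => QQ ρ R (Tc w ⟨a + r, h⟩ (K ⟨a + r, h⟩) (a + r - k)) x) / 4 ^ (a + r - k) :=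
    fun r k h => dif_pos h
  have hQQ : ∀ A : Finset M, 0 ≤ QQ ρ R A x := by
    intro A
    unfold QQ mass
    have h1 : 0 ≤ ∑ z ∈ A, R z := Finset.sum_nonneg fun z _ => hR z
    exact div_nonneg (Finset.sum_nonneg fun z _ => mul_nonneg (hR z) (sq_nonneg _)) (by linarith)
  have h0 : ∀ r, 0 ≤ L r := by
    intro r
    by_cases h : a + r < n
    · rw [hL r h]
      exact HH_nonneg Θ hR x _ _ _
    · show 0 ≤ dite _ _ _
      rw [dif_neg h]
  have hlL : ∀ r, L r ≤ l := by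
    intro r
    by_cases h : a + r < n
    · rw [hL r h]
      exact HH_le Θ hR x _ _ _
    · show dite _ _ _ ≤ l
      rw [dif_neg h]
      exact hl0
  have hΛ : ∀ r k, 0 ≤ Λ r k := by
    intro r k
    by_cases h : a + r < n
    · rw [hΛ' r k h]
      exact div_nonneg (Ex_nonneg Θ x fun w => hQQ _) (by positivity)
    · show 0 ≤ dite _ _ _
      rw [dif_neg h]
  have hmono : ∀ r, r + 1 < m → L r ≤ L (r + 1) := by
    intro r hr
    rw [hL r (by omega), hL (r + 1) (by omega)]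
    have h1 := HH_comp Θ hR x (j := ⟨a + (r + 1), by omega⟩) (j' := ⟨a + r, by omega⟩)
      (by show a + r < a + (r + 1); omega)
      (hK ⟨a + r, by omega⟩ ⟨a + (r + 1), by omega⟩ (by show a ≤ a + r; omega)
        (by show a + r ≤ a + (r + 1); omega) (by show a + (r + 1) < a + m; omega))
    exact h1
  have hz : ∀ r, r + 1 < m → Λ r 0 ≤ 20 * (L (r + 1) - L r) := by
    intro r hr
    rw [hΛ' r 0 (by omega), hL r (by omega), hL (r + 1) (by omega), Nat.sub_zero]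
    have h1 := Lam_eq h2 hR x ⟨a + r, by omega⟩ ⟨a + (r + 1), by omega⟩
      (by show a + (r + 1) = a + r + 1; omega)
      (hK ⟨a + r, by omega⟩ ⟨a + (r + 1), by omega⟩ (by show a ≤ a + r; omega)
        (by show a + r ≤ a + (r + 1); omega) (by show a + (r + 1) < a + m; omega))
    rw [div_le_iff₀ (by positivity)]
    refine h1.trans (le_of_eq ?_)
    show 5 * 4 ^ (a + r + 1) * _ = _
    rw [pow_succ]
    ring
  have ht : ∀ r, r + 1 = m → Λ r 0 ≤ 20 * (l - L r) + 4 := by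
    intro r hr
    rw [hΛ' r 0 (by omega), hL r (by omega), Nat.sub_zero]
    have h1 := Lam_top h2 hρ hρn hR x ⟨a + r, by omega⟩ (K ⟨a + r, by omega⟩)
    rw [div_le_iff₀ (by positivity)]
    refine h1.trans (le_of_eq ?_)
    show 4 ^ (a + r) * _ = _
    rw [mul_comm]
  have hk : ∀ r k, r < m → 1 ≤ k → k ≤ a + r →
      Λ r k ≤ 5 * (L r - if k + 1 ≤ r then L (r - (k + 1)) else 0) := by
    intro r k hr hk1 hk2
    rw [hΛ' r k (by omega), hL r (by omega), div_le_iff₀ (by positivity)]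
    have h1 := Lam_lt h2 hR x ⟨a + r, by omega⟩ (K ⟨a + r, by omega⟩) (e := a + r - k)
      (by show a + r - k < a + r; omega)
    have h3 : HH Θ R x ⟨a + r, by omega⟩ (K ⟨a + r, by omega⟩) (a + r - k + 1) ≤
        HH Θ R x ⟨a + r, by omega⟩ (K ⟨a + r, by omega⟩) (a + r) :=
      HH_mono Θ hR x _ _ (by omega)
    have h4 : (if k + 1 ≤ r then L (r - (k + 1)) else 0) ≤
        HH Θ R x ⟨a + r, by omega⟩ (K ⟨a + r, by omega⟩) (a + r - k) := by
      split_ifs with hc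
      · rw [hL (r - (k + 1)) (by omega)]
        have h5 := HH_comp Θ hR x (j := ⟨a + r, by omega⟩) (j' := ⟨a + (r - (k + 1)), by omega⟩)
          (by show a + (r - (k + 1)) < a + r; omega)
          (hK ⟨a + (r - (k + 1)), by omega⟩ ⟨a + r, by omega⟩
            (by show a ≤ a + (r - (k + 1)); omega)
            (by show a + (r - (k + 1)) ≤ a + r; omega) (by show a + r < a + m; omega))
        have h6 : a + (r - (k + 1)) + 1 = a + r - k := by omega
        have h7 : ((⟨a + (r - (k + 1)), by omega⟩ : Fin n) : ℕ) + 1 = a + r - k := h6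
        rw [h7] at h5
        exact h5
      · exact HH_nonneg Θ hR x _ _ _
    refine h1.trans ?_
    have h8 : (0 : ℝ) < 4 ^ (a + r - k) := by positivity
    have h9 := mul_le_mul_of_nonneg_left (sub_le_sub h3 h4) h8.le
    linarith
  have hS := mat_sum h0 hlL a m hmono hΛ hz ht hk
  have hC := mat_cs a m hΛ hS
  -- the sum over the levels
  have hsum : ∀ G : Fin n → ℝ, ∑ j : Fin n, (if a ≤ (j : ℕ) ∧ (j : ℕ) < a + m then G j else 0) =
      ∑ r ∈ Finset.range m, (if h : a + r < n then G ⟨a + r, h⟩ else 0) := by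
    intro G
    rw [← Finset.sum_filter]
    symm
    refine Finset.sum_bij' (fun r hr => (⟨a + r, by
      have := Finset.mem_range.1 hr; omega⟩ : Fin n)) (fun j _ => (j : ℕ) - a) ?_ ?_ ?_ ?_ ?_
    · intro r hr
      rw [Finset.mem_range] at hr
      rw [Finset.mem_filter]
      exact ⟨Finset.mem_univ _, by show a ≤ a + r; omega, by show a + r < a + m; omega⟩
    · intro j hj
      rw [Finset.mem_filter] at hj
      rw [Finset.mem_range]
      omega
    · intro r hr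
      show a + r - a = r
      omega
    · intro j hj
      rw [Finset.mem_filter] at hj
      apply Fin.ext
      show a + ((j : ℕ) - a) = j
      omega
    · intro r hr
      rw [Finset.mem_range] at hr
      rw [dif_pos]
  rw [hsum]
  have hterm : ∀ r ∈ Finset.range m, (if h : a + r < n then
      ∑ e ∈ Finset.range (((⟨a + r, h⟩ : Fin n) : ℕ) + 1),
        Ex Θ x (fun w => DD ρ R (Tc w ⟨a + r, h⟩ (K ⟨a + r, h⟩) e) x) /
          2 ^ ((⟨a + r, h⟩ : Fin n) : ℕ) else 0) ≤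
      ∑ k ∈ Finset.range (a + r + 1), Real.sqrt (Λ r k) / 2 ^ k := by
    intro r hr
    rw [Finset.mem_range] at hr
    have h : a + r < n := by omega
    rw [dif_pos h]
    show ∑ e ∈ Finset.range (a + r + 1),
        Ex Θ x (fun w => DD ρ R (Tc w ⟨a + r, h⟩ (K ⟨a + r, h⟩) e) x) / 2 ^ (a + r) ≤ _
    rw [← Finset.sum_range_reflect (fun k => Real.sqrt (Λ r k) / 2 ^ k)]
    refine Finset.sum_le_sum fun e he => ?_
    rw [Finset.mem_range] at he
    have hk1 : a + r + 1 - 1 - e = a + r - e := by omega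
    rw [hk1, hΛ' r _ h]
    have hk2 : a + r - (a + r - e) = e := by omega
    rw [hk2]
    have hDD : Ex Θ x (fun w => DD ρ R (Tc w ⟨a + r, h⟩ (K ⟨a + r, h⟩) e) x) ≤
        Real.sqrt (Ex Θ x (fun w => QQ ρ R (Tc w ⟨a + r, h⟩ (K ⟨a + r, h⟩) e) x)) := by
      apply Real.le_sqrt_of_sq_le
      refine (Ex_sq Θ x _).trans ?_
      exact Ex_mono Θ x fun w => DD_sq_le hR ρ _ x
    have h4 : (4 : ℝ) ^ e = (2 ^ e) ^ 2 := by
      rw [← pow_mul, mul_comm, pow_mul]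
      norm_num
    have h5 : Real.sqrt (Ex Θ x (fun w => QQ ρ R (Tc w ⟨a + r, h⟩ (K ⟨a + r, h⟩) e) x) / 4 ^ e) =
        Real.sqrt (Ex Θ x (fun w => QQ ρ R (Tc w ⟨a + r, h⟩ (K ⟨a + r, h⟩) e) x)) / 2 ^ e := by
      rw [h4, Real.sqrt_div' _ (by positivity), Real.sqrt_sq (by positivity)]
    rw [h5, div_div, ← pow_add]
    have h6 : e + (a + r - e) = a + r := by omega
    rw [h6]
    exact div_le_div_of_nonneg_right hDD (by positivity)
  refine (Finset.sum_le_sum hterm).trans (hC.trans ?_)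
  have h9 : (9 : ℝ) * Real.sqrt (m * (1 + l)) = Real.sqrt (81 * (m * (1 + l))) := by
    rw [Real.sqrt_mul (by norm_num) (m * (1 + l))]
    congr 1
    rw [show (81 : ℝ) = 9 ^ 2 by norm_num, Real.sqrt_sq (by norm_num)]
  rw [h9]
  apply Real.sqrt_le_sqrt
  have hm : (0 : ℝ) ≤ m := Nat.cast_nonneg m
  nlinarith [mul_nonneg hm hl0]

/-- The cost of a separation at level `j` for the cell of stage `e`. -/
noncomputable def sc (Θ : Soft M n) (ρ : M → M → ℝ) (R : M → ℝ) (x y : M) (j : Fin n) (e : ℕ) : ℝ :=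
  Ex Θ x (fun w => if y ∈ w j then 0 else DD ρ R (cell w e) x)

private lemma u4_DD {ρ : M → M → ℝ} (hρ : ∀ x y, 0 ≤ ρ x y) {R : M → ℝ}
    (hR : ∀ z, 0 ≤ R z) (A : Finset M) (x : M) : 0 ≤ DD ρ R A x :=
  div_nonneg (Finset.sum_nonneg fun z _ => mul_nonneg (hR z) (hρ x z))
    (by linarith [Finset.sum_nonneg fun z (_ : z ∈ A) => hR z])

private lemma u4_sc (Θ : Soft M n) (ρ : M → M → ℝ) (R : M → ℝ) (x y : M) (j : Fin n) (e : ℕ) :
    sc Θ ρ R x y j e = ∑ B : Finset M, (if x ∈ B ∧ y ∉ B then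
      Θ.θ j B * Ex Θ x (fun w => DD ρ R (Tc w j B e) x) else 0) := by
  unfold sc
  rw [Ex_update Θ x j, Ex_sum]
  refine Finset.sum_congr rfl fun B _ => ?_
  by_cases hx : x ∈ B
  · by_cases hy : y ∈ B
    · rw [if_neg (by tauto)]
      simp only [if_pos hx, Function.update_self, if_pos hy, mul_zero]
      exact Ex_const Θ x 0
    · rw [if_pos ⟨hx, hy⟩]
      simp only [if_pos hx, Function.update_self, if_neg hy]
      exact Ex_smul Θ x _ _
  · rw [if_neg (by tauto)]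
    simp only [if_neg hx]
    exact Ex_const Θ x 0

/-- Module u4 (S/M). `T3` under `Ex`: by `Ex_update` at `j` and `T3` with
`F B = Ex (DD (Tc w j B e))` (`e ≤ j`; `F ≥ 0`; drop the condition `x ∈ K j`). -/
theorem sc_le {Θ : Soft M n} {ρ : M → M → ℝ} (hρ : ∀ x y, 0 ≤ ρ x y) {R : M → ℝ}
    (hR : ∀ z, 0 ≤ R z) {x y : M} (j : Fin n) (e : ℕ) {q : (Fin n → Finset M) → ℝ}
    (hq : ∀ K, 0 ≤ q K)
    (h3 : ∀ F : Finset M → ℝ, (∀ A, 0 ≤ F A) →
      ∑ B : Finset M, (if x ∈ B ∧ y ∉ B then Θ.θ j B * F B else 0) ≤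
        1 / 2 ^ (j : ℕ) * ∑ K : Fin n → Finset M, q K * (if x ∈ K j then F (K j) else 0)) :
    sc Θ ρ R x y j e ≤
      ∑ K, q K * (Ex Θ x (fun w => DD ρ R (Tc w j (K j) e) x) / 2 ^ (j : ℕ)) := by
  rw [u4_sc]
  have hG : ∀ B, 0 ≤ Ex Θ x (fun w => DD ρ R (Tc w j B e) x) :=
    fun B => Ex_nonneg Θ x fun w => u4_DD hρ hR _ _
  refine (h3 (fun B => Ex Θ x (fun w => DD ρ R (Tc w j B e) x)) hG).trans ?_
  rw [Finset.mul_sum]
  refine Finset.sum_le_sum fun K _ => ?_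
  have h1 : (if x ∈ K j then Ex Θ x (fun w => DD ρ R (Tc w j (K j) e) x) else 0) ≤
      Ex Θ x (fun w => DD ρ R (Tc w j (K j) e) x) := by
    split_ifs
    · exact le_rfl
    · exact hG _
  calc 1 / 2 ^ (j : ℕ) * (q K * (if x ∈ K j then Ex Θ x (fun w => DD ρ R (Tc w j (K j) e) x) else 0))
      ≤ 1 / 2 ^ (j : ℕ) * (q K * Ex Θ x (fun w => DD ρ R (Tc w j (K j) e) x)) :=
        mul_le_mul_of_nonneg_left (mul_le_mul_of_nonneg_left h1 (hq K)) (by positivity)
    _ = _ := by ring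

/-- Module u4 (S/M). The stage `j + 1` does not see the level `j` (independence, `Ex_update`), `T3`
with `F = 1`. -/
theorem sc_succ_le {Θ : Soft M n} {ρ : M → M → ℝ} (hρ : ∀ x y, 0 ≤ ρ x y) {R : M → ℝ}
    (hR : ∀ z, 0 ≤ R z) {x y : M} (j : Fin n) {q : (Fin n → Finset M) → ℝ}
    (hq : ∀ K, 0 ≤ q K) {μ : ℝ} (hμ : ∑ K, q K ≤ μ)
    (h3 : ∀ F : Finset M → ℝ, (∀ A, 0 ≤ F A) →
      ∑ B : Finset M, (if x ∈ B ∧ y ∉ B then Θ.θ j B * F B else 0) ≤
        1 / 2 ^ (j : ℕ) * ∑ K : Fin n → Finset M, q K * (if x ∈ K j then F (K j) else 0)) :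
    sc Θ ρ R x y j ((j : ℕ) + 1) ≤
      μ / 2 ^ (j : ℕ) * Ex Θ x (fun w => DD ρ R (cell w ((j : ℕ) + 1)) x) := by
  rw [u4_sc]
  have hcell : ∀ (w : Fin n → Finset M) (B : Finset M),
      Tc w j B ((j : ℕ) + 1) = cell w ((j : ℕ) + 1) := by
    intro w B
    ext z
    simp only [Tc, mem_cell]
    refine forall_congr' fun e => forall_congr' fun he => ?_
    rw [Function.update_of_ne]
    rintro rfl
    omega
  simp only [hcell]
  set D := Ex Θ x (fun w => DD ρ R (cell w ((j : ℕ) + 1)) x) with hD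
  have hD0 : 0 ≤ D := Ex_nonneg Θ x fun w => u4_DD hρ hR _ _
  refine (h3 (fun _ => D) fun _ => hD0).trans ?_
  calc 1 / 2 ^ (j : ℕ) * ∑ K : Fin n → Finset M, q K * (if x ∈ K j then D else 0)
      ≤ 1 / 2 ^ (j : ℕ) * ∑ K : Fin n → Finset M, q K * D := by
        refine mul_le_mul_of_nonneg_left (Finset.sum_le_sum fun K _ =>
          mul_le_mul_of_nonneg_left ?_ (hq K)) (by positivity)
        split_ifs
        · exact le_rfl
        · exact hD0
    _ = 1 / 2 ^ (j : ℕ) * D * ∑ K, q K := by rw [← Finset.sum_mul]; ring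
    _ ≤ 1 / 2 ^ (j : ℕ) * D * μ := mul_le_mul_of_nonneg_left hμ (by positivity)
    _ = _ := by ring

-- row u5 (helper75): paste in place of the stub(s) in Sep.lean
private theorem u5_mass_pos {R : M → ℝ} (hR : ∀ z, 0 ≤ R z) (A : Finset M) : 0 < mass R A := by
  unfold mass
  have : 0 ≤ ∑ z ∈ A, R z := Finset.sum_nonneg fun z _ => hR z
  linarith

private theorem u5_QQ_nonneg {R : M → ℝ} (hR : ∀ z, 0 ≤ R z) (ρ : M → M → ℝ) (A : Finset M)
    (x : M) : 0 ≤ QQ ρ R A x :=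
  div_nonneg (Finset.sum_nonneg fun z _ => mul_nonneg (hR z) (sq_nonneg _)) (u5_mass_pos hR A).le

private theorem u5_DD_nonneg {R : M → ℝ} (hR : ∀ z, 0 ≤ R z) {ρ : M → M → ℝ}
    (hρ : ∀ x y, 0 ≤ ρ x y) (A : Finset M) (x : M) : 0 ≤ DD ρ R A x :=
  div_nonneg (Finset.sum_nonneg fun z _ => mul_nonneg (hR z) (hρ _ _)) (u5_mass_pos hR A).le

private theorem u5_QQ_le {R : M → ℝ} (hR : ∀ z, 0 ≤ R z) {ρ : M → M → ℝ}
    (hρ : ∀ x y, 0 ≤ ρ x y) (hρn : ∀ x y, ρ x y ≤ 2 ^ n) (A : Finset M) (x : M) :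
    QQ ρ R A x ≤ 4 ^ n := by
  unfold QQ
  rw [div_le_iff₀ (u5_mass_pos hR A)]
  have h4 : (4 : ℝ) ^ n = (2 ^ n) ^ 2 := by
    rw [← pow_mul, mul_comm, pow_mul]; norm_num
  calc ∑ z ∈ A, R z * ρ x z ^ 2 ≤ ∑ z ∈ A, R z * 4 ^ n := by
        refine Finset.sum_le_sum fun z _ => mul_le_mul_of_nonneg_left ?_ (hR z)
        rw [h4]
        exact pow_le_pow_left₀ (hρ _ _) (hρn _ _) 2
    _ = 4 ^ n * ∑ z ∈ A, R z := by rw [← Finset.sum_mul, mul_comm]
    _ ≤ 4 ^ n * mass R A := by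
        refine mul_le_mul_of_nonneg_left ?_ (by positivity)
        unfold mass
        linarith

private theorem u5_cell (w : Fin n → Finset M) {a : ℕ} (ha : n ≤ a) :
    cell w a = Finset.univ := by
  ext z
  simp only [mem_cell, Finset.mem_univ, iff_true]
  intro e he
  exact absurd e.2 (by omega)

private theorem u5_H0 (Θ : Soft M n) (R : M → ℝ) (x : M) {a b : ℕ} (ha : n ≤ a) (hb : n ≤ b) :
    H0 Θ R x a = H0 Θ R x b := by
  unfold H0
  congr 1
  funext w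
  rw [u5_cell w ha, u5_cell w hb]

/-- Module u5 (S/M). -/
theorem free_cost {Θ : Soft M n} {ρ : M → M → ℝ} (h2 : T2 Θ ρ) (hρ : ∀ x y, 0 ≤ ρ x y)
    (hρn : ∀ x y, ρ x y ≤ 2 ^ n) {R : M → ℝ} (hR : ∀ z, 0 ≤ R z) (x : M) {a m : ℕ}
    (ham : a + m ≤ n) :
    ∑ j : Fin n, (if a ≤ (j : ℕ) ∧ (j : ℕ) < a + m then
      Ex Θ x (fun w => DD ρ R (cell w ((j : ℕ) + 1)) x) / 2 ^ (j : ℕ) else 0) ≤
        5 * Real.sqrt (m * (1 + Real.log (1 + ∑ z, R z))) := by
  set l : ℝ := Real.log (1 + ∑ z, R z) with hl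
  have hl0 : 0 ≤ l := (H0_nonneg Θ hR x 0).trans (H0_le Θ hR x 0)
  set q : ℕ → ℝ := fun r => Ex Θ x (fun w => QQ ρ R (cell w (a + r + 1)) x) / 4 ^ (a + r + 1)
    with hq
  have hq0 : ∀ r, 0 ≤ q r := fun r =>
    div_nonneg (Ex_nonneg Θ x fun w => u5_QQ_nonneg hR ρ _ x) (by positivity)
  -- reindex
  have e1 : ∑ j : Fin n, (if a ≤ (j : ℕ) ∧ (j : ℕ) < a + m then
      Ex Θ x (fun w => DD ρ R (cell w ((j : ℕ) + 1)) x) / 2 ^ (j : ℕ) else 0)
      = ∑ r ∈ Finset.range m, Ex Θ x (fun w => DD ρ R (cell w (a + r + 1)) x) / 2 ^ (a + r) := by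
    rw [Fin.sum_univ_eq_sum_range (fun j => if a ≤ j ∧ j < a + m then
      Ex Θ x (fun w => DD ρ R (cell w (j + 1)) x) / 2 ^ j else 0) n, ← Finset.sum_filter]
    have hf : (Finset.range n).filter (fun j => a ≤ j ∧ j < a + m) = Finset.Ico a (a + m) := by
      ext j
      simp only [Finset.mem_filter, Finset.mem_range, Finset.mem_Ico]
      omega
    rw [hf, Finset.sum_Ico_eq_sum_range, Nat.add_sub_cancel_left]
  rw [e1]
  -- every term
  have e2 : ∀ r ∈ Finset.range m, Ex Θ x (fun w => DD ρ R (cell w (a + r + 1)) x) / 2 ^ (a + r)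
      ≤ 2 * Real.sqrt (q r) := by
    intro r _
    set F : ℝ := Ex Θ x (fun w => DD ρ R (cell w (a + r + 1)) x) with hF
    have hF0 : 0 ≤ F := Ex_nonneg Θ x fun w => u5_DD_nonneg hR hρ _ x
    have hFq : F ^ 2 ≤ Ex Θ x (fun w => QQ ρ R (cell w (a + r + 1)) x) :=
      (Ex_sq Θ x _).trans (Ex_mono Θ x fun w => DD_sq_le hR ρ _ x)
    have h4 : (4 : ℝ) ^ (a + r + 1) = (2 * 2 ^ (a + r)) ^ 2 := by
      rw [← pow_succ', ← pow_mul, mul_comm (a + r + 1) 2, pow_mul]; norm_num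
    have h3 : (F / (2 * 2 ^ (a + r))) ^ 2 ≤ q r := by
      rw [div_pow, ← h4]
      exact div_le_div_of_nonneg_right hFq (by positivity)
    have h5 : F / (2 * 2 ^ (a + r)) ≤ Real.sqrt (q r) := by
      rw [← Real.sqrt_sq (div_nonneg hF0 (by positivity : (0 : ℝ) ≤ 2 * 2 ^ (a + r)))]
      exact Real.sqrt_le_sqrt h3
    calc F / 2 ^ (a + r) = 2 * (F / (2 * 2 ^ (a + r))) := by field_simp
      _ ≤ 2 * Real.sqrt (q r) := by linarith
  refine (Finset.sum_le_sum e2).trans ?_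
  rw [← Finset.mul_sum]
  -- the sum of the `q r`
  have e3 : ∀ r ∈ Finset.range m, q r ≤ 5 * (H0 Θ R x (a + (r + 1) + 1) - H0 Θ R x (a + r + 1)) +
      (if a + r + 1 = n then 1 else 0) := by
    intro r hr
    rw [Finset.mem_range] at hr
    by_cases hn : a + r + 1 = n
    · rw [if_pos hn, u5_H0 Θ R x (a := a + (r + 1) + 1) (b := a + r + 1) (by omega) (by omega),
        sub_self, mul_zero, zero_add]
      show Ex Θ x (fun w => QQ ρ R (cell w (a + r + 1)) x) / 4 ^ (a + r + 1) ≤ 1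
      rw [div_le_one (by positivity), hn, ← Ex_const Θ x ((4 : ℝ) ^ n)]
      exact Ex_mono Θ x fun w => u5_QQ_le hR hρ hρn _ x
    · rw [if_neg hn, add_zero]
      show Ex Θ x (fun w => QQ ρ R (cell w (a + r + 1)) x) / 4 ^ (a + r + 1) ≤ _
      rw [div_le_iff₀ (by positivity)]
      have h := QQ_stage h2 hR x (a := a + r + 1) (by omega)
      have h' : a + (r + 1) + 1 = a + r + 1 + 1 := by omega
      rw [h']
      linarith
  have e4 : ∑ r ∈ Finset.range m, q r ≤ 5 * l + 1 := by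
    refine (Finset.sum_le_sum e3).trans ?_
    rw [Finset.sum_add_distrib, ← Finset.mul_sum,
      Finset.sum_range_sub (fun r => H0 Θ R x (a + r + 1)) m]
    have h6 : ∑ r ∈ Finset.range m, (if a + r + 1 = n then (1 : ℝ) else 0) ≤ 1 := by
      rw [← Finset.sum_filter, Finset.sum_const, nsmul_eq_mul, mul_one]
      have : ((Finset.range m).filter (fun r => a + r + 1 = n)).card ≤ 1 := by
        rw [Finset.card_le_one]
        intro u hu v hv
        rw [Finset.mem_filter] at hu hv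
        omega
      exact_mod_cast this
    have h7 := H0_le Θ hR x (a + m + 1)
    have h8 := H0_nonneg Θ hR x (a + 0 + 1)
    rw [← hl] at h7
    linarith
  -- Cauchy-Schwarz
  have e5 : (∑ r ∈ Finset.range m, Real.sqrt (q r)) ^ 2 ≤ m * ∑ r ∈ Finset.range m, q r := by
    have h := sq_sum_le_card_mul_sum_sq (s := Finset.range m) (f := fun r => Real.sqrt (q r))
    rw [Finset.card_range] at h
    refine h.trans (le_of_eq ?_)
    congr 1
    exact Finset.sum_congr rfl fun r _ => Real.sq_sqrt (hq0 r)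
  have hm0 : (0 : ℝ) ≤ m := Nat.cast_nonneg m
  have e6 : (2 * ∑ r ∈ Finset.range m, Real.sqrt (q r)) ^ 2 ≤
      (5 * Real.sqrt (m * (1 + l))) ^ 2 := by
    rw [mul_pow, mul_pow, Real.sq_sqrt (mul_nonneg hm0 (by linarith))]
    have h9 : (m : ℝ) * ∑ r ∈ Finset.range m, q r ≤ m * (5 * (1 + l)) :=
      mul_le_mul_of_nonneg_left (e4.trans (by linarith)) hm0
    nlinarith [mul_nonneg hm0 (by linarith : (0 : ℝ) ≤ 1 + l)]
  exact le_of_sq_le_sq e6 (mul_nonneg (by norm_num) (Real.sqrt_nonneg _))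


/-- Module u6 (M). One block `b` (levels `b p ≤ j < (b + 1) p`, `j < n`): `T3`, `sc_le`, `chain_cost`,
`sc_succ_le`, `free_cost`; `a = b p`, `m = min p (n - a)` (if `n ≤ a` the sum is empty).
Constant `4 (2 · 9 + 5) = 92`. -/
theorem block_cost {Θ : Soft M n} {p : ℕ} {ρ : M → M → ℝ} (h2 : T2 Θ ρ) (h3 : T3 Θ p ρ)
    (hρ : ∀ x y, 0 ≤ ρ x y) (hρn : ∀ x y, ρ x y ≤ 2 ^ n) {R : M → ℝ} (hR : ∀ z, 0 ≤ R z)
    {x y : M} (hxy : x ≠ y) (b : ℕ) :
    ∑ j : Fin n, (if b * p ≤ (j : ℕ) ∧ (j : ℕ) < (b + 1) * p then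
      2 * ∑ e ∈ Finset.range ((j : ℕ) + 1), sc Θ ρ R x y j e + sc Θ ρ R x y j ((j : ℕ) + 1)
      else 0) ≤ 92 * mb p ρ b x y * Real.sqrt (p * (1 + Real.log (1 + ∑ z, R z))) := by
  obtain ⟨q, hq0, hqs, hqm, hqT⟩ := h3 b x y hxy
  have hl : 0 ≤ Real.log (1 + ∑ z, R z) :=
    Real.log_nonneg (by linarith [Finset.sum_nonneg fun z (_ : z ∈ univ) => hR z])
  have hmb : 0 ≤ mb p ρ b x y :=
    le_min (hρ x y) (div_nonneg (mul_nonneg (pow_nonneg (by norm_num) _) (sq_nonneg _))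
      (pow_nonneg (by norm_num) _))
  set S : ℝ := Real.sqrt (p * (1 + Real.log (1 + ∑ z, R z))) with hS
  have hS0 : 0 ≤ S := Real.sqrt_nonneg _
  have hbp : (b + 1) * p = b * p + p := by ring
  by_cases hn : n ≤ b * p
  · rw [Finset.sum_eq_zero]
    · positivity
    · intro j _
      rw [if_neg]
      rintro ⟨h, -⟩
      exact absurd j.2 (by omega)
  push Not at hn
  set m : ℕ := min p (n - b * p) with hm
  have ham : b * p + m ≤ n := by omega
  have hcond : ∀ j : Fin n, (b * p ≤ (j : ℕ) ∧ (j : ℕ) < (b + 1) * p) ↔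
      (b * p ≤ (j : ℕ) ∧ (j : ℕ) < b * p + m) := by
    intro j
    have := j.2
    rw [hbp]
    omega
  have hmS : Real.sqrt (m * (1 + Real.log (1 + ∑ z, R z))) ≤ S := by
    refine Real.sqrt_le_sqrt (mul_le_mul_of_nonneg_right ?_ (by linarith))
    exact_mod_cast min_le_left _ _
  -- the two kinds of terms
  have hchain : ∀ K : Fin n → Finset M, q K * (∑ j : Fin n,
      (if b * p ≤ (j : ℕ) ∧ (j : ℕ) < b * p + m then
      ∑ e ∈ Finset.range ((j : ℕ) + 1), Ex Θ x (fun w => DD ρ R (Tc w j (K j) e) x) / 2 ^ (j : ℕ)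
      else 0)) ≤ q K * (9 * S) := by
    intro K
    by_cases hK : q K = 0
    · rw [hK]; simp
    · refine mul_le_mul_of_nonneg_left ?_ (hq0 K)
      refine (chain_cost h2 hρ hρn hR x ham ?_).trans
        (mul_le_mul_of_nonneg_left hmS (by norm_num))
      intro e e' h4 h5 h6
      exact hqm K hK e e' h4 h5 (by rw [hbp]; omega)
  have hfree : ∑ j : Fin n, (if b * p ≤ (j : ℕ) ∧ (j : ℕ) < b * p + m then
      Ex Θ x (fun w => DD ρ R (cell w ((j : ℕ) + 1)) x) / 2 ^ (j : ℕ) else 0) ≤ 5 * S :=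
    (free_cost h2 hρ hρn hR x ham).trans (mul_le_mul_of_nonneg_left hmS (by norm_num))
  have hterm : ∀ j : Fin n, (if b * p ≤ (j : ℕ) ∧ (j : ℕ) < (b + 1) * p then
      2 * ∑ e ∈ Finset.range ((j : ℕ) + 1), sc Θ ρ R x y j e + sc Θ ρ R x y j ((j : ℕ) + 1)
      else 0) ≤ 2 * ∑ K, q K * (if b * p ≤ (j : ℕ) ∧ (j : ℕ) < b * p + m then
      ∑ e ∈ Finset.range ((j : ℕ) + 1), Ex Θ x (fun w => DD ρ R (Tc w j (K j) e) x) / 2 ^ (j : ℕ)
      else 0) + 4 * mb p ρ b x y * (if b * p ≤ (j : ℕ) ∧ (j : ℕ) < b * p + m then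
      Ex Θ x (fun w => DD ρ R (cell w ((j : ℕ) + 1)) x) / 2 ^ (j : ℕ) else 0) := by
    intro j
    simp only [hcond j]
    by_cases hj : b * p ≤ (j : ℕ) ∧ (j : ℕ) < b * p + m
    · simp only [if_pos hj]
      have hj' := (hcond j).2 hj
      refine add_le_add (mul_le_mul_of_nonneg_left ?_ (by norm_num)) ?_
      · calc ∑ e ∈ Finset.range ((j : ℕ) + 1), sc Θ ρ R x y j e
            ≤ ∑ e ∈ Finset.range ((j : ℕ) + 1), ∑ K,
              q K * (Ex Θ x (fun w => DD ρ R (Tc w j (K j) e) x) / 2 ^ (j : ℕ)) :=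
              Finset.sum_le_sum fun e _ => sc_le hρ hR j e hq0 (hqT j hj'.1 hj'.2)
          _ = _ := by
              rw [Finset.sum_comm]
              exact Finset.sum_congr rfl fun K _ => by rw [Finset.mul_sum]
      · refine (sc_succ_le hρ hR j hq0 hqs (hqT j hj'.1 hj'.2)).trans (le_of_eq ?_)
        ring
    · simp only [if_neg hj]
      simp
  calc _ ≤ ∑ j : Fin n, (2 * ∑ K, q K * (if b * p ≤ (j : ℕ) ∧ (j : ℕ) < b * p + m then
      ∑ e ∈ Finset.range ((j : ℕ) + 1), Ex Θ x (fun w => DD ρ R (Tc w j (K j) e) x) / 2 ^ (j : ℕ)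
      else 0) + 4 * mb p ρ b x y * (if b * p ≤ (j : ℕ) ∧ (j : ℕ) < b * p + m then
      Ex Θ x (fun w => DD ρ R (cell w ((j : ℕ) + 1)) x) / 2 ^ (j : ℕ) else 0)) :=
        Finset.sum_le_sum fun j _ => hterm j
    _ = 2 * ∑ K, q K * (∑ j : Fin n, (if b * p ≤ (j : ℕ) ∧ (j : ℕ) < b * p + m then
      ∑ e ∈ Finset.range ((j : ℕ) + 1), Ex Θ x (fun w => DD ρ R (Tc w j (K j) e) x) / 2 ^ (j : ℕ)
      else 0)) + 4 * mb p ρ b x y * ∑ j : Fin n, (if b * p ≤ (j : ℕ) ∧ (j : ℕ) < b * p + m then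
      Ex Θ x (fun w => DD ρ R (cell w ((j : ℕ) + 1)) x) / 2 ^ (j : ℕ) else 0) := by
        rw [Finset.sum_add_distrib, ← Finset.mul_sum, ← Finset.mul_sum, Finset.sum_comm]
        congr 2
        exact Finset.sum_congr rfl fun K _ => by rw [Finset.mul_sum]
    _ ≤ 2 * ∑ K, q K * (9 * S) + 4 * mb p ρ b x y * (5 * S) := by
        refine add_le_add (mul_le_mul_of_nonneg_left (Finset.sum_le_sum fun K _ => hchain K)
          (by norm_num)) (mul_le_mul_of_nonneg_left hfree (by positivity))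
    _ = 18 * S * ∑ K, q K + 20 * mb p ρ b x y * S := by
        rw [← Finset.sum_mul]; ring
    _ ≤ 18 * S * (4 * mb p ρ b x y) + 20 * mb p ρ b x y * S :=
        add_le_add (mul_le_mul_of_nonneg_left hqs (by positivity)) le_rfl
    _ = 92 * mb p ρ b x y * S := by ring

private lemma u7_DD {ρ : M → M → ℝ} (hρ : ∀ x y, 0 ≤ ρ x y) {R : M → ℝ}
    (hR : ∀ z, 0 ≤ R z) (A : Finset M) (x : M) : 0 ≤ DD ρ R A x :=
  div_nonneg (Finset.sum_nonneg fun z _ => mul_nonneg (hR z) (hρ x z))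
    (by linarith [Finset.sum_nonneg fun z (_ : z ∈ A) => hR z])

/-- Module u7 (M). Reduction of the separation costs to `sc`. Proof. If `y ∉ cell w e` (and `x` is in all
sets) there is a level `j ≥ e` with `y ∉ w j`, so the summand is at most
`∑_{j ≥ e} 1{y ∉ w j} (DD(cell e) + DD(cell (e+1)))`; exchange the sums; for `j > e` the stage `e + 1 ≤ j` is
one of the stages `≤ j`, for `j = e` it is `j + 1`; `ρ x y ≤ 2^e ≤ 2^j`. -/
theorem sep_red {Θ : Soft M n} {ρ : M → M → ℝ} (hρ : ∀ x y, 0 ≤ ρ x y) {R : M → ℝ}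
    (hR : ∀ z, 0 ≤ R z) (x y : M) :
    ∑ e : Fin n, (if ρ x y ≤ 2 ^ (e : ℕ) then
      Ex Θ x (fun w => if y ∈ cell w e then 0 else
        DD ρ R (cell w e) x + DD ρ R (cell w ((e : ℕ) + 1)) x) else 0) ≤
    ∑ j : Fin n, (if ρ x y ≤ 2 ^ (j : ℕ) then
      2 * ∑ e ∈ Finset.range ((j : ℕ) + 1), sc Θ ρ R x y j e + sc Θ ρ R x y j ((j : ℕ) + 1) else 0) := by
  have hDD := u7_DD hρ hR
  have hsc : ∀ (j : Fin n) (e : ℕ), 0 ≤ sc Θ ρ R x y j e := by
    intro j e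
    refine Ex_nonneg Θ x fun w => ?_
    split_ifs
    · exact le_rfl
    · exact hDD _ _
  -- one stage
  have h1 : ∀ e : Fin n, Ex Θ x (fun w => if y ∈ cell w e then 0 else
        DD ρ R (cell w e) x + DD ρ R (cell w ((e : ℕ) + 1)) x) ≤
      ∑ j : Fin n, (if (e : ℕ) ≤ j then sc Θ ρ R x y j e + sc Θ ρ R x y j ((e : ℕ) + 1) else 0) := by
    intro e
    have h2 : ∀ w : Fin n → Finset M, (if y ∈ cell w e then 0 else
        DD ρ R (cell w e) x + DD ρ R (cell w ((e : ℕ) + 1)) x) ≤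
        ∑ j : Fin n, (if (e : ℕ) ≤ j then ((if y ∈ w j then 0 else DD ρ R (cell w e) x) +
          (if y ∈ w j then 0 else DD ρ R (cell w ((e : ℕ) + 1)) x)) else 0) := by
      intro w
      have hnn : ∀ j : Fin n, 0 ≤ (if (e : ℕ) ≤ j then ((if y ∈ w j then 0 else DD ρ R (cell w e) x) +
          (if y ∈ w j then 0 else DD ρ R (cell w ((e : ℕ) + 1)) x)) else (0 : ℝ)) := by
        intro j
        have ha := hDD (cell w e) x
        have hb := hDD (cell w ((e : ℕ) + 1)) x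
        split_ifs <;> linarith
      split_ifs with hy
      · exact Finset.sum_nonneg fun j _ => hnn j
      · rw [mem_cell] at hy
        push Not at hy
        obtain ⟨j, hj1, hj2⟩ := hy
        refine le_trans (le_of_eq ?_) (Finset.single_le_sum (fun j _ => hnn j) (Finset.mem_univ j))
        rw [if_pos hj1, if_neg hj2, if_neg hj2]
    refine (Ex_mono Θ x h2).trans (le_of_eq ?_)
    rw [Ex_sum]
    refine Finset.sum_congr rfl fun j _ => ?_
    by_cases hj : (e : ℕ) ≤ j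
    · simp only [if_pos hj]
      rw [Ex_add]
      rfl
    · simp only [if_neg hj]
      exact Ex_const Θ x 0
  -- exchange
  have h4 : ∀ j : Fin n, ∑ e : Fin n, (if ρ x y ≤ 2 ^ (e : ℕ) then
      (if (e : ℕ) ≤ j then sc Θ ρ R x y j e + sc Θ ρ R x y j ((e : ℕ) + 1) else 0) else 0) ≤
      (if ρ x y ≤ 2 ^ (j : ℕ) then
      2 * ∑ e ∈ Finset.range ((j : ℕ) + 1), sc Θ ρ R x y j e + sc Θ ρ R x y j ((j : ℕ) + 1) else 0) := by
    intro j
    by_cases hj : ρ x y ≤ 2 ^ (j : ℕ)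
    · rw [if_pos hj]
      have h5 : ∑ e : Fin n, (if ρ x y ≤ 2 ^ (e : ℕ) then
          (if (e : ℕ) ≤ j then sc Θ ρ R x y j e + sc Θ ρ R x y j ((e : ℕ) + 1) else 0) else 0) ≤
          ∑ e : Fin n, (if (e : ℕ) ≤ j then sc Θ ρ R x y j e + sc Θ ρ R x y j ((e : ℕ) + 1) else 0) := by
        refine Finset.sum_le_sum fun e _ => ?_
        have ha := hsc j e
        have hb := hsc j ((e : ℕ) + 1)
        split_ifs <;> linarith
      refine h5.trans ?_
      have h6 : ∑ e : Fin n, (if (e : ℕ) ≤ j then sc Θ ρ R x y j e + sc Θ ρ R x y j ((e : ℕ) + 1)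
          else 0) = ∑ e ∈ Finset.range ((j : ℕ) + 1),
            (sc Θ ρ R x y j e + sc Θ ρ R x y j (e + 1)) := by
        rw [Fin.sum_univ_eq_sum_range (fun e => if e ≤ (j : ℕ) then
          sc Θ ρ R x y j e + sc Θ ρ R x y j (e + 1) else 0) n, ← Finset.sum_filter]
        congr 1
        ext e
        have := j.2
        simp only [Finset.mem_filter, Finset.mem_range]
        omega
      rw [h6, Finset.sum_add_distrib]
      have h7 : ∑ e ∈ Finset.range ((j : ℕ) + 1), sc Θ ρ R x y j (e + 1) ≤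
          ∑ e ∈ Finset.range ((j : ℕ) + 1), sc Θ ρ R x y j e + sc Θ ρ R x y j ((j : ℕ) + 1) := by
        rw [Finset.sum_range_succ (fun e => sc Θ ρ R x y j (e + 1))]
        have h8 := Finset.sum_range_succ' (fun e => sc Θ ρ R x y j e) (j : ℕ)
        rw [h8]
        have := hsc j 0
        linarith
      linarith
    · rw [if_neg hj]
      refine (Finset.sum_eq_zero fun e _ => ?_).le
      by_cases he : (e : ℕ) ≤ j
      · rw [if_neg]
        intro h
        exact hj (h.trans (pow_le_pow_right₀ (by norm_num) he))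
      · rw [if_neg he]; split_ifs <;> rfl
  calc _ ≤ ∑ e : Fin n, (if ρ x y ≤ 2 ^ (e : ℕ) then
      ∑ j : Fin n, (if (e : ℕ) ≤ j then sc Θ ρ R x y j e + sc Θ ρ R x y j ((e : ℕ) + 1) else 0)
      else 0) := by
        refine Finset.sum_le_sum fun e _ => ?_
        split_ifs
        · exact h1 e
        · exact le_rfl
    _ = ∑ e : Fin n, ∑ j : Fin n, (if ρ x y ≤ 2 ^ (e : ℕ) then
      (if (e : ℕ) ≤ j then sc Θ ρ R x y j e + sc Θ ρ R x y j ((e : ℕ) + 1) else 0) else 0) := by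
        refine Finset.sum_congr rfl fun e _ => ?_
        split_ifs with h
        · rfl
        · simp
    _ = ∑ j : Fin n, ∑ e : Fin n, (if ρ x y ≤ 2 ^ (e : ℕ) then
      (if (e : ℕ) ≤ j then sc Θ ρ R x y j e + sc Θ ρ R x y j ((e : ℕ) + 1) else 0) else 0) :=
        Finset.sum_comm
    _ ≤ _ := Finset.sum_le_sum fun j _ => h4 j

private lemma u8_sc_nonneg (Θ : Soft M n) {ρ : M → M → ℝ} (hρ : ∀ x y, 0 ≤ ρ x y) {R : M → ℝ}
    (hR : ∀ z, 0 ≤ R z) (x y : M) (j : Fin n) (e : ℕ) : 0 ≤ sc Θ ρ R x y j e := by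
  refine Ex_nonneg Θ x fun w => ?_
  split_ifs
  · exact le_rfl
  · exact div_nonneg (Finset.sum_nonneg fun z _ => mul_nonneg (hR z) (hρ x z))
      (add_nonneg zero_le_one (Finset.sum_nonneg fun z _ => hR z))

/-- Module u8 (S/M). (X3), interface, `C = 400`. Proof. `sep_red`; split the sum over `j` into the
blocks `b = j / p < n` (`ρ ≤ 2^j < 2^{(b+1)p}`); `block_cost`; `mb_sum` with `r = ρ x y`;
`4 · 92 = 368`. -/
theorem sep_bound : ∃ C : ℝ, 0 < C ∧ ∀ {M : Type} [Fintype M] [DecidableEq M] {n p : ℕ}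
    {ρ : M → M → ℝ} (hρ : ∀ x y, 0 ≤ ρ x y) (hn : ∀ x y, ρ x y ≤ 2 ^ n) (hp : 1 ≤ p)
    {Θ : Soft M n} (h2 : T2 Θ ρ) (h3 : T3 Θ p ρ) {R : M → ℝ} (hR : ∀ v, 0 ≤ R v) {x y : M}
    (hxy : x ≠ y) (h1 : 1 ≤ ρ x y),
    ∑ e : Fin n, (if ρ x y ≤ 2 ^ (e : ℕ) then Ex Θ x (fun w => if y ∈ cell w e then 0 else
      DD ρ R (cell w e) x + DD ρ R (cell w ((e : ℕ) + 1)) x) else 0) ≤
      C * ρ x y * Real.sqrt ((1 + Real.log (1 + ∑ v, R v)) * (1 + p)) := by
  refine ⟨368, by norm_num, ?_⟩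
  intro M _ _ n p ρ hρ hn hp Θ h2 h3 R hR x y hxy h1
  refine (sep_red hρ hR x y).trans ?_
  have hf : ∀ j : Fin n, 0 ≤ 2 * ∑ e ∈ Finset.range ((j : ℕ) + 1), sc Θ ρ R x y j e +
      sc Θ ρ R x y j ((j : ℕ) + 1) := fun j =>
    add_nonneg (mul_nonneg zero_le_two (Finset.sum_nonneg fun e _ => u8_sc_nonneg Θ hρ hR x y j e))
      (u8_sc_nonneg Θ hρ hR x y j _)
  have hl : 0 ≤ Real.log (1 + ∑ v, R v) :=
    Real.log_nonneg (le_add_of_nonneg_right (Finset.sum_nonneg fun z _ => hR z))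
  have hp' : (0 : ℕ) < p := hp
  -- split into blocks
  have hsplit : ∀ j : Fin n, (if ρ x y ≤ 2 ^ (j : ℕ) then
      2 * ∑ e ∈ Finset.range ((j : ℕ) + 1), sc Θ ρ R x y j e + sc Θ ρ R x y j ((j : ℕ) + 1) else 0) ≤
      ∑ b ∈ Finset.range n, (if ρ x y < 2 ^ ((b + 1) * p) then
        (if b * p ≤ (j : ℕ) ∧ (j : ℕ) < (b + 1) * p then
          2 * ∑ e ∈ Finset.range ((j : ℕ) + 1), sc Θ ρ R x y j e + sc Θ ρ R x y j ((j : ℕ) + 1)
          else 0) else 0) := by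
    intro j
    have hnn : ∀ b ∈ Finset.range n, (0 : ℝ) ≤ (if ρ x y < 2 ^ ((b + 1) * p) then
        (if b * p ≤ (j : ℕ) ∧ (j : ℕ) < (b + 1) * p then
          2 * ∑ e ∈ Finset.range ((j : ℕ) + 1), sc Θ ρ R x y j e + sc Θ ρ R x y j ((j : ℕ) + 1)
          else 0) else 0) := by
      intro b _
      split_ifs
      · exact hf j
      · exact le_rfl
      · exact le_rfl
    split_ifs with hj
    · have hb : (j : ℕ) / p ∈ Finset.range n :=
        Finset.mem_range.2 (lt_of_le_of_lt (Nat.div_le_self _ _) j.2)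
      refine le_trans ?_ (Finset.single_le_sum hnn hb)
      have h4 : (j : ℕ) / p * p ≤ (j : ℕ) := Nat.div_mul_le_self _ _
      have h5 : (j : ℕ) < ((j : ℕ) / p + 1) * p := by
        rw [mul_comm]
        exact Nat.lt_mul_div_succ _ hp'
      have h6 : ρ x y < 2 ^ (((j : ℕ) / p + 1) * p) :=
        lt_of_le_of_lt hj (pow_lt_pow_right₀ (by norm_num) h5)
      rw [if_pos h6, if_pos ⟨h4, h5⟩]
    · exact Finset.sum_nonneg hnn
  refine (Finset.sum_le_sum fun j _ => hsplit j).trans ?_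
  rw [Finset.sum_comm]
  set s : ℝ := Real.sqrt (p * (1 + Real.log (1 + ∑ z, R z))) with hs
  have hs0 : 0 ≤ s := Real.sqrt_nonneg _
  have hblock : ∀ b ∈ Finset.range n, ∑ j : Fin n, (if ρ x y < 2 ^ ((b + 1) * p) then
        (if b * p ≤ (j : ℕ) ∧ (j : ℕ) < (b + 1) * p then
          2 * ∑ e ∈ Finset.range ((j : ℕ) + 1), sc Θ ρ R x y j e + sc Θ ρ R x y j ((j : ℕ) + 1)
          else 0) else 0) ≤
      92 * s * (if ρ x y < 2 ^ ((b + 1) * p) then
        min (ρ x y) (2 ^ p * ρ x y ^ 2 / 2 ^ (b * p)) else 0) := by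
    intro b _
    by_cases hb : ρ x y < 2 ^ ((b + 1) * p)
    · simp only [if_pos hb]
      refine (block_cost h2 h3 hρ hn hR hxy b).trans (le_of_eq ?_)
      unfold mb
      ring
    · simp only [if_neg hb, Finset.sum_const_zero, mul_zero, le_refl]
  refine (Finset.sum_le_sum hblock).trans ?_
  rw [← Finset.mul_sum]
  have h7 := mb_sum hp h1 n
  have h8 : 92 * s * ∑ b ∈ Finset.range n, (if ρ x y < 2 ^ ((b + 1) * p) then
        min (ρ x y) (2 ^ p * ρ x y ^ 2 / 2 ^ (b * p)) else 0) ≤ 92 * s * (4 * ρ x y) :=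
    mul_le_mul_of_nonneg_left h7 (mul_nonneg (by norm_num) hs0)
  refine h8.trans ?_
  have h9 : s ≤ Real.sqrt ((1 + Real.log (1 + ∑ v, R v)) * (1 + p)) := by
    refine Real.sqrt_le_sqrt ?_
    rw [mul_comm]
    exact mul_le_mul_of_nonneg_left (le_add_of_nonneg_left zero_le_one) (add_nonneg zero_le_one hl)
  have h10 : 92 * s * (4 * ρ x y) = 368 * ρ x y * s := by ring
  rw [h10]
  exact mul_le_mul_of_nonneg_left h9 (mul_nonneg (by norm_num) (hρ x y))

end Pool.Agent.L2U
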