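import Pool.Agent.L2U.Defs
import Pool.Agent.L2U.Ana

/-!
Part X1, conclusion: the soft partitions of the grid.
-/

set_option autoImplicit false
set_option linter.unusedSectionVars false

namespace Pool.Agent.L2U

open Finset Pool.Agent.MP_12e089_an

variable {Δ d : ℕ}

/-- The positions of the grid points. -/
def gX (z : Grid Δ d) : Fin d → ℝ := fun k => ((z k : ℕ) : ℝ)

/-- The square root of the density of the coordinates in block `b`. -/
noncomputable def sb (p b : ℕ) : ℝ := 1 / 2 ^ (p * (b - 1))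

/-- The weights of level `e` (scale `2^e`, block `b = e / p`): points for `e = 0`, otherwise balls of
scale `sb p b * 2^e` in a random set of coordinates of density `(sb p b)^2`. -/
noncomputable def gth (Δ d p : ℕ) (e : ℕ) (B : Finset (Grid Δ d)) : ℝ :=
  if e = 0 then (if ∃ z, B = {z} then 1 else 0)
  else th gX (sb p (e / p) ^ 2) (sb p (e / p) * 2 ^ e) B

-- row v1 (helper75): paste in place of the stub(s) in Soft.lean
private theorem v1_sb_pos (p b : ℕ) : 0 < sb p b := by unfold sb; positivity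

private theorem v1_sb_le (p b : ℕ) : sb p b ≤ 1 := by
  unfold sb
  rw [div_le_one (by positivity)]
  exact one_le_pow₀ (by norm_num)

private theorem v1_sq_nonneg (p b : ℕ) : 0 ≤ sb p b ^ 2 := sq_nonneg _

private theorem v1_sq_le (p b : ℕ) : sb p b ^ 2 ≤ 1 :=
  pow_le_one₀ (v1_sb_pos p b).le (v1_sb_le p b)

/-- Module v1 (S). `0 < sb ≤ 1`, `th_nonneg`. -/
theorem gth_nonneg (Δ d p e : ℕ) (B : Finset (Grid Δ d)) : 0 ≤ gth Δ d p e B := by
  unfold gth
  split_ifs
  · exact zero_le_one
  · exact le_rfl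
  · exact th_nonneg gX (v1_sq_nonneg _ _) (v1_sq_le _ _) B

/-- Module v1 (S). `e = 0`: the only singleton containing `x` is `{x}`; otherwise `th_one`. -/
theorem gth_one (Δ d p e : ℕ) (x : Grid Δ d) :
    ∑ B : Finset (Grid Δ d), (if x ∈ B then gth Δ d p e B else 0) = 1 := by
  by_cases he : e = 0
  · subst he
    rw [Finset.sum_eq_single {x}]
    · rw [if_pos (Finset.mem_singleton_self x)]
      unfold gth
      rw [if_pos rfl, if_pos ⟨x, rfl⟩]
    · intro B _ hB
      by_cases hx : x ∈ B
      · rw [if_pos hx]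
        unfold gth
        rw [if_pos rfl, if_neg]
        rintro ⟨z, rfl⟩
        rw [Finset.mem_singleton] at hx
        exact hB (by rw [hx])
      · rw [if_neg hx]
    · intro h
      exact absurd (Finset.mem_univ _) h
  · have h := th_one (gX : Grid Δ d → Fin d → ℝ) (v1_sq_nonneg p (e / p)) (v1_sq_le p (e / p))
      (mul_pos (v1_sb_pos p (e / p)) (by positivity : (0 : ℝ) < 2 ^ e)) x
    rw [← h, Finset.sum_filter]
    refine Finset.sum_congr rfl fun B _ => ?_
    split_ifs
    · unfold gth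
      rw [if_neg he]
    · rfl

private theorem v1_rho2_sq (x z : Grid Δ d) : rho2 x z ^ 2 = ∑ k, (gX x k - gX z k) ^ 2 := by
  unfold rho2
  rw [Real.sq_sqrt]
  · rfl
  · exact Finset.sum_nonneg fun k _ => sq_nonneg _

/-- Module v1 (S/M). -/
theorem gth_two (Δ d p e : ℕ) (hp : 1 ≤ p) (hΔ : Δ ≤ 2 ^ p) (x z : Grid Δ d) :
    ∑ B : Finset (Grid Δ d), (if x ∈ B ∧ z ∈ B then gth Δ d p e B else 0) ≤
      Real.exp (-(rho2 x z ^ 2 / (5 * 4 ^ e))) := by
  by_cases he : e = 0
  · subst he
    by_cases hxz : x = z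
    · subst hxz
      have h0 : rho2 x x ^ 2 = 0 := by
        rw [v1_rho2_sq]
        exact Finset.sum_eq_zero fun k _ => by simp
      rw [h0, zero_div, neg_zero, Real.exp_zero, ← gth_one Δ d p 0 x]
      refine Finset.sum_le_sum fun B _ => ?_
      simp only [and_self]
      exact le_rfl
    · refine le_trans (le_of_eq (Finset.sum_eq_zero fun B _ => ?_)) (Real.exp_pos _).le
      split_ifs with h
      · unfold gth
        rw [if_pos rfl, if_neg]
        rintro ⟨w, rfl⟩
        rw [Finset.mem_singleton, Finset.mem_singleton] at h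
        exact hxz (h.1.trans h.2.symm)
      · rfl
  · have hs := v1_sb_pos p (e / p)
    have hD : ∀ x z : Grid Δ d, ∀ k, |gX x k - gX z k| ≤ (Δ : ℝ) := by
      intro x z k
      unfold gX
      have h1 : ((x k : ℕ) : ℝ) ≤ Δ := by exact_mod_cast (x k).2.le
      have h2 : ((z k : ℕ) : ℝ) ≤ Δ := by exact_mod_cast (z k).2.le
      have h3 : (0 : ℝ) ≤ ((x k : ℕ) : ℝ) := Nat.cast_nonneg _
      have h4 : (0 : ℝ) ≤ ((z k : ℕ) : ℝ) := Nat.cast_nonneg _
      rw [abs_le]
      constructor <;> linarith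
    have hpD : sb p (e / p) ^ 2 = 1 ∨ (Δ : ℝ) ≤ sb p (e / p) * 2 ^ e := by
      by_cases hb : e / p ≤ 1
      · left
        unfold sb
        rw [Nat.sub_eq_zero_of_le hb, mul_zero, pow_zero]
        norm_num
      · right
        unfold sb
        have h1 : p * (e / p) ≤ e := Nat.mul_div_le e p
        have h2 : p * (e / p - 1) + p ≤ e := by
          have : p * (e / p - 1) + p = p * (e / p) := by
            rw [← Nat.mul_succ]
            congr 1
            omega
          omega
        have h3 : (Δ : ℝ) ≤ 2 ^ p := by exact_mod_cast hΔ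
        rw [one_div, inv_mul_eq_div, le_div_iff₀ (by positivity)]
        calc (Δ : ℝ) * 2 ^ (p * (e / p - 1)) ≤ 2 ^ p * 2 ^ (p * (e / p - 1)) :=
              mul_le_mul_of_nonneg_right h3 (by positivity)
          _ = 2 ^ (p * (e / p - 1) + p) := by rw [pow_add, mul_comm]
          _ ≤ 2 ^ e := pow_le_pow_right₀ (by norm_num) h2
    have h := th_two (gX : Grid Δ d → Fin d → ℝ) (v1_sq_nonneg p (e / p)) (v1_sq_le p (e / p))
      (mul_pos hs (by positivity : (0 : ℝ) < 2 ^ e)) hD hpD x z
    refine le_trans (le_of_eq ?_) (h.trans (le_of_eq ?_))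
    · rw [Finset.sum_filter]
      refine Finset.sum_congr rfl fun B _ => ?_
      split_ifs
      · unfold gth
        rw [if_neg he]
      · rfl
    · rw [← v1_rho2_sq]
      congr 2
      have h4 : (4 : ℝ) ^ e = (2 ^ e) ^ 2 := by
        rw [← pow_mul, mul_comm, pow_mul]
        norm_num
      rw [h4]
      field_simp


private lemma v2_int (a b : ℕ) : |((a : ℝ) - b)| ≤ ((b : ℝ) - a) ^ 2 := by
  have h : |((a : ℤ) - b)| ≤ ((b : ℤ) - a) ^ 2 := by
    have h1 : ((b : ℤ) - a) ^ 2 = |(a : ℤ) - b| ^ 2 := by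
      rw [sq_abs]; ring
    rw [h1]
    by_cases h0 : |((a : ℤ) - b)| = 0
    · rw [h0]; norm_num
    · have : 0 ≤ |((a : ℤ) - b)| := abs_nonneg _
      nlinarith [show (1 : ℤ) ≤ |((a : ℤ) - b)| by omega]
  exact_mod_cast h

/-- Module v2 (S). Integer vectors: `∑ |v_k| ≤ ∑ v_k²`, and `1 ≤ rho2 x y` for `x ≠ y`. -/
theorem abs_le_sq (x y : Grid Δ d) : ∑ k, |gX y k - gX x k| ≤ rho2 x y ^ 2 := by
  unfold rho2
  rw [Real.sq_sqrt (Finset.sum_nonneg fun i _ => sq_nonneg _)]
  exact Finset.sum_le_sum fun k _ => v2_int (y k : ℕ) (x k : ℕ)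

/-- Module v2 (S). -/
theorem one_le_rho2 {x y : Grid Δ d} (h : x ≠ y) : 1 ≤ rho2 x y := by
  obtain ⟨k, hk⟩ : ∃ k, x k ≠ y k := by
    by_contra hc
    push Not at hc
    exact h (funext hc)
  have h1 : (1 : ℝ) ≤ |gX y k - gX x k| := by
    have h2 : (1 : ℤ) ≤ |((y k : ℕ) : ℤ) - ((x k : ℕ) : ℤ)| := by
      have h3 : ((y k : ℕ) : ℤ) - ((x k : ℕ) : ℤ) ≠ 0 := by
        intro h4
        exact hk (Fin.ext (by omega))
      exact Int.one_le_abs h3
    have h4 : ((1 : ℤ) : ℝ) ≤ ((|((y k : ℕ) : ℤ) - ((x k : ℕ) : ℤ)| : ℤ) : ℝ) := by exact_mod_cast h2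
    rw [Int.cast_abs, Int.cast_sub, Int.cast_natCast, Int.cast_natCast, Int.cast_one] at h4
    exact h4
  have h5 : (1 : ℝ) ≤ rho2 x y ^ 2 :=
    h1.trans ((Finset.single_le_sum (f := fun k => |gX y k - gX x k|) (fun i _ => abs_nonneg _)
      (Finset.mem_univ k)).trans (abs_le_sq x y))
  have h6 : 0 ≤ rho2 x y := Real.sqrt_nonneg _
  nlinarith

private theorem v3_sb_pos (p b : ℕ) : 0 < sb p b := by
  unfold sb; positivity

private theorem v3_sb_le (p b : ℕ) : sb p b ≤ 1 := by
  unfold sb
  rw [div_le_one (by positivity)]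
  exact one_le_pow₀ (by norm_num)

private theorem v3_sb_eq (p b : ℕ) : sb p b ≤ 2 ^ p / 2 ^ (b * p) := by
  unfold sb
  rw [div_le_div_iff₀ (by positivity) (by positivity), one_mul, ← pow_add]
  refine pow_le_pow_right₀ (by norm_num) ?_
  rcases b with _ | b
  · simp
  · rw [Nat.add_sub_cancel]
    exact le_of_eq (by ring)

private theorem v3_rho_sq (x y : Grid Δ d) :
    ∑ k, (gX y k - gX x k) ^ 2 = rho2 x y ^ 2 := by
  unfold rho2
  rw [Real.sq_sqrt (Finset.sum_nonneg fun i _ => sq_nonneg _)]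
  refine Finset.sum_congr rfl fun k _ => ?_
  unfold gX
  ring

private theorem v3_rho_nonneg (x y : Grid Δ d) : 0 ≤ rho2 x y := Real.sqrt_nonneg _

/-- push forward of weights -/
private noncomputable def v3_push {α β : Type} [Fintype α] [DecidableEq β] (Φ : α → β) (w : α → ℝ)
    (K : β) : ℝ := ∑ a, if Φ a = K then w a else 0

private theorem v3_push_sum {α β : Type} [Fintype α] [Fintype β] [DecidableEq β] (Φ : α → β)
    (w : α → ℝ) (G : β → ℝ) : ∑ K, v3_push Φ w K * G K = ∑ a, w a * G (Φ a) := by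
  unfold v3_push
  simp_rw [Finset.sum_mul]
  rw [Finset.sum_comm]
  refine Finset.sum_congr rfl fun a _ => ?_
  rw [Finset.sum_eq_single (Φ a)]
  · rw [if_pos rfl]
  · intro K _ hK
    rw [if_neg (Ne.symm hK), zero_mul]
  · intro h
    exact absurd (Finset.mem_univ _) h

/-- Module v3 (M). The chains of the balls of one block. Levels `max 1 (b p) ≤ e < (b+1) p`, `e < n`.
Proof. `th_three` with `p = (sb p b)²` and the scales `sb p b * 2^e` of these levels in DECREASING order
(`Fin m`, position `j` ↔ level `e_top - j`), giving `Q` on `Fin m → Finset M` with antitone chains and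
`th .. B ≤ 1/(sb 2^e) ∑ Q`; `q` = push forward of `Q / sb` to `Fin n → Finset M` (levels outside of the
block: `∅`; inside: `K e = K_j`). Mass `≤ 3 √(sb² ρ²)/sb = 3 ρ` and
`≤ 3 sb² ∑|v_k| / sb ≤ 3 ρ² / 2^(p (b-1)) ≤ 3 · 2^p ρ² / 2^(b p)` (`abs_le_sq`), i.e. `≤ 3 mb`.
The `F` form follows from the bound for every single `B` by multiplying with `F B ≥ 0` and summing. -/
theorem ball_chain (Δ d p n : ℕ) (hp : 1 ≤ p) (b : ℕ) (x y : Grid Δ d) :
    ∃ q : (Fin n → Finset (Grid Δ d)) → ℝ, (∀ K, 0 ≤ q K) ∧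
    (∑ K, q K ≤ 3 * mb p rho2 b x y) ∧
    (∀ K, q K ≠ 0 → (∀ e : Fin n, (e : ℕ) = 0 → K e = ∅) ∧
      ∀ e e' : Fin n, b * p ≤ (e : ℕ) → (e : ℕ) ≤ (e' : ℕ) →
      (e' : ℕ) < (b + 1) * p → K e ⊆ K e') ∧
    ∀ e : Fin n, (e : ℕ) ≠ 0 → b * p ≤ (e : ℕ) → (e : ℕ) < (b + 1) * p →
      ∀ F : Finset (Grid Δ d) → ℝ, (∀ A, 0 ≤ F A) →
      ∑ B : Finset (Grid Δ d), (if x ∈ B ∧ y ∉ B then gth Δ d p e B * F B else 0) ≤
        1 / 2 ^ (e : ℕ) * ∑ K : Fin n → Finset (Grid Δ d), q K * (if x ∈ K e then F (K e) else 0) := by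
  classical
  set s := sb p b with hs
  have hs0 : 0 < s := v3_sb_pos p b
  have hs1 : s ≤ 1 := v3_sb_le p b
  obtain ⟨lo, hlo⟩ : ∃ lo, lo = max 1 (b * p) := ⟨_, rfl⟩
  obtain ⟨hi, hhi⟩ : ∃ hi, hi = min n ((b + 1) * p) := ⟨_, rfl⟩
  have hanti : Antitone (fun j : Fin (hi - lo) => s * (2 : ℝ) ^ (hi - 1 - (j : ℕ))) := by
    intro i j hij
    have : (i : ℕ) ≤ (j : ℕ) := hij
    exact mul_le_mul_of_nonneg_left (pow_le_pow_right₀ (by norm_num) (by omega)) hs0.le
  obtain ⟨Q, hQ0, hQa, hQs, hQc, hQ⟩ := th_three (gX (Δ := Δ) (d := d)) (sq_nonneg s)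
    (by nlinarith : s ^ 2 ≤ 1) x y (fun j : Fin (hi - lo) => s * (2 : ℝ) ^ (hi - 1 - (j : ℕ)))
    (fun j => by positivity) hanti
  -- the map of the chains
  let Φ : (Fin (hi - lo) → Finset (Grid Δ d)) → Fin n → Finset (Grid Δ d) := fun K e =>
    if h : lo ≤ (e : ℕ) ∧ (e : ℕ) < hi then K ⟨hi - 1 - (e : ℕ), by omega⟩ else ∅
  have hΦ : ∀ (K : Fin (hi - lo) → Finset (Grid Δ d)) (e : Fin n)
      (h : lo ≤ (e : ℕ) ∧ (e : ℕ) < hi), Φ K e = K ⟨hi - 1 - (e : ℕ), by omega⟩ := fun K e h =>
    dif_pos h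
  have hmass : ∑ K, v3_push Φ (fun K => Q K / s) K = (∑ K, Q K) / s := by
    have h := v3_push_sum Φ (fun K => Q K / s) (fun _ => 1)
    simp only [mul_one] at h
    rw [h, Finset.sum_div]
  refine ⟨v3_push Φ (fun K => Q K / s), ?_, ?_, ?_, ?_⟩
  · intro K
    refine Finset.sum_nonneg fun a _ => ?_
    split_ifs
    · exact div_nonneg (hQ0 a) hs0.le
    · exact le_rfl
  · rw [hmass, div_le_iff₀ hs0]
    rw [v3_rho_sq] at hQs
    rw [Real.sqrt_mul (sq_nonneg s), Real.sqrt_sq hs0.le, Real.sqrt_sq (v3_rho_nonneg x y)] at hQs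
    unfold mb
    rcases le_total (rho2 x y) (2 ^ p * rho2 x y ^ 2 / 2 ^ (b * p)) with h | h
    · rw [min_eq_left h]
      linarith
    · rw [min_eq_right h]
      have h1 := abs_le_sq x y
      have h2 := v3_sb_eq p b
      rw [← hs] at h2
      have h3 : s * ∑ k, |gX y k - gX x k| ≤ 2 ^ p / 2 ^ (b * p) * rho2 x y ^ 2 :=
        mul_le_mul h2 h1 (Finset.sum_nonneg fun k _ => abs_nonneg _) (by positivity)
      calc ∑ K, Q K ≤ 3 * (s ^ 2 * ∑ k, |gX y k - gX x k|) := hQc
        _ = 3 * (s * ∑ k, |gX y k - gX x k|) * s := by ring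
        _ ≤ 3 * (2 ^ p / 2 ^ (b * p) * rho2 x y ^ 2) * s := by
          exact mul_le_mul_of_nonneg_right (mul_le_mul_of_nonneg_left h3 (by norm_num)) hs0.le
        _ = 3 * (2 ^ p * rho2 x y ^ 2 / 2 ^ (b * p)) * s := by ring
  · intro K hK
    obtain ⟨a, -, ha⟩ := Finset.exists_ne_zero_of_sum_ne_zero hK
    by_cases h : Φ a = K
    · rw [if_pos h] at ha
      have hQa' : Antitone a := hQa a (fun h0 => ha (by
        change Q a / s = 0
        rw [h0, zero_div]))
      subst h
      refine ⟨fun e he => ?_, fun e e' h1 h2 h3 => ?_⟩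
      · exact dif_neg (fun h => by omega)
      · by_cases he : (e : ℕ) = 0
        · have : Φ a e = ∅ := dif_neg (fun h => by omega)
          rw [this]
          exact Finset.empty_subset _
        · have h4 : (e' : ℕ) < n := e'.2
          rw [hΦ a e ⟨by omega, by omega⟩, hΦ a e' ⟨by omega, by omega⟩]
          exact hQa' (by
            change hi - 1 - (e' : ℕ) ≤ hi - 1 - (e : ℕ)
            omega)
    · rw [if_neg h] at ha
      exact absurd rfl ha
  · intro e he h1 h2 F hF
    have h4 : (e : ℕ) < n := e.2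
    have hee : lo ≤ (e : ℕ) ∧ (e : ℕ) < hi := ⟨by omega, by omega⟩
    have hdiv : (e : ℕ) / p = b := Nat.div_eq_of_lt_le h1 h2
    rw [v3_push_sum Φ (fun K => Q K / s) (fun K => if x ∈ K e then F (K e) else 0)]
    simp_rw [hΦ _ e hee]
    set j : Fin (hi - lo) := ⟨hi - 1 - (e : ℕ), by omega⟩ with hj
    have hjv : hi - 1 - (j : ℕ) = (e : ℕ) := by
      change hi - 1 - (hi - 1 - (e : ℕ)) = (e : ℕ)
      omega
    have hB : ∀ B : Finset (Grid Δ d), (if x ∈ B ∧ y ∉ B then gth Δ d p e B * F B else 0) ≤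
        ∑ K : Fin (hi - lo) → Finset (Grid Δ d), if K j = B then
          1 / 2 ^ (e : ℕ) * (Q K / s * (if x ∈ K j then F (K j) else 0)) else 0 := by
      intro B
      split_ifs with hxy
      · have h5 := hQ j B hxy.1 hxy.2
        have h6 : gth Δ d p e B = th gX (s ^ 2) (s * 2 ^ (hi - 1 - (j : ℕ))) B := by
          unfold gth
          rw [if_neg he, hdiv, hjv]
        rw [h6]
        calc th gX (s ^ 2) (s * 2 ^ (hi - 1 - (j : ℕ))) B * F B
            ≤ (1 / (s * 2 ^ (hi - 1 - (j : ℕ))) * ∑ K ∈ Finset.univ.filter (fun K => K j = B),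
              Q K) * F B := mul_le_mul_of_nonneg_right h5 (hF B)
          _ = ∑ K : Fin (hi - lo) → Finset (Grid Δ d), if K j = B then
              1 / 2 ^ (e : ℕ) * (Q K / s * (if x ∈ K j then F (K j) else 0)) else 0 := by
            rw [hjv, Finset.sum_filter, Finset.mul_sum, Finset.sum_mul]
            refine Finset.sum_congr rfl fun K _ => ?_
            by_cases hK : K j = B
            · rw [if_pos hK, if_pos hK, hK, if_pos hxy.1]
              field_simp
            · rw [if_neg hK, if_neg hK, mul_zero, zero_mul]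
      · refine Finset.sum_nonneg fun K _ => ?_
        split_ifs
        · exact mul_nonneg (by positivity) (mul_nonneg (div_nonneg (hQ0 K) hs0.le) (hF _))
        · simp
        · exact le_rfl
    refine (Finset.sum_le_sum fun B _ => hB B).trans ?_
    rw [Finset.sum_comm, Finset.mul_sum]
    refine Finset.sum_le_sum fun K _ => ?_
    rw [Finset.sum_ite_eq, if_pos (Finset.mem_univ _)]

/-- Module v4 (S/M). The interface theorem. `Pt`: definition. `T3`: for `b ≥ 1` (`b p ≥ 1`, so `e ≠ 0`)
`ball_chain`; for `b = 0` add to `q` the mass `1` on the chain `K 0 = {x}`, `K e = univ` for `e ≥ 1`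
(`mb p rho2 0 x y ≥ 1` because `rho2 ≥ 1`): at the level `0` the left side is `F {x}` (`y ∉ {x}`). -/
theorem soft_exists (Δ d p n : ℕ) (hp : 1 ≤ p) (hΔ : Δ ≤ 2 ^ p) :
    ∃ Θ : Soft (Grid Δ d) n, Pt Θ ∧ T2 Θ rho2 ∧ T3 Θ p rho2 := by
  classical
  refine ⟨⟨fun e B => gth Δ d p e B, fun e B => gth_nonneg Δ d p e B,
    fun e x => gth_one Δ d p e x⟩, ?_, ?_, ?_⟩
  · intro e he B hB
    change gth Δ d p e B ≠ 0 at hB
    unfold gth at hB
    rw [if_pos he] at hB
    by_contra h
    rw [if_neg h] at hB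
    exact hB rfl
  · intro e x z
    exact gth_two Δ d p e hp hΔ x z
  · intro b x y hxy
    obtain ⟨q, hq0, hqs, hqc, hq⟩ := ball_chain Δ d p n hp b x y
    have hρ : 1 ≤ rho2 x y := one_le_rho2 hxy
    have hmb : 0 ≤ mb p rho2 b x y := by
      unfold mb
      exact le_min (by linarith) (by positivity)
    rcases Nat.eq_zero_or_pos b with hb | hb
    · subst hb
      have hmb1 : 1 ≤ mb p rho2 0 x y := by
        unfold mb
        refine le_min hρ ?_
        rw [zero_mul, pow_zero, div_one]
        have h1 : (1 : ℝ) ≤ 2 ^ p := one_le_pow₀ (by norm_num)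
        nlinarith [mul_nonneg (by linarith : (0 : ℝ) ≤ 2 ^ p - 1) (sq_nonneg (rho2 x y))]
      let K0 : Fin n → Finset (Grid Δ d) := fun e => if (e : ℕ) = 0 then {x} else Finset.univ
      refine ⟨fun K => q K + if K = K0 then 1 else 0, ?_, ?_, ?_, ?_⟩
      · intro K
        refine add_nonneg (hq0 K) ?_
        split_ifs <;> norm_num
      · rw [Finset.sum_add_distrib, Finset.sum_ite_eq', if_pos (Finset.mem_univ _)]
        linarith
      · intro K hK e e' h1 h2 h3
        by_cases hK0 : q K = 0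
        · have hKK : K = K0 := by
            by_contra h
            apply hK
            change q K + (if K = K0 then 1 else 0) = 0
            rw [hK0, if_neg h, add_zero]
          rw [hKK]
          by_cases he' : (e' : ℕ) = 0
          · have he : (e : ℕ) = 0 := by omega
            change (if (e : ℕ) = 0 then {x} else Finset.univ) ⊆
              (if (e' : ℕ) = 0 then {x} else Finset.univ)
            rw [if_pos he, if_pos he']
          · change _ ⊆ (if (e' : ℕ) = 0 then {x} else Finset.univ)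
            rw [if_neg he']
            exact Finset.subset_univ _
        · exact (hqc K hK0).2 e e' h1 h2 h3
      · intro e h1 h2 F hF
        by_cases he : (e : ℕ) = 0
        · have hL : ∑ B : Finset (Grid Δ d),
              (if x ∈ B ∧ y ∉ B then gth Δ d p e B * F B else 0) ≤ F {x} := by
            rw [Finset.sum_eq_single {x}]
            · split_ifs
              · unfold gth
                rw [if_pos he, if_pos ⟨x, rfl⟩, one_mul]
              · exact hF _
            · intro B _ hB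
              split_ifs with h
              · unfold gth
                rw [if_pos he, if_neg, zero_mul]
                rintro ⟨z, hz⟩
                apply hB
                rw [hz] at h ⊢
                rw [Finset.mem_singleton.1 h.1]
              · rfl
            · intro h
              exact absurd (Finset.mem_univ _) h
          refine hL.trans ?_
          rw [he, pow_zero, div_one, one_mul]
          have h5 : (q K0 + if K0 = K0 then (1 : ℝ) else 0) *
              (if x ∈ K0 e then F (K0 e) else 0) ≤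
              ∑ K : Fin n → Finset (Grid Δ d), (q K + if K = K0 then (1 : ℝ) else 0) *
                (if x ∈ K e then F (K e) else 0) := by
            refine Finset.single_le_sum (f := fun K : Fin n → Finset (Grid Δ d) =>
              (q K + if K = K0 then (1 : ℝ) else 0) * (if x ∈ K e then F (K e) else 0))
              (fun K _ => ?_) (Finset.mem_univ K0)
            refine mul_nonneg (add_nonneg (hq0 K) ?_) ?_
            · split_ifs <;> norm_num
            · split_ifs
              · exact hF _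
              · exact le_rfl
          refine le_trans ?_ h5
          have h6 : K0 e = {x} := if_pos he
          rw [if_pos rfl, h6, if_pos (Finset.mem_singleton_self x)]
          nlinarith [hF {x}, hq0 K0, mul_nonneg (hq0 K0) (hF {x})]
        · refine (hq e he h1 h2 F hF).trans ?_
          refine mul_le_mul_of_nonneg_left (Finset.sum_le_sum fun K _ => ?_) (by positivity)
          refine mul_le_mul_of_nonneg_right ?_ ?_
          · change q K ≤ q K + (if K = K0 then 1 else 0)
            split_ifs <;> simp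
          · split_ifs
            · exact hF _
            · exact le_rfl
    · have hbp : 1 ≤ b * p := Nat.mul_pos hb hp
      refine ⟨q, hq0, by linarith, fun K hK => (hqc K hK).2, fun e h1 h2 F hF => ?_⟩
      exact hq e (by omega) h1 h2 F hF

end Pool.Agent.L2U
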