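import Pool.Agent.L2U.Defs

set_option linter.unusedSectionVars false

/-!
The greedy step of the tree inequality, together with the fact that the plan grows.
-/

namespace Pool.Agent.L2U

open Finset Pool.Agent.MP_12e089_an Pool.Agent.MP_12e089_an.LogS

variable {M L : Type} [Fintype M] [DecidableEq M] [Fintype L] [DecidableEq L]

/-- One step up, with a larger plan. -/
theorem step_mono {S T : M → ℝ} {g : M → L} (hS : ∀ v, 0 ≤ S v) (hT : ∀ v, 0 ≤ T v)
    (st : State S T g) (h : L → L) :
    ∃ st' : State S T (fun v => h (g v)), (∀ v w, st.π v w ≤ st'.π v w) ∧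
      ∀ χ : M → ℝ, (∀ v, 0 ≤ χ v ∧ χ v ≤ 1) →
      ∑ P, st'.cellPot χ P ≤ ∑ Q, st.cellPot χ Q + 3 / 2 * xd S T g h χ := by
  set f : M → L := fun v => h (g v) with hf
  have locf : ∀ v w, st.π v w ≠ 0 → f v = f w := fun v w hvw => congrArg h (st.loc v w hvw)
  set Kp : L → ℝ := fun P => cs f P st.σ with hKp
  set Km : L → ℝ := fun P => cs f P st.τ with hKm
  have hKp0 : ∀ P, 0 ≤ Kp P := fun P => cs_nonneg _ _ st.σ0
  have hKm0 : ∀ P, 0 ≤ Km P := fun P => cs_nonneg _ _ st.τ0
  set μ : L → ℝ := fun P => min (Kp P) (Km P) with hμ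
  have hμ0 : ∀ P, 0 ≤ μ P := fun P => le_min (hKp0 P) (hKm0 P)
  have hσK : ∀ v, st.σ v / Kp (f v) * Kp (f v) = st.σ v := by
    intro v
    rcases eq_or_ne (Kp (f v)) 0 with h0 | h0
    · rw [cs_eq_zero st.σ0 h0 rfl]; simp
    · field_simp
  have hτK : ∀ v, st.τ v / Km (f v) * Km (f v) = st.τ v := by
    intro v
    rcases eq_or_ne (Km (f v)) 0 with h0 | h0
    · rw [cs_eq_zero st.τ0 h0 rfl]; simp
    · field_simp
  have hdiff : ∀ P, cs f P S - cs f P T = Kp P - Km P := by
    intro P
    have := conserve st.row st.col locf (fun _ => 1) P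
    simp only [sub_self, one_mul] at this
    have e1 : fl f P st.π (fun _ => 1) (fun _ => 0) = 0 := by simp [fl, cs]
    have e2 : fl f P st.π (fun _ => 0) (fun _ => 1) = 0 := by simp [fl, cs]
    rw [e1, e2] at this
    have e3 : cs f P (fun v => S v) = cs f P S := rfl
    have e4 : cs f P (fun v => T v) = cs f P T := rfl
    have e5 : cs f P (fun v => st.σ v) = Kp P := rfl
    have e6 : cs f P (fun v => st.τ v) = Km P := rfl
    rw [e3, e4, e5, e6] at this
    linarith
  have hsum1 : ∀ P (b : M → ℝ), ∑ w, (if P = f w then μ P * (st.τ w / Km P * b w) else 0) =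
      μ P * (cs f P (fun w => b w * st.τ w) / Km P) := by
    intro P b
    unfold cs
    rw [Finset.sum_div, Finset.mul_sum]
    refine Finset.sum_congr rfl fun w _ => ?_
    by_cases hw : f w = P
    · rw [if_pos hw.symm, if_pos hw]; ring
    · rw [if_neg (Ne.symm hw), if_neg hw]; simp
  -- the new plan
  let π' : M → M → ℝ := fun v w => st.π v w +
    (if f v = f w then μ (f v) * (st.σ v / Kp (f v)) * (st.τ w / Km (f v)) else 0)
  let σ' : M → ℝ := fun v => st.σ v / Kp (f v) * (Kp (f v) - μ (f v))
  let τ' : M → ℝ := fun v => st.τ v / Km (f v) * (Km (f v) - μ (f v))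
  have hσ' : ∀ P (b : M → ℝ), cs f P (fun v => b v * σ' v) =
      cs f P (fun v => b v * st.σ v) / Kp P * (Kp P - μ P) := by
    intro P b
    rw [div_mul_eq_mul_div, mul_div_assoc, ← cs_mul_right]
    apply cs_congr
    rintro v rfl
    simp only [σ']
    ring
  have hτ' : ∀ P (b : M → ℝ), cs f P (fun v => b v * τ' v) =
      cs f P (fun v => b v * st.τ v) / Km P * (Km P - μ P) := by
    intro P b
    rw [div_mul_eq_mul_div, mul_div_assoc, ← cs_mul_right]
    apply cs_congr
    rintro v rfl
    simp only [τ']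
    ring
  have hflow : ∀ P (a b : M → ℝ), fl f P π' a b = fl f P st.π a b +
      μ P * (cs f P (fun v => a v * st.σ v) / Kp P * (cs f P (fun v => b v * st.τ v) / Km P)) := by
    intro P a b
    have e1 : ∀ v, f v = P → ∑ w, π' v w * (a v * b w) = ∑ w, st.π v w * (a v * b w) +
        a v * st.σ v * (μ P * (cs f P (fun w => b w * st.τ w) / Km P) / Kp P) := by
      intro v hv
      have e2 : a v * st.σ v * (μ P * (cs f P (fun w => b w * st.τ w) / Km P) / Kp P) =
          ∑ w, (if P = f w then μ P * (st.τ w / Km P * b w) else 0) * (a v * st.σ v / Kp P) := by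
        rw [← Finset.sum_mul, hsum1]; ring
      rw [e2, ← Finset.sum_add_distrib]
      refine Finset.sum_congr rfl fun w _ => ?_
      simp only [π', hv]
      split_ifs
      · ring
      · ring
    unfold fl
    rw [cs_congr f P e1, cs_add, cs_mul_right]
    ring
  refine ⟨⟨π', σ', τ', ?_, ?_, ?_, ?_, ?_, ?_, ?_, ?_⟩, ?_, ?_⟩
  · intro v w
    apply add_nonneg (st.π0 v w)
    split_ifs
    · exact mul_nonneg (mul_nonneg (hμ0 _) (div_nonneg (st.σ0 v) (hKp0 _)))
        (div_nonneg (st.τ0 w) (hKm0 _))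
    · exact le_rfl
  · intro v
    exact mul_nonneg (div_nonneg (st.σ0 v) (hKp0 _)) (sub_nonneg.2 (min_le_left _ _))
  · intro v
    exact mul_nonneg (div_nonneg (st.τ0 v) (hKm0 _)) (sub_nonneg.2 (min_le_right _ _))
  · intro v
    have e1 : ∑ w, π' v w = ∑ w, st.π v w + st.σ v / Kp (f v) * μ (f v) := by
      simp only [π']
      rw [Finset.sum_add_distrib]
      congr 1
      have e2 : ∀ w, (if f v = f w then μ (f v) * (st.σ v / Kp (f v)) * (st.τ w / Km (f v)) else 0) =
          (if f v = f w then μ (f v) * (st.τ w / Km (f v) * 1) else 0) * (st.σ v / Kp (f v)) := by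
        intro w
        split_ifs
        · ring
        · ring
      rw [Finset.sum_congr rfl fun w _ => e2 w, ← Finset.sum_mul, hsum1 (f v) (fun _ => 1)]
      have e3 : cs f (f v) (fun w => 1 * st.τ w) = Km (f v) := by simp [hKm]
      rw [e3, mul_div_self_min (hKp0 _) (hKm0 _)]
      ring
    rw [e1, ← st.row v]
    simp only [σ']
    have := hσK v
    linear_combination this
  · intro w
    have e1 : ∑ v, π' v w = ∑ v, st.π v w + st.τ w / Km (f w) * μ (f w) := by
      simp only [π']
      rw [Finset.sum_add_distrib]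
      congr 1
      have e2 : ∀ v, (if f v = f w then μ (f v) * (st.σ v / Kp (f v)) * (st.τ w / Km (f v)) else 0) =
          (if f v = f w then st.σ v else 0) * (μ (f w) / Kp (f w) * (st.τ w / Km (f w))) := by
        intro v
        by_cases hv : f v = f w
        · rw [if_pos hv, if_pos hv, hv]; ring
        · rw [if_neg hv, if_neg hv]; ring
      rw [Finset.sum_congr rfl fun w _ => e2 w, ← Finset.sum_mul]
      have e3 : ∑ v, (if f v = f w then st.σ v else 0) = Kp (f w) := by simp only [hKp, cs]
      have e4 := mul_div_self_min' (hKp0 (f w)) (hKm0 (f w))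
      rw [e3]
      have e5 : Kp (f w) * (μ (f w) / Kp (f w) * (st.τ w / Km (f w))) =
        μ (f w) * (Kp (f w) / Kp (f w)) * (st.τ w / Km (f w)) := by ring
      rw [e5, e4]
      ring
    rw [e1, ← st.col w]
    simp only [τ']
    have := hτK w
    linear_combination this
  · intro v w hvw
    by_contra hne
    apply hvw
    simp only [π']
    rw [if_neg hne, add_zero]
    by_contra h0
    exact hne (locf v w h0)
  · intro P
    rw [hdiff]
    have e1 := hσ' P (fun _ => 1)
    simp only [one_mul] at e1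
    have e2 : cs f P (fun v => st.σ v) = Kp P := rfl
    have e3 : cs f P (fun v => σ' v) = cs f P σ' := rfl
    rw [e2, e3] at e1
    rw [e1]
    rcases le_total (Kp P) (Km P) with hh | hh
    · have e4 : μ P = Kp P := min_eq_left hh
      rw [pos_of_nonpos (by linarith), e4, sub_self, mul_zero]
    · have e4 : μ P = Km P := min_eq_right hh
      rw [pos_of_nonneg (by linarith), e4]
      rcases eq_or_ne (Kp P) 0 with h0 | h0
      · have : Km P = 0 := le_antisymm (h0 ▸ hh) (hKm0 P)
        rw [h0, this]; simp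
      · rw [div_self h0, one_mul]
  · intro P
    have hd : cs f P T - cs f P S = Km P - Kp P := by have := hdiff P; linarith
    rw [hd]
    have e1 := hτ' P (fun _ => 1)
    simp only [one_mul] at e1
    have e2 : cs f P (fun v => st.τ v) = Km P := rfl
    have e3 : cs f P (fun v => τ' v) = cs f P τ' := rfl
    rw [e2, e3] at e1
    rw [e1]
    rcases le_total (Km P) (Kp P) with hh | hh
    · have e4 : μ P = Km P := min_eq_right hh
      rw [pos_of_nonpos (by linarith), e4, sub_self, mul_zero]
    · have e4 : μ P = Kp P := min_eq_left hh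
      rw [pos_of_nonneg (by linarith), e4]
      rcases eq_or_ne (Km P) 0 with h0 | h0
      · have : Kp P = 0 := le_antisymm (h0 ▸ hh) (hKp0 P)
        rw [h0, this]; simp
      · rw [div_self h0, one_mul]
  · intro v w
    change st.π v w ≤ π' v w
    simp only [π']
    have : 0 ≤ (if f v = f w then μ (f v) * (st.σ v / Kp (f v)) * (st.τ w / Km (f v)) else 0) := by
      split_ifs
      · exact mul_nonneg (mul_nonneg (hμ0 _) (div_nonneg (st.σ0 v) (hKp0 _)))
          (div_nonneg (st.τ0 w) (hKm0 _))
      · exact le_rfl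
    linarith
  · intro χ hχ
    have hfib : ∀ F : L → ℝ, ∑ Q, F Q = ∑ P, ∑ Q ∈ Finset.univ.filter (fun Q => h Q = P), F Q :=
      fun F => (Finset.sum_fiberwise _ _ _).symm
    have hf1 : ∑ Q, st.cellPot χ Q =
        ∑ P, ∑ Q ∈ Finset.univ.filter (fun Q => h Q = P), st.cellPot χ Q := hfib _
    have hf2 : xd S T g h χ = ∑ P, ∑ Q ∈ Finset.univ.filter (fun Q => h Q = P),
        dst (cs g Q S) (cs g Q T)
          (cs g Q (fun v => χ v * S v) / cs g Q S - cs f P (fun v => χ v * S v) / cs f P S)
          (cs g Q (fun v => χ v * T v) / cs g Q T - cs f P (fun v => χ v * T v) / cs f P T) := by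
      unfold xd
      rw [hfib]
      refine Finset.sum_congr rfl fun P _ => Finset.sum_congr rfl fun Q hQ => ?_
      rw [(Finset.mem_filter.1 hQ).2]
    rw [hf1, hf2, Finset.mul_sum, ← Finset.sum_add_distrib]
    refine Finset.sum_le_sum fun P _ => ?_
    have key := merge_le (Finset.univ.filter (fun Q => h Q = P))
      (fun Q => cs g Q S) (fun Q => cs g Q T) (fun Q => cs g Q (fun v => χ v * S v))
      (fun Q => cs g Q (fun v => χ v * T v)) (fun Q => cs g Q (fun v => χ v * st.σ v))
      (fun Q => cs g Q (fun v => χ v * st.τ v)) (fun Q => fl g Q st.π χ (fun v => 1 - χ v))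
      (fun Q => fl g Q st.π (fun v => 1 - χ v) χ)
      (fun Q _ => ⟨cs_nonneg _ _ fun v => mul_nonneg (hχ v).1 (hS v),
        cs_mono _ _ fun v => mul_le_of_le_one_left (hS v) (hχ v).2⟩)
      (fun Q _ => ⟨cs_nonneg _ _ fun v => mul_nonneg (hχ v).1 (hT v),
        cs_mono _ _ fun v => mul_le_of_le_one_left (hT v) (hχ v).2⟩)
      (fun Q _ => ⟨cs_nonneg _ _ fun v => mul_nonneg (hχ v).1 (st.σ0 v),
        (st.ls Q) ▸ cs_mono _ _ fun v => mul_le_of_le_one_left (st.σ0 v) (hχ v).2⟩)
      (fun Q _ => ⟨cs_nonneg _ _ fun v => mul_nonneg (hχ v).1 (st.τ0 v),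
        (st.lt Q) ▸ cs_mono _ _ fun v => mul_le_of_le_one_left (st.τ0 v) (hχ v).2⟩)
      (fun Q _ => conserve st.row st.col st.loc χ Q)
      (Kp := Kp P) (Km := Km P) (by
        simp only [hKp, hf]
        rw [cs_comp]
        exact Finset.sum_congr rfl fun Q _ => st.ls Q) (by
        simp only [hKm, hf]
        rw [cs_comp]
        exact Finset.sum_congr rfl fun Q _ => st.lt Q) rfl rfl
    simp only [← cs_comp, ← fl_comp] at key
    have one_sub : ∀ (ρ : M → ℝ), cs f P (fun v => (1 - χ v) * ρ v) =
        cs f P ρ - cs f P (fun v => χ v * ρ v) := by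
      intro ρ
      rw [← cs_sub]
      exact cs_congr _ _ fun v _ => by ring
    have eμ1 : ∀ x y : ℝ, μ P * (x * ((Km P - y) / Km P)) = μ P * (x * (1 - y / Km P)) := by
      intro x y
      have := mul_div_self_min (hKp0 P) (hKm0 P)
      have h1 : μ P * (x * ((Km P - y) / Km P)) = x * (μ P * (Km P / Km P)) -
        μ P * (x * (y / Km P)) := by ring
      rw [h1]
      have h2 : μ P * (Km P / Km P) = μ P := this
      rw [h2]; ring
    have eμ2 : ∀ x y : ℝ, μ P * ((Kp P - y) / Kp P * x) = μ P * ((1 - y / Kp P) * x) := by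
      intro x y
      have := mul_div_self_min' (hKp0 P) (hKm0 P)
      have h1 : μ P * ((Kp P - y) / Kp P * x) = x * (μ P * (Kp P / Kp P)) -
        μ P * (y / Kp P * x) := by ring
      rw [h1]
      have h2 : μ P * (Kp P / Kp P) = μ P := this
      rw [h2]; ring
    have e5 : cs f P st.σ = Kp P := rfl
    have e6 : cs f P st.τ = Km P := rfl
    have hcell : pot (cs f P S) (cs f P T) (cs f P (fun v => χ v * S v))
        (cs f P (fun v => χ v * T v)) (cs f P (fun v => χ v * σ' v)) (cs f P (fun v => χ v * τ' v))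
        (fl f P π' χ (fun v => 1 - χ v)) (fl f P π' (fun v => 1 - χ v) χ) ≤
        ∑ Q ∈ Finset.univ.filter (fun Q => h Q = P), st.cellPot χ Q + 3 / 2 *
        ∑ Q ∈ Finset.univ.filter (fun Q => h Q = P), dst (cs g Q S) (cs g Q T)
          (cs g Q (fun v => χ v * S v) / cs g Q S - cs f P (fun v => χ v * S v) / cs f P S)
          (cs g Q (fun v => χ v * T v) / cs g Q T - cs f P (fun v => χ v * T v) / cs f P T) := by
      rw [hσ' P χ, hτ' P χ, hflow P, hflow P, one_sub, one_sub, e5, e6, eμ1, eμ2]
      exact key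
    exact hcell

end Pool.Agent.L2U
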