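import Pool.Agent.L2U.Sep
import Pool.Agent.L2U.Soft

/-!
Interface with part X: `soft_exists` (file Soft), `dist_bound` (file Ent), `sep_bound` (file Sep).
-/
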