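import Pool.Agent.L2U.Plan
import Pool.Agent.L2U.Lev
import Pool.Agent.L2U.Num
import Pool.Agent.L2U.X

set_option linter.unusedSectionVars false

/-!
The total feature distance: representation in `ℓ_1`, lower bound, upper bound.
Modules `rep` (`rep_tot`), `low` (`tot_low`), `upa` (`tot_root`), `upb` (`tot_lev`), `upc` (`tot_up`).
-/

namespace Pool.Agent.L2U

open Finset Pool.Agent.MP_12e089_an Pool.Agent.MP_12e089_an.LogS

/-- The cut metrics of all blocks. -/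
structure Cuts (M : Type) (ρ : M → M → ℝ) (p : ℕ) where
  N : ℕ → ℕ
  χ : ∀ k, Fin (N k) → M → ℝ
  μ : ∀ k, Fin (N k) → ℝ
  zo : ∀ k ω v, χ k ω v = 0 ∨ χ k ω v = 1
  nn : ∀ k ω, 0 ≤ μ k ω
  mass : ∀ k, ∑ ω, μ k ω ≤ 8 * 2 ^ ((k + 1) * p)
  up : ∀ k x y, cm (μ k) (χ k) x y ≤ mb p ρ k x y
  low : ∀ k x y, 2 ^ (k * p) ≤ ρ x y → ρ x y ≤ 2 ^ ((k + 1) * p) → ρ x y ≤ 8 * cm (μ k) (χ k) x y

variable {M : Type} [Fintype M] [DecidableEq M] {n : ℕ} {ρ : M → M → ℝ} {p : ℕ}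

/-- The root stage of block `k`. -/
def rt (n p k : ℕ) : ℕ := min n ((k + 1) * p)

/-- The feature distance for one cut of block `k`. -/
noncomputable def one (Θ : Soft M n) (p k : ℕ) (χ S T : M → ℝ) : ℝ :=
  BT Θ (rt n p k) χ S T + 2 * CT Θ (rt n p k) S T +
    3 * ∑ e : Fin n, (if (e : ℕ) < rt n p k then XX Θ e χ S T else 0)

/-- The total feature distance (blocks `k < K`). -/
noncomputable def tot (Θ : Soft M n) (Γ : Cuts M ρ p) (K : ℕ) (S T : M → ℝ) : ℝ :=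
  ∑ k ∈ Finset.range K, ∑ ω, Γ.μ k ω * one Θ p k (Γ.χ k ω) S T

/-- One coordinate. -/
private lemma rep_lin (s : ℕ) (F : (M → ℕ) → ℝ) : Rep M s (fun S T => |F S - F T|) :=
  ⟨Unit, inferInstance, fun S _ => F S, fun S T _ _ => by simp [l1]⟩

private lemma rep_bt (Θ : Soft M n) (a s : ℕ) (χ : M → ℝ) :
    Rep M s (fun S T => BT Θ a χ (fun v => (S v : ℝ)) (fun v => (T v : ℝ))) := by
  unfold BT
  apply Rep.sum
  intro w _
  apply Rep.smul _ (wt_nonneg Θ a w)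
  refine (rep_lin (M := M) s (fun S => ∑ z ∈ cell w a, χ z * (S z : ℝ))).congr fun S T => ?_
  rw [← Finset.sum_sub_distrib]
  congr 1
  exact Finset.sum_congr rfl fun z _ => by ring

private lemma rep_ct (Θ : Soft M n) (a s : ℕ) :
    Rep M s (fun S T => CT Θ a (fun v => (S v : ℝ)) (fun v => (T v : ℝ))) := by
  unfold CT
  apply Rep.sum
  intro w _
  apply Rep.smul _ (wt_nonneg Θ a w)
  refine (rep_lin (M := M) s (fun S => ∑ z ∈ cell w a, (S z : ℝ))).congr fun S T => ?_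
  rw [← Finset.sum_sub_distrib]

private lemma rep_dst (s : ℕ) (A P : Finset M) (χ : M → ℝ) :
    Rep M s (fun S T => LogS.dst (∑ z ∈ A, (S z : ℝ)) (∑ z ∈ A, (T z : ℝ))
      (bar (fun v => (S v : ℝ)) χ A - bar (fun v => (S v : ℝ)) χ P)
      (bar (fun v => (T v : ℝ)) χ A - bar (fun v => (T v : ℝ)) χ P)) := by
  refine ⟨Fin s, inferInstance, fun S t => if (t : ℕ) < ∑ z ∈ A, S z then
    bar (fun v => (S v : ℝ)) χ A - bar (fun v => (S v : ℝ)) χ P else 0, fun S T h1 h2 => ?_⟩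
  have hle : ∀ S : M → ℕ, ∑ z ∈ A, S z ≤ ∑ z, S z := fun S =>
    Finset.sum_le_sum_of_subset (Finset.subset_univ A)
  have h := sum_thr ((hle S).trans h1) ((hle T).trans h2)
    (bar (fun v => (S v : ℝ)) χ A - bar (fun v => (S v : ℝ)) χ P)
    (bar (fun v => (T v : ℝ)) χ A - bar (fun v => (T v : ℝ)) χ P)
  push_cast at h
  refine Eq.trans ?_ h
  unfold l1
  exact (Finset.sum_range (fun t => |(if t < ∑ z ∈ A, S z then
    bar (fun v => (S v : ℝ)) χ A - bar (fun v => (S v : ℝ)) χ P else 0) -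
    (if t < ∑ z ∈ A, T z then
    bar (fun v => (T v : ℝ)) χ A - bar (fun v => (T v : ℝ)) χ P else 0)|)).symm

private lemma rep_xx (Θ : Soft M n) (e : Fin n) (s : ℕ) (χ : M → ℝ) :
    Rep M s (fun S T => XX Θ e χ (fun v => (S v : ℝ)) (fun v => (T v : ℝ))) := by
  unfold XX
  apply Rep.sum
  intro w _
  apply Rep.smul _ (wt_nonneg Θ _ w)
  unfold XS
  apply Rep.sum
  intro B _
  apply Rep.smul _ (Θ.nn e B)
  exact rep_dst s _ _ χ

/-- Module `rep`.  The total distance is an `ℓ_1` distance.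

Proof.  `LogS.Rep` is closed under sums and nonnegative multiples (`Rep.sum`, `Rep.smul`, `Rep.add`,
`Rep.zero`).  `BT`, `CT`: one coordinate `∑ z ∈ cell w a, χ z * S z` for every label (absolute value of a
difference).  `XX`: for every label `w` and set `B`, `LogS.sum_thr` with `a = ∑ z ∈ P ∩ B, S z` (a natural
number at most `s`): the coordinates are `t ↦ if t < a then bar S χ (P ∩ B) - bar S χ P else 0`. -/
theorem rep_tot (Θ : Soft M n) (Γ : Cuts M ρ p) (K s : ℕ) :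
    Rep M s (fun S T => tot Θ Γ K (fun v => (S v : ℝ)) (fun v => (T v : ℝ))) := by
  unfold tot
  apply Rep.sum
  intro k _
  apply Rep.sum
  intro ω _
  apply Rep.smul _ (Γ.nn k ω)
  unfold one
  apply Rep.add
  · apply Rep.add
    · exact rep_bt Θ _ s _
    · exact Rep.smul (rep_ct Θ _ s) (by norm_num)
  · apply Rep.smul _ (by norm_num)
    apply Rep.sum
    intro e _
    by_cases h : (e : ℕ) < rt n p k
    · simp only [if_pos h]
      exact rep_xx Θ e s _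
    · simp only [if_neg h]
      exact Rep.zero s

private lemma low_cm_nonneg (Γ : Cuts M ρ p) (k : ℕ) (x y : M) : 0 ≤ cm (Γ.μ k) (Γ.χ k) x y :=
  Finset.sum_nonneg fun ω _ => mul_nonneg (Γ.nn k ω) (abs_nonneg _)

private lemma low_cm (Γ : Cuts M ρ p) {K : ℕ}
    (h0 : ∀ x, ρ x x = 0) (h1 : ∀ x y, x ≠ y → 1 ≤ ρ x y) (hK : ∀ x y, ρ x y < 2 ^ (K * p))
    (x y : M) : ρ x y ≤ 8 * ∑ k ∈ Finset.range K, cm (Γ.μ k) (Γ.χ k) x y := by
  by_cases hxy : x = y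
  · subst hxy
    rw [h0]
    exact mul_nonneg (by norm_num) (Finset.sum_nonneg fun k _ => low_cm_nonneg Γ k x x)
  · have hr := h1 x y hxy
    have hex : ∃ k, ρ x y < 2 ^ ((k + 1) * p) := by
      refine ⟨K, (hK x y).trans_le (pow_le_pow_right₀ (by norm_num) ?_)⟩
      exact Nat.mul_le_mul_right p (Nat.le_succ K)
    classical
    have hK0 : K ≠ 0 := by
      rintro rfl
      have := hK x y
      rw [zero_mul, pow_zero] at this
      linarith
    obtain ⟨K', rfl⟩ := Nat.exists_eq_succ_of_ne_zero hK0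
    have hk1 := Nat.find_spec hex
    have hkK : Nat.find hex ≤ K' := Nat.find_min' hex (hK x y)
    have hk0 : 2 ^ (Nat.find hex * p) ≤ ρ x y := by
      rcases Nat.eq_zero_or_pos (Nat.find hex) with h | h
      · rw [h, zero_mul, pow_zero]
        exact hr
      · have h2 := Nat.find_min hex (m := Nat.find hex - 1) (by omega)
        rw [Nat.sub_add_cancel h] at h2
        exact not_lt.1 h2
    refine (Γ.low _ x y hk0 hk1.le).trans (mul_le_mul_of_nonneg_left ?_ (by norm_num))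
    exact Finset.single_le_sum (f := fun k => cm (Γ.μ k) (Γ.χ k) x y)
      (fun k _ => low_cm_nonneg Γ k x y) (Finset.mem_range.2 (Nat.lt_succ_of_le hkK))

/-- Module `low`.  The lower bound.

Proof.  The plan of `plan`.  For `x ≠ y` there is a `k < K` with `2 ^ (k p) ≤ ρ x y ≤ 2 ^ ((k + 1) p)` (the
largest `k` with `2 ^ (k p) ≤ ρ x y`; `k = 0` is admissible since `1 ≤ ρ x y`, and `k < K` since
`ρ x y < 2 ^ (K p)`), so `ρ x y ≤ 8 ∑_{k < K} cm (Γ.μ k) (Γ.χ k) x y` (also for `x = y`, as `ρ x x = 0`).  Sum with `π`,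
exchange the sums, and use `plan` for every cut `Γ.χ k ω` with the stage `rt n p k ≤ n`. -/
theorem tot_low {Θ : Soft M n} (hpt : Pt Θ) (hn : 0 < n) (Γ : Cuts M ρ p) (hp : 1 ≤ p) {K : ℕ}
    (h0 : ∀ x, ρ x x = 0) (h1 : ∀ x y, x ≠ y → 1 ≤ ρ x y) (hK : ∀ x y, ρ x y < 2 ^ (K * p))
    {S T : M → ℝ} (hS : ∀ v, 0 ≤ S v) (hT : ∀ v, 0 ≤ T v) (hST : ∑ v, S v = ∑ v, T v) :
    ∃ π : M → M → ℝ, (∀ v w, 0 ≤ π v w) ∧ (∀ v, ∑ w, π v w = S v) ∧ (∀ w, ∑ v, π v w = T w) ∧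
      ∑ v, ∑ w, π v w * ρ v w ≤ 8 * tot Θ Γ K S T := by
  obtain ⟨π, p0, p1, p2, p3⟩ := plan hpt hn hS hT hST
  refine ⟨π, p0, p1, p2, ?_⟩
  have e1 : ∑ v, ∑ w, π v w * ρ v w ≤
      ∑ v, ∑ w, π v w * (8 * ∑ k ∈ Finset.range K, cm (Γ.μ k) (Γ.χ k) v w) :=
    Finset.sum_le_sum fun v _ => Finset.sum_le_sum fun w _ =>
      mul_le_mul_of_nonneg_left (low_cm Γ h0 h1 hK v w) (p0 v w)
  have e2 : ∑ v, ∑ w, π v w * (8 * ∑ k ∈ Finset.range K, cm (Γ.μ k) (Γ.χ k) v w) =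
      8 * ∑ k ∈ Finset.range K, ∑ ω, Γ.μ k ω *
        ∑ v, ∑ w, π v w * |Γ.χ k ω v - Γ.χ k ω w| := by
    have e3 : ∀ v w, π v w * (8 * ∑ k ∈ Finset.range K, cm (Γ.μ k) (Γ.χ k) v w) =
        ∑ k ∈ Finset.range K, ∑ ω, 8 * (Γ.μ k ω * (π v w * |Γ.χ k ω v - Γ.χ k ω w|)) := by
      intro v w
      unfold cm
      rw [Finset.mul_sum, Finset.mul_sum]
      refine Finset.sum_congr rfl fun k _ => ?_
      rw [Finset.mul_sum, Finset.mul_sum]
      refine Finset.sum_congr rfl fun ω _ => ?_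
      ring
    simp only [e3]
    have e4 : ∀ v, ∑ w, ∑ k ∈ Finset.range K, ∑ ω,
        8 * (Γ.μ k ω * (π v w * |Γ.χ k ω v - Γ.χ k ω w|)) =
        ∑ k ∈ Finset.range K, ∑ ω, ∑ w,
          8 * (Γ.μ k ω * (π v w * |Γ.χ k ω v - Γ.χ k ω w|)) := by
      intro v
      rw [Finset.sum_comm]
      exact Finset.sum_congr rfl fun k _ => Finset.sum_comm
    simp only [e4]
    rw [Finset.sum_comm, Finset.mul_sum]
    refine Finset.sum_congr rfl fun k _ => ?_
    rw [Finset.sum_comm, Finset.mul_sum]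
    refine Finset.sum_congr rfl fun ω _ => ?_
    rw [Finset.mul_sum, Finset.mul_sum]
    refine Finset.sum_congr rfl fun v _ => ?_
    rw [Finset.mul_sum, Finset.mul_sum]
  rw [e2] at e1
  refine e1.trans (mul_le_mul_of_nonneg_left ?_ (by norm_num))
  unfold tot
  refine Finset.sum_le_sum fun k _ => Finset.sum_le_sum fun ω _ => ?_
  refine mul_le_mul_of_nonneg_left ?_ (Γ.nn k ω)
  exact p3 (Γ.χ k ω) (Γ.zo k ω) (rt n p k) (min_le_left _ _)

/-- Module `upa`.  The root terms.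

Proof.  Put `s_k = Ex x [y ∉ cell w (rt n p k)] + Ex y [x ∉ cell w (rt n p k)]`.  By `BT_lip`, `CT_lip` the
left side is at most `∑ k (cm (μ k) (χ k) x y + 3 * (∑ μ k) * s_k)`.  First part: `cm ≤ ∑ μ k ≤ 8 * 2 ^ ((k + 1) p)`
and `cm ≤ mB p (ρ x y) k` (`Γ.up`, `mb p ρ k x y = mB p (ρ x y) k` by definition), so at most `20 ρ x y`
(`sum_metric`).  Second part: `s_k ≤ 2 * min 1 (∑ e, ..)` by `Ex_mono`, `Ex_const` and `sep_prob` for `(x, y)` and `(y, x)`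
(`ρ` symmetric; if `rt n p k = n` then `cell w n = univ` and `s_k = 0`, otherwise `rt n p k = (k + 1) p`);
`sum_count`: at most `3 * 8 * 2 * 50 * ρ x y`. -/
theorem tot_root {Θ : Soft M n} (Γ : Cuts M ρ p) (hp : 1 ≤ p) (hsym : ∀ x y, ρ x y = ρ y x)
    (h3 : T3 Θ p ρ) (K : ℕ) (R : M → ℝ) {x y : M} (hxy : x ≠ y) (h1 : 1 ≤ ρ x y) :
    ∑ k ∈ Finset.range K, ∑ ω, Γ.μ k ω * (BT Θ (rt n p k) (Γ.χ k ω) (addPt R x) (addPt R y) +
      2 * CT Θ (rt n p k) (addPt R x) (addPt R y)) ≤ 2420 * ρ x y := by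
  set E : ℕ → ℝ := fun k => ∑ e : Fin n, (if (k + 1) * p ≤ (e : ℕ) then
    4 * mB p (ρ x y) ((e : ℕ) / p) / 2 ^ (e : ℕ) else 0) with hE
  have hrt : ∀ (k : ℕ) (e : Fin n), rt n p k ≤ (e : ℕ) ↔ (k + 1) * p ≤ (e : ℕ) := by
    intro k e
    have he := e.2
    unfold rt
    rw [min_le_iff]
    constructor
    · rintro (h | h)
      · omega
      · exact h
    · exact fun h => Or.inr h
  have hsep1 : ∀ k, Ex Θ x (fun w => if y ∈ cell w (rt n p k) then (0 : ℝ) else 1) ≤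
      min 1 (E k) := by
    intro k
    apply le_min
    · refine le_trans (Ex_mono Θ x (G := fun _ => (1 : ℝ)) fun w => ?_) (le_of_eq (Ex_const Θ x 1))
      split_ifs <;> norm_num
    · refine (sep_prob hp h3 hxy (rt n p k)).trans (le_of_eq ?_)
      apply Finset.sum_congr rfl
      intro e _
      simp only [hrt k e]
      rfl
  have hsep2 : ∀ k, Ex Θ y (fun w => if x ∈ cell w (rt n p k) then (0 : ℝ) else 1) ≤
      min 1 (E k) := by
    intro k
    apply le_min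
    · refine le_trans (Ex_mono Θ y (G := fun _ => (1 : ℝ)) fun w => ?_) (le_of_eq (Ex_const Θ y 1))
      split_ifs <;> norm_num
    · refine (sep_prob hp h3 hxy.symm (rt n p k)).trans (le_of_eq ?_)
      apply Finset.sum_congr rfl
      intro e _
      simp only [hrt k e]
      have h4 : mb p ρ ((e : ℕ) / p) y x = mB p (ρ x y) ((e : ℕ) / p) := by
        unfold mb mB
        rw [hsym y x]
      rw [h4]
  have hE0 : ∀ k, 0 ≤ min 1 (E k) := fun k =>
    (Ex_nonneg Θ x fun w => by split_ifs <;> norm_num).trans (hsep1 k)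
  have hk : ∀ k, ∑ ω, Γ.μ k ω * (BT Θ (rt n p k) (Γ.χ k ω) (addPt R x) (addPt R y) +
      2 * CT Θ (rt n p k) (addPt R x) (addPt R y)) ≤
      min (8 * 2 ^ ((k + 1) * p)) (mB p (ρ x y) k) +
        48 * (2 ^ ((k + 1) * p) * min 1 (E k)) := by
    intro k
    have h5 : ∀ ω, Γ.μ k ω * (BT Θ (rt n p k) (Γ.χ k ω) (addPt R x) (addPt R y) +
        2 * CT Θ (rt n p k) (addPt R x) (addPt R y)) ≤
        Γ.μ k ω * |Γ.χ k ω x - Γ.χ k ω y| + Γ.μ k ω * (6 * min 1 (E k)) := by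
      intro ω
      rw [← mul_add]
      apply mul_le_mul_of_nonneg_left _ (Γ.nn k ω)
      have a1 := BT_lip (Γ.zo k ω) Θ (rt n p k) R x y
      have a2 := CT_lip Θ (rt n p k) R x y
      have a3 := hsep1 k
      have a4 := hsep2 k
      linarith
    refine (Finset.sum_le_sum fun ω _ => h5 ω).trans ?_
    rw [Finset.sum_add_distrib, ← Finset.sum_mul]
    have h6 : ∑ ω, Γ.μ k ω * |Γ.χ k ω x - Γ.χ k ω y| ≤
        min (8 * 2 ^ ((k + 1) * p)) (mB p (ρ x y) k) := by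
      apply le_min
      · refine le_trans (Finset.sum_le_sum fun ω _ => ?_) (Γ.mass k)
        have h7 : |Γ.χ k ω x - Γ.χ k ω y| ≤ 1 := by
          rcases Γ.zo k ω x with h8 | h8 <;> rcases Γ.zo k ω y with h9 | h9 <;> simp [h8, h9]
        have h8 := Γ.nn k ω
        calc Γ.μ k ω * |Γ.χ k ω x - Γ.χ k ω y| ≤ Γ.μ k ω * 1 :=
              mul_le_mul_of_nonneg_left h7 h8
          _ = _ := mul_one _
      · exact Γ.up k x y
    have h7 : (∑ ω, Γ.μ k ω) * (6 * min 1 (E k)) ≤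
        (8 * 2 ^ ((k + 1) * p)) * (6 * min 1 (E k)) :=
      mul_le_mul_of_nonneg_right (Γ.mass k) (by have := hE0 k; linarith)
    calc _ ≤ min (8 * 2 ^ ((k + 1) * p)) (mB p (ρ x y) k) +
          (8 * 2 ^ ((k + 1) * p)) * (6 * min 1 (E k)) := add_le_add h6 h7
      _ = _ := by ring
  refine (Finset.sum_le_sum fun k _ => hk k).trans ?_
  rw [Finset.sum_add_distrib, ← Finset.mul_sum]
  have h8 := sum_metric hp h1 K
  have h9 := sum_count hp h1 n K
  have h10 : ∑ k ∈ Finset.range K, 2 ^ ((k + 1) * p) * min 1 (E k) ≤ 50 * ρ x y := h9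
  linarith

theorem cm_sum (Γ : Cuts M ρ p) (hp : 1 ≤ p) (K : ℕ) (h0 : ∀ x, ρ x x = 0)
    (h1 : ∀ x y, x ≠ y → 1 ≤ ρ x y) (x y : M) :
    ∑ k ∈ Finset.range K, cm (Γ.μ k) (Γ.χ k) x y ≤ 20 * ρ x y := by
  rcases eq_or_ne x y with rfl | hxy
  · rw [h0, mul_zero]
    apply le_of_eq
    apply Finset.sum_eq_zero
    intro k _
    unfold cm
    simp
  · refine le_trans (Finset.sum_le_sum fun k _ => ?_) (sum_metric hp (h1 x y hxy) K)
    refine le_min ?_ (Γ.up k x y)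
    refine le_trans ?_ (Γ.mass k)
    unfold cm
    refine Finset.sum_le_sum fun ω _ => ?_
    have h : |Γ.χ k ω x - Γ.χ k ω y| ≤ 1 := by
      rcases Γ.zo k ω x with h | h <;> rcases Γ.zo k ω y with h' | h' <;> rw [h, h'] <;> norm_num
    exact mul_le_of_le_one_right (Γ.nn k ω) h

private lemma upb_DD (Γ : Cuts M ρ p) (hp : 1 ≤ p) (K : ℕ) (h0 : ∀ x, ρ x x = 0)
    (h1 : ∀ x y, x ≠ y → 1 ≤ ρ x y) {R : M → ℝ} (hR : ∀ v, 0 ≤ R v) (A : Finset M) (x : M) :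
    ∑ k ∈ Finset.range K, DD (cm (Γ.μ k) (Γ.χ k)) R A x ≤ 20 * DD ρ R A x := by
  unfold DD
  rw [← Finset.sum_div, ← mul_div_assoc]
  have hd : 0 ≤ 1 + ∑ z ∈ A, R z := by
    have := Finset.sum_nonneg fun z (_ : z ∈ A) => hR z
    linarith
  apply div_le_div_of_nonneg_right _ hd
  rw [Finset.sum_comm, Finset.mul_sum]
  refine Finset.sum_le_sum fun z _ => ?_
  rw [← Finset.mul_sum]
  calc R z * ∑ k ∈ Finset.range K, cm (Γ.μ k) (Γ.χ k) x z ≤ R z * (20 * ρ x z) :=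
        mul_le_mul_of_nonneg_left (cm_sum Γ hp K h0 h1 x z) (hR z)
    _ = _ := by ring

private lemma upb_DD_nonneg {ρ : M → M → ℝ} (hρ : ∀ x y, 0 ≤ ρ x y) {R : M → ℝ}
    (hR : ∀ v, 0 ≤ R v) (A : Finset M) (x : M) : 0 ≤ DD ρ R A x := by
  unfold DD
  apply div_nonneg
  · exact Finset.sum_nonneg fun z _ => mul_nonneg (hR z) (hρ x z)
  · have := Finset.sum_nonneg fun z (_ : z ∈ A) => hR z
    linarith

private lemma upb_DD_le {ρ : M → M → ℝ} {c : ℝ} (hc : 0 ≤ c) (hn : ∀ x y, ρ x y ≤ c)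
    {R : M → ℝ} (hR : ∀ v, 0 ≤ R v) (A : Finset M) (x : M) : DD ρ R A x ≤ c := by
  unfold DD
  have h := Finset.sum_nonneg fun z (_ : z ∈ A) => hR z
  rw [div_le_iff₀ (by linarith)]
  calc ∑ z ∈ A, R z * ρ x z ≤ ∑ z ∈ A, R z * c :=
        Finset.sum_le_sum fun z _ => mul_le_mul_of_nonneg_left (hn x z) (hR z)
    _ = c * ∑ z ∈ A, R z := by rw [← Finset.sum_mul]; ring
    _ ≤ c * (1 + ∑ z ∈ A, R z) := mul_le_mul_of_nonneg_left (by linarith) hc

/-- the sum over the blocks of the expectations -/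
private lemma upb_Ex (Γ : Cuts M ρ p) (hp : 1 ≤ p) (K : ℕ) (h0 : ∀ x, ρ x x = 0)
    (h1 : ∀ x y, x ≠ y → 1 ≤ ρ x y) (Θ : Soft M n) {R : M → ℝ} (hR : ∀ v, 0 ≤ R v) (x : M)
    (P : (Fin n → Finset M) → Prop) [DecidablePred P] (a b : ℕ) :
    ∑ k ∈ Finset.range K, Ex Θ x (fun w => if P w then 0 else
      DD (cm (Γ.μ k) (Γ.χ k)) R (cell w a) x + DD (cm (Γ.μ k) (Γ.χ k)) R (cell w b) x) ≤
    20 * Ex Θ x (fun w => if P w then 0 else DD ρ R (cell w a) x + DD ρ R (cell w b) x) := by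
  rw [← Ex_sum, ← Ex_smul]
  apply Ex_mono
  intro w
  by_cases h : P w
  · simp [h]
  · simp only [h, if_false]
    rw [Finset.sum_add_distrib]
    have e1 := upb_DD Γ hp K h0 h1 hR (cell w a) x
    have e2 := upb_DD Γ hp K h0 h1 hR (cell w b) x
    linarith

theorem tot_lev {Θ : Soft M n} (Γ : Cuts M ρ p) (hp : 1 ≤ p) (hρ : ∀ x y, 0 ≤ ρ x y)
    (hsym : ∀ x y, ρ x y = ρ y x) (h0 : ∀ x, ρ x x = 0) (h1 : ∀ x y, x ≠ y → 1 ≤ ρ x y)
    (hn : ∀ x y, ρ x y ≤ 2 ^ n) (K : ℕ) (R : M → ℕ) {q A : ℝ} (hq : 1 ≤ q)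
    (hdist : ∀ (x : M) (a : ℕ), a < n →
      Ex Θ x (fun w => DD ρ (fun v => (R v : ℝ)) (cell w a) x) ≤ 3 * 2 ^ a * q)
    (hsep : ∀ x y, x ≠ y → ∑ e : Fin n, (if ρ x y ≤ 2 ^ (e : ℕ) then
      Ex Θ x (fun w => if y ∈ cell w e then 0 else DD ρ (fun v => (R v : ℝ)) (cell w e) x +
        DD ρ (fun v => (R v : ℝ)) (cell w ((e : ℕ) + 1)) x) else 0) ≤ A * ρ x y)
    {x y : M} (hxy : x ≠ y) :
    ∑ k ∈ Finset.range K, ∑ ω, Γ.μ k ω * (∑ e : Fin n, (if (e : ℕ) < rt n p k then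
      XX Θ e (Γ.χ k ω) (addPt (fun v => (R v : ℝ)) x) (addPt (fun v => (R v : ℝ)) y) else 0)) ≤
      (22 * p + 80 * A + 1440 * q) * ρ x y := by
  have hR : ∀ v, 0 ≤ (fun v => (R v : ℝ)) v := fun v => Nat.cast_nonneg _
  set R' : M → ℝ := fun v => (R v : ℝ) with hR'
  have hr1 : 1 ≤ ρ x y := h1 x y hxy
  set r := ρ x y with hr
  -- names
  let G : ℕ → Fin n → ℝ := fun k e => ∑ ω, Γ.μ k ω * XX Θ e (Γ.χ k ω) (addPt R' x) (addPt R' y)
  let a1 : ℕ → Fin n → ℝ := fun k e => Ex Θ x (fun w => if y ∈ cell w e then 0 else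
    DD (cm (Γ.μ k) (Γ.χ k)) R' (cell w e) x + DD (cm (Γ.μ k) (Γ.χ k)) R' (cell w ((e : ℕ) + 1)) x)
  let a2 : ℕ → Fin n → ℝ := fun k e => Ex Θ y (fun w => if x ∈ cell w e then 0 else
    DD (cm (Γ.μ k) (Γ.χ k)) R' (cell w e) y + DD (cm (Γ.μ k) (Γ.χ k)) R' (cell w ((e : ℕ) + 1)) y)
  let b1 : ℕ → Fin n → ℝ := fun k e => Ex Θ x (fun w =>
    DD (cm (Γ.μ k) (Γ.χ k)) R' (cell w e) x + DD (cm (Γ.μ k) (Γ.χ k)) R' (cell w ((e : ℕ) + 1)) x)
  let b2 : ℕ → Fin n → ℝ := fun k e => Ex Θ y (fun w =>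
    DD (cm (Γ.μ k) (Γ.χ k)) R' (cell w e) y + DD (cm (Γ.μ k) (Γ.χ k)) R' (cell w ((e : ℕ) + 1)) y)
  have hcm0 : ∀ k x y, 0 ≤ cm (Γ.μ k) (Γ.χ k) x y := fun k x y => cm_nonneg (Γ.nn k) _ x y
  have hDk : ∀ k A z, 0 ≤ DD (cm (Γ.μ k) (Γ.χ k)) R' A z := fun k A z =>
    upb_DD_nonneg (hcm0 k) hR A z
  have ha1 : ∀ k e, 0 ≤ a1 k e := fun k e => Ex_nonneg Θ x fun w => by
    split_ifs
    · exact le_rfl
    · exact add_nonneg (hDk _ _ _) (hDk _ _ _)
  have ha2 : ∀ k e, 0 ≤ a2 k e := fun k e => Ex_nonneg Θ y fun w => by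
    split_ifs
    · exact le_rfl
    · exact add_nonneg (hDk _ _ _) (hDk _ _ _)
  have hb1 : ∀ k e, 0 ≤ b1 k e := fun k e => Ex_nonneg Θ x fun w =>
    add_nonneg (hDk _ _ _) (hDk _ _ _)
  have hb2 : ∀ k e, 0 ≤ b2 k e := fun k e => Ex_nonneg Θ y fun w =>
    add_nonneg (hDk _ _ _) (hDk _ _ _)
  have hnear : ∀ k e, G k e ≤ 2 * cm (Γ.μ k) (Γ.χ k) x y + 2 * a1 k e + 2 * a2 k e := fun k e =>
    lev_near (Γ.nn k) (Γ.zo k) Θ e hR x y
  have hfar : ∀ k e, G k e ≤ 2 * b1 k e + 2 * b2 k e := fun k e =>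
    lev_far (Γ.nn k) (Γ.zo k) Θ e R x y
  -- the left side
  have hL : ∀ k, ∑ ω, Γ.μ k ω * (∑ e : Fin n, (if (e : ℕ) < rt n p k then
      XX Θ e (Γ.χ k ω) (addPt R' x) (addPt R' y) else 0)) =
      ∑ e : Fin n, (if (e : ℕ) < rt n p k then G k e else 0) := by
    intro k
    simp only [Finset.mul_sum]
    rw [Finset.sum_comm]
    refine Finset.sum_congr rfl fun e _ => ?_
    by_cases h : (e : ℕ) < rt n p k
    · simp only [h, if_true, G]
    · simp [h]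
  have hterm : ∀ (k : ℕ) (e : Fin n), (if (e : ℕ) < rt n p k then G k e else 0) ≤
      2 * (mB p r k * (if (e : ℕ) < (k + 1) * p ∧ r ≤ 2 ^ (e : ℕ) then (1 : ℝ) else 0)) +
      (if r ≤ 2 ^ (e : ℕ) then 2 * a1 k e + 2 * a2 k e else 0) +
      (if r ≤ 2 ^ (e : ℕ) then 0 else 2 * b1 k e + 2 * b2 k e) := by
    intro k e
    have hmB : cm (Γ.μ k) (Γ.χ k) x y ≤ mB p r k := Γ.up k x y
    have hmB0 : 0 ≤ mB p r k := (hcm0 k x y).trans hmB
    have p1 := ha1 k e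
    have p2 := ha2 k e
    have p3 := hb1 k e
    have p4 := hb2 k e
    by_cases hre : r ≤ 2 ^ (e : ℕ)
    · simp only [hre, and_true, if_true]
      by_cases he : (e : ℕ) < rt n p k
      · have he' : (e : ℕ) < (k + 1) * p := lt_of_lt_of_le he (min_le_right _ _)
        simp only [he, he', if_true]
        have := hnear k e
        linarith
      · simp only [he, if_false]
        have : 0 ≤ (if (e : ℕ) < (k + 1) * p then (1 : ℝ) else 0) := by split_ifs <;> norm_num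
        have := mul_nonneg hmB0 this
        linarith
    · simp only [hre, and_false, if_false, mul_zero]
      by_cases he : (e : ℕ) < rt n p k
      · simp only [he, if_true]
        have := hfar k e
        linarith
      · simp only [he, if_false]
        linarith
  rw [Finset.sum_congr rfl fun k _ => hL k]
  refine (Finset.sum_le_sum fun k _ => Finset.sum_le_sum fun e _ => hterm k e).trans ?_
  simp only [Finset.sum_add_distrib]
  -- first part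
  have h1' : ∑ k ∈ Finset.range K, ∑ e : Fin n,
      2 * (mB p r k * (if (e : ℕ) < (k + 1) * p ∧ r ≤ 2 ^ (e : ℕ) then (1 : ℝ) else 0)) ≤
      22 * p * r := by
    have := sum_levels hp hr1 n K
    simp only [← Finset.mul_sum]
    linarith
  -- second part
  have h2' : ∑ k ∈ Finset.range K, ∑ e : Fin n,
      (if r ≤ 2 ^ (e : ℕ) then 2 * a1 k e + 2 * a2 k e else 0) ≤ 80 * A * r := by
    rw [Finset.sum_comm]
    have hs1 := hsep x y hxy
    have hs2 := hsep y x (Ne.symm hxy)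
    rw [hsym y x, ← hr] at hs2
    rw [← hr] at hs1
    have : ∑ e : Fin n, ∑ k ∈ Finset.range K,
        (if r ≤ 2 ^ (e : ℕ) then 2 * a1 k e + 2 * a2 k e else 0) ≤
        40 * ∑ e : Fin n, (if r ≤ 2 ^ (e : ℕ) then
          Ex Θ x (fun w => if y ∈ cell w e then 0 else DD ρ R' (cell w e) x +
            DD ρ R' (cell w ((e : ℕ) + 1)) x) else 0) +
        40 * ∑ e : Fin n, (if r ≤ 2 ^ (e : ℕ) then
          Ex Θ y (fun w => if x ∈ cell w e then 0 else DD ρ R' (cell w e) y +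
            DD ρ R' (cell w ((e : ℕ) + 1)) y) else 0) := by
      rw [Finset.mul_sum, Finset.mul_sum, ← Finset.sum_add_distrib]
      refine Finset.sum_le_sum fun e _ => ?_
      by_cases hre : r ≤ 2 ^ (e : ℕ)
      · simp only [hre, if_true]
        rw [Finset.sum_add_distrib, ← Finset.mul_sum, ← Finset.mul_sum]
        have e1 : ∑ k ∈ Finset.range K, a1 k e ≤ 20 * Ex Θ x (fun w => if y ∈ cell w e then 0 else
            DD ρ R' (cell w e) x + DD ρ R' (cell w ((e : ℕ) + 1)) x) :=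
          upb_Ex Γ hp K h0 h1 Θ hR x (fun w => y ∈ cell w e) e ((e : ℕ) + 1)
        have e2 : ∑ k ∈ Finset.range K, a2 k e ≤ 20 * Ex Θ y (fun w => if x ∈ cell w e then 0 else
            DD ρ R' (cell w e) y + DD ρ R' (cell w ((e : ℕ) + 1)) y) :=
          upb_Ex Γ hp K h0 h1 Θ hR y (fun w => x ∈ cell w e) e ((e : ℕ) + 1)
        linarith
      · simp [hre]
    linarith
  -- third part
  have h3' : ∑ k ∈ Finset.range K, ∑ e : Fin n,
      (if r ≤ 2 ^ (e : ℕ) then 0 else 2 * b1 k e + 2 * b2 k e) ≤ 1440 * q * r := by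
    rw [Finset.sum_comm]
    have hstage : ∀ (z : M) (a : ℕ), a ≤ n →
        Ex Θ z (fun w => DD ρ R' (cell w a) z) ≤ 3 * 2 ^ a * q := by
      intro z a ha
      rcases lt_or_eq_of_le ha with h | h
      · exact hdist z a h
      · subst h
        have hc : (0 : ℝ) ≤ 2 ^ a := by positivity
        calc Ex Θ z (fun w => DD ρ R' (cell w a) z) ≤ Ex Θ z (fun _ => (2 : ℝ) ^ a) :=
              Ex_mono Θ z fun w => upb_DD_le hc hn hR _ z
          _ = 2 ^ a := Ex_const Θ z _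
          _ ≤ 3 * 2 ^ a * q := by nlinarith
    have hb : ∀ (z : M) (e : Fin n), ∑ k ∈ Finset.range K, Ex Θ z (fun w =>
        DD (cm (Γ.μ k) (Γ.χ k)) R' (cell w e) z +
          DD (cm (Γ.μ k) (Γ.χ k)) R' (cell w ((e : ℕ) + 1)) z) ≤ 20 * (9 * 2 ^ (e : ℕ) * q) := by
      intro z e
      have e1 := upb_Ex Γ hp K h0 h1 Θ hR z (fun _ => False) e ((e : ℕ) + 1)
      simp only [if_false] at e1
      refine e1.trans ?_
      rw [Ex_add]
      have e2 := hstage z e e.2.le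
      have e3 := hstage z ((e : ℕ) + 1) e.2
      have e4 : (2 : ℝ) ^ ((e : ℕ) + 1) = 2 * 2 ^ (e : ℕ) := by ring
      rw [e4] at e3
      linarith
    have : ∑ e : Fin n, ∑ k ∈ Finset.range K,
        (if r ≤ 2 ^ (e : ℕ) then 0 else 2 * b1 k e + 2 * b2 k e) ≤
        720 * q * ∑ e : Fin n, (if (2 : ℝ) ^ (e : ℕ) < r then (2 : ℝ) ^ (e : ℕ) else 0) := by
      rw [Finset.mul_sum]
      refine Finset.sum_le_sum fun e _ => ?_
      by_cases hre : r ≤ 2 ^ (e : ℕ)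
      · simp [hre, not_lt.2 hre]
      · simp only [hre, if_false, not_le.1 hre, if_true]
        rw [Finset.sum_add_distrib, ← Finset.mul_sum, ← Finset.mul_sum]
        have e1 := hb x e
        have e2 := hb y e
        have e1' : ∑ k ∈ Finset.range K, b1 k e ≤ 20 * (9 * 2 ^ (e : ℕ) * q) := e1
        have e2' : ∑ k ∈ Finset.range K, b2 k e ≤ 20 * (9 * 2 ^ (e : ℕ) * q) := e2
        linarith
    refine this.trans ?_
    have hs := sum_small hr1 n
    have hq0 : 0 ≤ 720 * q := by linarith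
    have := mul_le_mul_of_nonneg_left hs hq0
    linarith
  linarith

/-- Module `upc`.  The upper bound.

Proof.  `tot_root`, `tot_lev` with `q = √(1 + log s)`, `A = C √((1 + log s) (1 + p))` from `dist_bound`, `sep_bound`
(`1 + ∑ R = s`), and `p ≤ 1 + log s`: then `p ≤ √((1 + log s) (1 + p))`, `1 ≤ q ≤ √((1 + log s) (1 + p))`. -/
theorem tot_up : ∃ C : ℝ, 0 < C ∧ ∀ {M : Type} [Fintype M] [DecidableEq M] {n p : ℕ}
    {ρ : M → M → ℝ} {Θ : Soft M n} (Γ : Cuts M ρ p) (_ : 1 ≤ p) (_ : ∀ x y, 0 ≤ ρ x y)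
    (_ : ∀ x y, ρ x y = ρ y x) (_ : ∀ x, ρ x x = 0) (_ : ∀ x y, x ≠ y → 1 ≤ ρ x y)
    (_ : ∀ x y, ρ x y ≤ 2 ^ n) (_ : T2 Θ ρ) (_ : T3 Θ p ρ) (K : ℕ) {R : M → ℕ} {s : ℕ}
    (_ : ∑ v, R v + 1 = s) (_ : (p : ℝ) ≤ 1 + Real.log s) {x y : M} (_ : x ≠ y),
    tot Θ Γ K (addPt (fun v => (R v : ℝ)) x) (addPt (fun v => (R v : ℝ)) y) ≤
      C * Real.sqrt ((1 + Real.log s) * (1 + p)) * ρ x y := by
  obtain ⟨C, hC, hsb⟩ := sep_bound
  refine ⟨6806 + 240 * C, by linarith, ?_⟩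
  intro M _ _ n p ρ Θ Γ hp hρ hsym h0 h1 hn h2 h3 K R s hs hps x y hxy
  have hs1 : 1 ≤ s := by omega
  have hsR : 1 + ∑ v, (R v : ℝ) = (s : ℝ) := by
    rw [← hs]
    push_cast
    ring
  have hlog : 0 ≤ Real.log (s : ℝ) := Real.log_nonneg (by exact_mod_cast hs1)
  set L : ℝ := 1 + Real.log (s : ℝ) with hL
  have hL1 : 1 ≤ L := by linarith
  have hp1 : (1 : ℝ) ≤ p := by exact_mod_cast hp
  set Z : ℝ := Real.sqrt (L * (1 + p)) with hZ
  have hq : 1 ≤ Real.sqrt L := by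
    rw [Real.one_le_sqrt]
    exact hL1
  have hqZ : Real.sqrt L ≤ Z := by
    apply Real.sqrt_le_sqrt
    nlinarith
  have hpZ : (p : ℝ) ≤ Z := by
    apply Real.le_sqrt_of_sq_le
    nlinarith
  have hR : ∀ v, (0 : ℝ) ≤ (R v : ℝ) := fun v => Nat.cast_nonneg _
  have hroot := tot_root Γ hp hsym h3 K (fun v => (R v : ℝ)) hxy (h1 x y hxy)
  have hlev := tot_lev (Θ := Θ) Γ hp hρ hsym h0 h1 hn K R (q := Real.sqrt L) (A := C * Z) hq
    (fun x a ha => by
      have := dist_bound hρ h2 hR x ha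
      rw [hsR] at this
      exact this)
    (fun x y hxy => by
      have := hsb hρ hn hp h2 h3 hR hxy (h1 x y hxy)
      rw [hsR] at this
      refine this.trans (le_of_eq ?_)
      rw [hZ]
      ring) hxy
  have htot : tot Θ Γ K (addPt (fun v => (R v : ℝ)) x) (addPt (fun v => (R v : ℝ)) y) =
      ∑ k ∈ Finset.range K, ∑ ω, Γ.μ k ω * (BT Θ (rt n p k) (Γ.χ k ω)
        (addPt (fun v => (R v : ℝ)) x) (addPt (fun v => (R v : ℝ)) y) +
        2 * CT Θ (rt n p k) (addPt (fun v => (R v : ℝ)) x) (addPt (fun v => (R v : ℝ)) y)) +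
      3 * ∑ k ∈ Finset.range K, ∑ ω, Γ.μ k ω * (∑ e : Fin n, (if (e : ℕ) < rt n p k then
        XX Θ e (Γ.χ k ω) (addPt (fun v => (R v : ℝ)) x) (addPt (fun v => (R v : ℝ)) y)
        else 0)) := by
    unfold tot one
    rw [Finset.mul_sum, ← Finset.sum_add_distrib]
    apply Finset.sum_congr rfl
    intro k _
    rw [Finset.mul_sum, ← Finset.sum_add_distrib]
    apply Finset.sum_congr rfl
    intro ω _
    ring
  rw [htot]
  have hr : 0 ≤ ρ x y := hρ x y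
  have h5 : (22 * (p : ℝ) + 80 * (C * Z) + 1440 * Real.sqrt L) * ρ x y ≤
      ((1462 + 80 * C) * Z) * ρ x y := by
    apply mul_le_mul_of_nonneg_right _ hr
    nlinarith
  have h6 : 2420 * ρ x y ≤ 2420 * Z * ρ x y := by
    apply mul_le_mul_of_nonneg_right _ hr
    linarith
  have h7 : (6806 + 240 * C) * Z * ρ x y = 2420 * Z * ρ x y +
      3 * (((1462 + 80 * C) * Z) * ρ x y) := by ring
  rw [h7]
  linarith

end Pool.Agent.L2U
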